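import Mathlib

set_option autoImplicit false

open scoped commutatorElement

namespace Pool.Agent.H3.ACA

variable {G : Type} (Ω : Type) [Group G] [Group Ω] [MulDistribMulAction Ω G]

/-- `Ω`-invariant normal subgroups. -/
def Inv (H : Subgroup G) : Prop := H.Normal ∧ ∀ ω : Ω, ∀ h ∈ H, ω • h ∈ H

/-- the `GΩ`-normal closure -/
def gp (S : Set G) : Subgroup G := sInf {H | Inv Ω H ∧ S ⊆ H}

variable {Ω}

theorem gp_le {S : Set G} {H : Subgroup G} (hH : Inv Ω H) (hS : S ⊆ H) : gp Ω S ≤ H :=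
  sInf_le ⟨hH, hS⟩

theorem sub_gp (S : Set G) : S ⊆ gp Ω S := by
  intro x hx
  rw [gp, SetLike.mem_coe, Subgroup.mem_sInf]
  exact fun H hH => hH.2 hx

theorem inv_gp (S : Set G) : Inv Ω (gp Ω S) := by
  constructor
  · constructor
    intro n hn g
    rw [gp, Subgroup.mem_sInf] at hn ⊢
    exact fun H hH => hH.1.1.conj_mem n (hn H hH) g
  · intro ω h hh
    rw [gp, Subgroup.mem_sInf] at hh ⊢
    exact fun H hH => hH.1.2 ω h (hh H hH)

theorem self_mem_gp (x : G) : x ∈ gp Ω {x} := sub_gp {x} rfl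

theorem gp_mono {S T : Set G} (h : S ⊆ T) : gp Ω S ≤ gp Ω T :=
  gp_le (inv_gp T) (h.trans (sub_gp T))

theorem inv_top : Inv Ω (⊤ : Subgroup G) := ⟨inferInstance, fun _ _ _ => Subgroup.mem_top _⟩

theorem inv_bot : Inv Ω (⊥ : Subgroup G) := ⟨inferInstance, fun ω h hh => by
  rw [Subgroup.mem_bot] at hh ⊢; rw [hh, smul_one]⟩

theorem inv_sup {H K : Subgroup G} (hH : Inv Ω H) (hK : Inv Ω K) : Inv Ω (H ⊔ K) := by
  have := hH.1
  have := hK.1
  refine ⟨Subgroup.sup_normal H K, ?_⟩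
  intro ω h hh
  have : H ⊔ K ≤ (H ⊔ K).comap (MulDistribMulAction.toMonoidHom G ω) := by
    apply sup_le
    · intro x hx
      exact Subgroup.mem_sup_left (hH.2 ω x hx)
    · intro x hx
      exact Subgroup.mem_sup_right (hK.2 ω x hx)
  exact this hh

theorem inv_comm {H K : Subgroup G} (hH : Inv Ω H) (hK : Inv Ω K) : Inv Ω ⁅H, K⁆ := by
  have := hH.1
  have := hK.1
  refine ⟨Subgroup.commutator_normal H K, ?_⟩
  intro ω h hh
  have : ⁅H, K⁆ ≤ ⁅H, K⁆.comap (MulDistribMulAction.toMonoidHom G ω) := by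
    rw [Subgroup.commutator_le]
    intro x hx y hy
    rw [Subgroup.mem_comap, map_commutatorElement]
    exact Subgroup.commutator_mem_commutator (hH.2 ω x hx) (hK.2 ω y hy)
  exact this hh

/-- commutators modulo a normal subgroup -/
theorem comm_sup_le {Q W R : Subgroup G} (hQ : Inv Ω Q) (hW : Inv Ω W) (hR : Inv Ω R) :
    ⁅Q ⊔ R, W ⊔ R⁆ ≤ ⁅Q, W⁆ ⊔ R := by
  have := hQ.1
  have := hW.1
  have := hR.1
  have := (inv_sup (inv_comm hQ hW) hR).1
  rw [Subgroup.commutator_le]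
  intro x hx y hy
  obtain ⟨q, hq, r, hr, rfl⟩ := Subgroup.mem_sup_of_normal_right.1 hx
  obtain ⟨w, hw, r', hr', rfl⟩ := Subgroup.mem_sup_of_normal_right.1 hy
  rw [← QuotientGroup.eq_one_iff, ← QuotientGroup.coe_mk', map_commutatorElement]
  have h1 : (QuotientGroup.mk' (⁅Q, W⁆ ⊔ R)) (q * r) = (QuotientGroup.mk' (⁅Q, W⁆ ⊔ R)) q := by
    rw [map_mul]
    have : (QuotientGroup.mk' (⁅Q, W⁆ ⊔ R)) r = 1 := by
      rw [QuotientGroup.mk'_apply, QuotientGroup.eq_one_iff]
      exact Subgroup.mem_sup_right hr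
    rw [this, mul_one]
  have h2 : (QuotientGroup.mk' (⁅Q, W⁆ ⊔ R)) (w * r') = (QuotientGroup.mk' (⁅Q, W⁆ ⊔ R)) w := by
    rw [map_mul]
    have : (QuotientGroup.mk' (⁅Q, W⁆ ⊔ R)) r' = 1 := by
      rw [QuotientGroup.mk'_apply, QuotientGroup.eq_one_iff]
      exact Subgroup.mem_sup_right hr'
    rw [this, mul_one]
  rw [h1, h2, ← map_commutatorElement, QuotientGroup.mk'_apply, QuotientGroup.eq_one_iff]
  exact Subgroup.mem_sup_left (Subgroup.commutator_mem_commutator hq hw)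

theorem comm_sup_top_le {X Y : Subgroup G} (hX : Inv Ω X) (hY : Inv Ω Y) :
    ⁅X ⊔ Y, (⊤ : Subgroup G)⁆ ≤ ⁅X, (⊤ : Subgroup G)⁆ ⊔ ⁅Y, (⊤ : Subgroup G)⁆ := by
  have := hX.1
  have := hY.1
  have := (inv_sup (inv_comm hX (inv_top (Ω := Ω))) (inv_comm hY (inv_top (Ω := Ω)))).1
  rw [Subgroup.commutator_le]
  intro x hx g hg
  obtain ⟨a, ha, b, hb, rfl⟩ := Subgroup.mem_sup_of_normal_right.1 hx
  have : ⁅a * b, g⁆ = (a * ⁅b, g⁆ * a⁻¹) * ⁅a, g⁆ := by
    simp only [commutatorElement_def]; group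
  rw [this]
  refine mul_mem ?_ (Subgroup.mem_sup_left (Subgroup.commutator_mem_commutator ha hg))
  exact (inv_sup (inv_comm hX (inv_top (Ω := Ω))) (inv_comm hY (inv_top (Ω := Ω)))).1.conj_mem _
    (Subgroup.mem_sup_right (Subgroup.commutator_mem_commutator hb hg)) a

theorem comm_top_le {X : Subgroup G} (hX : Inv Ω X) : ⁅X, (⊤ : Subgroup G)⁆ ≤ X := by
  have := hX.1
  exact Subgroup.commutator_le_left X ⊤

/-! ### Andrews-Curtis moves -/

variable (Ω)

/-- The elementary moves. -/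
def St (k : ℕ) (a b : Fin k → G) : Prop :=
  (∃ i j : Fin k, i ≠ j ∧
    (b = Function.update a i (a i * a j) ∨
     b = Function.update a i (a i * (a j)⁻¹) ∨
     b = Function.update a i (a j * a i) ∨
     b = Function.update a i ((a j)⁻¹ * a i))) ∨
  (∃ i : Fin k, b = Function.update a i (a i)⁻¹) ∨
  (∃ (i : Fin k) (g : G), b = Function.update a i (g⁻¹ * a i * g)) ∨
  (∃ (i : Fin k) (ω : Ω), b = Function.update a i (ω • a i))

/-- reachability -/
def Re (k : ℕ) (a b : Fin k → G) : Prop := Relation.ReflTransGen (St Ω k) a b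

variable {Ω}

theorem Re.tr {k : ℕ} {a b c : Fin k → G} (h : Re Ω k a b) (h' : Re Ω k b c) : Re Ω k a c :=
  Relation.ReflTransGen.trans h h'

theorem Re.rf {k : ℕ} (a : Fin k → G) : Re Ω k a a := Relation.ReflTransGen.refl

theorem re_mul {k : ℕ} (a : Fin k → G) (i j : Fin k) (h : i ≠ j) :
    Re Ω k a (Function.update a i (a i * a j)) :=
  Relation.ReflTransGen.single (Or.inl ⟨i, j, h, Or.inl rfl⟩)

theorem re_mul_inv {k : ℕ} (a : Fin k → G) (i j : Fin k) (h : i ≠ j) :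
    Re Ω k a (Function.update a i (a i * (a j)⁻¹)) :=
  Relation.ReflTransGen.single (Or.inl ⟨i, j, h, Or.inr (Or.inl rfl)⟩)

theorem re_conj {k : ℕ} (a : Fin k → G) (i : Fin k) (g : G) :
    Re Ω k a (Function.update a i (g⁻¹ * a i * g)) :=
  Relation.ReflTransGen.single (Or.inr (Or.inr (Or.inl ⟨i, g, rfl⟩)))

theorem re_smul {k : ℕ} (a : Fin k → G) (i : Fin k) (ω : Ω) :
    Re Ω k a (Function.update a i (ω • a i)) :=
  Relation.ReflTransGen.single (Or.inr (Or.inr (Or.inr ⟨i, ω, rfl⟩)))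

/-- Generating property is preserved. -/
theorem st_gen {k : ℕ} {a b : Fin k → G} (h : St Ω k a b) (H : Subgroup G) (hH : Inv Ω H)
    (hb : ∀ i, b i ∈ H) : ∀ i, a i ∈ H := by
  have key : ∀ (i : Fin k) (x : G), b = Function.update a i x → (x ∈ H → (∀ j, j ≠ i → a j ∈ H) →
      a i ∈ H) → ∀ l, a l ∈ H := by
    intro i x hbx hx l
    have hoth : ∀ j, j ≠ i → a j ∈ H := by
      intro j hj
      have := hb j
      rwa [hbx, Function.update_of_ne hj] at this
    by_cases hl : l = i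
    · subst hl
      refine hx ?_ hoth
      have := hb l
      rwa [hbx, Function.update_self] at this
    · exact hoth l hl
  rcases h with ⟨i, j, hij, h | h | h | h⟩ | ⟨i, h⟩ | ⟨i, g, h⟩ | ⟨i, ω, h⟩
  · refine key i _ h fun hx ho => ?_
    exact (H.mul_mem_cancel_right (ho j hij.symm)).1 hx
  · refine key i _ h fun hx ho => ?_
    exact (H.mul_mem_cancel_right (H.inv_mem (ho j hij.symm))).1 hx
  · refine key i _ h fun hx ho => ?_
    exact (H.mul_mem_cancel_left (ho j hij.symm)).1 hx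
  · refine key i _ h fun hx ho => ?_
    exact (H.mul_mem_cancel_left (H.inv_mem (ho j hij.symm))).1 hx
  · refine key i _ h fun hx ho => ?_
    exact H.inv_mem_iff.1 hx
  · refine key i _ h fun hx ho => ?_
    have := hH.1.conj_mem _ hx g
    simpa [mul_assoc] using this
  · refine key i _ h fun hx ho => ?_
    have := hH.2 ω⁻¹ _ hx
    rwa [inv_smul_smul] at this

/-- generation -/
def Gen (Ω : Type) [Group Ω] [MulDistribMulAction Ω G] (k : ℕ) (a : Fin k → G) : Prop :=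
  ∀ H : Subgroup G, Inv Ω H → (∀ i, a i ∈ H) → H = ⊤

theorem re_gen {k : ℕ} {a b : Fin k → G} (h : Re Ω k a b) (ha : Gen Ω k a) : Gen Ω k b := by
  intro H hH hb
  apply ha H hH
  unfold Re at h
  induction h using Relation.ReflTransGen.head_induction_on with
  | refl => exact hb
  | head h' _ ih => exact st_gen h' H hH (ih (fun H' hH' h'' => ha H' hH' (st_gen h' H' hH' h'')))

end Pool.Agent.H3.ACA
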