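import Pool.Agent.H3.ACA

set_option autoImplicit false

open scoped commutatorElement

namespace Pool.Agent.H3.ACA

variable {G Ω : Type} [Group G] [Finite G] [Group Ω] [MulDistribMulAction Ω G]

/-- elements by which the `i`-th coordinate may be multiplied on the right, as long as the other
coordinates agree with those of `a` -/
def TT (Ω : Type) [Group Ω] [MulDistribMulAction Ω G] {k : ℕ} (a : Fin k → G) (i : Fin k) :
    Subgroup G where
  carrier := {g | ∀ b : Fin k → G, (∀ j, j ≠ i → b j = a j) →
    Re Ω k b (Function.update b i (b i * g))}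
  mul_mem' := by
    intro g h hg hh b hb
    have h1 := hg b hb
    have h2 := hh (Function.update b i (b i * g)) (by
      intro j hj
      rw [Function.update_of_ne hj, hb j hj])
    rw [Function.update_self, Function.update_idem, mul_assoc] at h2
    exact h1.tr h2
  one_mem' := by
    intro b hb
    rw [mul_one, Function.update_eq_self]
    exact Re.rf b
  inv_mem' := by
    intro g hg
    -- iterate
    have hpow : ∀ n : ℕ, ∀ b : Fin k → G, (∀ j, j ≠ i → b j = a j) →
        Re Ω k b (Function.update b i (b i * g ^ n)) := by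
      intro n
      induction n with
      | zero =>
        intro b hb
        rw [pow_zero, mul_one, Function.update_eq_self]
        exact Re.rf b
      | succ n ih =>
        intro b hb
        have h1 := ih b hb
        have h2 := hg (Function.update b i (b i * g ^ n)) (by
          intro j hj
          rw [Function.update_of_ne hj, hb j hj])
        rw [Function.update_self, Function.update_idem, mul_assoc, ← pow_succ] at h2
        exact h1.tr h2
    intro b hb
    have hginv : g⁻¹ = g ^ (orderOf g - 1) := by
      rw [inv_eq_iff_mul_eq_one, ← pow_succ']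
      rw [Nat.sub_add_cancel (orderOf_pos g)]
      exact pow_orderOf_eq_one g
    rw [hginv]
    exact hpow _ b hb

theorem inv_TT {k : ℕ} (a : Fin k → G) (i : Fin k) : Inv Ω (TT Ω a i) := by
  constructor
  · constructor
    intro g hg s b hb
    -- conjugate coordinate by s⁻¹
    have h1 := re_conj (Ω := Ω) b i s
    have h2 := hg (Function.update b i (s⁻¹ * b i * s)) (by
      intro j hj
      rw [Function.update_of_ne hj, hb j hj])
    have h3 := re_conj (Ω := Ω) (Function.update (Function.update b i (s⁻¹ * b i * s)) i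
      ((Function.update b i (s⁻¹ * b i * s)) i * g)) i s⁻¹
    refine (h1.tr h2).tr ?_
    convert h3 using 1
    simp only [Function.update_self, Function.update_idem]
    congr 1
    group
  · intro ω g hg b hb
    have h1 := re_smul (Ω := Ω) b i ω⁻¹
    have h2 := hg (Function.update b i (ω⁻¹ • b i)) (by
      intro j hj
      rw [Function.update_of_ne hj, hb j hj])
    have h3 := re_smul (Ω := Ω) (Function.update (Function.update b i (ω⁻¹ • b i)) i
      ((Function.update b i (ω⁻¹ • b i)) i * g)) i ω
    refine (h1.tr h2).tr ?_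
    convert h3 using 1
    simp only [Function.update_self, Function.update_idem, smul_mul', smul_inv_smul]

/-- the other coordinates -/
def oth {k : ℕ} (a : Fin k → G) (i : Fin k) : Set G := {x | ∃ j, j ≠ i ∧ a j = x}

theorem re_gp {k : ℕ} (a : Fin k → G) (i : Fin k) (g : G) (hg : g ∈ gp Ω (oth a i)) :
    Re Ω k a (Function.update a i (a i * g)) := by
  have : gp Ω (oth a i) ≤ TT Ω a i := by
    apply gp_le (inv_TT a i)
    rintro x ⟨j, hj, rfl⟩ b hb
    have := re_mul (Ω := Ω) b i j hj.symm
    rwa [hb j hj] at this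
  exact this hg a (fun _ _ => rfl)

/-- change a coordinate modulo `N` -/
theorem chg {k : ℕ} {N : Subgroup G} (hN : Inv Ω N) (a : Fin k → G) (i : Fin k) (x : G)
    (hx : (a i)⁻¹ * x ∈ gp Ω (oth a i) ⊔ N) :
    ∃ y, Re Ω k a (Function.update a i y) ∧ y⁻¹ * x ∈ N := by
  have := hN.1
  obtain ⟨g, hg, n, hn, h⟩ := Subgroup.mem_sup_of_normal_right.1 hx
  refine ⟨a i * g, re_gp a i g hg, ?_⟩
  have : (a i * g)⁻¹ * x = n := by
    rw [mul_inv_rev, mul_assoc, ← h, inv_mul_cancel_left]
  rwa [this]

theorem gp_single_le {k : ℕ} (a : Fin k → G) (i j : Fin k) (h : j ≠ i) :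
    gp Ω {a j} ≤ gp Ω (oth a i) :=
  gp_mono (by rintro x rfl; exact ⟨j, h, rfl⟩)

/-- congruence modulo a normal subgroup behaves well -/
theorem cong_symm {N : Subgroup G} {x y : G} (h : x⁻¹ * y ∈ N) : y⁻¹ * x ∈ N := by
  have := N.inv_mem h
  rwa [mul_inv_rev, inv_inv] at this

theorem cong_trans {N : Subgroup G} {x y z : G} (h : x⁻¹ * y ∈ N) (h' : y⁻¹ * z ∈ N) :
    x⁻¹ * z ∈ N := by
  have := N.mul_mem h h'
  rwa [mul_assoc, mul_inv_cancel_left] at this

/-- **First lemma**: a `Λ`-layer on which every element outside a proper `C` is effective. -/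
theorem layer {k : ℕ} (hk : 2 ≤ k) {N Λ C : Subgroup G} (hN : Inv Ω N) (hC : Inv Ω C)
    (hCT : C ≠ ⊤) (hNL : N ≤ Λ) (hNC : N ≤ C) (hL : ∀ g, g ∉ C → Λ ≤ gp Ω {g} ⊔ N)
    (U V : Fin k → G) (hU : Gen Ω k U) (hV : Gen Ω k V) (hUV : ∀ i, (U i)⁻¹ * V i ∈ Λ) :
    ∃ W, Re Ω k U W ∧ ∀ i, (W i)⁻¹ * V i ∈ N := by
  have memC : ∀ x y : G, x⁻¹ * y ∈ N → (x ∈ C ↔ y ∈ C) := by
    intro x y h
    constructor
    · intro hx
      have := C.mul_mem hx (hNC h)
      rwa [mul_inv_cancel_left] at this
    · intro hy
      have := C.mul_mem hy (hNC (cong_symm h))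
      rwa [mul_inv_cancel_left] at this
  have hi : ∃ i, U i ∉ C := by
    by_contra hcon
    push Not at hcon
    exact hCT (hU C hC hcon)
  obtain ⟨i, hi⟩ := hi
  -- step 1
  have step1 : ∀ s : Finset (Fin k), i ∉ s → ∃ W, Re Ω k U W ∧ W i = U i ∧
      (∀ l ∈ s, (W l)⁻¹ * V l ∈ N) ∧ (∀ l, (W l)⁻¹ * V l ∈ Λ) := by
    intro s
    induction s using Finset.induction_on with
    | empty => exact fun _ => ⟨U, Re.rf U, rfl, by simp, hUV⟩
    | insert l s hl ih =>
      intro his
      rw [Finset.mem_insert, not_or] at his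
      obtain ⟨W, hW1, hW2, hW3, hW4⟩ := ih his.2
      obtain ⟨y, hy1, hy2⟩ := chg hN W l (V l) (by
        have h1 : Λ ≤ gp Ω {W i} ⊔ N := hL _ (by rwa [hW2])
        exact (sup_le_sup_right (gp_single_le W l i his.1) N) (h1 (hW4 l)))
      refine ⟨Function.update W l y, hW1.tr hy1, ?_, ?_, ?_⟩
      · rw [Function.update_of_ne his.1, hW2]
      · intro m hm
        by_cases hml : m = l
        · subst hml
          rw [Function.update_self]
          exact hy2
        · rw [Function.update_of_ne hml]
          rw [Finset.mem_insert] at hm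
          exact hW3 m (hm.resolve_left hml)
      · intro m
        by_cases hml : m = l
        · subst hml
          rw [Function.update_self]
          exact hNL hy2
        · rw [Function.update_of_ne hml]
          exact hW4 m
  obtain ⟨W, hW1, hW2, hW3, hW4⟩ := step1 (Finset.univ.erase i) (Finset.notMem_erase i _)
  have hW3' : ∀ l, l ≠ i → (W l)⁻¹ * V l ∈ N := fun l hl =>
    hW3 l (Finset.mem_erase.2 ⟨hl, Finset.mem_univ l⟩)
  by_cases hcase : ∃ j, j ≠ i ∧ V j ∉ C
  · obtain ⟨j, hji, hj⟩ := hcase
    have hWj : W j ∉ C := fun h => hj ((memC _ _ (hW3' j hji)).1 h)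
    obtain ⟨y, hy1, hy2⟩ := chg hN W i (V i)
      ((sup_le_sup_right (gp_single_le W i j hji) N) (hL _ hWj (hW4 i)))
    refine ⟨Function.update W i y, hW1.tr hy1, ?_⟩
    intro m
    by_cases hmi : m = i
    · subst hmi
      rw [Function.update_self]
      exact hy2
    · rw [Function.update_of_ne hmi]
      exact hW3' m hmi
  · push Not at hcase
    have hVi : V i ∉ C := by
      intro h
      apply hCT
      apply hV C hC
      intro l
      by_cases hl : l = i
      · rw [hl]; exact h
      · exact hcase l hl
    obtain ⟨j, hji⟩ : ∃ j : Fin k, j ≠ i := by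
      haveI : Nontrivial (Fin k) := Fin.nontrivial_iff_two_le.2 hk
      exact exists_ne i
    have hWj : W j ∈ C := (memC _ _ (hW3' j hji)).2 (hcase j hji)
    -- multiply j by i
    have m1 := re_mul (Ω := Ω) W j i hji
    set W1 := Function.update W j (W j * W i) with hW1def
    have hW1i : W1 i = U i := by rw [hW1def, Function.update_of_ne hji.symm, hW2]
    have hW1j : W1 j = W j * W i := by rw [hW1def, Function.update_self]
    have hW1jC : W1 j ∉ C := by
      rw [hW1j, hW2]
      intro h
      exact hi ((C.mul_mem_cancel_left hWj).1 h)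
    obtain ⟨y, hy1, hy2⟩ := chg hN W1 i (V i)
      ((sup_le_sup_right (gp_single_le W1 i j hji) N) (hL _ hW1jC (by
        rw [hW1i]; exact hUV i)))
    set W2 := Function.update W1 i y with hW2def
    have hyC : y ∉ C := fun h => hVi ((memC _ _ hy2).1 h)
    have hW2i : W2 i = y := by rw [hW2def, Function.update_self]
    have hW2j : W2 j = W j * U i := by
      rw [hW2def, Function.update_of_ne hji, hW1j, hW2]
    obtain ⟨z, hz1, hz2⟩ := chg hN W2 j (V j) (by
      apply sup_le_sup_right (gp_single_le W2 j i hji.symm) N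
      rw [hW2i, hW2j]
      have e : (W j * U i)⁻¹ * V j
          = (U i)⁻¹ * ((W j)⁻¹ * V j) := by group
      rw [e]
      apply Subgroup.mul_mem
      · apply Subgroup.inv_mem
        -- U i = (U i * y⁻¹) * y
        have h1 : y⁻¹ * U i ∈ Λ :=
          cong_trans (hNL hy2) (cong_symm (hUV i))
        have h2 : U i = y * (y⁻¹ * U i) := by group
        rw [h2]
        exact Subgroup.mul_mem _ (Subgroup.mem_sup_left (self_mem_gp y)) (hL y hyC h1)
      · exact Subgroup.mem_sup_right (hW3' j hji))
    refine ⟨Function.update W2 j z, ((hW1.tr m1).tr hy1).tr hz1, ?_⟩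
    intro m
    by_cases hmj : m = j
    · subst hmj
      rw [Function.update_self]
      exact hz2
    · rw [Function.update_of_ne hmj]
      by_cases hmi : m = i
      · subst hmi
        rw [hW2i]
        exact hy2
      · rw [hW2def, Function.update_of_ne hmi, hW1def, Function.update_of_ne hmj]
        exact hW3' m hmi

end Pool.Agent.H3.ACA
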