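import Pool.Agent.H3.ACB

set_option autoImplicit false

open scoped commutatorElement

namespace Pool.Agent.H3.ACA

variable {G Ω : Type} [Group G] [Finite G] [Group Ω] [MulDistribMulAction Ω G]

/-- the centraliser of the chief factor `Λ/M` -/
def CC (Λ M : Subgroup G) (hM : M.Normal) : Subgroup G where
  carrier := {g | ∀ x ∈ Λ, ⁅g, x⁆ ∈ M}
  mul_mem' := by
    intro g h hg hh x hx
    have e : ⁅g * h, x⁆ = (g * ⁅h, x⁆ * g⁻¹) * ⁅g, x⁆ := by
      simp only [commutatorElement_def]; group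
    rw [e]
    exact M.mul_mem (hM.conj_mem _ (hh x hx) g) (hg x hx)
  one_mem' := by
    intro x _
    rw [commutatorElement_one_left]
    exact M.one_mem
  inv_mem' := by
    intro g hg x hx
    have e : ⁅g⁻¹, x⁆ = g⁻¹ * ⁅g, x⁆⁻¹ * g⁻¹⁻¹ := by
      simp only [commutatorElement_def]; group
    rw [e]
    exact hM.conj_mem _ (M.inv_mem (hg x hx)) _

theorem inv_CC {Λ M : Subgroup G} (hΛ : Inv Ω Λ) (hM : Inv Ω M) : Inv Ω (CC Λ M hM.1) := by
  constructor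
  · constructor
    intro g hg h x hx
    have e : ⁅h * g * h⁻¹, x⁆ = h * ⁅g, h⁻¹ * x * h⁻¹⁻¹⁆ * h⁻¹ := by
      simp only [commutatorElement_def]; group
    rw [e]
    exact hM.1.conj_mem _ (hg _ (hΛ.1.conj_mem x hx h⁻¹)) h
  · intro ω g hg x hx
    have e : ⁅ω • g, x⁆ = ω • ⁅g, ω⁻¹ • x⁆ := by
      simp only [commutatorElement_def, smul_mul', smul_inv', smul_inv_smul]
    rw [e]
    exact hM.2 ω _ (hg _ (hΛ.2 ω⁻¹ x hx))

/-- In the minimal `Λ` the join of proper invariant subgroups is proper. -/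
theorem proper_join {N Λ : Subgroup G} (hN : Inv Ω N) (hDL : ⁅Λ, (⊤ : Subgroup G)⁆ ⊔ N = Λ)
    (hmin : ∀ L : Subgroup G, Inv Ω L → N < L → L < Λ → ⁅L, (⊤ : Subgroup G)⁆ ⊔ N ≠ L)
    (L₂ : Subgroup G) (hL₂ : Inv Ω L₂) (hN₂ : N ≤ L₂) (hL₂' : L₂ < Λ) :
    ∀ L₁ : Subgroup G, Inv Ω L₁ → N ≤ L₁ → L₁ < Λ → L₁ ⊔ L₂ ≠ Λ := by
  intro L₁
  induction L₁ using WellFoundedLT.induction with
  | ind L₁ ih =>
    intro hL₁ hN₁ hL₁' hj
    have hDle : ⁅L₁, (⊤ : Subgroup G)⁆ ⊔ N ≤ L₁ := sup_le (comm_top_le hL₁) hN₁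
    rcases hDle.lt_or_eq with hlt | heq
    · refine ih _ hlt (inv_sup (inv_comm hL₁ inv_top) hN) le_sup_right (hlt.trans hL₁') ?_
      apply le_antisymm
      · exact sup_le (hDle.trans hL₁'.le) hL₂'.le
      · calc Λ = ⁅L₁ ⊔ L₂, (⊤ : Subgroup G)⁆ ⊔ N := by rw [hj, hDL]
          _ ≤ (⁅L₁, (⊤ : Subgroup G)⁆ ⊔ ⁅L₂, (⊤ : Subgroup G)⁆) ⊔ N :=
              sup_le_sup_right (comm_sup_top_le hL₁ hL₂) N
          _ ≤ (⁅L₁, (⊤ : Subgroup G)⁆ ⊔ N) ⊔ L₂ := by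
              refine sup_le (sup_le ?_ ?_) ?_
              · exact le_sup_of_le_left le_sup_left
              · exact le_sup_of_le_right (comm_top_le hL₂)
              · exact le_sup_of_le_left le_sup_right
    · have hNL : N = L₁ := by
        by_contra hne
        exact hmin L₁ hL₁ (lt_of_le_of_ne hN₁ hne) hL₁' heq
      rw [← hNL, sup_eq_right.2 hN₂] at hj
      exact hL₂'.ne hj

/-- **Non-nilpotent step.** -/
theorem step_nonnil {k : ℕ} (hk : 2 ≤ k) {N Λ : Subgroup G} (hN : Inv Ω N) (hΛ : Inv Ω Λ)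
    (hNΛ : N < Λ) (hDL : ⁅Λ, (⊤ : Subgroup G)⁆ ⊔ N = Λ)
    (hmin : ∀ L : Subgroup G, Inv Ω L → N < L → L < Λ → ⁅L, (⊤ : Subgroup G)⁆ ⊔ N ≠ L)
    (U V : Fin k → G) (hU : Gen Ω k U) (hV : Gen Ω k V) (hUV : ∀ i, (U i)⁻¹ * V i ∈ Λ) :
    ∃ W, Re Ω k U W ∧ ∀ i, (W i)⁻¹ * V i ∈ N := by
  -- a maximal proper invariant subgroup
  have hex : ∃ M : Subgroup G, (Inv Ω M ∧ N ≤ M ∧ M < Λ) ∧
      ∀ M' : Subgroup G, (Inv Ω M' ∧ N ≤ M' ∧ M' < Λ) → ¬ M < M' := by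
    obtain ⟨M, hM, hM'⟩ := (wellFounded_gt (α := Subgroup G)).has_min
      {M | Inv Ω M ∧ N ≤ M ∧ M < Λ} ⟨N, hN, le_rfl, hNΛ⟩
    exact ⟨M, hM, fun M' h => hM' M' h⟩
  obtain ⟨M, ⟨hM, hNM, hMΛ⟩, hmax⟩ := hex
  have hlargest : ∀ L : Subgroup G, Inv Ω L → N ≤ L → L ≤ Λ → L ≠ Λ → L ≤ M := by
    intro L hL hNL hLΛ hne
    have hLlt : L < Λ := lt_of_le_of_ne hLΛ hne
    have h1 := proper_join hN hDL hmin M hM hNM hMΛ L hL hNL hLlt
    have h2 : L ⊔ M < Λ := lt_of_le_of_ne (sup_le hLΛ hMΛ.le) h1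
    have h3 := hmax (L ⊔ M) ⟨inv_sup hL hM, hNM.trans le_sup_right, h2⟩
    by_contra hcon
    apply h3
    refine lt_of_le_of_ne le_sup_right ?_
    intro h
    apply hcon
    rw [h]
    exact le_sup_left
  have hC := inv_CC hΛ hM
  refine layer hk hN hC ?_ hNΛ.le ?_ ?_ U V hU hV hUV
  · intro htop
    have : ⁅Λ, (⊤ : Subgroup G)⁆ ≤ M := by
      rw [Subgroup.commutator_le]
      intro x hx g _
      have hg : g ∈ CC Λ M hM.1 := by rw [htop]; exact Subgroup.mem_top g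
      have h := M.inv_mem (hg x hx)
      rwa [commutatorElement_inv] at h
    have h2 : Λ ≤ M := by
      rw [← hDL]
      exact sup_le this hNM
    exact absurd (lt_of_lt_of_le hMΛ h2) (lt_irrefl M)
  · intro n hn x _
    have hcon := hN.1.conj_mem n⁻¹ (N.inv_mem hn) x
    have e : ⁅n, x⁆ = n * (x * n⁻¹ * x⁻¹) := by
      simp only [commutatorElement_def]; group
    rw [e]
    exact hNM (N.mul_mem hn hcon)
  · intro g hg
    have hgI := inv_gp (Ω := Ω) ({g} : Set G)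
    set L := ⁅gp Ω {g}, Λ⁆ ⊔ N with hLdef
    have hL : Inv Ω L := inv_sup (inv_comm hgI hΛ) hN
    have hLΛ : L ≤ Λ := by
      have := hΛ.1
      exact sup_le (Subgroup.commutator_le_right _ _) hNΛ.le
    have hLg : L ≤ gp Ω {g} ⊔ N := by
      have := hgI.1
      exact sup_le_sup_right (Subgroup.commutator_le_left _ _) N
    by_cases hLe : L = Λ
    · rw [← hLe]; exact hLg
    · exfalso
      have hLM := hlargest L hL le_sup_right hLΛ hLe
      apply hg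
      intro x hx
      exact hLM (Subgroup.mem_sup_left
        (Subgroup.commutator_mem_commutator (self_mem_gp g) hx))

/-- Descent in the nilpotent case. -/
theorem nil_descent {N : Subgroup G} (hN : Inv Ω N)
    (hno : ∀ L : Subgroup G, Inv Ω L → N < L → ⁅L, (⊤ : Subgroup G)⁆ ⊔ N ≠ L)
    {X K : Subgroup G} (hX : Inv Ω X) (hK : Inv Ω K) (hNK : N ≤ K)
    (hXK : X ≤ ⁅X, (⊤ : Subgroup G)⁆ ⊔ K) :
    ∀ Y : Subgroup G, Inv Ω Y → N ≤ Y → X ≤ Y ⊔ K → X ≤ K := by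
  intro Y
  induction Y using WellFoundedLT.induction with
  | ind Y ih =>
    intro hY hNY hXY
    have hDle : ⁅Y, (⊤ : Subgroup G)⁆ ⊔ N ≤ Y := sup_le (comm_top_le hY) hNY
    rcases hDle.lt_or_eq with hlt | heq
    · refine ih _ hlt (inv_sup (inv_comm hY inv_top) hN) le_sup_right ?_
      calc X ≤ ⁅X, (⊤ : Subgroup G)⁆ ⊔ K := hXK
        _ ≤ ⁅Y ⊔ K, (⊤ : Subgroup G)⁆ ⊔ K :=
            sup_le_sup_right (Subgroup.commutator_mono hXY le_rfl) K
        _ ≤ (⁅Y, (⊤ : Subgroup G)⁆ ⊔ ⁅K, (⊤ : Subgroup G)⁆) ⊔ K :=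
            sup_le_sup_right (comm_sup_top_le hY hK) K
        _ ≤ (⁅Y, (⊤ : Subgroup G)⁆ ⊔ N) ⊔ K := by
            refine sup_le (sup_le ?_ ?_) ?_
            · exact le_sup_of_le_left le_sup_left
            · exact le_sup_of_le_right (comm_top_le hK)
            · exact le_sup_right
    · have hNY' : N = Y := by
        by_contra hne
        exact hno Y hY (lt_of_le_of_ne hNY hne) heq
      rw [← hNY', sup_eq_right.2 hNK] at hXY
      exact hXY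

/-- **Nilpotent step**, one coordinate. -/
theorem step_nil_one {k : ℕ} (hk : 2 ≤ k) {N : Subgroup G} (hN : Inv Ω N)
    (hno : ∀ L : Subgroup G, Inv Ω L → N < L → ⁅L, (⊤ : Subgroup G)⁆ ⊔ N ≠ L)
    (a : Fin k → G) (ha : Gen Ω k a) (i : Fin k) (h : G)
    (hh : h ∈ ⁅(⊤ : Subgroup G), (⊤ : Subgroup G)⁆) :
    ∃ W, Re Ω k a W ∧ (W i)⁻¹ * (a i * h) ∈ N ∧ ∀ l, l ≠ i → (W l)⁻¹ * a l ∈ N := by
  obtain ⟨j, hji⟩ : ∃ j : Fin k, j ≠ i := by
    have : Nontrivial (Fin k) := Fin.nontrivial_iff_two_le.2 hk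
    exact exists_ne i
  set u₁ := a i with hu₁
  set u₂ := a j with hu₂
  set w := u₁ * u₂ with hw
  have hQ := inv_gp (Ω := Ω) ({u₁} : Set G)
  have hWp := inv_gp (Ω := Ω) ({w} : Set G)
  have hR := inv_gp (Ω := Ω) (oth a i)
  have hu₂R : u₂ ∈ gp Ω (oth a i) := sub_gp _ ⟨j, hji, rfl⟩
  have hQR : gp Ω {u₁} ⊔ gp Ω (oth a i) = ⊤ := by
    apply ha _ (inv_sup hQ hR)
    intro l
    by_cases hl : l = i
    · rw [hl]; exact Subgroup.mem_sup_left (self_mem_gp _)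
    · exact Subgroup.mem_sup_right (sub_gp _ ⟨l, hl, rfl⟩)
  have hWR : gp Ω {w} ⊔ gp Ω (oth a i) = ⊤ := by
    apply ha _ (inv_sup hWp hR)
    intro l
    by_cases hl : l = i
    · rw [hl, ← hu₁]
      have e : u₁ = w * u₂⁻¹ := by rw [hw]; group
      rw [e]
      exact Subgroup.mul_mem _ (Subgroup.mem_sup_left (self_mem_gp _))
        (Subgroup.inv_mem _ (Subgroup.mem_sup_right hu₂R))
    · exact Subgroup.mem_sup_right (sub_gp _ ⟨l, hl, rfl⟩)
  have hcomm : ⁅(⊤ : Subgroup G), (⊤ : Subgroup G)⁆ ≤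
      ⁅gp Ω {u₁}, gp Ω {w}⁆ ⊔ gp Ω (oth a i) := by
    have := comm_sup_le hQ hWp hR
    rwa [hQR, hWR] at this
  have hh' : u₂⁻¹ * h * u₂ ∈ ⁅(⊤ : Subgroup G), (⊤ : Subgroup G)⁆ := by
    have := (Subgroup.commutator_normal (⊤ : Subgroup G) ⊤).conj_mem h hh u₂⁻¹
    rwa [inv_inv] at this
  have hRn := hR.1
  obtain ⟨e, he, r, hr, her⟩ := Subgroup.mem_sup_of_normal_right.1 (hcomm hh')
  have hQn := hQ.1
  have hWpn := hWp.1
  have heQ : e ∈ gp Ω {u₁} := Subgroup.commutator_le_left _ _ he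
  -- first move
  have m1 : Re Ω k a (Function.update a j (a j * e)) := by
    apply re_gp
    exact gp_single_le a j i hji.symm heQ
  set a₁ := Function.update a j (a j * e) with ha₁
  have ha₁i : a₁ i = u₁ := by rw [ha₁, Function.update_of_ne hji.symm]
  have ha₁j : a₁ j = u₂ * e := by rw [ha₁, Function.update_self]
  have m2 := re_mul (Ω := Ω) a₁ i j hji.symm
  set a₂ := Function.update a₁ i (a₁ i * a₁ j) with ha₂
  have ha₂i : a₂ i = w * e := by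
    rw [ha₂, Function.update_self, ha₁i, ha₁j, hw, mul_assoc]
  have ha₂j : a₂ j = u₂ * e := by rw [ha₂, Function.update_of_ne hji, ha₁j]
  -- the key claim
  have hKe : e ∈ gp Ω {w * e} ⊔ N := by
    set K := gp Ω {w * e} ⊔ N with hKdef
    have hK : Inv Ω K := inv_sup (inv_gp _) hN
    have hX : Inv Ω (gp Ω {e} ⊔ K) := inv_sup (inv_gp _) hK
    have hwX : gp Ω {w} ≤ gp Ω {e} ⊔ K := by
      apply gp_le hX
      rintro x rfl
      have e' : w = (w * e) * e⁻¹ := by group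
      rw [SetLike.mem_coe, e']
      exact Subgroup.mul_mem _
        (Subgroup.mem_sup_right (Subgroup.mem_sup_left (self_mem_gp _)))
        (Subgroup.inv_mem _ (Subgroup.mem_sup_left (self_mem_gp _)))
    have heX : e ∈ ⁅gp Ω {e} ⊔ K, (⊤ : Subgroup G)⁆ := by
      rw [Subgroup.commutator_comm]
      exact Subgroup.commutator_mono le_top hwX he
    have hXK : gp Ω {e} ⊔ K ≤ ⁅gp Ω {e} ⊔ K, (⊤ : Subgroup G)⁆ ⊔ K := by
      refine sup_le ?_ le_sup_right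
      apply gp_le (inv_sup (inv_comm hX inv_top) hK)
      rintro x rfl
      exact Subgroup.mem_sup_left heX
    have hfin := nil_descent hN hno hX hK le_sup_right hXK ⊤ inv_top le_top
      (le_top.trans (by rw [top_sup_eq]))
    exact hfin (Subgroup.mem_sup_left (self_mem_gp e))
  -- fix coordinate j
  obtain ⟨y₂, hy₂, hy₂N⟩ := chg hN a₂ j u₂ (by
    apply sup_le_sup_right (gp_single_le a₂ j i hji.symm) N
    rw [ha₂i, ha₂j]
    have e' : (u₂ * e)⁻¹ * u₂ = e⁻¹ := by group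
    rw [e']
    exact Subgroup.inv_mem _ hKe)
  set a₃ := Function.update a₂ j y₂ with ha₃
  have ha₃i : a₃ i = w * e := by rw [ha₃, Function.update_of_ne hji.symm, ha₂i]
  have ha₃j : a₃ j = y₂ := by rw [ha₃, Function.update_self]
  have m4 := re_mul_inv (Ω := Ω) a₃ i j hji.symm
  set a₄ := Function.update a₃ i (a₃ i * (a₃ j)⁻¹) with ha₄
  have ha₄i : a₄ i = w * e * y₂⁻¹ := by rw [ha₄, Function.update_self, ha₃i, ha₃j]
  have ha₄j : a₄ j = y₂ := by rw [ha₄, Function.update_of_ne hji, ha₃j]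
  have ha₄l : ∀ l, l ≠ i → l ≠ j → a₄ l = a l := by
    intro l hli hlj
    rw [ha₄, Function.update_of_ne hli, ha₃, Function.update_of_ne hlj, ha₂,
      Function.update_of_ne hli, ha₁, Function.update_of_ne hlj]
  have hy₂R4 : y₂ ∈ gp Ω (oth a₄ i) ⊔ N :=
    Subgroup.mem_sup_left (sub_gp _ ⟨j, hji, ha₄j⟩)
  have hu₂R4 : u₂ ∈ gp Ω (oth a₄ i) ⊔ N := by
    have e' : u₂ = y₂ * (y₂⁻¹ * u₂) := by group
    rw [e']
    exact Subgroup.mul_mem _ hy₂R4 (Subgroup.mem_sup_right hy₂N)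
  have hRR4 : gp Ω (oth a i) ≤ gp Ω (oth a₄ i) ⊔ N := by
    apply gp_le (inv_sup (inv_gp _) hN)
    rintro x ⟨l, hl, rfl⟩
    by_cases hlj : l = j
    · rw [hlj]; exact hu₂R4
    · exact Subgroup.mem_sup_left (sub_gp _ ⟨l, hl, ha₄l l hl hlj⟩)
  obtain ⟨y₃, hy₃, hy₃N⟩ := chg hN a₄ i (u₁ * h) (by
    rw [ha₄i]
    have e' : (w * e * y₂⁻¹)⁻¹ * (u₁ * h) = y₂ * r * u₂⁻¹ := by
      have hh2 : h = u₂ * (e * r) * u₂⁻¹ := by rw [her]; group
      rw [hh2, hw]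
      group
    rw [e']
    exact Subgroup.mul_mem _ (Subgroup.mul_mem _ hy₂R4 (hRR4 hr)) (Subgroup.inv_mem _ hu₂R4))
  refine ⟨Function.update a₄ i y₃, (((m1.tr m2).tr hy₂).tr m4).tr hy₃, ?_, ?_⟩
  · rw [Function.update_self]
    exact hy₃N
  · intro l hl
    rw [Function.update_of_ne hl]
    by_cases hlj : l = j
    · rw [hlj, ha₄j]
      exact hy₂N
    · rw [ha₄l l hl hlj, inv_mul_cancel]
      exact N.one_mem

/-- **Nilpotent step.** -/
theorem step_nil {k : ℕ} (hk : 2 ≤ k) {N : Subgroup G} (hN : Inv Ω N)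
    (hno : ∀ L : Subgroup G, Inv Ω L → N < L → ⁅L, (⊤ : Subgroup G)⁆ ⊔ N ≠ L)
    (U V : Fin k → G) (hU : Gen Ω k U)
    (hUV : ∀ i, (U i)⁻¹ * V i ∈ ⁅(⊤ : Subgroup G), (⊤ : Subgroup G)⁆) :
    ∃ W, Re Ω k U W ∧ ∀ i, (W i)⁻¹ * V i ∈ N := by
  have key : ∀ s : Finset (Fin k), ∃ W, Re Ω k U W ∧ (∀ l ∈ s, (W l)⁻¹ * V l ∈ N) ∧
      (∀ l, (W l)⁻¹ * V l ∈ ⁅(⊤ : Subgroup G), (⊤ : Subgroup G)⁆ ⊔ N) := by
    intro s
    induction s using Finset.induction_on with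
    | empty => exact ⟨U, Re.rf U, by simp, fun l => Subgroup.mem_sup_left (hUV l)⟩
    | insert i s _ ih =>
      obtain ⟨W, hW1, hW2, hW3⟩ := ih
      have hNn := hN.1
      obtain ⟨h, hh, n, hn, hhn⟩ := Subgroup.mem_sup_of_normal_right.1 (hW3 i)
      obtain ⟨W', hW'1, hW'2, hW'3⟩ := step_nil_one hk hN hno W (re_gen hW1 hU) i h hh
      have hi : (W' i)⁻¹ * V i ∈ N := by
        have e : (W' i)⁻¹ * V i = ((W' i)⁻¹ * (W i * h)) * n := by
          have : V i = W i * (h * n) := by rw [hhn]; group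
          rw [this]; group
        rw [e]
        exact N.mul_mem hW'2 hn
      refine ⟨W', hW1.tr hW'1, ?_, ?_⟩
      · intro l hl
        by_cases hli : l = i
        · rw [hli]; exact hi
        · exact cong_trans (hW'3 l hli) (hW2 l ((Finset.mem_insert.1 hl).resolve_left hli))
      · intro l
        by_cases hli : l = i
        · rw [hli]; exact Subgroup.mem_sup_right hi
        · exact cong_trans (Subgroup.mem_sup_right (hW'3 l hli)) (hW3 l)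
  obtain ⟨W, hW1, hW2, _⟩ := key Finset.univ
  exact ⟨W, hW1, fun i => hW2 i (Finset.mem_univ i)⟩

/-- **Main theorem**: tuples congruent modulo `[G,G]` are connected modulo every invariant `N`. -/
theorem main {k : ℕ} (hk : 2 ≤ k) (V : Fin k → G) (hV : Gen Ω k V) :
    ∀ N : Subgroup G, Inv Ω N → ∀ U : Fin k → G, Gen Ω k U →
      (∀ i, (U i)⁻¹ * V i ∈ ⁅(⊤ : Subgroup G), (⊤ : Subgroup G)⁆) →
      ∃ W, Re Ω k U W ∧ ∀ i, (W i)⁻¹ * V i ∈ N := by
  intro N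
  induction N using WellFoundedGT.induction with
  | ind N ih =>
    intro hN U hU hUV
    by_cases hex : ∃ L : Subgroup G, Inv Ω L ∧ N < L ∧ ⁅L, (⊤ : Subgroup G)⁆ ⊔ N = L
    · obtain ⟨Λ, ⟨hΛ1, hΛ2, hΛ3⟩, hΛmin⟩ := (wellFounded_lt (α := Subgroup G)).has_min
        {L | Inv Ω L ∧ N < L ∧ ⁅L, (⊤ : Subgroup G)⁆ ⊔ N = L} hex
      obtain ⟨W, hW1, hW2⟩ := ih Λ hΛ2 hΛ1 U hU hUV
      obtain ⟨W', hW'1, hW'2⟩ := step_nonnil hk hN hΛ1 hΛ2 hΛ3
        (fun L hL hNL hLΛ heq => hΛmin L ⟨hL, hNL, heq⟩ hLΛ) W V (re_gen hW1 hU) hV hW2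
      exact ⟨W', hW1.tr hW'1, hW'2⟩
    · push Not at hex
      exact step_nil hk hN hex U V hU hUV

theorem main' {k : ℕ} (hk : 2 ≤ k) (U V : Fin k → G) (hU : Gen Ω k U) (hV : Gen Ω k V)
    (hUV : ∀ i, (U i)⁻¹ * V i ∈ ⁅(⊤ : Subgroup G), (⊤ : Subgroup G)⁆) : Re Ω k U V := by
  obtain ⟨W, hW1, hW2⟩ := main hk V hV ⊥ inv_bot U hU hUV
  have : W = V := by
    funext i
    have := hW2 i
    rw [Subgroup.mem_bot, inv_mul_eq_one] at this
    exact this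
  rwa [this] at hW1

end Pool.Agent.H3.ACA
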