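import Mathlib

set_option autoImplicit false

namespace Pool.Agent.H3.CloneT2

/-- `n`-ary operations on `ω`. -/
abbrev Op (n : ℕ) := (Fin n → ℕ) → ℕ

/-- A clone on `ω`, given by the family of its sets `C n` of `n`-ary members, `n ≥ 1`
(the entry `C 0` plays no role): it contains the projections and is closed under composition. -/
structure IsClone (C : (n : ℕ) → Set (Op n)) : Prop where
  proj : ∀ (n : ℕ) (i : Fin n), (fun x => x i : Op n) ∈ C n
  comp : ∀ (n m : ℕ), 0 < n → 0 < m → ∀ (f : Op n) (g : Fin n → Op m), f ∈ C n →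
    (∀ i, g i ∈ C m) → (fun x => f (fun i => g i x) : Op m) ∈ C m

/-- The `n`-ary part of the clone `⟨S⟩` generated by a set `S` of binary operations. -/
def Gen (S : Set (Op 2)) (n : ℕ) : Set (Op n) :=
  {f | ∀ C : (k : ℕ) → Set (Op k), IsClone C → S ⊆ C 2 → f ∈ C n}

/-- `∇ = {(x,y) : x < y}` -/
def nabla : Set (ℕ × ℕ) := {p | p.1 < p.2}

/-- `Δ = {(x,y) : x > y}` -/
def delta : Set (ℕ × ℕ) := {p | p.1 > p.2}

/-- A binary operation is somewhere 1-1 if for some unary `u, v` the map `(x,y) ↦ f(u(x),v(y))`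
is injective on `∇` or injective on `Δ`. -/
def SomewhereOneOne₂ (f : Op 2) : Prop :=
  ∃ u v : ℕ → ℕ, Set.InjOn (fun p : ℕ × ℕ => f ![u p.1, v p.2]) nabla ∨
    Set.InjOn (fun p : ℕ × ℕ => f ![u p.1, v p.2]) delta

/-- `T₂`: the nowhere 1-1 binary operations. -/
def T₂ : Set (Op 2) := {f | ¬ SomewhereOneOne₂ f}

/-- `P` is (the) `Pol(T₂)`: the largest clone on `ω` whose binary fragment is `T₂`. -/
def IsPolT₂ (P : (n : ℕ) → Set (Op n)) : Prop :=
  IsClone P ∧ P 2 = T₂ ∧ ∀ C, IsClone C → C 2 = T₂ → ∀ n, 0 < n → C n ⊆ P n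

end Pool.Agent.H3.CloneT2
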