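import Mathlib
import Pool.Agent.H3.CloneDefs

set_option autoImplicit false

namespace Pool.Agent.H3.CloneT2

/-- internal form of nowhere 1-1 -/
def NW {n : ℕ} (f : Op n) : Prop :=
  ∀ (b : Fin n → Bool) (a : Fin n → ℕ → ℕ),
    ¬ Set.InjOn (fun p : ℕ × ℕ => f (fun i => a i (if b i then p.1 else p.2))) delta

theorem rowfin (Φ : ℕ × ℕ → ℕ) (h : Set.InjOn Φ delta) (s : ℕ) (F : Set ℕ) (hF : F.Finite) :
    {t | s < t ∧ Φ (t, s) ∈ F}.Finite := by
  refine Set.Finite.of_finite_image (f := fun t => Φ (t, s)) (hF.subset ?_) ?_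
  · rintro _ ⟨t, ht, rfl⟩
    exact ht.2
  · intro t ht t' ht' he
    have := h (show (t, s) ∈ delta from ht.1) (show (t', s) ∈ delta from ht'.1) he
    exact congrArg Prod.fst this

theorem row_contra (Φ : ℕ × ℕ → ℕ) (h : Set.InjOn Φ delta) (s : ℕ) (F : Set ℕ) (hF : F.Finite)
    (hall : ∀ t, s < t → Φ (t, s) ∈ F) : False := by
  have h1 := rowfin Φ h s F hF
  refine (Set.Ioi_infinite s) (h1.subset ?_)
  intro t ht
  exact ⟨ht, hall t ht⟩

theorem nw_restrict {n : ℕ} (f g : Op n) (hf : NW f) (h : ∀ w, g w = f w ∨ g w = 0) : NW g := by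
  intro b a hinj
  -- find N beyond which g ≠ 0
  have hN : ∃ N, ∀ t s, N ≤ s → s < t → g (fun i => a i (if b i then t else s)) ≠ 0 := by
    by_contra hcon
    push Not at hcon
    obtain ⟨t, s, _, hst, h0⟩ := hcon 0
    obtain ⟨t', s', hs', hst', h0'⟩ := hcon (s + 1)
    have := hinj (show (t, s) ∈ delta from hst) (show (t', s') ∈ delta from hst') (by
      show g (fun i => a i (if b i then t else s)) = g (fun i => a i (if b i then t' else s'))
      rw [h0, h0'])
    have h2 : s = s' := congrArg Prod.snd this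
    omega
  obtain ⟨N, hN⟩ := hN
  refine hf b (fun i k => a i (k + N)) ?_
  intro p hp q hq he
  have hp' : p.2 < p.1 := hp
  have hq' : q.2 < q.1 := hq
  have key : ∀ p : ℕ × ℕ, p.2 < p.1 → f (fun i => a i ((if b i then p.1 else p.2) + N)) =
      g (fun i => a i (if b i then p.1 + N else p.2 + N)) := by
    intro p hp
    have e : (fun i => a i ((if b i then p.1 else p.2) + N)) = (fun i => a i (if b i then p.1 + N else p.2 + N)) := by
      funext i
      split_ifs <;> rfl
    rw [e]
    rcases h (fun i => a i (if b i then p.1 + N else p.2 + N)) with h1 | h1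
    · exact h1.symm
    · exact absurd h1 (hN _ _ (by omega) (by omega))
  have he' : g (fun i => a i (if b i then p.1 + N else p.2 + N)) = g (fun i => a i (if b i then q.1 + N else q.2 + N)) := by
    rw [← key p hp', ← key q hq']; exact he
  have := hinj (show (p.1 + N, p.2 + N) ∈ delta from by show p.2 + N < p.1 + N; omega)
    (show (q.1 + N, q.2 + N) ∈ delta from by show q.2 + N < q.1 + N; omega) he'
  have h1 : p.1 + N = q.1 + N := congrArg Prod.fst this
  have h2 : p.2 + N = q.2 + N := congrArg Prod.snd this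
  exact Prod.ext (by omega) (by omega)

theorem ev_ne {n : ℕ} (g : Op n) (b : Fin n → Bool) (a : Fin n → ℕ → ℕ)
    (hinj : Set.InjOn (fun p : ℕ × ℕ => g (fun i => a i (if b i then p.1 else p.2))) delta) :
    ∃ N, ∀ t s, N ≤ s → s < t → g (fun i => a i (if b i then t else s)) ≠ 0 := by
  by_contra hcon
  push Not at hcon
  obtain ⟨t, s, _, hst, h0⟩ := hcon 0
  obtain ⟨t', s', hs', hst', h0'⟩ := hcon (s + 1)
  have := hinj (show (t, s) ∈ delta from hst) (show (t', s') ∈ delta from hst') (by
    show g (fun i => a i (if b i then t else s)) = g (fun i => a i (if b i then t' else s'))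
    rw [h0, h0'])
  have h2 : s = s' := congrArg Prod.snd this
  omega

theorem T2_iff (f : Op 2) : f ∈ T₂ ↔ NW f := by
  have conv : ∀ (b : Fin 2 → Bool) (a : Fin 2 → ℕ → ℕ) (t s : ℕ),
      (fun i => a i (if b i then t else s)) = ![a 0 (if b 0 then t else s), a 1 (if b 1 then t else s)] := by
    intro b a t s
    funext i; fin_cases i <;> rfl
  constructor
  · intro hf b a hinj
    simp only [conv] at hinj
    rcases h0 : b 0 with _ | _ <;> rcases h1 : b 1 with _ | _ <;> simp only [h0, h1] at hinj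
    · have := hinj (show ((1, 0) : ℕ × ℕ) ∈ delta from Nat.one_pos) (show ((2, 0) : ℕ × ℕ) ∈ delta from Nat.two_pos) rfl
      simp at this
    · refine hf ⟨a 0, a 1, Or.inl ?_⟩
      intro p hp q hq he
      have := hinj (show (p.2, p.1) ∈ delta from hp) (show (q.2, q.1) ∈ delta from hq) he
      exact Prod.ext (congrArg Prod.snd this) (congrArg Prod.fst this)
    · refine hf ⟨a 0, a 1, Or.inr ?_⟩
      intro p hp q hq he
      exact hinj hp hq he
    · have := hinj (show ((2, 0) : ℕ × ℕ) ∈ delta from Nat.two_pos) (show ((2, 1) : ℕ × ℕ) ∈ delta from Nat.one_lt_two) rfl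
      simp at this
  · rintro hf ⟨u, v, h | h⟩
    · refine hf ![false, true] ![u, v] ?_
      intro p hp q hq he
      simp only [conv] at he
      have := h (show (p.2, p.1) ∈ nabla from hp) (show (q.2, q.1) ∈ nabla from hq) he
      exact Prod.ext (congrArg Prod.snd this) (congrArg Prod.fst this)
    · refine hf ![true, false] ![u, v] ?_
      intro p hp q hq he
      simp only [conv] at he
      exact h hp hq he

def op2 (g : ℕ → ℕ → ℕ) : Op 2 := fun w => g (w 0) (w 1)

theorem op2_T2 (g : ℕ → ℕ → ℕ)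
    (h : ∀ u v : ℕ → ℕ, ¬ Set.InjOn (fun p : ℕ × ℕ => g (u p.1) (v p.2)) delta)
    (h' : ∀ u v : ℕ → ℕ, ¬ Set.InjOn (fun p : ℕ × ℕ => g (u p.2) (v p.1)) delta) : op2 g ∈ T₂ := by
  rintro ⟨u, v, h1 | h1⟩
  · refine h' u v ?_
    intro p hp q hq he
    have := h1 (show (p.2, p.1) ∈ nabla from hp) (show (q.2, q.1) ∈ nabla from hq) he
    exact Prod.ext (congrArg Prod.snd this) (congrArg Prod.fst this)
  · exact h u v h1

theorem T2_of_finite (g : ℕ → ℕ → ℕ) (h1 : ∀ x, (Set.range (fun y => g x y)).Finite)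
    (h2 : ∀ y, (Set.range (fun x => g x y)).Finite) : op2 g ∈ T₂ := by
  refine op2_T2 g ?_ ?_
  · intro u v h
    exact row_contra _ h 0 _ (h2 (v 0)) fun t _ => ⟨u t, rfl⟩
  · intro u v h
    exact row_contra _ h 0 _ (h1 (u 0)) fun t _ => ⟨v t, rfl⟩

theorem T2_unary (φ : ℕ → ℕ) : op2 (fun x _ => φ x) ∈ T₂ := by
  refine op2_T2 _ ?_ ?_
  · intro u v h
    have := h (show ((2, 0) : ℕ × ℕ) ∈ delta from Nat.two_pos) (show ((2, 1) : ℕ × ℕ) ∈ delta from Nat.one_lt_two) rfl
    simp at this
  · intro u v h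
    have := h (show ((1, 0) : ℕ × ℕ) ∈ delta from Nat.one_pos) (show ((2, 0) : ℕ × ℕ) ∈ delta from Nat.two_pos) rfl
    simp at this

theorem T2_max : op2 max ∈ T₂ := by
  have key : ∀ u v : ℕ → ℕ, ¬ Set.InjOn (fun p : ℕ × ℕ => max (u p.1) (v p.2)) delta := by
    intro u v h
    have h1 : ∃ t, 2 ≤ t ∧ max (v 0) (v 1) ≤ u t := by
      by_contra hcon
      push Not at hcon
      refine row_contra _ h 1 (Set.Iic (max (v 0) (v 1))) (Set.finite_Iic _) fun t ht => ?_
      have := hcon t ht
      show max (u t) (v 1) ≤ _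
      exact max_le this.le (le_max_right _ _)
    obtain ⟨t, ht, hle⟩ := h1
    have := h (show (t, 0) ∈ delta from by show 0 < t; omega) (show (t, 1) ∈ delta from by show 1 < t; omega) (by
      show max (u t) (v 0) = max (u t) (v 1)
      rw [max_eq_left ((le_max_left _ _).trans hle), max_eq_left ((le_max_right _ _).trans hle)])
    simp at this
  refine op2_T2 _ key ?_
  intro u v h
  refine key v u ?_
  intro p hp q hq he
  refine h hp hq ?_
  show max (u p.2) (v p.1) = max (u q.2) (v q.1)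
  rw [max_comm (u p.2), max_comm (u q.2)]
  exact he

section clone

variable {C : (k : ℕ) → Set (Op k)} (hC : IsClone C) (hT : T₂ ⊆ C 2)

include hC hT

theorem C_app2 (g : ℕ → ℕ → ℕ) (hg : op2 g ∈ T₂) {m : ℕ} (hm : 0 < m) (p q : Op m) (hp : p ∈ C m) (hq : q ∈ C m) :
    (fun x => g (p x) (q x) : Op m) ∈ C m := by
  have := hC.comp 2 m Nat.two_pos hm (op2 g) ![p, q] (hT hg) (by intro i; fin_cases i <;> assumption)
  exact this

theorem C_app1 (φ : ℕ → ℕ) {m : ℕ} (hm : 0 < m) (p : Op m) (hp : p ∈ C m) : (fun x => φ (p x) : Op m) ∈ C m :=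
  C_app2 hC hT (fun x _ => φ x) (T2_unary φ) hm p p hp hp

theorem C_const (c : ℕ) {m : ℕ} (hm : 0 < m) : (fun _ => c : Op m) ∈ C m :=
  C_app1 hC hT (fun _ => c) hm (fun x => x ⟨0, hm⟩) (hC.proj m _)

theorem C_max {m : ℕ} (hm : 0 < m) (p q : Op m) (hp : p ∈ C m) (hq : q ∈ C m) :
    (fun x => max (p x) (q x) : Op m) ∈ C m := C_app2 hC hT max T2_max hm p q hp hq

theorem C_sup {m : ℕ} (hm : 0 < m) {κ : Type} (S : Finset κ) (F : κ → Op m) (hF : ∀ i, F i ∈ C m) :
    (fun x => S.sup (fun i => F i x) : Op m) ∈ C m := by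
  classical
  induction S using Finset.induction_on with
  | empty => exact C_const hC hT 0 hm
  | insert a S _ ih =>
    have : (fun x => (insert a S).sup (fun i => F i x) : Op m) = fun x => max (F a x) (S.sup (fun i => F i x)) := by
      funext x; rw [Finset.sup_insert]
    rw [this]
    exact C_max hC hT hm _ _ (hF a) ih

/-- tuple -/
def mk {m : ℕ} (x : Fin m → ℕ) (y z : ℕ) : Fin (m + 2) → ℕ := Fin.cons z (Fin.cons y x)

omit hC hT in
theorem mk_self {m : ℕ} (w : Fin (m + 2) → ℕ) : mk (fun i => w i.succ.succ) (w 1) (w 0) = w := by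
  funext i
  refine Fin.cases rfl (fun i => ?_) i
  refine Fin.cases rfl (fun i => rfl) i

theorem stepA (m : ℕ) (IH : ∀ h : Op (m + 1), NW h → h ∈ C (m + 1)) (f : Op (m + 2)) (hf : NW f)
    (hsupp : ∀ w, f w ≠ 0 → w 1 ≤ w 0 ∧ ∀ i : Fin m, w i.succ.succ ≤ w 1) (φ : ℕ → ℕ)
    (hφ : ∀ w, f w ≤ φ (w 1)) : f ∈ C (m + 2) := by
  classical
  obtain ⟨code, hcode⟩ := Countable.exists_injective_nat (Σ y : ℕ, ((Fin m → Fin (y + 1)) → Fin (φ y + 1)))
  let tab : (y z : ℕ) → ((Fin m → Fin (y + 1)) → Fin (φ y + 1)) := fun y z x =>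
    ⟨f (mk (fun i => (x i : ℕ)) y z), Nat.lt_succ_of_le (hφ _)⟩
  let γ : ℕ → ℕ → ℕ := fun y z => if y ≤ z then code ⟨y, tab y z⟩ + 1 else 0
  have hγ : op2 γ ∈ T₂ := by
    refine T2_of_finite γ ?_ ?_
    · intro y
      refine ((Set.finite_range (fun T : ((Fin m → Fin (y + 1)) → Fin (φ y + 1)) => code ⟨y, T⟩ + 1)).insert 0).subset ?_
      rintro _ ⟨z, rfl⟩
      show (if y ≤ z then code ⟨y, tab y z⟩ + 1 else 0) ∈ _
      split_ifs
      · exact Set.mem_insert_of_mem _ ⟨tab y z, rfl⟩
      · exact Set.mem_insert _ _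
    · intro z
      refine ((((Set.finite_Iic z).image (fun y => γ y z))).insert 0).subset ?_
      rintro _ ⟨y, rfl⟩
      by_cases hy : y ≤ z
      · exact Set.mem_insert_of_mem _ ⟨y, hy, rfl⟩
      · have : γ y z = 0 := if_neg hy
        show γ y z ∈ _
        rw [this]
        exact Set.mem_insert _ _
  let P : ℕ → ℕ × ℕ := fun k => if h : ∃ p : ℕ × ℕ, p.1 ≤ p.2 ∧ γ p.1 p.2 = k then h.choose else (1, 0)
  let h : Op (m + 1) := fun w' => f (mk (fun i => w' i.succ) (P (w' 0)).1 (P (w' 0)).2)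
  have hh : NW h := by
    intro b a hinj
    refine hf (Fin.cons (b 0) (Fin.cons (b 0) (fun i => b i.succ)))
      (Fin.cons (fun k => (P (a 0 k)).2) (Fin.cons (fun k => (P (a 0 k)).1) (fun i => a i.succ))) ?_
    have e : (fun p : ℕ × ℕ => f (fun i => (Fin.cons (fun k => (P (a 0 k)).2) (Fin.cons (fun k => (P (a 0 k)).1) (fun i => a i.succ)) : Fin (m + 2) → ℕ → ℕ) i
        (if (Fin.cons (b 0) (Fin.cons (b 0) (fun i => b i.succ)) : Fin (m + 2) → Bool) i then p.1 else p.2))) =
        fun p : ℕ × ℕ => h (fun i => a i (if b i then p.1 else p.2)) := by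
      funext p
      show f _ = f _
      congr 1
      funext i
      refine Fin.cases rfl (fun i => ?_) i
      refine Fin.cases rfl (fun i => rfl) i
    rw [e]
    exact hinj
  have hfh : f = fun w => h (fun i => (Fin.cons (fun w => γ (w 1) (w 0)) (fun i w => w i.succ.succ) : Fin (m + 1) → Op (m + 2)) i w) := by
    funext w
    show f w = f (mk (fun i => w i.succ.succ) (P (γ (w 1) (w 0))).1 (P (γ (w 1) (w 0))).2)
    by_cases hyz : w 1 ≤ w 0
    · have hex : ∃ p : ℕ × ℕ, p.1 ≤ p.2 ∧ γ p.1 p.2 = γ (w 1) (w 0) := ⟨(w 1, w 0), hyz, rfl⟩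
      have hP : P (γ (w 1) (w 0)) = hex.choose := dif_pos hex
      rw [hP]
      obtain ⟨h1, h2⟩ := hex.choose_spec
      generalize hex.choose = p at h1 h2 ⊢
      obtain ⟨y', z'⟩ := p
      change y' ≤ z' at h1
      change γ y' z' = _ at h2
      change f w = f (mk _ y' z')
      have h3 : code ⟨y', tab y' z'⟩ = code ⟨w 1, tab (w 1) (w 0)⟩ := by
        have h4 : γ y' z' = code ⟨y', tab y' z'⟩ + 1 := if_pos h1
        have h5 : γ (w 1) (w 0) = code ⟨w 1, tab (w 1) (w 0)⟩ + 1 := if_pos hyz
        rw [h4, h5] at h2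
        exact Nat.succ_injective h2
      have h6 := hcode h3
      have h7 : y' = w 1 := congrArg Sigma.fst h6
      subst h7
      have h8 : tab (w 1) z' = tab (w 1) (w 0) := eq_of_heq (Sigma.mk.inj h6).2
      by_cases hx : ∀ i : Fin m, w i.succ.succ ≤ w 1
      · have h9 := congrFun h8 (fun i => ⟨w i.succ.succ, Nat.lt_succ_of_le (hx i)⟩)
        have h10 : f (mk (fun i => w i.succ.succ) (w 1) z') = f (mk (fun i => w i.succ.succ) (w 1) (w 0)) :=
          congrArg Fin.val h9
        rw [h10, mk_self]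
      · have z1 : f w = 0 := by
          by_contra h0
          exact hx (hsupp w h0).2
        have z2 : f (mk (fun i => w i.succ.succ) (w 1) z') = 0 := by
          by_contra h0
          exact hx (hsupp _ h0).2
        rw [z1, z2]
    · have h5 : γ (w 1) (w 0) = 0 := if_neg hyz
      rw [h5]
      have hP : P 0 = (1, 0) := by
        refine dif_neg ?_
        rintro ⟨p, hp1, hp2⟩
        have : γ p.1 p.2 = code ⟨p.1, tab p.1 p.2⟩ + 1 := if_pos hp1
        omega
      rw [hP]
      have z1 : f w = 0 := by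
        by_contra h0
        exact hyz (hsupp w h0).1
      have z2 : f (mk (fun i => w i.succ.succ) 1 0) = 0 := by
        by_contra h0
        have := (hsupp _ h0).1
        change 1 ≤ 0 at this
        omega
      rw [z1, z2]
  rw [hfh]
  refine hC.comp (m + 1) (m + 2) (Nat.succ_pos _) (Nat.succ_pos _) h _ (IH h hh) ?_
  intro i
  refine Fin.cases ?_ (fun i => ?_) i
  · exact C_app2 hC hT γ hγ (Nat.succ_pos _) (fun w => w 1) (fun w => w 0) (hC.proj _ _) (hC.proj _ _)
  · exact hC.proj _ _

theorem stepB (m : ℕ) (hm : 0 < m) (IH : ∀ h : Op (m + 1), NW h → h ∈ C (m + 1)) (f : Op (m + 2)) (hf : NW f)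
    (hsupp : ∀ w, f w ≠ 0 → w 1 ≤ w 0 ∧ ∀ i : Fin m, w i.succ.succ ≤ w 1) : f ∈ C (m + 2) := by
  classical
  -- small part
  let fs : Op (m + 2) := fun w => if f w ≤ w 1 then f w else 0
  let fl : Op (m + 2) := fun w => if f w ≤ w 1 then 0 else f w
  have hfs : NW fs := nw_restrict f fs hf fun w => by
    show (if f w ≤ w 1 then f w else 0) = f w ∨ (if f w ≤ w 1 then f w else 0) = 0
    split_ifs <;> simp
  have hfl : NW fl := nw_restrict f fl hf fun w => by
    show (if f w ≤ w 1 then 0 else f w) = f w ∨ (if f w ≤ w 1 then 0 else f w) = 0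
    split_ifs <;> simp
  have hfs0 : ∀ w, fs w ≠ 0 → f w ≠ 0 := by
    intro w hw h0
    apply hw
    show (if f w ≤ w 1 then f w else 0) = 0
    rw [h0]; simp
  have hfl0 : ∀ w, fl w ≠ 0 → f w ≠ 0 := by
    intro w hw h0
    apply hw
    show (if f w ≤ w 1 then 0 else f w) = 0
    rw [h0]; simp
  have hfl1 : ∀ w, fl w ≠ 0 → w 1 < fl w := by
    intro w hw
    have h1 : fl w = if f w ≤ w 1 then 0 else f w := rfl
    split_ifs at h1 with h2
    · exact absurd h1 hw
    · rw [h1]; omega
  have hfsC : fs ∈ C (m + 2) := by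
    refine stepA hC hT m IH fs hfs (fun w hw => hsupp w (hfs0 w hw)) id fun w => ?_
    show (if f w ≤ w 1 then f w else 0) ≤ w 1
    split_ifs with h
    · exact h
    · exact Nat.zero_le _
  -- codes for `(x, y)`
  obtain ⟨e, he⟩ := Countable.exists_injective_nat ((Fin m → ℕ) × ℕ)
  have hinh : Nonempty ((Fin m → ℕ) × ℕ) := ⟨(fun _ => 1, 0)⟩
  let inv : ℕ → (Fin m → ℕ) × ℕ := fun k => if k = 0 then (fun _ => 1, 0) else Function.invFun e (k - 1)
  have hinv : ∀ p, inv (e p + 1) = p := by
    intro p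
    show (if e p + 1 = 0 then _ else Function.invFun e (e p + 1 - 1)) = p
    rw [if_neg (Nat.succ_ne_zero _), Nat.add_sub_cancel]
    exact Function.leftInverse_invFun he p
  let v : ℕ → ℕ → ℕ := fun k z => fl (mk (inv k).1 (inv k).2 z)
  have hv0 : ∀ z, v 0 z = 0 := by
    intro z
    by_contra h0
    have h1 : fl (mk (fun _ : Fin m => 1) 0 z) ≠ 0 := h0
    have := (hsupp _ (hfl0 _ h1)).2 ⟨0, hm⟩
    change 1 ≤ 0 at this
    omega
  have hv : op2 v ∈ T₂ := by
    refine op2_T2 v ?_ ?_
    · intro u u' hinj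
      refine hfl (Fin.cons false (Fin.cons true (fun i => true)))
        (Fin.cons u' (Fin.cons (fun k => (inv (u k)).2) (fun i k => (inv (u k)).1 i))) ?_
      have e : (fun p : ℕ × ℕ => fl (fun i => (Fin.cons u' (Fin.cons (fun k => (inv (u k)).2) (fun i k => (inv (u k)).1 i)) : Fin (m + 2) → ℕ → ℕ) i
          (if (Fin.cons false (Fin.cons true (fun i => true)) : Fin (m + 2) → Bool) i then p.1 else p.2))) =
          fun p : ℕ × ℕ => v (u p.1) (u' p.2) := by
        funext p
        show fl _ = fl _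
        congr 1
        funext i
        refine Fin.cases rfl (fun i => ?_) i
        refine Fin.cases rfl (fun i => rfl) i
      rw [e]
      exact hinj
    · intro u u' hinj
      refine hfl (Fin.cons true (Fin.cons false (fun i => false)))
        (Fin.cons u' (Fin.cons (fun k => (inv (u k)).2) (fun i k => (inv (u k)).1 i))) ?_
      have e : (fun p : ℕ × ℕ => fl (fun i => (Fin.cons u' (Fin.cons (fun k => (inv (u k)).2) (fun i k => (inv (u k)).1 i)) : Fin (m + 2) → ℕ → ℕ) i
          (if (Fin.cons true (Fin.cons false (fun i => false)) : Fin (m + 2) → Bool) i then p.1 else p.2))) =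
          fun p : ℕ × ℕ => v (u p.2) (u' p.1) := by
        funext p
        show fl _ = fl _
        congr 1
        funext i
        refine Fin.cases rfl (fun i => ?_) i
        refine Fin.cases rfl (fun i => rfl) i
      rw [e]
      exact hinj
  -- index function
  have hexI : ∀ w, fl w ≠ 0 → ∃ k, v (k + 1) (w 0) = fl w := by
    intro w _
    refine ⟨e (fun i => w i.succ.succ, w 1), ?_⟩
    show fl (mk (inv (e _ + 1)).1 (inv (e _ + 1)).2 (w 0)) = fl w
    rw [hinv, mk_self]
  let I : ℕ → ℕ → ℕ := fun z c => sInf {k | v (k + 1) z = c}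
  have hI : ∀ w, fl w ≠ 0 → v (I (w 0) (fl w) + 1) (w 0) = fl w := by
    intro w hw
    exact Nat.sInf_mem (s := {k | v (k + 1) (w 0) = fl w}) (hexI w hw)
  let ind : Op (m + 2) := fun w => if fl w = 0 then 0 else I (w 0) (fl w) + 1
  have hflv : fl = fun w => v (ind w) (w 0) := by
    funext w
    show fl w = v (if fl w = 0 then 0 else I (w 0) (fl w) + 1) (w 0)
    split_ifs with h
    · rw [hv0, h]
    · rw [hI w h]
  -- bound
  let φ : ℕ → ℕ := fun y => (Finset.univ : Finset (Fin m → Fin (y + 1))).sup (fun x => e (fun i => (x i : ℕ), y)) + 1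
  have hφ : ∀ w, ind w ≤ φ (w 1) := by
    intro w
    show (if fl w = 0 then 0 else I (w 0) (fl w) + 1) ≤ φ (w 1)
    split_ifs with h
    · exact Nat.zero_le _
    · refine Nat.succ_le_succ ?_
      have hx := (hsupp w (hfl0 w h)).2
      have h1 : I (w 0) (fl w) ≤ e (fun i => w i.succ.succ, w 1) := by
        refine Nat.sInf_le ?_
        show fl (mk (inv (e _ + 1)).1 (inv (e _ + 1)).2 (w 0)) = fl w
        rw [hinv, mk_self]
      refine h1.trans ?_
      have h2 := Finset.le_sup (f := fun x : Fin m → Fin (w 1 + 1) => e (fun i => (x i : ℕ), w 1))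
        (Finset.mem_univ (fun i => (⟨w i.succ.succ, Nat.lt_succ_of_le (hx i)⟩ : Fin (w 1 + 1))))
      exact h2
  have hind0 : ∀ w, ind w ≠ 0 → fl w ≠ 0 := by
    intro w hw h0
    exact hw (if_pos h0)
  have hindsupp : ∀ w, ind w ≠ 0 → w 1 ≤ w 0 ∧ ∀ i : Fin m, w i.succ.succ ≤ w 1 := fun w hw =>
    hsupp w (hfl0 w (hind0 w hw))
  have hindNW : NW ind := by
    intro b a hinj
    obtain ⟨N, hN⟩ := ev_ne ind b a hinj
    have hb0 : b 0 = true := by
      by_contra hb
      rw [Bool.not_eq_true] at hb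
      refine row_contra _ hinj N (ind '' (Set.Iic (fun _ => a 0 N))) ((Set.finite_Iic _).image _) fun t ht => ?_
      refine ⟨_, ?_, rfl⟩
      have h1 := hN t N le_rfl ht
      obtain ⟨h2, h3⟩ := hindsupp _ h1
      have h4 : a 0 (if b 0 then t else N) = a 0 N := by rw [hb]; rfl
      intro i
      show a i (if b i then t else N) ≤ a 0 N
      rw [← h4]
      revert i
      refine Fin.cases le_rfl (fun i => ?_)
      refine Fin.cases h2 (fun i => ?_) i
      exact (h3 i).trans h2
    have hb1 : b 1 = true := by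
      by_contra hb
      rw [Bool.not_eq_true] at hb
      refine row_contra _ hinj N (Set.Iic (φ (a 1 N))) (Set.finite_Iic _) fun t ht => ?_
      have h1 := hφ (fun i => a i (if b i then t else N))
      have h4 : a 1 (if b 1 then t else N) = a 1 N := by rw [hb]; rfl
      show ind _ ≤ φ (a 1 N)
      rw [← h4]
      exact h1
    have hlarge : ∀ M L : ℕ, ∃ T, L < T ∧ M < a 1 T := by
      intro M L
      have hfin := rowfin _ hinj N (Set.Iic ((Finset.range (M + 1)).sup φ)) (Set.finite_Iic _)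
      by_contra hcon
      push Not at hcon
      refine (Set.Ioi_infinite (max L N)) (hfin.subset ?_)
      intro t ht
      have ht' : max L N < t := ht
      refine ⟨lt_of_le_of_lt (le_max_right _ _) ht', ?_⟩
      have h1 := hφ (fun i => a i (if b i then t else N))
      have h4 : a 1 (if b 1 then t else N) = a 1 t := by rw [hb1]; rfl
      have h1' : ind (fun i => a i (if b i then t else N)) ≤ φ (a 1 t) := by rw [← h4]; exact h1
      have h5 := hcon t (lt_of_le_of_lt (le_max_left _ _) ht')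
      exact h1'.trans (Finset.le_sup (f := φ) (Finset.mem_range.2 (Nat.lt_succ_of_le h5)))
    let B : ℕ → ℕ := fun n => (Finset.range (n + 1) ×ˢ Finset.range (n + 1)).sup
      (fun p => fl (fun i => a i (if b i then p.1 else p.2)))
    choose T hT1 hT2 using hlarge
    let τ : ℕ → ℕ := fun k => Nat.rec N (fun _ r => T (B r) r) k
    have hτs : ∀ k, τ (k + 1) = T (B (τ k)) (τ k) := fun k => rfl
    have hτ : StrictMono τ := strictMono_nat_of_lt_succ fun k => by rw [hτs]; exact hT1 _ _
    have hτN : ∀ k, N ≤ τ k := fun k => (show N = τ 0 from rfl) ▸ hτ.monotone (Nat.zero_le k)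
    have hbig : ∀ k l k' l', l < k → l' < k' → k < k' →
        fl (fun i => a i (if b i then τ k else τ l)) ≠ fl (fun i => a i (if b i then τ k' else τ l')) := by
      intro k l k' l' hl hl' hk heq
      obtain ⟨j, rfl⟩ : ∃ j, k' = j + 1 := ⟨k' - 1, by omega⟩
      have h1 : fl (fun i => a i (if b i then τ k else τ l)) ≤ B (τ j) := by
        have hk' : τ k ≤ τ j := hτ.monotone (by omega)
        have hl'' : τ l ≤ τ j := hτ.monotone (by omega)
        exact Finset.le_sup (f := fun p : ℕ × ℕ => fl (fun i => a i (if b i then p.1 else p.2)))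
          (Finset.mem_product.2 ⟨Finset.mem_range.2 (Nat.lt_succ_of_le hk'), Finset.mem_range.2 (Nat.lt_succ_of_le hl'')⟩ : (τ k, τ l) ∈ _)
      have h2 : B (τ j) < a 1 (τ (j + 1)) := by rw [hτs]; exact hT2 _ _
      have h3 := hfl1 _ (hind0 _ (hN (τ (j + 1)) (τ l') (hτN _) (hτ hl')))
      have h4 : a 1 (if b 1 then τ (j + 1) else τ l') = a 1 (τ (j + 1)) := by rw [hb1]; rfl
      have h3' : a 1 (τ (j + 1)) < fl (fun i => a i (if b i then τ (j + 1) else τ l')) := by
        rw [← h4]; exact h3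
      omega
    refine hfl b (fun i k => a i (τ k)) ?_
    rintro ⟨k, l⟩ hp ⟨k', l'⟩ hq he
    have hp' : l < k := hp
    have hq' : l' < k' := hq
    have conv : ∀ k l : ℕ, (fun i => a i (τ (if b i then k else l))) = (fun i => a i (if b i then τ k else τ l)) := by
      intro k l
      funext i
      split_ifs <;> rfl
    have he' : fl (fun i => a i (if b i then τ k else τ l)) = fl (fun i => a i (if b i then τ k' else τ l')) := by
      rw [← conv, ← conv]; exact he
    have hkk : k = k' := by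
      rcases lt_trichotomy k k' with h | h | h
      · exact absurd he' (hbig k l k' l' hp' hq' h)
      · exact h
      · exact absurd he'.symm (hbig k' l' k l hq' hp' h)
    subst hkk
    have hne := hind0 _ (hN (τ k) (τ l) (hτN _) (hτ hp'))
    have hindeq : ind (fun i => a i (if b i then τ k else τ l)) = ind (fun i => a i (if b i then τ k else τ l')) := by
      show (if fl _ = 0 then 0 else I (a 0 (if b 0 then τ k else τ l)) (fl _) + 1) =
        (if fl _ = 0 then 0 else I (a 0 (if b 0 then τ k else τ l')) (fl _) + 1)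
      rw [← he', hb0]
      rfl
    have := hinj (show (τ k, τ l) ∈ delta from hτ hp') (show (τ k, τ l') ∈ delta from hτ hq') hindeq
    have h1 : τ l = τ l' := congrArg Prod.snd this
    rw [hτ.injective h1]
  have hindC : ind ∈ C (m + 2) := stepA hC hT m IH ind hindNW hindsupp φ hφ
  have hflC : fl ∈ C (m + 2) := by
    rw [hflv]
    exact C_app2 hC hT v hv (Nat.succ_pos _) ind (fun w => w 0) hindC (hC.proj _ _)
  have : f = fun w => max (fs w) (fl w) := by
    funext w
    show f w = max (if f w ≤ w 1 then f w else 0) (if f w ≤ w 1 then 0 else f w)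
    split_ifs <;> simp
  rw [this]
  exact C_max hC hT (Nat.succ_pos _) _ _ hfsC hflC

end clone

end Pool.Agent.H3.CloneT2
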