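import Mathlib
import Pool.Agent.H3.CloneA

set_option autoImplicit false

namespace Pool.Agent.H3.CloneT2

section clone

variable {C : (k : ℕ) → Set (Op k)} (hC : IsClone C) (hT : T₂ ⊆ C 2)

include hC hT

theorem step_gen (m : ℕ) (hm : 0 < m) (IH : ∀ h : Op (m + 1), NW h → h ∈ C (m + 1)) (f : Op (m + 2)) (hf : NW f) :
    f ∈ C (m + 2) := by
  classical
  let F : Fin (m + 2) × Fin (m + 2) → Op (m + 2) := fun q w =>
    if q.1 ≠ q.2 ∧ w q.1 ≤ w q.2 ∧ ∀ i, i ≠ q.2 → w i ≤ w q.1 then f w else 0
  have hF0 : ∀ q w, F q w ≠ 0 → (q.1 ≠ q.2 ∧ w q.1 ≤ w q.2 ∧ ∀ i, i ≠ q.2 → w i ≤ w q.1) := by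
    intro q w h
    by_contra hcon
    exact h (if_neg hcon)
  have hF1 : ∀ q, NW (F q) := by
    intro q
    refine nw_restrict f (F q) hf fun w => ?_
    show (if _ then f w else 0) = f w ∨ (if _ then f w else 0) = 0
    split_ifs <;> simp
  have hFC : ∀ q, F q ∈ C (m + 2) := by
    rintro ⟨j, k⟩
    by_cases hjk : j = k
    · have : F (j, k) = fun _ => 0 := by
        funext w
        exact if_neg (fun h => h.1 hjk)
      rw [this]
      exact C_const hC hT 0 (Nat.succ_pos _)
    let j' := Equiv.swap 0 k j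
    have hj' : j' ≠ 0 := by
      intro h
      have h1 : Equiv.swap 0 k j = Equiv.swap 0 k k := by rw [Equiv.swap_apply_right]; exact h
      exact hjk ((Equiv.swap 0 k).injective h1)
    let σ : Equiv.Perm (Fin (m + 2)) := Equiv.swap 0 k * Equiv.swap 1 j'
    have hσ0 : σ 0 = k := by
      show Equiv.swap 0 k (Equiv.swap 1 j' 0) = k
      rw [Equiv.swap_apply_of_ne_of_ne (by simp) hj'.symm, Equiv.swap_apply_left]
    have hσ1 : σ 1 = j := by
      show Equiv.swap 0 k (Equiv.swap 1 j' 1) = j
      rw [Equiv.swap_apply_left]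
      show Equiv.swap 0 k (Equiv.swap 0 k j) = j
      rw [← Equiv.Perm.mul_apply, Equiv.swap_mul_self, Equiv.Perm.one_apply]
    let g : Op (m + 2) := fun w => F (j, k) (fun i => w (σ.symm i))
    have hs0 : σ.symm k = 0 := by rw [← hσ0, Equiv.symm_apply_apply]
    have hs1 : σ.symm j = 1 := by rw [← hσ1, Equiv.symm_apply_apply]
    have hg : NW g := by
      intro b a hinj
      exact hF1 (j, k) (fun i => b (σ.symm i)) (fun i => a (σ.symm i)) hinj
    have hgC : g ∈ C (m + 2) := by
      refine stepB hC hT m hm IH g hg fun w hw => ?_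
      obtain ⟨_, h2, h3⟩ := hF0 (j, k) (fun i => w (σ.symm i)) hw
      change w (σ.symm j) ≤ w (σ.symm k) at h2
      rw [hs0, hs1] at h2
      refine ⟨h2, fun i => ?_⟩
      have h4 := h3 (σ i.succ.succ) (by
        intro h
        have h5 : σ i.succ.succ = σ 0 := by rw [hσ0]; exact h
        exact absurd (σ.injective h5) (Fin.succ_ne_zero _))
      change w (σ.symm (σ i.succ.succ)) ≤ w (σ.symm j) at h4
      rwa [hs1, Equiv.symm_apply_apply] at h4
    have hFg : F (j, k) = fun w => g (fun i => w (σ i)) := by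
      funext w
      show F (j, k) w = F (j, k) (fun i => w (σ (σ.symm i)))
      simp only [Equiv.apply_symm_apply]
    rw [hFg]
    exact hC.comp (m + 2) (m + 2) (Nat.succ_pos _) (Nat.succ_pos _) g (fun i w => w (σ i)) hgC (fun i => hC.proj _ _)
  have hsup : f = fun w => (Finset.univ : Finset (Fin (m + 2) × Fin (m + 2))).sup (fun q => F q w) := by
    funext w
    apply le_antisymm
    · obtain ⟨k, _, hk⟩ := Finset.exists_max_image (Finset.univ : Finset (Fin (m + 2))) w ⟨0, Finset.mem_univ _⟩
      have hne : ((Finset.univ : Finset (Fin (m + 2))).erase k).Nonempty := by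
        rw [← Finset.card_pos, Finset.card_erase_of_mem (Finset.mem_univ _), Finset.card_univ, Fintype.card_fin]
        omega
      obtain ⟨j, hj, hj2⟩ := Finset.exists_max_image _ w hne
      have hjk : j ≠ k := Finset.ne_of_mem_erase hj
      have h1 : F (j, k) w = f w := if_pos ⟨hjk, hk j (Finset.mem_univ _), fun i hi =>
        hj2 i (Finset.mem_erase.2 ⟨hi, Finset.mem_univ _⟩)⟩
      rw [← h1]
      exact Finset.le_sup (f := fun q => F q w) (Finset.mem_univ (j, k))
    · refine Finset.sup_le fun q _ => ?_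
      show (if _ then f w else 0) ≤ f w
      split_ifs
      · exact le_rfl
      · exact Nat.zero_le _
  rw [hsup]
  exact C_sup hC hT (Nat.succ_pos _) _ F hFC

theorem nw_subset : ∀ n : ℕ, 0 < n → ∀ f : Op n, NW f → f ∈ C n := by
  intro n
  induction n with
  | zero => intro h; exact absurd h (lt_irrefl 0)
  | succ n ih =>
    intro _ f hf
    rcases n with _ | n
    · have : f = fun x => (fun k => f (fun _ => k)) (x 0) := by
        funext x
        show f x = f (fun _ => x 0)
        congr 1
        funext i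
        rw [Fin.eq_zero i]
      rw [this]
      exact C_app1 hC hT (fun k => f (fun _ => k)) (Nat.succ_pos 0) (fun x => x 0) (hC.proj _ _)
    · rcases n with _ | n
      · exact hT ((T2_iff f).2 hf)
      · exact step_gen hC hT (n + 1) (Nat.succ_pos _) (fun h hh => ih (Nat.succ_pos _) h hh) f hf

end clone

open Filter

theorem canon (G : ℕ → ℕ → ℕ) (hG : ∀ a a' : ℕ → ℕ, ¬ Set.InjOn (fun p : ℕ × ℕ => G (a p.1) (a' p.2)) delta) :
    ∃ (c : Bool) (H : ℕ → ℕ), ∀ᶠ s in (hyperfilter ℕ : Filter ℕ), ∀ᶠ t in (hyperfilter ℕ : Filter ℕ),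
      G t s = H (if c then t else s) := by
  classical
  by_cases h1 : ∀ᶠ s in (hyperfilter ℕ : Filter ℕ), ∃ c, ∀ᶠ t in (hyperfilter ℕ : Filter ℕ), G t s = c
  · refine ⟨false, fun s => if h : ∃ c, ∀ᶠ t in (hyperfilter ℕ : Filter ℕ), G t s = c then h.choose else 0, ?_⟩
    filter_upwards [h1] with s hs
    have := hs.choose_spec
    filter_upwards [this] with t ht
    show G t s = if h : ∃ c, ∀ᶠ t in (hyperfilter ℕ : Filter ℕ), G t s = c then h.choose else 0
    rw [dif_pos hs]
    exact ht
  have h1' : ∀ᶠ s in (hyperfilter ℕ : Filter ℕ), ∀ c, ∀ᶠ t in (hyperfilter ℕ : Filter ℕ), G t s ≠ c := by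
    have := Ultrafilter.eventually_not.2 h1
    filter_upwards [this] with s hs c
    rw [Ultrafilter.eventually_not]
    exact fun h => hs ⟨c, h⟩
  by_cases h2 : ∃ s0, ∀ᶠ s in (hyperfilter ℕ : Filter ℕ), ∀ᶠ t in (hyperfilter ℕ : Filter ℕ), G t s = G t s0
  · obtain ⟨s0, hs0⟩ := h2
    exact ⟨true, fun t => G t s0, hs0⟩
  exfalso
  push Not at h2
  have h2' : ∀ s0, ∀ᶠ s in (hyperfilter ℕ : Filter ℕ), ∀ᶠ t in (hyperfilter ℕ : Filter ℕ), G t s ≠ G t s0 := by
    intro s0
    exact h2 s0
  obtain ⟨s, hs1, hs2⟩ := exists_seq_of_forall_finset_exists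
    (fun s => ∀ c, ∀ᶠ t in (hyperfilter ℕ : Filter ℕ), G t s ≠ c)
    (fun s s' => ∀ᶠ t in (hyperfilter ℕ : Filter ℕ), G t s' ≠ G t s) (by
      intro F _
      have : ∀ᶠ s' in (hyperfilter ℕ : Filter ℕ), ∀ x ∈ F, ∀ᶠ t in (hyperfilter ℕ : Filter ℕ), G t s' ≠ G t x := by
        rw [Filter.eventually_all_finset]
        intro x _
        exact h2' x
      obtain ⟨y, hy⟩ := (h1'.and this).exists
      exact ⟨y, hy.1, hy.2⟩)
  have hstage : ∀ k M : ℕ, ∃ t, (∀ l ∈ Finset.range k, M < G t (s l)) ∧
      ∀ l' ∈ Finset.range k, ∀ l ∈ Finset.range l', G t (s l') ≠ G t (s l) := by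
    intro k M
    have e1 : ∀ᶠ t in (hyperfilter ℕ : Filter ℕ), ∀ l ∈ Finset.range k, M < G t (s l) := by
      rw [Filter.eventually_all_finset]
      intro l _
      have : ∀ᶠ t in (hyperfilter ℕ : Filter ℕ), ∀ c ∈ Finset.range (M + 1), G t (s l) ≠ c := by
        rw [Filter.eventually_all_finset]
        intro c _
        exact hs1 l c
      filter_upwards [this] with t ht
      by_contra hcon
      exact ht (G t (s l)) (Finset.mem_range.2 (by omega)) rfl
    have e2 : ∀ᶠ t in (hyperfilter ℕ : Filter ℕ), ∀ l' ∈ Finset.range k, ∀ l ∈ Finset.range l', G t (s l') ≠ G t (s l) := by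
      rw [Filter.eventually_all_finset]
      intro l' _
      rw [Filter.eventually_all_finset]
      intro l hl
      exact hs2 l l' (Finset.mem_range.1 hl)
    obtain ⟨t, ht⟩ := (e1.and e2).exists
    exact ⟨t, ht.1, ht.2⟩
  choose T hTa hTb using hstage
  let M : ℕ → ℕ := fun k => Nat.rec 0 (fun k r => max r ((Finset.range k).sup (fun l => G (T k r) (s l)))) k
  have hM : ∀ k, M (k + 1) = max (M k) ((Finset.range k).sup (fun l => G (T k (M k)) (s l))) := fun k => rfl
  have hMm : Monotone M := monotone_nat_of_le_succ fun k => by rw [hM]; exact le_max_left _ _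
  have hlt : ∀ k l k' l', l < k → l' < k' → k < k' → G (T k (M k)) (s l) < G (T k' (M k')) (s l') := by
    intro k l k' l' hl hl' hk
    have h3 : G (T k (M k)) (s l) ≤ M (k + 1) := by
      rw [hM]
      exact (Finset.le_sup (f := fun l => G (T k (M k)) (s l)) (Finset.mem_range.2 hl)).trans (le_max_right _ _)
    have h4 : M (k + 1) ≤ M k' := hMm hk
    have h5 := hTa k' (M k') l' (Finset.mem_range.2 hl')
    omega
  refine hG (fun k => T k (M k)) s ?_
  rintro ⟨k, l⟩ hp ⟨k', l'⟩ hq he
  have hp' : l < k := hp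
  have hq' : l' < k' := hq
  have he' : G (T k (M k)) (s l) = G (T k' (M k')) (s l') := he
  have hkk : k = k' := by
    rcases lt_trichotomy k k' with h | h | h
    · exact absurd he' (hlt k l k' l' hp' hq' h).ne
    · exact h
    · exact absurd he' (hlt k' l' k l hq' hp' h).ne'
  subst hkk
  have hll : l = l' := by
    rcases lt_trichotomy l l' with h | h | h
    · exact absurd he'.symm (hTb k (M k) l' (Finset.mem_range.2 hq') l (Finset.mem_range.2 h))
    · exact h
    · exact absurd he' (hTb k (M k) l (Finset.mem_range.2 hp') l' (Finset.mem_range.2 h))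
  rw [hll]

theorem nw_clone : IsClone (fun n => {f : Op n | NW f}) := by
  classical
  refine ⟨?_, ?_⟩
  · intro n i b a hinj
    rcases hb : b i with _ | _
    · have := hinj (show ((1, 0) : ℕ × ℕ) ∈ delta from Nat.one_pos) (show ((2, 0) : ℕ × ℕ) ∈ delta from Nat.two_pos) (by
        show a i (if b i then 1 else 0) = a i (if b i then 2 else 0)
        rw [hb]; rfl)
      simp at this
    · have := hinj (show ((2, 0) : ℕ × ℕ) ∈ delta from Nat.two_pos) (show ((2, 1) : ℕ × ℕ) ∈ delta from Nat.one_lt_two) (by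
        show a i (if b i then 2 else 0) = a i (if b i then 2 else 1)
        rw [hb]; rfl)
      simp at this
  · intro n m _ _ f g hf hg b a hinj
    have hG : ∀ i, ∃ (c : Bool) (H : ℕ → ℕ), ∀ᶠ s in (hyperfilter ℕ : Filter ℕ), ∀ᶠ t in (hyperfilter ℕ : Filter ℕ),
        (fun t s => g i (fun j => a j (if b j then t else s))) t s = H (if c then t else s) := by
      intro i
      refine canon _ fun α α' hα => ?_
      refine hg i b (fun j => if b j then a j ∘ α else a j ∘ α') ?_
      have e : (fun p : ℕ × ℕ => g i (fun j => (if b j then a j ∘ α else a j ∘ α') (if b j then p.1 else p.2))) =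
          fun p : ℕ × ℕ => g i (fun j => a j (if b j then α p.1 else α' p.2)) := by
        funext p
        congr 1
        funext j
        rcases b j with _ | _ <;> rfl
      rw [e]
      exact hα
    choose c H hH using hG
    have hall : ∀ᶠ s in (hyperfilter ℕ : Filter ℕ), ∀ᶠ t in (hyperfilter ℕ : Filter ℕ), ∀ i,
        g i (fun j => a j (if b j then t else s)) = H i (if c i then t else s) := by
      have := Filter.eventually_all.2 hH
      filter_upwards [this] with s hs
      exact Filter.eventually_all.2 hs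
    obtain ⟨r, _, hr2⟩ := exists_seq_of_forall_finset_exists
      (fun s => ∀ᶠ t in (hyperfilter ℕ : Filter ℕ), ∀ i,
        g i (fun j => a j (if b j then t else s)) = H i (if c i then t else s))
      (fun s t => (∀ i, g i (fun j => a j (if b j then t else s)) = H i (if c i then t else s)) ∧ s < t) (by
        intro F hF
        have h1 : ∀ᶠ t in (hyperfilter ℕ : Filter ℕ), ∀ x ∈ F, ((∀ i, g i (fun j => a j (if b j then t else x)) = H i (if c i then t else x)) ∧ x < t) := by
          rw [Filter.eventually_all_finset]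
          intro x hx
          refine (hF x hx).and ?_
          have : (hyperfilter ℕ : Filter ℕ) ≤ atTop := by
            rw [← Nat.cofinite_eq_atTop]
            exact hyperfilter_le_cofinite
          exact this (eventually_gt_atTop x)
        obtain ⟨y, hy⟩ := (hall.and h1).exists
        exact ⟨y, hy.1, hy.2⟩)
    have hrm : StrictMono r := strictMono_nat_of_lt_succ fun k => (hr2 k (k + 1) (Nat.lt_succ_self k)).2
    refine hf c (fun i k => H i (r k)) ?_
    intro p hp q hq he
    have key : ∀ p : ℕ × ℕ, p ∈ delta → f (fun i => H i (r (if c i then p.1 else p.2))) =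
        (fun x => f (fun i => g i x)) (fun j => a j (if b j then r p.1 else r p.2)) := by
      intro p hp
      show _ = f _
      congr 1
      funext i
      have := (hr2 p.2 p.1 hp).1 i
      rw [this]
      rcases c i with _ | _ <;> rfl
    have he' := (key p hp).symm.trans (he.trans (key q hq))
    have := hinj (show (r p.1, r p.2) ∈ delta from hrm hp) (show (r q.1, r q.2) ∈ delta from hrm hq) he'
    have h1 : r p.1 = r q.1 := congrArg Prod.fst this
    have h2 : r p.2 = r q.2 := congrArg Prod.snd this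
    exact Prod.ext (hrm.injective h1) (hrm.injective h2)

theorem nw_two : {f : Op 2 | NW f} = T₂ := by
  ext f; exact (T2_iff f).symm

theorem sub_of_clone (C : (k : ℕ) → Set (Op k)) (hC : IsClone C) (hT : C 2 = T₂) (n : ℕ) (hn : 0 < n) (f : Op n)
    (hf : f ∈ C n) : NW f := by
  intro b a hinj
  have hu : ∀ i, (fun w : Fin 2 → ℕ => a i (if b i then w 0 else w 1) : Op 2) ∈ C 2 := by
    intro i
    rw [hT, ← nw_two]
    rcases b i with _ | _
    · have : (fun w : Fin 2 → ℕ => a i (if false then w 0 else w 1) : Op 2) = fun w => op2 (fun x _ => a i x) (fun k => (![fun w => w 1, fun w => w 1] : Fin 2 → Op 2) k w) := by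
        funext w; rfl
      rw [this]
      refine nw_clone.comp 2 2 Nat.two_pos Nat.two_pos _ _ ((T2_iff _).1 (T2_unary _)) ?_
      intro k
      fin_cases k
      · exact nw_clone.proj 2 1
      · exact nw_clone.proj 2 1
    · exact (T2_iff _).1 (T2_unary (a i))
  have := hC.comp n 2 hn Nat.two_pos f (fun i w => a i (if b i then w 0 else w 1)) hf hu
  rw [hT] at this
  have h2 := (T2_iff _).1 this ![true, false] ![id, id]
  refine h2 ?_
  intro p hp q hq he
  exact hinj hp hq he

theorem Gen_eq (n : ℕ) (hn : 0 < n) : Gen T₂ n = {f : Op n | NW f} := by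
  ext f
  constructor
  · intro hf
    exact hf (fun n => {f : Op n | NW f}) nw_clone nw_two.ge
  · intro hf C hC hT
    exact nw_subset hC hT n hn f hf

theorem Gen_clone : IsClone (Gen T₂) := by
  refine ⟨?_, ?_⟩
  · intro n i C hC _
    exact hC.proj n i
  · intro n m hn hm f g hf hg C hC hT
    exact hC.comp n m hn hm f g (hf C hC hT) (fun i => hg i C hC hT)

theorem main : IsPolT₂ (Gen T₂) := by
  refine ⟨Gen_clone, ?_, ?_⟩
  · rw [Gen_eq 2 Nat.two_pos]; exact nw_two
  · intro C hC hT n hn f hf
    rw [Gen_eq n hn]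
    exact sub_of_clone C hC hT n hn f hf

end Pool.Agent.H3.CloneT2
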