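import Mathlib

set_option autoImplicit false

namespace Pool.Agent.H3.Cryst

open MvPolynomial

theorem finite_of_noeth {P R k : Type*} [CommRing R] [IsNoetherianRing R] [Field k] (S : Set P)
    (ev : P → R →+* k) (r : P → R) (h1 : ∀ a ∈ S, ev a (r a) = 1)
    (h2 : ∀ a ∈ S, ∀ b ∈ S, a ≠ b → ev b (r a) = 0) : S.Finite := by
  classical
  let A : Set (Ideal R) := {I | ∃ F : Finset P, (F : Set P) ⊆ S ∧ I = Ideal.span (r '' F)}
  have hA : A.Nonempty := ⟨_, ∅, by simp, rfl⟩
  obtain ⟨I, ⟨F, hF, rfl⟩, hmax⟩ := set_has_maximal_iff_noetherian.2 (inferInstance : IsNoetherian R R) A hA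
  refine Set.Finite.subset F.finite_toSet ?_
  intro a ha
  by_contra haF
  have hmem : r a ∈ Ideal.span (r '' F) := by
    have h3 : Ideal.span (r '' F) ≤ Ideal.span (r '' (insert a F : Finset P)) := by
      apply Ideal.span_mono
      apply Set.image_mono
      intro x hx
      simp only [Finset.coe_insert]
      exact Or.inr hx
    have h4 : Ideal.span (r '' (insert a F : Finset P)) ∈ A := by
      refine ⟨insert a F, ?_, rfl⟩
      intro x hx
      simp only [Finset.coe_insert, Set.mem_insert_iff] at hx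
      rcases hx with rfl | hx
      · exact ha
      · exact hF hx
    have h5 : ¬ (Ideal.span (r '' F) < Ideal.span (r '' (insert a F : Finset P))) := hmax _ h4
    have h6 : Ideal.span (r '' (insert a F : Finset P)) ≤ Ideal.span (r '' F) := by
      by_contra hcon
      exact h5 (lt_of_le_not_ge h3 hcon)
    apply h6
    apply Ideal.subset_span
    exact ⟨a, by simp, rfl⟩
  have hker : Ideal.span (r '' F) ≤ RingHom.ker (ev a) := by
    rw [Ideal.span_le]
    rintro _ ⟨b, hb, rfl⟩
    show ev a (r b) = 0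
    refine h2 b (hF hb) a ha ?_
    rintro rfl
    exact haF hb
  have : ev a (r a) = 0 := hker hmem
  rw [h1 a ha] at this
  exact one_ne_zero this

theorem taylor_ring {R : Type*} [CommRing R] {N : ℕ} (κ : R) (lam : Fin N → R) (K : Fin N → Fin N → R)
    (x a : Fin N → R) (h0 : κ + ∑ i, lam i * a i + ∑ i, ∑ j, K i j * (a i * a j) = 0) :
    κ + ∑ i, lam i * x i + ∑ i, ∑ j, K i j * (x i * x j) =
      ∑ i, (lam i + ∑ j, K j i * a j + ∑ j, K i j * a j) * (x i - a i) +
      ∑ i, ∑ j, K i j * ((x i - a i) * (x j - a j)) := by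
  have e5 : κ = - ∑ i, lam i * a i - ∑ i, ∑ j, K i j * (a i * a j) := by linear_combination h0
  rw [e5]
  have s1 : ∑ i, (lam i + ∑ j, K j i * a j + ∑ j, K i j * a j) * (x i - a i)
      = ∑ i, lam i * (x i - a i) + ∑ i, ∑ j, K i j * (a i * (x j - a j)) +
        ∑ i, ∑ j, K i j * (a j * (x i - a i)) := by
    simp only [add_mul, Finset.sum_add_distrib, Finset.sum_mul]
    congr 1
    · congr 1
      rw [Finset.sum_comm]
      refine Finset.sum_congr rfl fun i _ => Finset.sum_congr rfl fun j _ => by ring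
    · refine Finset.sum_congr rfl fun i _ => Finset.sum_congr rfl fun j _ => by ring
  rw [s1]
  have s2 : ∑ i, lam i * (x i - a i) = ∑ i, lam i * x i - ∑ i, lam i * a i := by
    rw [← Finset.sum_sub_distrib]
    exact Finset.sum_congr rfl fun i _ => by ring
  rw [s2]
  have s3 : ∑ i, ∑ j, K i j * (x i * x j) =
      ∑ i, ∑ j, K i j * ((x i - a i) * (x j - a j)) +
      ∑ i, ∑ j, K i j * (a i * (x j - a j)) +
      ∑ i, ∑ j, K i j * (a j * (x i - a i)) +
      ∑ i, ∑ j, K i j * (a i * a j) := by
    simp only [← Finset.sum_add_distrib]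
    refine Finset.sum_congr rfl fun i _ => Finset.sum_congr rfl fun j _ => by ring
  rw [s3]
  ring

section quad

variable {k P U : Type*} [Field k] [AddCommGroup P] [Module k P]
    [AddCommGroup U] [Module k U] {N : ℕ} (p : Module.Basis (Fin N) k P)
    (q : P →ₗ[k] P →ₗ[k] U) (l : P →ₗ[k] U) (c : U)

/-- the polynomial of the functional `ξ` -/
noncomputable def Fp (ξ : U →ₗ[k] k) : MvPolynomial (Fin N) k :=
  C (ξ c) + ∑ i, C (ξ (l (p i))) * X i + ∑ i, ∑ j, C (ξ (q (p i) (p j))) * (X i * X j)

theorem eval_Fp (a : P) (ξ : U →ₗ[k] k) :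
    eval (fun i => p.repr a i) (Fp p q l c ξ) = ξ (c + l a + q a a) := by
  have hrepr : a = ∑ i, p.repr a i • p i := (p.sum_repr a).symm
  have hl : ξ (l a) = ∑ i, ξ (l (p i)) * p.repr a i := by
    conv_lhs => rw [hrepr]
    simp only [map_sum, map_smul, smul_eq_mul]
    exact Finset.sum_congr rfl fun i _ => mul_comm _ _
  have hq : ξ (q a a) = ∑ i, ∑ j, ξ (q (p i) (p j)) * (p.repr a i * p.repr a j) := by
    conv_lhs => rw [hrepr]
    simp only [map_sum, map_smul, LinearMap.sum_apply, LinearMap.smul_apply, smul_eq_mul, Finset.mul_sum]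
    rw [Finset.sum_comm]
    refine Finset.sum_congr rfl fun i _ => Finset.sum_congr rfl fun j _ => by ring
  rw [map_add, map_add, hl, hq]
  simp only [Fp, map_add, map_sum, map_mul, eval_C, eval_X]

set_option maxHeartbeats 4000000 in
theorem taylor_Fp (a : P) (h1 : c + l a + q a a = 0) (ξ : U →ₗ[k] k) :
    Fp p q l c ξ = ∑ i, C (ξ ((l + q a + q.flip a) (p i))) * (X i - C (p.repr a i)) +
        ∑ i, ∑ j, C (ξ (q (p i) (p j))) * ((X i - C (p.repr a i)) * (X j - C (p.repr a j))) := by
  have hrepr : a = ∑ i, p.repr a i • p i := (p.sum_repr a).symm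
  have h0 : (C (ξ c) : MvPolynomial (Fin N) k) + ∑ i, C (ξ (l (p i))) * C (p.repr a i) +
      ∑ i, ∑ j, C (ξ (q (p i) (p j))) * (C (p.repr a i) * C (p.repr a j)) = 0 := by
    have h2 := eval_Fp p q l c a ξ
    rw [h1, map_zero] at h2
    simp only [Fp, map_add, map_sum, map_mul, eval_C, eval_X] at h2
    have h3 := congrArg (C : k →+* MvPolynomial (Fin N) k) h2
    simpa only [map_add, map_sum, map_mul, map_zero] using h3
  rw [Fp, taylor_ring _ _ _ _ (fun i => C (p.repr a i)) h0]
  congr 1
  refine Finset.sum_congr rfl fun i _ => ?_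
  congr 1
  have e2 : ξ (q a (p i)) = ∑ j, ξ (q (p j) (p i)) * p.repr a j := by
    conv_lhs => rw [hrepr]
    simp only [map_sum, map_smul, LinearMap.sum_apply, LinearMap.smul_apply, smul_eq_mul]
    exact Finset.sum_congr rfl fun j _ => mul_comm _ _
  have e3 : ξ (q (p i) a) = ∑ j, ξ (q (p i) (p j)) * p.repr a j := by
    conv_lhs => rw [hrepr]
    simp only [map_sum, map_smul, smul_eq_mul]
    exact Finset.sum_congr rfl fun j _ => mul_comm _ _
  simp only [LinearMap.add_apply, LinearMap.flip_apply, map_add, e2, e3, map_sum, map_mul]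

end quad

theorem fin_quad {k P U : Type*} [Field k] [AddCommGroup P] [Module k P] [FiniteDimensional k P]
    [AddCommGroup U] [Module k U] (q : P →ₗ[k] P →ₗ[k] U) (l : P →ₗ[k] U) (c : U) (S : Set P)
    (h1 : ∀ a ∈ S, c + l a + q a a = 0)
    (h2 : ∀ a ∈ S, ∀ y, l y + q a y + q y a = 0 → y = 0) : S.Finite := by
  classical
  obtain ⟨N, ⟨p⟩⟩ : ∃ N : ℕ, Nonempty (Module.Basis (Fin N) k P) := ⟨_, ⟨Module.finBasis k P⟩⟩
  let J : Ideal (MvPolynomial (Fin N) k) := Ideal.span (Set.range (Fp p q l c))
  have hJ : ∀ b ∈ S, J ≤ RingHom.ker (eval (fun i => p.repr b i)) := by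
    intro b hb
    rw [Ideal.span_le]
    rintro _ ⟨ξ, rfl⟩
    show eval _ (Fp p q l c ξ) = 0
    rw [eval_Fp, h1 b hb, map_zero]
  have key : ∀ a ∈ S, ∃ r : MvPolynomial (Fin N) k, eval (fun i => p.repr a i) r = 1 ∧
      ∀ i, r * (X i - C (p.repr a i)) ∈ J := by
    intro a ha
    let m : Ideal (MvPolynomial (Fin N) k) :=
      Ideal.span (Set.range fun i => (X i - C (p.repr a i) : MvPolynomial (Fin N) k))
    have hma : m ≤ RingHom.ker (eval (fun i => p.repr a i)) := by
      rw [Ideal.span_le]
      rintro _ ⟨i, rfl⟩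
      show eval _ _ = 0
      rw [map_sub, eval_X, eval_C, sub_self]
    have hXm : ∀ i, (X i - C (p.repr a i) : MvPolynomial (Fin N) k) ∈ m :=
      fun i => Ideal.subset_span ⟨i, rfl⟩
    have hAinj : LinearMap.ker (l + q a + q.flip a) = ⊥ := by
      rw [LinearMap.ker_eq_bot']
      intro y hy
      exact h2 a ha y hy
    obtain ⟨g, hg⟩ := LinearMap.exists_leftInverse_of_injective _ hAinj
    let Nm : Submodule (MvPolynomial (Fin N) k) (MvPolynomial (Fin N) k ⧸ J) :=
      Submodule.map (Submodule.mkQ J) m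
    have hfg : Nm.FG := by
      apply Submodule.FG.map
      exact Submodule.fg_span (Set.finite_range _)
    have hle : Nm ≤ m • Nm := by
      rw [Submodule.map_le_iff_le_comap]
      show Ideal.span _ ≤ _
      rw [Ideal.span_le]
      rintro _ ⟨n, rfl⟩
      show Submodule.mkQ J (X n - C (p.repr a n)) ∈ m • Nm
      have hξ : ∀ i, ((p.coord n) ∘ₗ g) ((l + q a + q.flip a) (p i)) = if i = n then 1 else 0 := by
        intro i
        have h5 : g ((l + q a + q.flip a) (p i)) = p i := by
          have := congrArg (fun f => f (p i)) hg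
          simpa using this
        show p.coord n (g ((l + q a + q.flip a) (p i))) = _
        rw [h5]
        simp [Module.Basis.coord_apply, Finsupp.single_apply]
      have ht := taylor_Fp p q l c a (h1 a ha) ((p.coord n) ∘ₗ g)
      have hlin : ∑ i, C (((p.coord n) ∘ₗ g) ((l + q a + q.flip a) (p i))) *
          (X i - C (p.repr a i) : MvPolynomial (Fin N) k) = X n - C (p.repr a n) := by
        rw [Finset.sum_eq_single n]
        · rw [hξ, if_pos rfl, map_one, one_mul]
        · intro i _ hi; rw [hξ, if_neg hi, map_zero, zero_mul]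
        · intro h; exact absurd (Finset.mem_univ _) h
      rw [hlin] at ht
      have h6 := eq_sub_of_add_eq ht.symm
      rw [h6, map_sub]
      refine Submodule.sub_mem _ ?_ ?_
      · have h7 : Submodule.mkQ J (Fp p q l c ((p.coord n) ∘ₗ g)) = 0 := by
          rw [Submodule.mkQ_apply, Submodule.Quotient.mk_eq_zero]
          exact Ideal.subset_span ⟨_, rfl⟩
        rw [h7]; exact Submodule.zero_mem _
      · rw [map_sum]
        refine Submodule.sum_mem _ fun i _ => ?_
        rw [map_sum]
        refine Submodule.sum_mem _ fun j _ => ?_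
        rw [mul_left_comm, ← smul_eq_mul, map_smul]
        refine Submodule.smul_mem_smul (hXm i) ?_
        exact Submodule.mem_map_of_mem (Ideal.mul_mem_left _ _ (hXm j))
    obtain ⟨r, hr1, hr2⟩ := Submodule.exists_sub_one_mem_and_smul_eq_zero_of_fg_of_le_smul m Nm hfg hle
    refine ⟨r, ?_, ?_⟩
    · have h3 : eval (fun i => p.repr a i) (r - 1) = 0 := hma hr1
      rw [map_sub, map_one] at h3
      exact sub_eq_zero.1 h3
    · intro i
      have h3 := hr2 _ (Submodule.mem_map_of_mem (f := Submodule.mkQ J) (hXm i))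
      rw [← map_smul, Submodule.mkQ_apply, Submodule.Quotient.mk_eq_zero] at h3
      exact h3
  choose! r hr1 hr2 using key
  refine finite_of_noeth S (fun a => eval (fun i => p.repr a i)) r hr1 ?_
  intro a ha b hb hab
  have : ∃ i, p.repr b i ≠ p.repr a i := by
    by_contra hcon
    push Not at hcon
    apply hab
    apply p.repr.injective
    ext i
    exact (hcon i).symm
  obtain ⟨i, hi⟩ := this
  have h3 : eval (fun i => p.repr b i) (r a * (X i - C (p.repr a i))) = 0 := hJ b hb (hr2 a ha i)
  rw [map_mul] at h3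
  rcases mul_eq_zero.1 h3 with h | h
  · exact h
  · exfalso
    rw [map_sub, eval_X, eval_C] at h
    exact hi (sub_eq_zero.1 h)

end Pool.Agent.H3.Cryst
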