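import Mathlib
import Pool.Agent.H3.CrystQuad

set_option autoImplicit false

namespace Pool.Agent.H3.Cryst

theorem exists_chart {k G : Type*} [Field k] [AddCommGroup G] [Module k G] {N : ℕ}
    (w : Module.Basis (Fin N) k G) (V : Submodule k G) :
    ∃ S : Set (Fin N), IsCompl V (Submodule.span k (w '' S)) := by
  obtain ⟨κ, a, _, hspan, hli⟩ := exists_linearIndependent' k (fun i => V.mkQ (w i))
  refine ⟨Set.range a, ?_, ?_⟩
  · rw [Submodule.disjoint_def]
    intro x hxV hxC
    rw [← Set.range_comp] at hxC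
    obtain ⟨c, hc⟩ := (Finsupp.mem_span_range_iff_exists_finsupp).1 hxC
    have h0 : V.mkQ x = 0 := by
      rw [Submodule.mkQ_apply, Submodule.Quotient.mk_eq_zero]; exact hxV
    rw [← hc] at h0
    rw [linearIndependent_iff] at hli
    have : c = 0 := by
      apply hli
      rw [Finsupp.linearCombination_apply]
      simp only [Finsupp.sum, map_sum, map_smul, Function.comp_apply] at h0 ⊢
      exact h0
    rw [← hc, this]
    simp
  · rw [codisjoint_iff, eq_top_iff]
    intro x _
    have hx : V.mkQ x ∈ Submodule.span k (Set.range ((fun i => V.mkQ (w i)) ∘ a)) := by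
      rw [hspan]
      have : Set.range (fun i => V.mkQ (w i)) = V.mkQ '' Set.range w := by
        rw [← Set.range_comp]; rfl
      rw [this, Submodule.span_image, w.span_eq, Submodule.map_top, Submodule.range_mkQ]
      trivial
    have e : Set.range ((fun i => V.mkQ (w i)) ∘ a) = V.mkQ '' (w '' Set.range a) := by
      rw [← Set.range_comp, ← Set.range_comp]; rfl
    rw [e, Submodule.span_image] at hx
    obtain ⟨c, hc, hcx⟩ := hx
    rw [Submodule.mem_sup]
    refine ⟨x - c, ?_, c, hc, by abel⟩
    rw [← Submodule.Quotient.mk_eq_zero V, Submodule.Quotient.mk_sub, sub_eq_zero]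
    exact hcx.symm

theorem finChart {k G T : Type*} [Field k] [AddCommGroup G] [Module k G] [FiniteDimensional k G]
    [AddCommGroup T] [Module k T] (br : G →ₗ[k] G →ₗ[k] T) (W C : Submodule k G)
    (F : Set (Submodule k G)) (h0 : ∀ V ∈ F, IsCompl V C) (h1 : ∀ V ∈ F, V ≤ W)
    (h2 : ∀ V ∈ F, ∀ a ∈ V, ∀ b ∈ V, br a b = 0)
    (h3 : ∀ V ∈ F, ∀ δ : V →ₗ[k] G, (∀ a, δ a ∈ W) →
      (∀ a b : V, br (δ a) b + br a (δ b) = 0) → ∀ a, δ a ∈ V) : F.Finite := by
  classical
  rcases F.eq_empty_or_nonempty with rfl | ⟨V₀, hV₀⟩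
  · exact Set.finite_empty
  have hC0 := h0 V₀ hV₀
  have hex : ∀ V ∈ F, ∃ t : V₀ →ₗ[k] (C ⊓ W : Submodule k G), ∀ a : V₀, (a : G) + (t a : G) ∈ V := by
    intro V hV
    have hC := h0 V hV
    let pr : V₀ →ₗ[k] G := V.subtype ∘ₗ (Submodule.projectionOnto V C hC) ∘ₗ V₀.subtype
    have hpr : ∀ a : V₀, pr a ∈ V := fun a => (Submodule.projectionOnto V C hC (a : G)).2
    have hprC : ∀ a : V₀, pr a - (a : G) ∈ C := by
      intro a
      have hk : (Submodule.projectionOnto V C hC) (pr a - (a : G)) = 0 := by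
        rw [map_sub]
        show (Submodule.projectionOnto V C hC)
          ((Submodule.projectionOnto V C hC (a : G) : V) : G) - _ = 0
        rw [Submodule.projectionOnto_apply_left, sub_self]
      rwa [← LinearMap.mem_ker, Submodule.ker_projectionOnto] at hk
    refine ⟨LinearMap.codRestrict (C ⊓ W) (pr - V₀.subtype) ?_, ?_⟩
    · intro a
      exact ⟨hprC a, Submodule.sub_mem _ (h1 V hV (hpr a)) (h1 V₀ hV₀ a.2)⟩
    · intro a
      show (a : G) + (pr a - (a : G)) ∈ V
      have : (a : G) + (pr a - (a : G)) = pr a := by abel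
      rw [this]; exact hpr a
  choose! t ht using hex
  have huniq : ∀ V ∈ F, ∀ v ∈ V, ∃ a : V₀, v = (a : G) + (t V a : G) := by
    intro V hV v hv
    let a := Submodule.projectionOnto V₀ C hC0 v
    refine ⟨a, ?_⟩
    have hm1 : v - ((a : G) + (t V a : G)) ∈ V := Submodule.sub_mem _ hv (ht V hV a)
    have hm2 : v - (a : G) ∈ C := by
      have hk : (Submodule.projectionOnto V₀ C hC0) (v - (a : G)) = 0 := by
        rw [map_sub, Submodule.projectionOnto_apply_left, sub_self]
      rwa [← LinearMap.mem_ker, Submodule.ker_projectionOnto] at hk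
    have hm3 : v - ((a : G) + (t V a : G)) ∈ C := by
      have : v - ((a : G) + (t V a : G)) = (v - (a : G)) - (t V a : G) := by abel
      rw [this]
      exact Submodule.sub_mem _ hm2 (t V a).2.1
    have := (Submodule.disjoint_def.1 (h0 V hV).disjoint) _ hm1 hm3
    exact sub_eq_zero.1 this
  let Q : (V₀ →ₗ[k] (C ⊓ W : Submodule k G)) →ₗ[k] (V₀ →ₗ[k] (C ⊓ W : Submodule k G)) →ₗ[k]
      (V₀ → V₀ → T) := LinearMap.mk₂ k (fun s s' => fun a b => br (s a) (s' b))
    (by intro s s' s''; funext a b; simp)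
    (by intro r s s'; funext a b; simp)
    (by intro s s' s''; funext a b; simp)
    (by intro r s s'; funext a b; simp)
  let L : (V₀ →ₗ[k] (C ⊓ W : Submodule k G)) →ₗ[k] (V₀ → V₀ → T) :=
    { toFun := fun s => fun a b => br (s a) b + br a (s b)
      map_add' := by intro s s'; funext a b; simp; abel
      map_smul' := by intro r s; funext a b; simp }
  have hfin : (t '' F).Finite := by
    refine fin_quad Q L 0 (t '' F) ?_ ?_
    · rintro _ ⟨V, hV, rfl⟩
      funext a b
      have e1 := h2 V hV _ (ht V hV a) _ (ht V hV b)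
      have e2 := h2 V₀ hV₀ a a.2 b b.2
      show (0 : T) + (br (t V a) b + br a (t V b)) + br (t V a) (t V b) = 0
      simp only [map_add, LinearMap.add_apply] at e1
      rw [e2] at e1
      refine Eq.trans ?_ e1
      abel
    · rintro _ ⟨V, hV, rfl⟩ y hy
      have hy' : ∀ a b : V₀, br (y a) ((b : G) + (t V b : G)) + br ((a : G) + (t V a : G)) (y b) = 0 := by
        intro a b
        have := congrFun (congrFun hy a) b
        have e : (br (y a) b + br a (y b)) + br (t V a) (y b) + br (y a) (t V b) = 0 := this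
        simp only [map_add, LinearMap.add_apply]
        rw [← e]; abel
      let δ : V →ₗ[k] G := (C ⊓ W).subtype ∘ₗ y ∘ₗ (Submodule.projectionOnto V₀ C hC0) ∘ₗ V.subtype
      have hdec : ∀ v : V, (v : G) = (Submodule.projectionOnto V₀ C hC0 (v : G) : G) +
          (t V (Submodule.projectionOnto V₀ C hC0 (v : G)) : G) := by
        intro v
        obtain ⟨a, ha⟩ := huniq V hV v v.2
        have : Submodule.projectionOnto V₀ C hC0 (v : G) = a := by
          rw [ha, map_add, Submodule.projectionOnto_apply_left]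
          have : Submodule.projectionOnto V₀ C hC0 (t V a : G) = 0 := by
            rw [← LinearMap.mem_ker, Submodule.ker_projectionOnto]
            exact (t V a).2.1
          rw [this, add_zero]
        rw [this]; exact ha
      have hδ := h3 V hV δ (fun a => (y _).2.2) (by
        intro a b
        have := hy' (Submodule.projectionOnto V₀ C hC0 (a : G)) (Submodule.projectionOnto V₀ C hC0 (b : G))
        rw [← hdec a, ← hdec b] at this
        exact this)
      ext a
      have hv : (a : G) + (t V a : G) ∈ V := ht V hV a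
      have h5 := hδ ⟨_, hv⟩
      have h6 : δ ⟨_, hv⟩ = y a := by
        show ((y (Submodule.projectionOnto V₀ C hC0 ((a : G) + (t V a : G))) : (C ⊓ W : Submodule k G)) : G) = y a
        have : Submodule.projectionOnto V₀ C hC0 ((a : G) + (t V a : G)) = a := by
          rw [map_add, Submodule.projectionOnto_apply_left]
          have : Submodule.projectionOnto V₀ C hC0 (t V a : G) = 0 := by
            rw [← LinearMap.mem_ker, Submodule.ker_projectionOnto]
            exact (t V a).2.1
          rw [this, add_zero]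
        rw [this]
      rw [h6] at h5
      exact (Submodule.disjoint_def.1 (h0 V hV).disjoint) _ h5 (y a).2.1
  refine Set.Finite.of_finite_image hfin ?_
  intro V hV V' hV' h
  have h : t V = t V' := h
  ext v
  constructor
  · intro hv
    obtain ⟨a, rfl⟩ := huniq V hV v hv
    rw [h]
    exact ht V' hV' a
  · intro hv
    obtain ⟨a, rfl⟩ := huniq V' hV' v hv
    rw [← h]
    exact ht V hV a

theorem finSub {k G T : Type*} [Field k] [AddCommGroup G] [Module k G] [FiniteDimensional k G]
    [AddCommGroup T] [Module k T] (br : G →ₗ[k] G →ₗ[k] T) (W : Submodule k G)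
    (F : Set (Submodule k G)) (h1 : ∀ V ∈ F, V ≤ W)
    (h2 : ∀ V ∈ F, ∀ a ∈ V, ∀ b ∈ V, br a b = 0)
    (h3 : ∀ V ∈ F, ∀ δ : V →ₗ[k] G, (∀ a, δ a ∈ W) →
      (∀ a b : V, br (δ a) b + br a (δ b) = 0) → ∀ a, δ a ∈ V) : F.Finite := by
  classical
  obtain ⟨N, ⟨w⟩⟩ : ∃ N : ℕ, Nonempty (Module.Basis (Fin N) k G) := ⟨_, ⟨Module.finBasis k G⟩⟩
  have hcov : F ⊆ ⋃ S : Set (Fin N), {V ∈ F | IsCompl V (Submodule.span k (w '' S))} := by
    intro V hV
    obtain ⟨S, hS⟩ := exists_chart w V
    exact Set.mem_iUnion.2 ⟨S, hV, hS⟩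
  refine Set.Finite.subset (Set.finite_iUnion fun S => ?_) hcov
  refine finChart br W (Submodule.span k (w '' S)) _ (fun V hV => hV.2) (fun V hV => h1 V hV.1)
    (fun V hV => h2 V hV.1) (fun V hV => h3 V hV.1)

end Pool.Agent.H3.Cryst
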