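import Mathlib
import Pool.Agent.H3.CrystSub

set_option autoImplicit false

namespace Pool.Agent.H3.Cryst

variable {Γ ι : Type*} [Group Γ] [Fintype ι]

/-- A rational realisation. -/
structure RR (Γ ι : Type*) [Group Γ] [Fintype ι] where
  M : Γ →* Module.End ℚ (ι → ℚ)
  t : Γ → (ι → ℚ)
  t_mul : ∀ g h, t (g * h) = M g (t h) + t g
  inj : ∀ g, M g = 1 → t g = 0 → g = 1
  lat : ∀ z : ι → ℤ, ∃ g, M g = 1 ∧ t g = fun k => (z k : ℚ)
  lat' : ∀ g, M g = 1 → ∃ z : ι → ℤ, t g = fun k => (z k : ℚ)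
  η : (ι → ℚ) →ₗ[ℚ] (ι → ℚ) →ₗ[ℚ] ℝ
  η_symm : ∀ x y, η x y = η y x
  η_inv : ∀ g x y, η (M g x) (M g y) = η x y
  η_nd : ∀ x, (∀ y, η x y = 0) → x = 0

namespace RR

variable (R S S' : RR Γ ι)

/-- membership in the translation lattice -/
def L (g : Γ) : Prop := R.M g = 1

theorem t_one : R.t 1 = 0 := by
  have := R.t_mul 1 1
  rw [mul_one, map_one] at this
  simpa using this

theorem L_one : R.L 1 := map_one _

theorem L_mul {g h : Γ} (hg : R.L g) (hh : R.L h) : R.L (g * h) := by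
  unfold L at *; rw [map_mul, hg, hh, mul_one]

theorem M_inv_mul (g : Γ) : R.M g⁻¹ * R.M g = 1 := by rw [← map_mul, inv_mul_cancel, map_one]

theorem M_mul_inv (g : Γ) : R.M g * R.M g⁻¹ = 1 := by rw [← map_mul, mul_inv_cancel, map_one]

theorem L_inv {g : Γ} (hg : R.L g) : R.L g⁻¹ := by
  have := R.M_inv_mul g
  unfold L at *
  rwa [hg, mul_one] at this

theorem L_conj {g : Γ} (hg : R.L g) (h : Γ) : R.L (h * g * h⁻¹) := by
  unfold L at *
  rw [map_mul, map_mul, hg, mul_one, R.M_mul_inv]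

theorem t_mul_L {g : Γ} (hg : R.L g) (h : Γ) : R.t (g * h) = R.t h + R.t g := by
  rw [R.t_mul, hg]; rfl

theorem t_inv (g : Γ) : R.M g (R.t g⁻¹) + R.t g = 0 := by
  rw [← R.t_mul, mul_inv_cancel, R.t_one]

theorem t_inv_L {g : Γ} (hg : R.L g) : R.t g⁻¹ = - R.t g := by
  have := R.t_inv g
  rw [hg] at this
  exact eq_neg_of_add_eq_zero_left this

theorem eq_of_t {g h : Γ} (hg : R.L g) (hh : R.L h) (ht : R.t g = R.t h) : g = h := by
  have h1 : R.L (g * h⁻¹) := R.L_mul hg (R.L_inv hh)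
  have h2 : R.t (g * h⁻¹) = 0 := by
    rw [R.t_mul_L hg, R.t_inv_L hh, ht, neg_add_cancel]
  exact mul_inv_eq_one.1 (R.inj _ h1 h2)

theorem L_comm {g h : Γ} (hg : R.L g) (hh : R.L h) : g * h = h * g :=
  R.eq_of_t (R.L_mul hg hh) (R.L_mul hh hg) (by rw [R.t_mul_L hg, R.t_mul_L hh, add_comm])

theorem t_conj {g : Γ} (hg : R.L g) (h : Γ) : R.t (h * g * h⁻¹) = R.M h (R.t g) := by
  rw [mul_assoc, R.t_mul, R.t_mul_L hg, map_add]
  have := R.t_inv h
  rw [add_assoc, add_comm (R.M h (R.t g)), ← add_assoc, this, zero_add]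

/-- a linear map vanishing on the lattice is zero -/
theorem lin_ext {X : Type*} [AddCommGroup X] [Module ℚ X] (f g : (ι → ℚ) →ₗ[ℚ] X)
    (h : ∀ μ, R.L μ → f (R.t μ) = g (R.t μ)) : f = g := by
  classical
  refine (Pi.basisFun ℚ ι).ext fun k => ?_
  obtain ⟨μ, hμ, ht⟩ := R.lat (Pi.single k 1)
  have : (Pi.basisFun ℚ ι) k = R.t μ := by
    rw [ht]
    ext j
    rw [Pi.basisFun_apply]
    by_cases hj : j = k
    · subst hj; simp
    · simp [hj]
  rw [this]
  exact h μ hμ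

theorem scale (x : ι → ℚ) : ∃ N : ℕ, N ≠ 0 ∧ ∃ μ, R.L μ ∧ (N : ℚ) • x = R.t μ := by
  classical
  refine ⟨∏ k, (x k).den, Finset.prod_ne_zero_iff.2 fun k _ => (x k).den_nz, ?_⟩
  have hz : ∀ k, ∃ z : ℤ, ((∏ k, (x k).den : ℕ) : ℚ) * x k = z := by
    intro k
    obtain ⟨m, hm⟩ := Finset.dvd_prod_of_mem (fun k => (x k).den) (Finset.mem_univ k)
    refine ⟨m * (x k).num, ?_⟩
    rw [hm]
    push_cast
    have := Rat.den_mul_eq_num (x k)
    rw [mul_comm ((x k).den : ℚ) (m : ℚ), mul_assoc, this]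
  choose z hz using hz
  obtain ⟨μ, hμ, ht⟩ := R.lat z
  refine ⟨μ, hμ, ?_⟩
  rw [ht]
  ext k
  rw [Pi.smul_apply, smul_eq_mul]
  exact hz k

/-- product of two `b`'s from the same lattice vanishes -/
theorem bb {g h : Γ} (hg : S.L g) (hh : S.L h) : (R.M g - 1) * (R.M h - 1) = 0 := by
  refine R.lin_ext _ _ fun μ hμ => ?_
  rw [Module.End.mul_apply, LinearMap.zero_apply]
  have h1 : (R.M h - 1) (R.t μ) = R.t (h * μ * h⁻¹ * μ⁻¹) := by
    rw [R.t_mul_L (R.L_conj hμ h), R.t_inv_L hμ, R.t_conj hμ]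
    show R.M h (R.t μ) - R.t μ = _
    abel
  have hκR : R.L (h * μ * h⁻¹ * μ⁻¹) := R.L_mul (R.L_conj hμ h) (R.L_inv hμ)
  have hκS : S.L (h * μ * h⁻¹ * μ⁻¹) := by
    have : h * μ * h⁻¹ * μ⁻¹ = h * (μ * h⁻¹ * μ⁻¹) := by group
    rw [this]
    exact S.L_mul hh (S.L_conj (S.L_inv hh) μ)
  rw [h1]
  show R.M g _ - _ = 0
  rw [← R.t_conj hκR g]
  have hc := S.L_comm hg hκS
  rw [hc, mul_assoc, mul_inv_cancel, mul_one]
  show R.t _ - R.t _ = 0
  rw [sub_self]

theorem M_add {g h : Γ} (hg : S.L g) (hh : S.L h) : R.M (g * h) - 1 = (R.M g - 1) + (R.M h - 1) := by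
  have := R.bb S hg hh
  rw [map_mul]
  have e : ∀ x y : Module.End ℚ (ι → ℚ), (1 + x) * (1 + y) - 1 = x + y + x * y := by
    intro x y; noncomm_ring
  have h1 := e (R.M g - 1) (R.M h - 1)
  rw [this, add_zero] at h1
  rw [← h1]
  congr 2 <;> abel

/-- the logarithm of `ρ_R(g)` -/
noncomputable def ell (g : Γ) : Module.End ℚ (ι → ℚ) × (ι → ℚ) :=
  (R.M g - 1, R.t g - (1 / 2 : ℚ) • (R.M g - 1) (R.t g))

theorem swap_t {g h : Γ} (hg : S.L g) (hh : S.L h) : (R.M g - 1) (R.t h) = (R.M h - 1) (R.t g) := by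
  have h1 : R.t (g * h) = R.t (h * g) := by rw [S.L_comm hg hh]
  rw [R.t_mul, R.t_mul] at h1
  show R.M g (R.t h) - R.t h = R.M h (R.t g) - R.t g
  rw [sub_eq_sub_iff_add_eq_add]
  exact h1

theorem ell_mul {g h : Γ} (hg : S.L g) (hh : S.L h) : R.ell (g * h) = R.ell g + R.ell h := by
  have h1 := R.M_add S hg hh
  unfold ell
  rw [h1]
  refine Prod.ext rfl ?_
  show R.t (g * h) - _ = _
  have h2 : R.t (g * h) = R.t g + R.t h + (R.M g - 1) (R.t h) := by
    rw [R.t_mul]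
    show _ = R.t g + R.t h + (R.M g (R.t h) - R.t h)
    abel
  have z1 : ∀ x, (R.M g - 1) ((R.M g - 1) x) = 0 := fun x => by
    have := congrArg (fun f => f x) (R.bb S hg hg); simpa using this
  have z2 : ∀ x, (R.M h - 1) ((R.M g - 1) x) = 0 := fun x => by
    have := congrArg (fun f => f x) (R.bb S hh hg); simpa using this
  have h3 := R.swap_t S hg hh
  rw [h2, LinearMap.add_apply, map_add, map_add, map_add, map_add, z1, z2, ← h3]
  show _ = (R.t g - (1 / 2 : ℚ) • (R.M g - 1) (R.t g)) + (R.t h - (1 / 2 : ℚ) • (R.M h - 1) (R.t h))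
  module

theorem ell_one : R.ell 1 = 0 := by
  unfold ell
  rw [map_one, R.t_one]
  simp

theorem ell_inv {g : Γ} (hg : S.L g) : R.ell g⁻¹ = - R.ell g := by
  have := R.ell_mul S hg (S.L_inv hg)
  rw [mul_inv_cancel, R.ell_one] at this
  exact (neg_eq_of_add_eq_zero_right this.symm).symm

/-- bracket of the affine Lie algebra -/
noncomputable def br : (Module.End ℚ (ι → ℚ) × (ι → ℚ)) →ₗ[ℚ] (Module.End ℚ (ι → ℚ) × (ι → ℚ)) →ₗ[ℚ]
    (Module.End ℚ (ι → ℚ) × (ι → ℚ)) :=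
  LinearMap.mk₂ ℚ (fun x y => (x.1 * y.1 - y.1 * x.1, x.1 y.2 - y.1 x.2))
    (by
      intro x y z
      refine Prod.ext ?_ ?_
      · show (x.1 + y.1) * z.1 - z.1 * (x.1 + y.1) = (x.1 * z.1 - z.1 * x.1) + (y.1 * z.1 - z.1 * y.1)
        noncomm_ring
      · show (x.1 + y.1) z.2 - z.1 (x.2 + y.2) = (x.1 z.2 - z.1 x.2) + (y.1 z.2 - z.1 y.2)
        rw [LinearMap.add_apply, map_add]; abel)
    (by
      intro r x z
      refine Prod.ext ?_ ?_
      · show (r • x.1) * z.1 - z.1 * (r • x.1) = r • (x.1 * z.1 - z.1 * x.1)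
        rw [smul_mul_assoc, mul_smul_comm, smul_sub]
      · show (r • x.1) z.2 - z.1 (r • x.2) = r • (x.1 z.2 - z.1 x.2)
        rw [LinearMap.smul_apply, map_smul, smul_sub])
    (by
      intro x y z
      refine Prod.ext ?_ ?_
      · show x.1 * (y.1 + z.1) - (y.1 + z.1) * x.1 = (x.1 * y.1 - y.1 * x.1) + (x.1 * z.1 - z.1 * x.1)
        noncomm_ring
      · show x.1 (y.2 + z.2) - (y.1 + z.1) x.2 = (x.1 y.2 - y.1 x.2) + (x.1 z.2 - z.1 x.2)
        rw [LinearMap.add_apply, map_add]; abel)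
    (by
      intro r x z
      refine Prod.ext ?_ ?_
      · show x.1 * (r • z.1) - (r • z.1) * x.1 = r • (x.1 * z.1 - z.1 * x.1)
        rw [smul_mul_assoc, mul_smul_comm, smul_sub]
      · show x.1 (r • z.2) - (r • z.1) x.2 = r • (x.1 z.2 - z.1 x.2)
        rw [LinearMap.smul_apply, map_smul, smul_sub])

theorem br_apply (x y : Module.End ℚ (ι → ℚ) × (ι → ℚ)) :
    br x y = (x.1 * y.1 - y.1 * x.1, x.1 y.2 - y.1 x.2) := rfl

theorem br_anti (x y : Module.End ℚ (ι → ℚ) × (ι → ℚ)) : br x y = - br y x := by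
  rw [br_apply, br_apply]
  refine Prod.ext ?_ ?_
  · show _ = -(_ - _); abel
  · show _ = -(_ - _); abel

theorem br_ell {g h : Γ} (hg : S.L g) (hh : S'.L h) :
    br (R.ell g) (R.ell h) = R.ell (g * h * g⁻¹ * h⁻¹) := by
  set κ := g * h * g⁻¹ * h⁻¹ with hκ
  have hκS : S.L κ := by
    have : κ = g * (h * g⁻¹ * h⁻¹) := by rw [hκ]; group
    rw [this]
    exact S.L_mul hg (S.L_conj (S.L_inv hg) h)
  have hκS' : S'.L κ := S'.L_mul (S'.L_conj hh g) (S'.L_inv hh)
  have dc := R.bb S' hκS' hh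
  have cd := R.bb S' hh hκS'
  have db := R.bb S hκS hg
  have bd := R.bb S hg hκS
  have bb := R.bb S hg hg
  have cc := R.bb S' hh hh
  have hrel : κ * (h * g) = g * h := by rw [hκ]; group
  have hM : R.M κ * (R.M h * R.M g) = R.M g * R.M h := by rw [← map_mul, ← map_mul, ← map_mul, hrel]
  have ht : R.t (κ * (h * g)) = R.t (g * h) := by rw [hrel]
  rw [R.t_mul κ (h * g), R.t_mul h g, R.t_mul g h] at ht
  have h4 := R.swap_t S hκS hg
  have h4' := R.swap_t S' hκS' hh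
  unfold ell
  rw [br_apply]
  set b := R.M g - 1 with hb
  set c := R.M h - 1 with hc
  set d := R.M κ - 1 with hd
  have eb : R.M g = 1 + b := by rw [hb]; abel
  have ec : R.M h = 1 + c := by rw [hc]; abel
  have ed : R.M κ = 1 + d := by rw [hd]; abel
  rw [eb, ec, ed] at hM
  have hdd : d = b * c - c * b := by
    have e : (1 + d) * ((1 + c) * (1 + b)) = 1 + b + c + d + c * b + d * c + d * b + (d * c) * b := by noncomm_ring
    rw [e, dc, db] at hM
    have e2 : (1 + b) * (1 + c) = 1 + b + c + b * c := by noncomm_ring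
    rw [e2] at hM
    have e3 : d = (1 + b + c + d + c * b + 0 + 0 + 0 * b) - (1 + b + c + c * b) := by noncomm_ring
    rw [e3, hM]
    noncomm_ring
  rw [eb, ec, ed] at ht
  set t := R.t g
  set u := R.t h
  set k := R.t κ
  have ap : ∀ (f f' : Module.End ℚ (ι → ℚ)) x, (f * f') x = f (f' x) := fun f f' x => rfl
  have zbb : ∀ x, b (b x) = 0 := fun x => by rw [← ap, bb]; rfl
  have zcc : ∀ x, c (c x) = 0 := fun x => by rw [← ap, cc]; rfl
  have zbd : ∀ x, b (d x) = 0 := fun x => by rw [← ap, bd]; rfl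
  have zcd : ∀ x, c (d x) = 0 := fun x => by rw [← ap, cd]; rfl
  have zdc : ∀ x, d (c x) = 0 := fun x => by rw [← ap, dc]; rfl
  have zdb : ∀ x, d (b x) = 0 := fun x => by rw [← ap, db]; rfl
  have hdx : ∀ x, d x = b (c x) - c (b x) := fun x => by rw [hdd]; rfl
  have one_ap : ∀ x : ι → ℚ, (1 : Module.End ℚ (ι → ℚ)) x = x := fun x => rfl
  have hk : k = b u - c t - d t - d u := by
    simp only [LinearMap.add_apply, one_ap, map_add, zdc] at ht
    have : k = (u + b u + t) - (t + c t + u + (d t + 0 + d u)) := by rw [← ht]; abel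
    rw [this]; abel
  have hbk : b k = - b (c t) := by
    rw [hk, map_sub, map_sub, map_sub, zbb, zbd, zbd]; abel
  have hck : c k = c (b u) := by
    rw [hk, map_sub, map_sub, map_sub, zcc, zcd, zcd]; abel
  have hdk : d k = 0 := by
    rw [hdx, hck, hbk, map_neg]
    have e1 : b (c (b u)) = 0 := by
      have := zdb u
      rw [hdx, zbb, map_zero, sub_zero] at this
      exact this
    have e2 : c (b (c t)) = 0 := by
      have := zdc t
      rw [hdx, zcc, map_zero, zero_sub, neg_eq_zero] at this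
      exact this
    rw [e1, e2]; simp
  refine Prod.ext hdd.symm ?_
  show b (u - (1 / 2 : ℚ) • c u) - c (t - (1 / 2 : ℚ) • b t) = k - (1 / 2 : ℚ) • d k
  rw [hdk, smul_zero, sub_zero, hk]
  rw [map_sub, map_sub, map_smul, map_smul]
  rw [hbk, hdx] at h4
  rw [hck, hdx] at h4'
  rw [hdx t, hdx u]
  -- h4 : b c t - c b t = - b c t ; h4' : b c u - c b u = c b u
  have q1 : b (c t) = (1 / 2 : ℚ) • c (b t) := by
    have : (2 : ℚ) • b (c t) = c (b t) := by
      rw [sub_eq_iff_eq_add] at h4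
      have h5 : c (b t) = b (c t) + b (c t) := by
        have : c (b t) = b (c t) - (- b (c t)) := by
          nth_rewrite 1 [h4]; abel
        rw [this]; abel
      rw [h5, two_smul]
    rw [← this, smul_smul]; norm_num
  have q2 : c (b u) = (1 / 2 : ℚ) • b (c u) := by
    have h5 : b (c u) = c (b u) + c (b u) := by
      rw [sub_eq_iff_eq_add] at h4'; exact h4'
    rw [h5, ← two_smul ℚ, smul_smul]; norm_num
  rw [q1, q2]
  module

end RR

end Pool.Agent.H3.Cryst
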