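import Mathlib
import Pool.Agent.H3.CrystLie

set_option autoImplicit false

namespace Pool.Agent.H3.Cryst.RR

variable {Γ ι : Type*} [Group Γ] [Fintype ι] (R S S' : RR Γ ι)

/-- linear extension of `ell` over the lattice of `S` -/
theorem exists_alpha : ∃ α : (ι → ℚ) →ₗ[ℚ] (Module.End ℚ (ι → ℚ) × (ι → ℚ)),
    ∀ g, S.L g → α (S.t g) = R.ell g := by
  classical
  have hk : ∀ k : ι, ∃ g, S.L g ∧ S.t g = Pi.single k 1 := by
    intro k
    obtain ⟨g, hg, ht⟩ := S.lat (Pi.single k 1)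
    refine ⟨g, hg, ?_⟩
    rw [ht]
    ext j
    by_cases hj : j = k
    · subst hj; simp
    · simp [hj]
  choose γ hγ hγt using hk
  let α := (Pi.basisFun ℚ ι).constr ℚ (fun k => R.ell (γ k))
  refine ⟨α, ?_⟩
  let A : AddSubgroup (ι → ℚ) :=
    { carrier := {x | ∃ g, S.L g ∧ S.t g = x ∧ α x = R.ell g}
      add_mem' := by
        rintro _ _ ⟨g, hg, rfl, h1⟩ ⟨g', hg', rfl, h2⟩
        refine ⟨g * g', S.L_mul hg hg', ?_, ?_⟩
        · rw [S.t_mul_L hg, add_comm]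
        · rw [map_add, h1, h2, R.ell_mul S hg hg']
      zero_mem' := ⟨1, S.L_one, S.t_one, by rw [map_zero, R.ell_one]⟩
      neg_mem' := by
        rintro _ ⟨g, hg, rfl, h1⟩
        exact ⟨g⁻¹, S.L_inv hg, S.t_inv_L hg, by rw [map_neg, h1, R.ell_inv S hg]⟩ }
  have hbas : ∀ k, (Pi.single k 1 : ι → ℚ) ∈ A := by
    intro k
    refine ⟨γ k, hγ k, hγt k, ?_⟩
    have := (Pi.basisFun ℚ ι).constr_basis ℚ (fun k => R.ell (γ k)) k
    rw [Pi.basisFun_apply] at this
    exact this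
  have hint : ∀ z : ι → ℤ, (fun k => (z k : ℚ)) ∈ A := by
    intro z
    have e : (fun k => (z k : ℚ)) = ∑ k, z k • (Pi.single k 1 : ι → ℚ) := by
      ext j
      rw [Finset.sum_apply, Finset.sum_eq_single j]
      · simp
      · intro k _ hk
        simp [Ne.symm hk]
      · intro h; exact absurd (Finset.mem_univ _) h
    rw [e]
    exact A.sum_mem fun k _ => A.zsmul_mem (hbas k) _
  intro g hg
  obtain ⟨z, hz⟩ := S.lat' g hg
  obtain ⟨g', hg', h1, h2⟩ := hint z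
  rw [← hz] at h1 h2
  rw [h2, S.eq_of_t hg' hg h1]

noncomputable def al : (ι → ℚ) →ₗ[ℚ] (Module.End ℚ (ι → ℚ) × (ι → ℚ)) := (exists_alpha R S).choose

theorem al_t {g : Γ} (hg : S.L g) : R.al S (S.t g) = R.ell g := (exists_alpha R S).choose_spec g hg

theorem al_self (y : ι → ℚ) : R.al R y = (0, y) := by
  have : R.al R = LinearMap.inr ℚ _ _ := by
    refine R.lin_ext _ _ fun μ hμ => ?_
    rw [R.al_t R hμ]
    have h1 : R.M μ = 1 := hμ
    unfold ell
    rw [h1, sub_self]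
    simp
  rw [this]; rfl

theorem al_inj {x : ι → ℚ} (h : R.al S x = 0) : x = 0 := by
  obtain ⟨N, hN, μ, hμ, hx⟩ := S.scale x
  have h1 : R.ell μ = 0 := by
    rw [← R.al_t S hμ, ← hx, map_smul, h, smul_zero]
  have h2 : R.M μ = 1 := by
    have := congrArg Prod.fst h1
    exact sub_eq_zero.1 this
  have h3 : R.t μ = 0 := by
    have := congrArg Prod.snd h1
    unfold ell at this
    rw [h2, sub_self] at this
    simpa using this
  have h4 : μ = 1 := R.inj μ h2 h3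
  rw [h4, S.t_one] at hx
  have hN' : (N : ℚ) ≠ 0 := by exact_mod_cast hN
  exact (smul_eq_zero.1 hx).resolve_left hN'

theorem br_al (x y : ι → ℚ) : br (R.al S x) (R.al S' y) = R.al S' ((S'.al S x).1 y) := by
  obtain ⟨N, hN, g, hg, hx⟩ := S.scale x
  obtain ⟨N', hN', h, hh, hy⟩ := S'.scale y
  have hN1 : (N : ℚ) ≠ 0 := by exact_mod_cast hN
  have hN2 : (N' : ℚ) ≠ 0 := by exact_mod_cast hN'
  have key : br (R.al S ((N : ℚ) • x)) (R.al S' ((N' : ℚ) • y)) =
      R.al S' ((S'.al S ((N : ℚ) • x)).1 ((N' : ℚ) • y)) := by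
    rw [hx, hy, R.al_t S hg, R.al_t S' hh, br_ell R S S' hg hh, S'.al_t S hg]
    have hκ : S'.L (g * h * g⁻¹ * h⁻¹) := S'.L_mul (S'.L_conj hh g) (S'.L_inv hh)
    rw [← R.al_t S' hκ]
    congr 1
    rw [S'.t_mul_L (S'.L_conj hh g), S'.t_inv_L hh, S'.t_conj hh]
    show _ = S'.M g (S'.t h) - S'.t h
    abel
  simp only [map_smul, LinearMap.smul_apply, Prod.smul_fst] at key
  have h1 := smul_right_injective _ hN2 (smul_right_injective _ hN1 (by
    show (N : ℚ) • (N' : ℚ) • br (R.al S x) (R.al S' y) = (N : ℚ) • (N' : ℚ) • R.al S' ((S'.al S x).1 y)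
    rw [smul_comm (N : ℚ) (N' : ℚ) (br (R.al S x) (R.al S' y))]
    rw [smul_comm (N : ℚ) (N' : ℚ) (R.al S' ((S'.al S x).1 y))]
    exact key))
  exact h1

/-- skew-symmetry -/
theorem skew (x y z : ι → ℚ) : R.η ((R.al S x).1 y) z = - R.η y ((R.al S x).1 z) := by
  obtain ⟨N, hN, g, hg, hx⟩ := S.scale x
  have hN1 : (N : ℝ) ≠ 0 := by exact_mod_cast hN
  have key : ∀ y z, R.η ((R.M g - 1) y) z = - R.η y ((R.M g - 1) z) := by
    intro y z
    have i1 := R.η_inv g y z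
    have i2 := R.η_inv (g * g) y z
    have e1 : R.M g = 1 + (R.M g - 1) := by abel
    have e2 : R.M (g * g) = 1 + ((R.M g - 1) + (R.M g - 1)) := by
      rw [← R.M_add S hg hg]; abel
    set b := R.M g - 1
    rw [e1] at i1
    rw [e2] at i2
    simp only [LinearMap.add_apply, Module.End.one_apply, map_add] at i1 i2
    linarith
  have h2 := key y z
  have h3 : (S.al S x) = (S.al S x) := rfl
  have h4 : (R.M g - 1) = (N : ℚ) • (R.al S x).1 := by
    have := congrArg Prod.fst (R.al_t S hg)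
    rw [← hx, map_smul] at this
    exact this.symm
  rw [h4] at h2
  simp only [LinearMap.smul_apply, map_smul] at h2
  rw [← smul_neg] at h2
  have h5 : ((N : ℚ) : ℝ) ≠ 0 := by simpa using hN1
  rw [Rat.smul_def, Rat.smul_def] at h2
  exact mul_left_cancel₀ h5 h2

/-- the real (rational) span of all lattices -/
noncomputable def W (𝓡 : Set (RR Γ ι)) : Submodule ℚ (Module.End ℚ (ι → ℚ) × (ι → ℚ)) :=
  ⨆ S ∈ 𝓡, LinearMap.range (R.al S)

theorem W_pair (𝓡 : Set (RR Γ ι)) (T : RR Γ ι) (X : Module.End ℚ (ι → ℚ) × (ι → ℚ)) (hX : X ∈ R.W 𝓡) :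
    ∃ X', ∀ S' : RR Γ ι, ∃ D : Module.End ℚ (ι → ℚ),
      (∀ y z, S'.η (D y) z = - S'.η y (D z)) ∧
      (∀ y, br X (R.al S' y) = R.al S' (D y)) ∧ (∀ y, br X' (T.al S' y) = T.al S' (D y)) := by
  unfold W at hX
  rw [← iSup_subtype''] at hX
  induction hX using Submodule.iSup_induction' with
  | mem S x hx =>
    obtain ⟨v, rfl⟩ := hx
    exact ⟨T.al S v, fun S' => ⟨(S'.al S v).1, fun y z => S'.skew S v y z,
      fun y => R.br_al S S' v y, fun y => T.br_al S S' v y⟩⟩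
  | zero =>
    exact ⟨0, fun S' => ⟨0, by simp, by simp, by simp⟩⟩
  | add x y _ _ hx hy =>
    obtain ⟨x', hx'⟩ := hx
    obtain ⟨y', hy'⟩ := hy
    refine ⟨x' + y', fun S' => ?_⟩
    obtain ⟨D, h1, h2, h3⟩ := hx' S'
    obtain ⟨D', h1', h2', h3'⟩ := hy' S'
    refine ⟨D + D', ?_, ?_, ?_⟩
    · intro y z
      rw [LinearMap.add_apply, LinearMap.add_apply, map_add, map_add, LinearMap.add_apply, h1, h1']
      ring
    · intro y
      rw [map_add, LinearMap.add_apply, LinearMap.add_apply, map_add, h2, h2']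
    · intro y
      rw [map_add, LinearMap.add_apply, LinearMap.add_apply, map_add, h3, h3']

theorem br_al_self (X : Module.End ℚ (ι → ℚ) × (ι → ℚ)) (y : ι → ℚ) :
    br X (R.al R y) = (0, X.1 y) := by
  rw [al_self, br_apply]
  refine Prod.ext ?_ ?_
  · show X.1 * 0 - 0 * X.1 = 0
    rw [mul_zero, zero_mul, sub_zero]
  · show X.1 y - (0 : Module.End ℚ (ι → ℚ)) X.2 = X.1 y
    simp

theorem centralizer (𝓡 : Set (RR Γ ι)) (X : Module.End ℚ (ι → ℚ) × (ι → ℚ)) (hX : X ∈ R.W 𝓡)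
    (hc : ∀ y, br X (R.al S y) = 0) : X ∈ LinearMap.range (R.al S) := by
  obtain ⟨X', hX'⟩ := R.W_pair 𝓡 S X hX
  -- X' = (0, s)
  have hX'1 : X' = (0, X'.2) := by
    obtain ⟨D, _, h2, h3⟩ := hX' S
    have hD : ∀ y, D y = 0 := fun y => R.al_inj S (by rw [← h2, hc])
    refine Prod.ext ?_ rfl
    show X'.1 = 0
    refine LinearMap.ext fun y => ?_
    have := h3 y
    rw [hD, map_zero, S.br_al_self] at this
    exact congrArg Prod.snd this
  set s := X'.2 with hs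
  have hY : ∀ (S' : RR Γ ι) (y : ι → ℚ), br (X - R.al S s) (R.al S' y) = 0 := by
    intro S' y
    obtain ⟨D, _, h2, h3⟩ := hX' S'
    have h4 := h3 y
    have h5 : X' = S.al S s := by rw [al_self]; exact hX'1
    rw [h5, S.br_al] at h4
    have h6 : (S'.al S s).1 y = D y := by
      have : S.al S' ((S'.al S s).1 y - D y) = 0 := by rw [map_sub, h4, sub_self]
      exact sub_eq_zero.1 (S.al_inj S' this)
    rw [map_sub, LinearMap.sub_apply, h2, R.br_al, h6, sub_self]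
  set Y := X - R.al S s with hYdef
  have hY1 : Y = (0, Y.2) := by
    refine Prod.ext ?_ rfl
    show Y.1 = 0
    refine LinearMap.ext fun y => ?_
    have := hY R y
    rw [R.br_al_self] at this
    exact congrArg Prod.snd this
  set s' := Y.2 with hs'
  have hYal : Y = R.al R s' := by rw [al_self]; exact hY1
  -- (S.al R s').1 = 0
  have h7 : (S.al R s').1 = 0 := by
    refine LinearMap.ext fun y => ?_
    have := hY S y
    rw [hYal, R.br_al] at this
    exact R.al_inj S this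
  obtain ⟨N, hN, μ, hμ, hx⟩ := R.scale s'
  have hN1 : (N : ℚ) ≠ 0 := by exact_mod_cast hN
  have h8 : S.L μ := by
    have h9 := S.al_t R hμ
    rw [← hx, map_smul] at h9
    have h10 := congrArg Prod.fst h9
    have h11 : (N : ℚ) • (S.al R s').1 = S.M μ - 1 := h10
    rw [h7, smul_zero] at h11
    exact (sub_eq_zero.1 h11.symm)
  have h12 : R.al S (S.t μ) = (N : ℚ) • Y := by
    rw [R.al_t S h8, hYal, ← map_smul, hx, R.al_t R hμ]
  have h13 : Y ∈ LinearMap.range (R.al S) := by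
    have : (N : ℚ) • Y ∈ LinearMap.range (R.al S) := ⟨_, h12⟩
    have h14 := Submodule.smul_mem _ ((N : ℚ)⁻¹) this
    rwa [smul_smul, inv_mul_cancel₀ hN1, one_smul] at h14
  have h15 : X = Y + R.al S s := by rw [hYdef]; abel
  rw [h15]
  exact Submodule.add_mem _ h13 ⟨s, rfl⟩

theorem rigid (𝓡 : Set (RR Γ ι)) (δ : LinearMap.range (R.al S) →ₗ[ℚ] (Module.End ℚ (ι → ℚ) × (ι → ℚ)))
    (hδ : ∀ a, δ a ∈ R.W 𝓡)
    (hd : ∀ a b : LinearMap.range (R.al S), br (δ a) b + br a (δ b) = 0) :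
    ∀ a, δ a ∈ LinearMap.range (R.al S) := by
  -- for each x choose D x
  let e : (ι → ℚ) → LinearMap.range (R.al S) := fun x => ⟨R.al S x, x, rfl⟩
  have hD : ∀ x : ι → ℚ, ∃ D : Module.End ℚ (ι → ℚ), (∀ y z, S.η (D y) z = - S.η y (D z)) ∧
      (∀ y, br (δ (e x)) (R.al S y) = R.al S (D y)) := by
    intro x
    obtain ⟨X', hX'⟩ := R.W_pair 𝓡 S (δ (e x)) (hδ _)
    obtain ⟨D, h1, h2, _⟩ := hX' S
    exact ⟨D, h1, h2⟩
  choose D hD1 hD2 using hD
  have hsym : ∀ x y, D x y = D y x := by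
    intro x y
    have h := hd (e x) (e y)
    have h1 : br (δ (e x)) ((e y : LinearMap.range (R.al S)) : Module.End ℚ (ι → ℚ) × (ι → ℚ)) = R.al S (D x y) := hD2 x y
    have h2 : br ((e x : LinearMap.range (R.al S)) : Module.End ℚ (ι → ℚ) × (ι → ℚ)) (δ (e y)) = - R.al S (D y x) := by
      rw [br_anti]
      congr 1
      exact hD2 y x
    rw [h1, h2, ← sub_eq_add_neg, ← map_sub] at h
    exact sub_eq_zero.1 (R.al_inj S h)
  have hz : ∀ x y z, S.η (D x y) z = 0 := by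
    intro x y z
    have s1 := hD1 x y z
    have s2 := hD1 z x y
    have s3 := hD1 y z x
    rw [S.η_symm y (D x z)] at s1
    rw [S.η_symm x (D z y)] at s2
    rw [S.η_symm z (D y x)] at s3
    rw [hsym z x, hsym z y] at s2
    rw [hsym y x] at s3
    linarith
  intro a
  obtain ⟨x, hx⟩ := a.2
  have ha : a = e x := Subtype.ext hx.symm
  rw [ha]
  refine R.centralizer S 𝓡 _ (hδ _) fun y => ?_
  rw [hD2, S.η_nd _ (hz x y), map_zero]

theorem L_of_range (h : LinearMap.range (R.al S) ≤ LinearMap.range (R.al S')) {g : Γ} (hg : S.L g) :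
    S'.L g := by
  have h1 : R.ell g ∈ LinearMap.range (R.al S') := h ⟨S.t g, R.al_t S hg⟩
  obtain ⟨x, hx⟩ := h1
  show S'.M g = 1
  have h2 : S'.M g - 1 = 0 := by
    refine S'.lin_ext _ _ fun μ hμ => ?_
    have hκ : S'.L (g * μ * g⁻¹ * μ⁻¹) := S'.L_mul (S'.L_conj hμ g) (S'.L_inv hμ)
    have h3 : R.al S' (S'.t (g * μ * g⁻¹ * μ⁻¹)) = 0 := by
      rw [R.al_t S' hκ, ← R.br_ell S S' hg hμ, ← hx, ← R.al_t S' hμ, R.br_al, S'.al_self]
      simp
    have h4 := R.al_inj S' h3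
    rw [S'.t_mul_L (S'.L_conj hμ g), S'.t_inv_L hμ, S'.t_conj hμ] at h4
    rw [LinearMap.zero_apply, ← h4]
    show S'.M g (S'.t μ) - S'.t μ = _
    abel
  exact sub_eq_zero.1 h2

/-- the core finiteness theorem -/
theorem finite_L (𝓡 : Set (RR Γ ι)) : {P : Γ → Prop | ∃ S ∈ 𝓡, P = S.L}.Finite := by
  rcases 𝓡.eq_empty_or_nonempty with rfl | ⟨R, hR⟩
  · refine Set.Finite.subset Set.finite_empty ?_
    rintro _ ⟨S, hS, _⟩
    exact hS
  let F : Set (Submodule ℚ (Module.End ℚ (ι → ℚ) × (ι → ℚ))) := {V | ∃ S ∈ 𝓡, V = LinearMap.range (R.al S)}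
  have hF : F.Finite := by
    refine finSub br (R.W 𝓡) F ?_ ?_ ?_
    · rintro _ ⟨S, hS, rfl⟩
      unfold W
      exact le_iSup₂_of_le S hS le_rfl
    · rintro _ ⟨S, hS, rfl⟩ _ ⟨x, rfl⟩ _ ⟨y, rfl⟩
      rw [R.br_al, S.al_self]
      simp
    · rintro _ ⟨S, hS, rfl⟩ δ hδ hd
      exact R.rigid S 𝓡 δ hδ hd
  have key : ∀ S ∈ 𝓡, ∀ S' ∈ 𝓡, LinearMap.range (R.al S) = LinearMap.range (R.al S') → S.L = S'.L := by
    intro S _ S' _ h
    funext g
    exact propext ⟨fun hg => R.L_of_range S S' h.le hg, fun hg => R.L_of_range S' S h.ge hg⟩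
  classical
  refine Set.Finite.subset (hF.image (fun V => if h : ∃ S ∈ 𝓡, V = LinearMap.range (R.al S) then h.choose.L else fun _ => False)) ?_
  rintro _ ⟨S, hS, rfl⟩
  refine ⟨LinearMap.range (R.al S), ⟨S, hS, rfl⟩, ?_⟩
  have h : ∃ S' ∈ 𝓡, LinearMap.range (R.al S) = LinearMap.range (R.al S') := ⟨S, hS, rfl⟩
  show (if h : ∃ S' ∈ 𝓡, LinearMap.range (R.al S) = LinearMap.range (R.al S') then h.choose.L else fun _ => False) = S.L
  rw [dif_pos h]
  exact (key S hS _ h.choose_spec.1 h.choose_spec.2).symm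

end Pool.Agent.H3.Cryst.RR
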