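import Mathlib
import Pool.Agent.H3.CrystFin

set_option autoImplicit false

namespace Pool.Agent.H3.Cryst

open Module

section conv

variable {Γ : Type*} [Group Γ] {p q : ℕ}

/-- the standard form -/
noncomputable def Bf (p q : ℕ) : (Fin p ⊕ Fin q → ℝ) →ₗ[ℝ] (Fin p ⊕ Fin q → ℝ) →ₗ[ℝ] ℝ :=
  LinearMap.mk₂ ℝ (fun v w => (∑ i : Fin p, v (Sum.inl i) * w (Sum.inl i)) - ∑ j : Fin q, v (Sum.inr j) * w (Sum.inr j))
    (by intro u v w; simp only [Pi.add_apply, add_mul, Finset.sum_add_distrib]; ring)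
    (by intro c v w; simp only [Pi.smul_apply, smul_eq_mul, mul_assoc, ← Finset.mul_sum]; ring)
    (by intro u v w; simp only [Pi.add_apply, mul_add, Finset.sum_add_distrib]; ring)
    (by intro c v w; simp only [Pi.smul_apply, smul_eq_mul, mul_left_comm _ c, ← Finset.mul_sum]; ring)

theorem Bf_apply (v w : Fin p ⊕ Fin q → ℝ) : Bf p q v w =
    (∑ i : Fin p, v (Sum.inl i) * w (Sum.inl i)) - ∑ j : Fin q, v (Sum.inr j) * w (Sum.inr j) := rfl

theorem Bf_symm (v w : Fin p ⊕ Fin q → ℝ) : Bf p q v w = Bf p q w v := by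
  rw [Bf_apply, Bf_apply]
  simp only [mul_comm]

theorem Bf_self (v : Fin p ⊕ Fin q → ℝ) : Bf p q v v =
    (∑ i : Fin p, v (Sum.inl i) ^ 2) - ∑ j : Fin q, v (Sum.inr j) ^ 2 := by
  rw [Bf_apply]; simp only [sq]

theorem Bf_nd (v : Fin p ⊕ Fin q → ℝ) (h : ∀ w, Bf p q v w = 0) : v = 0 := by
  classical
  funext k
  have := h (Pi.single k 1)
  rw [Bf_apply] at this
  rcases k with k | k
  · simp [Pi.single_apply] at this
    simpa using this
  · simp [Pi.single_apply] at this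
    simpa using this

theorem exists_pi : ∃ π : ℝ →ₗ[ℚ] ℚ, π 1 = 1 := by
  have hinj : LinearMap.ker (LinearMap.toSpanSingleton ℚ ℝ 1) = ⊥ := by
    rw [LinearMap.ker_eq_bot']
    intro m hm
    rw [LinearMap.toSpanSingleton_apply, Rat.smul_def, mul_one] at hm
    exact_mod_cast hm
  obtain ⟨π, hπ⟩ := LinearMap.exists_leftInverse_of_injective _ hinj
  refine ⟨π, ?_⟩
  have := congrArg (fun f => f 1) hπ
  simpa using this

variable (φ : Γ →* ((Fin p ⊕ Fin q → ℝ) ≃ᵃ[ℝ] (Fin p ⊕ Fin q → ℝ)))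
  (b : Basis (Fin p ⊕ Fin q) ℝ (Fin p ⊕ Fin q → ℝ))

/-- rational points -/
noncomputable def iq : (Fin p ⊕ Fin q → ℚ) →ₗ[ℚ] (Fin p ⊕ Fin q → ℝ) where
  toFun x := ∑ k, (x k : ℝ) • b k
  map_add' x y := by
    simp only [Pi.add_apply, Rat.cast_add, add_smul, Finset.sum_add_distrib]
  map_smul' c x := by
    simp only [Pi.smul_apply, smul_eq_mul, Rat.cast_mul, RingHom.id_apply, Finset.smul_sum]
    refine Finset.sum_congr rfl fun k _ => ?_
    rw [mul_smul, ← Rat.cast_smul_eq_qsmul ℝ]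

theorem iq_apply (x : Fin p ⊕ Fin q → ℚ) : iq b x = ∑ k, (x k : ℝ) • b k := rfl

theorem iq_single (k : Fin p ⊕ Fin q) (c : ℚ) : iq b (Pi.single k c) = (c : ℝ) • b k := by
  rw [iq_apply, Finset.sum_eq_single k]
  · simp
  · intro j _ hj; simp [hj]
  · intro h; exact absurd (Finset.mem_univ _) h

/-- rational projection -/
noncomputable def Pq (π : ℝ →ₗ[ℚ] ℚ) : (Fin p ⊕ Fin q → ℝ) →ₗ[ℚ] (Fin p ⊕ Fin q → ℚ) where
  toFun v := fun k => π (b.repr v k)
  map_add' v w := by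
    funext k
    simp
  map_smul' c v := by
    funext k
    rw [← Rat.cast_smul_eq_qsmul ℝ]
    simp only [map_smul, Finsupp.smul_apply, smul_eq_mul, RingHom.id_apply, Pi.smul_apply]
    rw [← smul_eq_mul, Rat.cast_smul_eq_qsmul ℝ, map_smul, smul_eq_mul]

theorem Pq_apply (π : ℝ →ₗ[ℚ] ℚ) (v : Fin p ⊕ Fin q → ℝ) (k : Fin p ⊕ Fin q) :
    Pq b π v k = π (b.repr v k) := rfl

theorem repr_iq (x : Fin p ⊕ Fin q → ℚ) (k : Fin p ⊕ Fin q) : b.repr (iq b x) k = (x k : ℝ) := by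
  rw [iq_apply]
  have := b.repr_sum_self (fun k => (x k : ℝ))
  exact congrFun this k

theorem Pq_smul_iq (π : ℝ →ₗ[ℚ] ℚ) (r : ℝ) (x : Fin p ⊕ Fin q → ℚ) :
    Pq b π (r • iq b x) = π r • x := by
  funext k
  rw [Pq_apply, map_smul, Finsupp.smul_apply, repr_iq, smul_eq_mul, Pi.smul_apply, smul_eq_mul, mul_comm,
    ← smul_eq_mul (x k : ℝ) r, Rat.cast_smul_eq_qsmul ℝ, map_smul, smul_eq_mul, mul_comm]

theorem Pq_iq (π : ℝ →ₗ[ℚ] ℚ) (hπ : π 1 = 1) (x : Fin p ⊕ Fin q → ℚ) :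
    Pq b π (iq b x) = x := by
  have := Pq_smul_iq b π 1 x
  rwa [one_smul, hπ, one_smul] at this

theorem iq_inj {x y : Fin p ⊕ Fin q → ℚ} (h : iq b x = iq b y) : x = y := by
  funext k
  have h1 := repr_iq b x k
  rw [h, repr_iq] at h1
  exact_mod_cast h1.symm

theorem mem_span_iff (v : Fin p ⊕ Fin q → ℝ) : v ∈ Submodule.span ℤ (Set.range b) ↔
    ∃ z : Fin p ⊕ Fin q → ℤ, v = iq b (fun k => (z k : ℚ)) := by
  rw [Submodule.mem_span_range_iff_exists_fun]
  constructor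
  · rintro ⟨c, rfl⟩
    refine ⟨c, ?_⟩
    rw [iq_apply]
    refine Finset.sum_congr rfl fun k _ => ?_
    push_cast
    rw [Int.cast_smul_eq_zsmul]
  · rintro ⟨z, rfl⟩
    refine ⟨z, ?_⟩
    rw [iq_apply]
    refine Finset.sum_congr rfl fun k _ => ?_
    push_cast
    rw [Int.cast_smul_eq_zsmul]

variable (hinj : Function.Injective φ)
  (hQ : ∀ g : Γ, ∀ v : Fin p ⊕ Fin q → ℝ,
          (∑ i : Fin p, ((φ g).linear v (Sum.inl i)) ^ 2) - (∑ j : Fin q, ((φ g).linear v (Sum.inr j)) ^ 2)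
            = (∑ i : Fin p, (v (Sum.inl i)) ^ 2) - (∑ j : Fin q, (v (Sum.inr j)) ^ 2))
  (hb : {w : Fin p ⊕ Fin q → ℝ | ∃ g : Γ, (φ g).linear = LinearEquiv.refl ℝ (Fin p ⊕ Fin q → ℝ) ∧ φ g 0 = w}
            = (Submodule.span ℤ (Set.range b) : Set (Fin p ⊕ Fin q → ℝ)))

theorem phi_apply (g : Γ) (v : Fin p ⊕ Fin q → ℝ) : φ g v = (φ g).linear v + φ g 0 := by
  have := (φ g).map_vadd 0 v
  simpa using this

theorem lin_mul (g h : Γ) (v : Fin p ⊕ Fin q → ℝ) : (φ (g * h)).linear v = (φ g).linear ((φ h).linear v) := by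
  rw [map_mul]; rfl

include hb in
theorem exists_M (g : Γ) : ∃ M : Module.End ℚ (Fin p ⊕ Fin q → ℚ), ∀ x, iq b (M x) = (φ g).linear (iq b x) := by
  classical
  have h1 : ∀ k, ∃ z : Fin p ⊕ Fin q → ℤ, (φ g).linear (b k) = iq b (fun j => (z j : ℚ)) := by
    intro k
    rw [← mem_span_iff]
    have hk : b k ∈ (Submodule.span ℤ (Set.range b) : Set (Fin p ⊕ Fin q → ℝ)) :=
      Submodule.subset_span ⟨k, rfl⟩
    rw [← hb] at hk
    obtain ⟨h, hl, h0⟩ := hk
    have : (φ g).linear (b k) ∈ (Submodule.span ℤ (Set.range b) : Set (Fin p ⊕ Fin q → ℝ)) := by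
      rw [← hb]
      refine ⟨g * h * g⁻¹, ?_, ?_⟩
      · ext1 v
        rw [lin_mul, lin_mul, hl]
        show (φ g).linear ((φ g⁻¹).linear v) = v
        rw [← lin_mul, mul_inv_cancel, map_one]
        rfl
      · have e1 : φ (g * h * g⁻¹) 0 = φ g (φ h (φ g⁻¹ 0)) := by
          rw [map_mul, map_mul]; rfl
        have e2 : φ g (φ g⁻¹ 0) = 0 := by
          have : φ (g * g⁻¹) 0 = φ g (φ g⁻¹ 0) := by rw [map_mul]; rfl
          rw [← this, mul_inv_cancel, map_one]; rfl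
        rw [e1, phi_apply φ h, hl, h0, phi_apply φ g]
        show (φ g).linear (φ g⁻¹ 0 + b k) + _ = _
        rw [map_add]
        rw [phi_apply φ g] at e2
        rw [add_assoc, add_comm _ (φ g 0), ← add_assoc, e2, zero_add]
    exact this
  choose z hz using h1
  refine ⟨(Pi.basisFun ℚ (Fin p ⊕ Fin q)).constr ℚ (fun k => (fun j => (z k j : ℚ))), fun x => ?_⟩
  -- both sides ℚ-linear
  let A : (Fin p ⊕ Fin q → ℚ) →ₗ[ℚ] (Fin p ⊕ Fin q → ℝ) := iq b ∘ₗ (Pi.basisFun ℚ (Fin p ⊕ Fin q)).constr ℚ (fun k => (fun j => (z k j : ℚ)))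
  let B : (Fin p ⊕ Fin q → ℚ) →ₗ[ℚ] (Fin p ⊕ Fin q → ℝ) := (((φ g).linear : (Fin p ⊕ Fin q → ℝ) →ₗ[ℝ] (Fin p ⊕ Fin q → ℝ)).restrictScalars ℚ) ∘ₗ iq b
  have : A = B := by
    refine (Pi.basisFun ℚ (Fin p ⊕ Fin q)).ext fun k => ?_
    show iq b ((Pi.basisFun ℚ (Fin p ⊕ Fin q)).constr ℚ (fun k => (fun j => (z k j : ℚ))) (Pi.basisFun ℚ (Fin p ⊕ Fin q) k)) = (φ g).linear (iq b (Pi.basisFun ℚ (Fin p ⊕ Fin q) k))
    rw [Basis.constr_basis, ← hz, Pi.basisFun_apply, iq_single]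
    simp
  exact congrArg (fun f => f x) this

include hinj hQ hb in
theorem exists_RR : ∃ R : RR Γ (Fin p ⊕ Fin q), ∀ g, R.L g ↔ (φ g).linear = LinearEquiv.refl ℝ (Fin p ⊕ Fin q → ℝ) := by
  classical
  obtain ⟨π, hπ⟩ := exists_pi
  choose M hM using exists_M φ b hb
  have hMmul : ∀ g h, M (g * h) = M g * M h := by
    intro g h
    refine LinearMap.ext fun x => ?_
    apply iq_inj b
    rw [hM, lin_mul]
    show _ = iq b (M g (M h x))
    rw [hM, hM]
  have hM1 : M 1 = 1 := by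
    refine LinearMap.ext fun x => ?_
    apply iq_inj b
    rw [hM, map_one]
    rfl
  have hL : ∀ g, M g = 1 ↔ (φ g).linear = LinearEquiv.refl ℝ (Fin p ⊕ Fin q → ℝ) := by
    intro g
    constructor
    · intro h
      apply LinearEquiv.toLinearMap_injective
      refine b.ext fun k => ?_
      have := hM g (Pi.single k 1)
      rw [h, iq_single] at this
      simpa [iq_single] using this.symm
    · intro h
      refine LinearMap.ext fun x => ?_
      apply iq_inj b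
      rw [hM, h]
      rfl
  have hPlin : ∀ g v, Pq b π ((φ g).linear v) = M g (Pq b π v) := by
    intro g v
    let A : (Fin p ⊕ Fin q → ℝ) →ₗ[ℚ] (Fin p ⊕ Fin q → ℚ) := Pq b π ∘ₗ (((φ g).linear : (Fin p ⊕ Fin q → ℝ) →ₗ[ℝ] (Fin p ⊕ Fin q → ℝ)).restrictScalars ℚ)
    let B : (Fin p ⊕ Fin q → ℝ) →ₗ[ℚ] (Fin p ⊕ Fin q → ℚ) := M g ∘ₗ Pq b π
    have hAB : ∀ (r : ℝ) k, A (r • b k) = B (r • b k) := by
      intro r k
      show Pq b π ((φ g).linear (r • b k)) = M g (Pq b π (r • b k))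
      have hbk : b k = iq b (Pi.single k 1) := by rw [iq_single]; simp
      rw [map_smul, hbk, ← hM, Pq_smul_iq, Pq_smul_iq, map_smul]
    have : A v = B v := by
      rw [← b.sum_repr v, map_sum, map_sum]
      exact Finset.sum_congr rfl fun k _ => hAB _ k
    exact this
  have hmem : ∀ g, M g = 1 → ∃ z : Fin p ⊕ Fin q → ℤ, φ g 0 = iq b (fun k => (z k : ℚ)) := by
    intro g hg
    rw [← mem_span_iff]
    have : φ g 0 ∈ (Submodule.span ℤ (Set.range b) : Set (Fin p ⊕ Fin q → ℝ)) := by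
      rw [← hb]
      exact ⟨g, (hL g).1 hg, rfl⟩
    exact this
  have hBinv : ∀ g v w, Bf p q ((φ g).linear v) ((φ g).linear w) = Bf p q v w := by
    intro g v w
    have e : ∀ v w : Fin p ⊕ Fin q → ℝ, Bf p q v w = (Bf p q (v + w) (v + w) - Bf p q v v - Bf p q w w) / 2 := by
      intro v w
      have h1 : Bf p q (v + w) (v + w) = Bf p q v v + Bf p q v w + (Bf p q w v + Bf p q w w) := by
        rw [map_add, LinearMap.map_add₂, LinearMap.map_add₂]; ring
      rw [h1, Bf_symm w v]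
      ring
    have hs : ∀ v, Bf p q ((φ g).linear v) ((φ g).linear v) = Bf p q v v := by
      intro v
      rw [Bf_self, Bf_self]
      exact hQ g v
    rw [e, ← map_add, hs, hs, hs, ← e]
  let η : (Fin p ⊕ Fin q → ℚ) →ₗ[ℚ] (Fin p ⊕ Fin q → ℚ) →ₗ[ℚ] ℝ :=
    LinearMap.mk₂ ℚ (fun x y => Bf p q (iq b x) (iq b y))
      (by intro x y z; rw [map_add, map_add, LinearMap.add_apply])
      (by intro c x y; rw [map_smul, ← Rat.cast_smul_eq_qsmul ℝ, map_smul, LinearMap.smul_apply, Rat.cast_smul_eq_qsmul ℝ])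
      (by intro x y z; rw [map_add, map_add])
      (by intro c x y; rw [map_smul, ← Rat.cast_smul_eq_qsmul ℝ, map_smul, Rat.cast_smul_eq_qsmul ℝ])
  have hη : ∀ x y, η x y = Bf p q (iq b x) (iq b y) := fun _ _ => rfl
  refine ⟨{ M := { toFun := M, map_one' := hM1, map_mul' := hMmul }
            t := fun g => Pq b π (φ g 0)
            t_mul := ?_
            inj := ?_
            lat := ?_
            lat' := ?_
            η := η
            η_symm := ?_
            η_inv := ?_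
            η_nd := ?_ }, fun g => hL g⟩
  · intro g h
    have e1 : φ (g * h) 0 = (φ g).linear (φ h 0) + φ g 0 := by
      rw [← phi_apply, map_mul]; rfl
    rw [e1, map_add, hPlin]
    rfl
  · intro g hg ht
    obtain ⟨z, hz⟩ := hmem g hg
    rw [hz, Pq_iq b π hπ] at ht
    have hz0 : φ g 0 = 0 := by rw [hz, ht]; exact map_zero (iq b)
    apply hinj
    rw [map_one]
    refine AffineEquiv.ext fun v => ?_
    rw [phi_apply, hz0, (hL g).1 hg, add_zero]
    rfl
  · intro z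
    have : iq b (fun k => (z k : ℚ)) ∈ (Submodule.span ℤ (Set.range b) : Set (Fin p ⊕ Fin q → ℝ)) :=
      (mem_span_iff b _).2 ⟨z, rfl⟩
    rw [← hb] at this
    obtain ⟨g, hg, h0⟩ := this
    exact ⟨g, (hL g).2 hg, by rw [h0, Pq_iq b π hπ]⟩
  · intro g hg
    obtain ⟨z, hz⟩ := hmem g hg
    exact ⟨z, by rw [hz, Pq_iq b π hπ]⟩
  · intro x y
    rw [hη, hη, Bf_symm]
  · intro g x y
    show η (M g x) (M g y) = η x y
    rw [hη, hη, hM, hM, hBinv]
  · intro x hx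
    have h1 : iq b x = 0 := by
      apply Bf_nd
      intro w
      rw [← b.sum_repr w, map_sum]
      refine Finset.sum_eq_zero fun k _ => ?_
      rw [map_smul]
      have hbk : b k = iq b (Pi.single k 1) := by rw [iq_single]; simp
      have := hx (Pi.single k 1)
      rw [hη, ← hbk] at this
      rw [this, smul_zero]
    exact iq_inj b (by rw [h1, map_zero])

end conv

end Pool.Agent.H3.Cryst
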