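import Pool.Agent.H3.GSMB

set_option autoImplicit false
set_option linter.unusedSectionVars false

namespace Pool.Agent.H3.GSM

instance fact11 : Fact (Nat.Prime 11) := ⟨by norm_num⟩

abbrev M4 (S : Type) := Matrix (Fin 4) (Fin 4) S

section mat
variable {S : Type} [Ring S] [Algebra (ZMod 11) S]

def D : M4 (ZMod 11) := Matrix.diagonal ![3, 9, 5, 4]
def D' : M4 (ZMod 11) := Matrix.diagonal ![6, 7, 3, 4]
def E (j : Fin 4) : M4 (ZMod 11) := Matrix.diagonal (fun i => if i = j then 1 else 0)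

theorem D5 : D ^ 5 = 1 := by
  rw [D, Matrix.diagonal_pow, ← Matrix.diagonal_one]
  congr 1
  decide

theorem DD' : (D - 1) * D' = 1 := by
  rw [D, D', ← Matrix.diagonal_one, Matrix.diagonal_sub, Matrix.diagonal_mul_diagonal]
  congr 1
  decide

theorem D'D : D' * (D - 1) = 1 := by
  rw [D, D', ← Matrix.diagonal_one, Matrix.diagonal_sub, Matrix.diagonal_mul_diagonal]
  congr 1
  decide

theorem D_adj : D ∈ Algebra.adjoin (ZMod 11) {D} := Algebra.subset_adjoin rfl

theorem E_adj (j : Fin 4) : E j ∈ Algebra.adjoin (ZMod 11) {D} := by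
  have h : ∀ c : Fin 4 → ZMod 11, c 0 • (1 : M4 (ZMod 11)) + c 1 • D + c 2 • D ^ 2 + c 3 • D ^ 3
      ∈ Algebra.adjoin (ZMod 11) {D} := by
    intro c
    refine add_mem (add_mem (add_mem ?_ ?_) ?_) ?_
    · exact Subalgebra.smul_mem _ (one_mem _) _
    · exact Subalgebra.smul_mem _ D_adj _
    · exact Subalgebra.smul_mem _ (pow_mem D_adj 2) _
    · exact Subalgebra.smul_mem _ (pow_mem D_adj 3) _
  have h2 : ∃ c0 c1 c2 c3 : ZMod 11, E j = c0 • (1 : M4 (ZMod 11)) + c1 • D + c2 • D ^ 2 + c3 • D ^ 3 := by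
    have key : ∃ c0 c1 c2 c3 : ZMod 11, (fun i => if i = j then (1 : ZMod 11) else 0) =
        fun i => c0 + c1 * (![3, 9, 5, 4] : Fin 4 → ZMod 11) i + c2 * (![3, 9, 5, 4] : Fin 4 → ZMod 11) i ^ 2
          + c3 * (![3, 9, 5, 4] : Fin 4 → ZMod 11) i ^ 3 := by
      fin_cases j
      · exact ⟨4, 9, 7, 10, by decide⟩
      · exact ⟨5, 8, 1, 10, by decide⟩
      · exact ⟨8, 3, 2, 4, by decide⟩
      · exact ⟨6, 2, 1, 9, by decide⟩
    obtain ⟨c0, c1, c2, c3, hc⟩ := key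
    refine ⟨c0, c1, c2, c3, ?_⟩
    rw [E, hc, D, Matrix.diagonal_pow, Matrix.diagonal_pow, ← Matrix.diagonal_one]
    ext i l
    by_cases hil : i = l
    · subst hil
      simp [Matrix.diagonal_apply]
    · simp [Matrix.diagonal_apply, hil]
  obtain ⟨c0, c1, c2, c3, hc⟩ := h2
  rw [hc]
  exact h ![c0, c1, c2, c3]

def P (x : Fin 3 → S) : M4 S := !![0, x 0, x 1, x 2; 0, 0, 0, 0; 0, 0, 0, 0; 0, 0, 0, 0]
def Q : M4 S := !![0, 0, 0, 0; 1, 0, 0, 0; 1, 0, 0, 0; 1, 0, 0, 0]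

theorem PP (x : Fin 3 → S) : P x * P x = 0 := by
  ext i j
  fin_cases i <;> fin_cases j <;> simp [P, Matrix.mul_apply, Fin.sum_univ_four]

theorem QQ : (Q : M4 S) * Q = 0 := by
  ext i j
  fin_cases i <;> fin_cases j <;> simp [Q, Matrix.mul_apply, Fin.sum_univ_four]

def U (x : Fin 3 → S) : M4 S := (1 + P x) * (1 - Q)
def V (x : Fin 3 → S) : M4 S := (1 + Q) * (1 - P x)

theorem UV (x : Fin 3 → S) : U x * V x = 1 := by
  have h1 : (1 - Q : M4 S) * (1 + Q) = 1 := by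
    have : (1 - Q : M4 S) * (1 + Q) = 1 - Q * Q := by noncomm_ring
    rw [this, QQ, sub_zero]
  have h2 : (1 + P x) * (1 - P x) = 1 := by
    have : (1 + P x) * (1 - P x) = 1 - P x * P x := by noncomm_ring
    rw [this, PP, sub_zero]
  rw [U, V, mul_assoc, ← mul_assoc (1 - Q), h1, one_mul, h2]

theorem VU (x : Fin 3 → S) : V x * U x = 1 := by
  have h1 : (1 + Q : M4 S) * (1 - Q) = 1 := by
    have : (1 + Q : M4 S) * (1 - Q) = 1 - Q * Q := by noncomm_ring
    rw [this, QQ, sub_zero]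
  have h2 : (1 - P x) * (1 + P x) = 1 := by
    have : (1 - P x) * (1 + P x) = 1 - P x * P x := by noncomm_ring
    rw [this, PP, sub_zero]
  rw [U, V, mul_assoc, ← mul_assoc (1 - P x), h2, one_mul, h1]

noncomputable def fM (S : Type) [Ring S] [Algebra (ZMod 11) S] : M4 (ZMod 11) →ₐ[ZMod 11] M4 S :=
  (Algebra.ofId (ZMod 11) S).mapMatrix

theorem fM_E (j : Fin 4) : fM S (E j) = Matrix.diagonal (fun i => if i = j then 1 else 0) := by
  ext i l
  by_cases hil : i = l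
  · subst hil
    by_cases hij : i = j
    · simp [fM, E, Matrix.diagonal_apply, hij]
    · simp [fM, E, Matrix.diagonal_apply, hij]
  · simp [fM, E, Matrix.diagonal_apply, hil]

theorem key (x : Fin 3 → S) (a : Fin 3) :
    fM S (E 0) * (U x * fM S (E a.succ) * V x) * fM S (E 0) =
      Matrix.diagonal (fun i => if i = 0 then x a else 0) := by
  rw [fM_E, fM_E]
  ext i j
  rw [Matrix.mul_diagonal, Matrix.diagonal_mul]
  rw [U, V]
  fin_cases a <;> fin_cases i <;> fin_cases j <;>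
    simp [Matrix.mul_apply, Fin.sum_univ_four, P, Q, Matrix.diagonal_apply, Matrix.one_apply]

end mat

end Pool.Agent.H3.GSM
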