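import Pool.Agent.H3.GSMC

set_option autoImplicit false
set_option linter.unusedSectionVars false

namespace Pool.Agent.H3.GSM

noncomputable def aug : R (ZMod 11) →ₐ[ZMod 11] ZMod 11 :=
  MonoidAlgebra.lift (ZMod 11) (ZMod 11) (FreeMonoid (Fin 3)) (FreeMonoid.lift fun _ => 0)

theorem aug_mon (w : FreeMonoid (Fin 3)) : aug (mon w) = FreeMonoid.lift (fun _ => (0 : ZMod 11)) w := by
  simp [aug, mon]

theorem aug_dec (a : R (ZMod 11)) : a - algebraMap (ZMod 11) _ (aug a) ∈ Ord (ZMod 11) 1 := by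
  induction a using lin_induction with
  | h0 => simp
  | hadd x y hx hy =>
    rw [map_add, map_add]
    have := add_mem hx hy
    convert this using 1
    abel
  | hm c w =>
    rw [map_smul, aug_mon]
    induction w using FreeMonoid.recOn with
    | one =>
      rw [map_one, mon_one, smul_eq_mul, mul_one, Algebra.algebraMap_eq_smul_one, sub_self]
      exact zero_mem _
    | of_mul i w ih =>
      rw [map_mul, FreeMonoid.lift_eval_of, zero_mul, smul_zero, map_zero, sub_zero]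
      refine Submodule.smul_mem _ _ (Submodule.subset_span ⟨_, ?_, rfl⟩)
      simp

theorem aug_zero {a : R (ZMod 11)} (h : aug a = 0) : a ∈ Ord (ZMod 11) 1 := by
  have := aug_dec a
  rwa [h, map_zero, sub_zero] at this

theorem pow_unip {Λ : Type} [Ring Λ] [Algebra (ZMod 11) Λ] (z : Λ) (k : ℕ) (hz : z ^ k = 0) :
    (z + 1) ^ (11 ^ k) = 1 := by
  have h11 : ((11 : ℕ) : Λ) = 0 := by
    have h1 : ((11 : ℕ) : Λ) = algebraMap (ZMod 11) Λ ((11 : ℕ) : ZMod 11) := (map_natCast _ _).symm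
    rw [h1, ZMod.natCast_self, map_zero]
  rw [Commute.add_pow_prime_pow_eq (p := 11) (by norm_num) (Commute.one_right z) k, h11]
  simp only [zero_mul, add_zero, one_pow]
  have h2 : k ≤ 11 ^ k := (Nat.lt_pow_self (by norm_num)).le
  rw [← Nat.sub_add_cancel h2, pow_add, hz, mul_zero, zero_add]

theorem per {S : Type} [Ring S] [Algebra (ZMod 11) S] (ψ : R (ZMod 11) →ₐ[ZMod 11] S)
    (hnil : ∀ Z : Matrix (Fin 4) (Fin 4) (R (ZMod 11)), (∀ i j, Z i j ∈ Ord (ZMod 11) 1) →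
      ∃ k, ∀ i j, ψ ((Z ^ k) i j) = 0) (g : (M4 (R (ZMod 11)))ˣ) :
    ∃ n, 0 < n ∧ (ψ.mapMatrix (g : M4 (R (ZMod 11))) : M4 S) ^ n = 1 := by
  obtain ⟨m, hm, hm2⟩ := (isOfFinOrder_iff_pow_eq_one).1
    (isOfFinOrder_of_finite (Units.map (aug.mapMatrix : M4 (R (ZMod 11)) →ₐ[ZMod 11] M4 (ZMod 11)).toRingHom.toMonoidHom g))
  have h1 : (aug.mapMatrix ((g : M4 (R (ZMod 11))) ^ m) : M4 (ZMod 11)) = 1 := by
    have := congrArg Units.val hm2
    rw [Units.val_pow_eq_pow_val, Units.coe_map] at this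
    rw [map_pow]
    exact this
  obtain ⟨k, hk⟩ := hnil ((g : M4 (R (ZMod 11))) ^ m - 1) (by
    intro i j
    apply aug_zero
    have h2 : (aug.mapMatrix ((g : M4 (R (ZMod 11))) ^ m - 1) : M4 (ZMod 11)) i j = 0 := by
      rw [map_sub, h1, map_one, sub_self]; rfl
    exact h2)
  refine ⟨m * 11 ^ k, by positivity, ?_⟩
  have h3 : (ψ.mapMatrix ((g : M4 (R (ZMod 11))) ^ m - 1) : M4 S) ^ k = 0 := by
    rw [← map_pow]
    ext i j
    exact hk i j
  have h4 := pow_unip _ k h3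
  rw [map_sub, map_one, sub_add_cancel, map_pow, ← pow_mul] at h4
  exact h4

end Pool.Agent.H3.GSM
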