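import Pool.Agent.H3.GSMD

set_option autoImplicit false
set_option linter.unusedSectionVars false

namespace Pool.Agent.H3.GSM

section fin
variable {S : Type} [Ring S] [Algebra (ZMod 11) S]

theorem algHom_conj (x : Fin 3 → S) : ∃ c : M4 S →ₐ[ZMod 11] M4 S, ∀ y, c y = U x * y * V x :=
  ⟨{ toFun := fun y => U x * y * V x
     map_one' := by rw [mul_one, UV]
     map_mul' := by
       intro y z
      -- U y z V = U y V U z V
       calc U x * (y * z) * V x = U x * y * (1 * z) * V x := by rw [one_mul]; simp only [mul_assoc]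
         _ = U x * y * ((V x * U x) * z) * V x := by rw [VU]
         _ = U x * y * V x * (U x * z * V x) := by simp only [mul_assoc]
     map_zero' := by simp
     map_add' := by intro y z; rw [mul_add, add_mul]
     commutes' := by
       intro r
       rw [← Algebra.commutes, mul_assoc, UV, mul_one] }, fun _ => rfl⟩

/-- the algebra generated by `a = diag` and `b = U a V` contains all `s e₁₁` for words `s`. -/
theorem word_mem (x : Fin 3 → S) (ψ : R (ZMod 11) →ₐ[ZMod 11] S) (hψ : ∀ i, ψ (X i) = x i)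
    (w : FreeMonoid (Fin 3)) :
    Matrix.diagonal (fun i : Fin 4 => if i = 0 then ψ (mon w) else 0) ∈
      Algebra.adjoin (ZMod 11) ({fM S D, U x * fM S D * V x} : Set (M4 S)) := by
  obtain ⟨c, hc⟩ := algHom_conj x
  set B := Algebra.adjoin (ZMod 11) ({fM S D, U x * fM S D * V x} : Set (M4 S)) with hB
  have h1 : ∀ j, fM S (E j) ∈ B := by
    intro j
    have : Algebra.adjoin (ZMod 11) {D} ≤ B.comap (fM S) := by
      rw [Algebra.adjoin_le_iff]
      rintro _ rfl
      exact Algebra.subset_adjoin (by simp)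
    exact this (E_adj j)
  have h2 : ∀ j, U x * fM S (E j) * V x ∈ B := by
    intro j
    have : Algebra.adjoin (ZMod 11) {D} ≤ B.comap (c.comp (fM S)) := by
      rw [Algebra.adjoin_le_iff]
      rintro _ rfl
      change c (fM S D) ∈ B
      rw [hc]
      exact Algebra.subset_adjoin (by simp)
    have h3 := this (E_adj j)
    change c (fM S (E j)) ∈ B at h3
    rwa [hc] at h3
  have h3 : ∀ a, Matrix.diagonal (fun i : Fin 4 => if i = 0 then x a else 0) ∈ B := by
    intro a
    rw [← key]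
    exact mul_mem (mul_mem (h1 0) (h2 a.succ)) (h1 0)
  induction w using FreeMonoid.recOn with
  | one =>
    have := h1 0
    rw [fM_E] at this
    rw [mon_one, map_one]
    exact this
  | of_mul i w ih =>
    rw [← mon_mul, map_mul]
    have h4 := mul_mem (h3 i) ih
    rw [Matrix.diagonal_mul_diagonal] at h4
    convert h4 using 2
    ext l
    by_cases hl : l = 0
    · simp [hl, ← hψ, X]
    · simp [hl]

end fin

theorem main : ∃ (A : Type) (_ : AddCommGroup A) (α β : A ≃ₗ[ℤ] A),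
    (∀ a : A, α a = a → a = 0) ∧ (∀ a : A, β a = a → a = 0) ∧ orderOf α = 5 ∧ orderOf β = 5 ∧
    (∀ g ∈ Subgroup.closure {α, β}, IsOfFinOrder g) ∧
    Infinite (Subgroup.closure {α, β}) := by
  obtain ⟨I, hI, hnil, w, hw⟩ := golodM (K := ZMod 11)
  let J : Ideal (R (ZMod 11)) :=
    { carrier := I
      add_mem' := fun ha hb => I.add_mem ha hb
      zero_mem' := I.zero_mem
      smul_mem' := fun c a ha => (hI a ha c).2 }
  have hJ : J.IsTwoSided := ⟨fun b ha => (hI _ ha b).1⟩
  let S := R (ZMod 11) ⧸ J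
  let ψ : R (ZMod 11) →ₐ[ZMod 11] S := Ideal.Quotient.mkₐ (ZMod 11) J
  have hψ : ∀ a, ψ a = 0 ↔ a ∈ I := by
    intro a
    exact Ideal.Quotient.eq_zero_iff_mem
  have hnil' : ∀ Z : Matrix (Fin 4) (Fin 4) (R (ZMod 11)), (∀ i j, Z i j ∈ Ord (ZMod 11) 1) →
      ∃ k, ∀ i j, ψ ((Z ^ k) i j) = 0 := by
    intro Z hZ
    obtain ⟨k, hk⟩ := hnil Z hZ
    exact ⟨k, fun i j => (hψ _).2 (hk i j)⟩
  -- the group elements over the free algebra
  let T := R (ZMod 11)
  have ha5 : (fM T D) ^ 5 = 1 := by rw [← map_pow, D5, map_one]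
  let aT : (M4 T)ˣ := ⟨fM T D, (fM T D) ^ 4, by rw [← pow_succ', ha5], by rw [← pow_succ, ha5]⟩
  let uT : (M4 T)ˣ := ⟨U (fun i => (X i : T)), V (fun i => (X i : T)), UV _, VU _⟩
  let bT : (M4 T)ˣ := uT * aT * uT⁻¹
  let ψM : M4 T →ₐ[ZMod 11] M4 S := ψ.mapMatrix
  let Θ : (M4 T)ˣ →* (M4 S ≃ₗ[ℤ] M4 S) :=
    (DistribMulAction.toModuleAut ℤ (M4 S) : (M4 S)ˣ →* _).comp (Units.map ψM.toRingHom.toMonoidHom)
  have hΘ : ∀ (g : (M4 T)ˣ) (y : M4 S), Θ g y = ψM (g : M4 T) * y := fun g y => rfl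
  have hinj : ∀ g : (M4 T)ˣ, ψM (g : M4 T) = 1 → Θ g = 1 := by
    intro g hg
    refine LinearEquiv.ext fun y => ?_
    rw [hΘ, hg, one_mul]; rfl
  have hne : (1 : M4 S) ≠ 0 := by
    intro h
    have h0 := congrFun (congrFun h 0) 0
    rw [Matrix.one_apply_eq, Matrix.zero_apply] at h0
    have h1 : ψ (mon (w 0)) = 0 := by
      have : ψ (mon (w 0)) = ψ (mon (w 0)) * 1 := (mul_one _).symm
      rw [this, h0, mul_zero]
    rw [hψ] at h1
    apply hw.ne_zero 0
    rwa [← LinearMap.mem_ker, Submodule.ker_mkQ]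
  -- fixed point freeness
  have hfa : ∀ y : M4 S, Θ aT y = y → y = 0 := by
    intro y hy
    rw [hΘ] at hy
    have h1 : ψM (fM T (D' * (D - 1))) * y = 0 := by
      rw [map_mul, map_mul, mul_assoc]
      have : ψM (fM T (D - 1)) * y = 0 := by
        rw [map_sub, map_sub, map_one, map_one, sub_mul, one_mul]
        change ψM (fM T D) * y = y at hy
        rw [hy, sub_self]
      rw [this, mul_zero]
    rwa [D'D, map_one, map_one, one_mul] at h1
  have hfb : ∀ y : M4 S, Θ bT y = y → y = 0 := by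
    intro y hy
    have h1 : Θ aT (Θ uT⁻¹ y) = Θ uT⁻¹ y := by
      have h2 : Θ uT (Θ aT (Θ uT⁻¹ y)) = y := by
        have : Θ bT y = Θ uT (Θ aT (Θ uT⁻¹ y)) := by
          change Θ (uT * aT * uT⁻¹) y = _
          rw [map_mul, map_mul]; rfl
        rw [← this]; exact hy
      have h3 : Θ uT⁻¹ (Θ uT (Θ aT (Θ uT⁻¹ y))) = Θ aT (Θ uT⁻¹ y) := by
        rw [← LinearEquiv.mul_apply, ← map_mul, inv_mul_cancel, map_one]; rfl
      rw [← h3, h2]
    have h4 := hfa _ h1
    have h5 : Θ uT (Θ uT⁻¹ y) = y := by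
      rw [← LinearEquiv.mul_apply, ← map_mul, mul_inv_cancel, map_one]; rfl
    rw [← h5, h4, map_zero]
  have hpa : aT ^ 5 = 1 := by
    apply Units.ext
    rw [Units.val_pow_eq_pow_val]
    exact ha5
  have hpb : bT ^ 5 = 1 := by
    change (uT * aT * uT⁻¹) ^ 5 = 1
    rw [conj_pow, hpa, mul_one, mul_inv_cancel]
  have hord : ∀ g : (M4 T)ˣ, g ^ 5 = 1 → (∀ y : M4 S, Θ g y = y → y = 0) → orderOf (Θ g) = 5 := by
    intro g hg hf
    haveI : Fact (Nat.Prime 5) := ⟨by norm_num⟩
    apply orderOf_eq_prime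
    · rw [← map_pow, hg, map_one]
    · intro h
      apply hne
      apply hf
      rw [h]; rfl
  refine ⟨M4 S, inferInstance, Θ aT, Θ bT, hfa, hfb, hord _ hpa hfa, hord _ hpb hfb, ?_, ?_⟩
  · intro g hg
    have h1 : g ∈ Θ.range := by
      have : Subgroup.closure {Θ aT, Θ bT} ≤ Θ.range := by
        rw [Subgroup.closure_le]
        rintro _ (rfl | rfl)
        · exact ⟨_, rfl⟩
        · exact ⟨_, rfl⟩
      exact this hg
    obtain ⟨g, rfl⟩ := h1
    obtain ⟨n, hn, hn2⟩ := per ψ hnil' g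
    rw [isOfFinOrder_iff_pow_eq_one]
    refine ⟨n, hn, ?_⟩
    rw [← map_pow]
    apply hinj
    rw [Units.val_pow_eq_pow_val, map_pow]
    exact hn2
  · by_contra hfin
    rw [not_infinite_iff_finite] at hfin
    -- the submonoid generated by a, b is finite
    have ha' : ψM (aT : M4 T) = fM S D := by
      ext i j
      change ψ ((Algebra.ofId (ZMod 11) T) (D i j)) = (Algebra.ofId (ZMod 11) S) (D i j)
      rw [Algebra.ofId_apply, Algebra.ofId_apply, AlgHom.commutes]
    have hP : ψM (P (fun i => (X i : T))) = P (fun i => ψ (X i)) := by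
      ext i j; fin_cases i <;> fin_cases j <;> simp [P, ψM]
    have hQ : ψM (Q : M4 T) = Q := by
      ext i j; fin_cases i <;> fin_cases j <;> simp [Q, ψM]
    have hU : ψM (U (fun i => (X i : T))) = U (fun i => ψ (X i)) := by
      rw [U, U, map_mul, map_add, map_sub, map_one, hP, hQ]
    have hV : ψM (V (fun i => (X i : T))) = V (fun i => ψ (X i)) := by
      rw [V, V, map_mul, map_add, map_sub, map_one, hP, hQ]
    have hb' : ψM (bT : M4 T) = U (fun i => ψ (X i)) * fM S D * V (fun i => ψ (X i)) := by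
      change ψM (U (fun i => (X i : T)) * fM T D * V (fun i => (X i : T))) = _
      rw [map_mul, map_mul, hU, hV]
      rw [show ψM (fM T D) = fM S D from ha']
    have h1 : ∀ y ∈ Submonoid.closure ({ψM (aT : M4 T), ψM (bT : M4 T)} : Set (M4 S)),
        ∃ φ ∈ Subgroup.closure {Θ aT, Θ bT}, ∀ z, φ z = y * z := by
      intro y hy
      induction hy using Submonoid.closure_induction with
      | mem y hy =>
        rcases hy with rfl | rfl
        · exact ⟨Θ aT, Subgroup.subset_closure (by simp), fun z => hΘ _ _⟩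
        · exact ⟨Θ bT, Subgroup.subset_closure (by simp), fun z => hΘ _ _⟩
      | one => exact ⟨1, one_mem _, fun z => (one_mul z).symm⟩
      | mul y z _ _ hy hz =>
        obtain ⟨φ, hφ, hφ2⟩ := hy
        obtain ⟨χ, hχ, hχ2⟩ := hz
        refine ⟨φ * χ, mul_mem hφ hχ, fun t => ?_⟩
        rw [LinearEquiv.mul_apply, hχ2, hφ2, mul_assoc]
    have h2 : (Submonoid.closure ({ψM (aT : M4 T), ψM (bT : M4 T)} : Set (M4 S)) : Set (M4 S)).Finite := by
      refine Set.Finite.subset (Set.finite_range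
        (fun φ : Subgroup.closure {Θ aT, Θ bT} => (φ : M4 S ≃ₗ[ℤ] M4 S) (1 : M4 S))) ?_
      intro y hy
      obtain ⟨φ, hφ, hφ2⟩ := h1 y hy
      exact ⟨⟨φ, hφ⟩, by simp [hφ2]⟩
    have h3 : (Algebra.adjoin (ZMod 11) ({ψM (aT : M4 T), ψM (bT : M4 T)} : Set (M4 S)) : Set (M4 S)).Finite := by
      have h4 : Module.Finite (ZMod 11) (Submodule.span (ZMod 11)
          (Submonoid.closure ({ψM (aT : M4 T), ψM (bT : M4 T)} : Set (M4 S)) : Set (M4 S))) :=
        FiniteDimensional.span_of_finite _ h2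
      have h5 := Module.finite_of_finite (ZMod 11) (M := Submodule.span (ZMod 11)
          (Submonoid.closure ({ψM (aT : M4 T), ψM (bT : M4 T)} : Set (M4 S)) : Set (M4 S)))
      have h6 := Algebra.adjoin_eq_span (ZMod 11) ({ψM (aT : M4 T), ψM (bT : M4 T)} : Set (M4 S))
      have h7 : (Algebra.adjoin (ZMod 11) ({ψM (aT : M4 T), ψM (bT : M4 T)} : Set (M4 S)) : Set (M4 S)) =
        (Submodule.span (ZMod 11)
          (Submonoid.closure ({ψM (aT : M4 T), ψM (bT : M4 T)} : Set (M4 S)) : Set (M4 S)) : Set (M4 S)) := by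
        rw [← h6]; rfl
      rw [h7]
      exact Set.toFinite _
    rw [ha', hb'] at h3
    refine Set.infinite_range_of_injective (f := fun n : ℕ => (Matrix.diagonal
      (fun i : Fin 4 => if i = 0 then ψ (mon (w n)) else 0) : M4 S)) ?_ (h3.subset ?_)
    · intro n m hnm
      have h8 := congrFun (congrFun hnm 0) 0
      simp only [Matrix.diagonal_apply_eq, if_true] at h8
      apply hw.injective
      have h9 : ψ (mon (w n) - mon (w m)) = 0 := by rw [map_sub, h8, sub_self]
      rw [hψ] at h9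
      exact (Submodule.Quotient.eq I).2 h9
    · rintro _ ⟨n, rfl⟩
      exact word_mem (fun i => ψ (X i)) ψ (fun _ => rfl) (w n)

end Pool.Agent.H3.GSM
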