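import Mathlib
set_option autoImplicit false

namespace Pool.Agent.H3.NilRep

abbrev W := FreeMonoid (Fin 3)
abbrev T := MonoidAlgebra ℚ W
instance : DecidableEq W := inferInstanceAs (DecidableEq (List (Fin 3)))
abbrev Phi := W → ℚ

def shiftHom : W →* Module.End ℚ Phi where
  toFun v := LinearMap.funLeft ℚ ℚ (fun w : W => w * v)
  map_one' := by
    apply LinearMap.ext; intro φ; funext w
    simp [LinearMap.funLeft]
  map_mul' v₁ v₂ := by
    apply LinearMap.ext; intro φ; funext w
    simp [LinearMap.funLeft, mul_assoc]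

@[simp] lemma shiftHom_apply (v : W) (φ : Phi) (w : W) : shiftHom v φ w = φ (w * v) := rfl

noncomputable def rho : T →ₐ[ℚ] Module.End ℚ Phi := MonoidAlgebra.lift ℚ (Module.End ℚ Phi) W shiftHom

lemma rho_apply (f : T) (φ : Phi) : rho f φ = f.coeff.sum (fun v c => c • shiftHom v φ) := by
  unfold rho
  rw [MonoidAlgebra.lift_apply]
  simp only [Finsupp.sum]
  rw [LinearMap.sum_apply]
  rfl

lemma rho_single (v : W) (φ : Phi) : rho (MonoidAlgebra.single v 1) φ = shiftHom v φ := by
  unfold rho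
  rw [MonoidAlgebra.lift_single]
  simp

def IsHom (f : T) (i : ℕ) : Prop := ∀ v, f.coeff v ≠ 0 → v.length = i

def Phin (n : ℕ) : Submodule ℚ Phi where
  carrier := {φ | ∀ w : W, w.length ≠ n → φ w = 0}
  add_mem' := by
    intro a b ha hb w hw
    simp [ha w hw, hb w hw]
  zero_mem' := by intro w _; rfl
  smul_mem' := by
    intro c a ha w hw
    simp [ha w hw]

lemma rho_hom {f : T} {i n : ℕ} (hf : IsHom f i) {φ : Phi} (hφ : φ ∈ Phin n) (w : W)
    (hw : w.length + i ≠ n) : rho f φ w = 0 := by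
  rw [rho_apply]
  simp only [Finsupp.sum]
  rw [Finset.sum_apply]
  apply Finset.sum_eq_zero
  intro v hv
  have h1 := hf v (Finsupp.mem_support_iff.mp hv)
  have h2 : φ (w * v) = 0 := hφ _ (by rw [FreeMonoid.length_mul, h1]; exact hw)
  simp [h2]

variable (f : ℕ → T)

noncomputable def CC : Submodule ℚ Phi where
  carrier := {φ | ∀ g : T, ∀ i, rho (f i * g) φ = 0}
  add_mem' := by
    intro a b ha hb g i
    rw [map_add, ha g i, hb g i, add_zero]
  zero_mem' := by intro g i; simp
  smul_mem' := by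
    intro c a ha g i
    rw [map_smul, ha g i, smul_zero]

lemma C_closed {φ : Phi} (hφ : φ ∈ CC f) (h : T) : rho h φ ∈ CC f := by
  intro g i
  have := hφ (g * h) i
  rw [← mul_assoc, map_mul] at this
  exact this

lemma C_shift {φ : Phi} (hφ : φ ∈ CC f) (v : W) : shiftHom v φ ∈ CC f := by
  rw [← rho_single]; exact C_closed f hφ _

noncomputable def Cn (n : ℕ) : Submodule ℚ Phi := CC f ⊓ Phin n

noncomputable def Dn (n : ℕ) : Submodule ℚ Phi where
  carrier := {φ | φ ∈ Phin (n+1) ∧ ∀ j : Fin 3, shiftHom (FreeMonoid.of j) φ ∈ CC f}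
  add_mem' := by
    rintro a b ⟨ha, ha'⟩ ⟨hb, hb'⟩
    refine ⟨add_mem ha hb, fun j => ?_⟩
    rw [map_add]; exact add_mem (ha' j) (hb' j)
  zero_mem' := ⟨zero_mem _, fun j => by rw [map_zero]; exact zero_mem _⟩
  smul_mem' := by
    rintro c a ⟨ha, ha'⟩
    refine ⟨Submodule.smul_mem _ _ ha, fun j => ?_⟩
    rw [map_smul]; exact Submodule.smul_mem _ _ (ha' j)

lemma shift_Phin {n : ℕ} {φ : Phi} (hφ : φ ∈ Phin (n+1)) (j : Fin 3) :
    shiftHom (FreeMonoid.of j) φ ∈ Phin n := by
  intro w hw
  rw [shiftHom_apply]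
  apply hφ
  rw [FreeMonoid.length_mul, FreeMonoid.length_of]
  omega

lemma Cn_le_Dn (n : ℕ) : Cn f (n+1) ≤ Dn f n := by
  rintro φ ⟨h1, h2⟩
  exact ⟨h2, fun j => C_shift f h1 _⟩

/-- derivative map -/
noncomputable def der (n : ℕ) : Dn f n →ₗ[ℚ] (Fin 3 → Cn f n) where
  toFun φ := fun j => ⟨shiftHom (FreeMonoid.of j) φ.1, ⟨φ.2.2 j, shift_Phin φ.2.1 j⟩⟩
  map_add' := by
    intro a b; funext j; apply Subtype.ext
    simp
  map_smul' := by
    intro c a; funext j; apply Subtype.ext
    simp

lemma word_cases (v : W) (hv : v ≠ 1) : ∃ (v' : W) (j : Fin 3), v = v' * FreeMonoid.of j := by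
  have h : FreeMonoid.toList v ≠ [] := by
    intro h; apply hv
    exact FreeMonoid.toList.injective h
  refine ⟨FreeMonoid.ofList (FreeMonoid.toList v).dropLast, (FreeMonoid.toList v).getLast h, ?_⟩
  apply FreeMonoid.toList.injective
  rw [FreeMonoid.toList_mul, FreeMonoid.toList_of, FreeMonoid.toList_ofList]
  exact (List.dropLast_append_getLast h).symm

lemma der_injective (n : ℕ) : Function.Injective (der f n) := by
  intro a b hab
  apply Subtype.ext
  funext v
  by_cases hv : v = 1
  · subst hv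
    rw [a.2.1 1 (by simp), b.2.1 1 (by simp)]
  · obtain ⟨v', j, rfl⟩ := word_cases v hv
    have := congrFun hab j
    have h2 := congrArg Subtype.val this
    exact congrFun h2 v'

/-- integration -/
noncomputable def glue (n : ℕ) (p : Fin 3 → Cn f n) : Phi := fun w =>
  match (FreeMonoid.toList w).reverse with
  | [] => 0
  | j :: r => (p j).1 (FreeMonoid.ofList r.reverse)

lemma glue_mul (n : ℕ) (p : Fin 3 → Cn f n) (w : W) (j : Fin 3) :
    glue f n p (w * FreeMonoid.of j) = (p j).1 w := by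
  unfold glue
  have : (FreeMonoid.toList (w * FreeMonoid.of j)).reverse = j :: (FreeMonoid.toList w).reverse := by
    rw [FreeMonoid.toList_mul, FreeMonoid.toList_of]; simp
  rw [this]
  simp

lemma glue_one (n : ℕ) (p : Fin 3 → Cn f n) : glue f n p 1 = 0 := by
  unfold glue
  simp

lemma glue_mem (n : ℕ) (p : Fin 3 → Cn f n) : glue f n p ∈ Dn f n := by
  refine ⟨?_, ?_⟩
  · intro w hw
    by_cases hv : w = 1
    · subst hv; exact glue_one f n p
    · obtain ⟨v', j, rfl⟩ := word_cases w hv
      rw [glue_mul]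
      apply (p j).2.2
      rw [FreeMonoid.length_mul, FreeMonoid.length_of] at hw
      omega
  · intro j
    have : shiftHom (FreeMonoid.of j) (glue f n p) = (p j).1 := by
      funext w
      rw [shiftHom_apply, glue_mul]
    rw [this]
    exact (p j).2.1

lemma der_surjective (n : ℕ) : Function.Surjective (der f n) := by
  intro p
  refine ⟨⟨glue f n p, glue_mem f n p⟩, ?_⟩
  funext j
  apply Subtype.ext
  funext w
  show glue f n p (w * FreeMonoid.of j) = _
  rw [glue_mul]

noncomputable def derEquiv (n : ℕ) : Dn f n ≃ₗ[ℚ] (Fin 3 → Cn f n) :=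
  LinearEquiv.ofBijective (der f n) ⟨der_injective f n, der_surjective f n⟩

lemma fin_Cn : ∀ n : ℕ, FiniteDimensional ℚ (Cn f n) := by
  intro n
  induction n with
  | zero =>
    let e : Cn f 0 →ₗ[ℚ] ℚ := (LinearMap.proj (1 : W)).comp (Cn f 0).subtype
    refine Module.Finite.of_injective e ?_
    intro a b hab
    apply Subtype.ext
    funext v
    by_cases hv : v = 1
    · subst hv; exact hab
    · have hl : v.length ≠ 0 := by
        intro h
        exact hv (FreeMonoid.length_eq_zero.mp h)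
      rw [a.2.2 v hl, b.2.2 v hl]
  | succ n ih =>
    have : FiniteDimensional ℚ (Dn f n) := LinearEquiv.finiteDimensional (derEquiv f n).symm
    exact Submodule.finiteDimensional_of_le (Cn_le_Dn f n)

lemma rho_mem_C {n i : ℕ} (hf : IsHom (f i) i) (hi : 1 ≤ i) {φ : Phi} (hφ : φ ∈ Dn f n) :
    rho (f i) φ ∈ CC f := by
  rw [rho_apply]
  apply Submodule.sum_mem
  intro v hv
  apply Submodule.smul_mem
  have h1 := hf v (Finsupp.mem_support_iff.mp hv)
  have hv1 : v ≠ 1 := by
    rintro rfl
    simp at h1; omega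
  obtain ⟨v', j, rfl⟩ := word_cases v hv1
  rw [map_mul]
  exact C_shift f (hφ.2 j) v'

noncomputable def psi (hf : ∀ i, IsHom (f i) i) (n : ℕ) : Dn f n →ₗ[ℚ] ((m : Fin n) → Cn f m) where
  toFun φ := fun m => ⟨rho (f (n + 1 - m)) φ.1,
    ⟨rho_mem_C f (hf _) (by omega) φ.2, by
      intro w hw
      exact rho_hom (hf _) φ.2.1 w (by have := m.2; omega)⟩⟩
  map_add' := by
    intro a b; funext j; apply Subtype.ext
    simp
  map_smul' := by
    intro c a; funext j; apply Subtype.ext
    simp

lemma mem_C_of_psi (hf : ∀ i, IsHom (f i) i) (h0 : f 0 = 0) (h1 : f 1 = 0) (n : ℕ)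
    (φ : Dn f n) (h : psi f hf n φ = 0) : φ.1 ∈ Cn f (n+1) := by
  refine ⟨?_, φ.2.1⟩
  have key : ∀ i, rho (f i) φ.1 = 0 := by
    intro i
    by_cases hi : i ≤ n + 1
    · by_cases hi2 : 2 ≤ i
      · have hm : n + 1 - i < n := by omega
        have := congrFun h ⟨n + 1 - i, hm⟩
        have h3 := congrArg Subtype.val this
        have h4 : n + 1 - (n + 1 - i) = i := by omega
        have h5 : rho (f (n + 1 - (n + 1 - i))) φ.1 = 0 := h3
        rw [h4] at h5
        exact h5
      · interval_cases i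
        · rw [h0]; simp
        · rw [h1]; simp
    · funext w
      exact rho_hom (hf i) φ.2.1 w (by omega)
  intro g i
  rw [map_mul]
  show rho (f i) (rho g φ.1) = 0
  rw [rho_apply g]
  simp only [Finsupp.sum]
  rw [map_sum]
  apply Finset.sum_eq_zero
  intro v _
  rw [map_smul]
  by_cases hv : v = 1
  · subst hv
    rw [map_one shiftHom]
    simp [key i]
  · obtain ⟨v', j, rfl⟩ := word_cases v hv
    have hC := φ.2.2 j
    have := hC (MonoidAlgebra.single v' 1) i
    rw [map_mul] at this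
    have h2 : rho (f i) (rho (MonoidAlgebra.single v' 1) (shiftHom (FreeMonoid.of j) φ.1)) = 0 := this
    rw [rho_single] at h2
    rw [map_mul shiftHom]
    show _ • rho (f i) (shiftHom v' (shiftHom (FreeMonoid.of j) φ.1)) = 0
    rw [h2, smul_zero]

noncomputable def b (n : ℕ) : ℕ := Module.finrank ℚ (Cn f n)

lemma b_ineq (hf : ∀ i, IsHom (f i) i) (h0 : f 0 = 0) (h1 : f 1 = 0) (n : ℕ) :
    3 * b f n ≤ b f (n+1) + ∑ m ∈ Finset.range n, b f m := by
  have := fin_Cn f
  have : FiniteDimensional ℚ (Dn f n) := LinearEquiv.finiteDimensional (derEquiv f n).symm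
  have e1 : Module.finrank ℚ (Dn f n) = 3 * b f n := by
    rw [(derEquiv f n).finrank_eq, Module.finrank_pi_fintype]
    simp [b]
  have e2 := LinearMap.finrank_range_add_finrank_ker (psi f hf n)
  have e3 : Module.finrank ℚ (LinearMap.range (psi f hf n)) ≤ ∑ m ∈ Finset.range n, b f m := by
    refine le_trans (Submodule.finrank_le _) ?_
    rw [Module.finrank_pi_fintype, ← Fin.sum_univ_eq_sum_range]
    exact le_refl _
  have e4 : Module.finrank ℚ (LinearMap.ker (psi f hf n)) ≤ b f (n+1) := by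
    let g : LinearMap.ker (psi f hf n) →ₗ[ℚ] Cn f (n+1) :=
      { toFun := fun φ => ⟨φ.1.1, mem_C_of_psi f hf h0 h1 n φ.1 φ.2⟩
        map_add' := by intro a b; rfl
        map_smul' := by intro a b; rfl }
    refine LinearMap.finrank_le_finrank_of_injective (f := g) ?_
    intro a b hab
    apply Subtype.ext; apply Subtype.ext
    have h2 : (g a).1 = (g b).1 := congrArg Subtype.val hab
    exact h2
  omega

lemma b_zero (hf : ∀ i, IsHom (f i) i) (h0 : f 0 = 0) : 1 ≤ b f 0 := by
  have := fin_Cn f 0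
  have : Nontrivial (Cn f 0) := by
    let φ : Phi := fun w => if w = 1 then 1 else 0
    have hP : φ ∈ Phin 0 := by
      intro w hw
      show (if w = 1 then (1:ℚ) else 0) = 0
      rw [if_neg]
      rintro rfl
      simp at hw
    have hC : φ ∈ CC f := by
      intro g i
      rw [map_mul]
      show rho (f i) (rho g φ) = 0
      have hg : rho g φ ∈ Phin 0 := by
        intro w hw
        rw [rho_apply]
        simp only [Finsupp.sum]
        rw [Finset.sum_apply]
        apply Finset.sum_eq_zero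
        intro v _
        have : φ (w * v) = 0 := hP _ (by rw [FreeMonoid.length_mul]; clear_value φ; omega)
        simp [this]
      by_cases hi : i = 0
      · subst hi; rw [h0]; simp
      · funext w
        exact rho_hom (hf i) hg w (by omega)
    refine ⟨⟨⟨φ, hC, hP⟩, 0, ?_⟩⟩
    intro h
    have := congrFun (congrArg Subtype.val h) 1
    simp [φ] at this
  exact Module.finrank_pos

lemma b_growth (hf : ∀ i, IsHom (f i) i) (h0 : f 0 = 0) (h1 : f 1 = 0) (n : ℕ) :
    1 ≤ b f n ∧ ∑ m ∈ Finset.range n, b f m ≤ b f n := by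
  induction n with
  | zero => exact ⟨b_zero f hf h0, by simp⟩
  | succ n ih =>
    have := b_ineq f hf h0 h1 n
    rw [Finset.sum_range_succ]
    omega

theorem gs (hf : ∀ i, IsHom (f i) i) (h0 : f 0 = 0) (h1 : f 1 = 0) (n : ℕ) :
    ∃ φ ∈ CC f, ∃ w : W, w.length = n ∧ φ w ≠ 0 := by
  have := fin_Cn f n
  have h := (b_growth f hf h0 h1 n).1
  have : Nontrivial (Cn f n) := Module.nontrivial_of_finrank_pos (R := ℚ) h
  obtain ⟨φ, hφ⟩ := exists_ne (0 : Cn f n)
  have hne : φ.1 ≠ 0 := fun h => hφ (Subtype.ext h)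
  obtain ⟨w, hw⟩ := Function.ne_iff.mp hne
  refine ⟨φ.1, φ.2.1, w, ?_, hw⟩
  by_contra hl
  exact hw (φ.2.2 w hl)

end Pool.Agent.H3.NilRep
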