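import Pool.Agent.H3.NilRepA
set_option autoImplicit false

namespace Pool.Agent.H3.NilRep
open scoped Pointwise

noncomputable def comp (i : ℕ) (g : T) : T :=
  MonoidAlgebra.ofCoeff (g.coeff.filter (fun v => v.length = i))

lemma comp_coeff (i : ℕ) (g : T) (v : W) : (comp i g).coeff v = if v.length = i then g.coeff v else 0 := by
  unfold comp
  rw [MonoidAlgebra.coeff_ofCoeff, Finsupp.filter_apply]

lemma comp_isHom (i : ℕ) (g : T) : IsHom (comp i g) i := by
  intro v hv
  by_contra h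
  apply hv
  rw [comp_coeff, if_neg h]

lemma mul_support (x y : T) (v : W) (hv : (x * y).coeff v ≠ 0) :
    ∃ a c : W, v = a * c ∧ x.coeff a ≠ 0 ∧ y.coeff c ≠ 0 := by
  classical
  have h1 : v ∈ (x * y).coeff.support := Finsupp.mem_support_iff.mpr hv
  have h2 := MonoidAlgebra.support_coeff_mul_subset x y h1
  obtain ⟨a, ha, c, hc, hac⟩ := Finset.mem_mul.mp h2
  exact ⟨a, c, hac.symm, Finsupp.mem_support_iff.mp ha, Finsupp.mem_support_iff.mp hc⟩

lemma exists_bound (r : T) : ∃ L : ℕ, ∀ v, r.coeff v ≠ 0 → v.length ≤ L := by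
  refine ⟨r.coeff.support.sup (fun v => v.length), ?_⟩
  intro v hv
  exact Finset.le_sup (f := fun v : W => v.length) (Finsupp.mem_support_iff.mpr hv)

lemma pow_support (r : T) (h0 : r.coeff 1 = 0) (L : ℕ) (hL : ∀ v, r.coeff v ≠ 0 → v.length ≤ L)
    (N : ℕ) : ∀ v, (r ^ N).coeff v ≠ 0 → N ≤ v.length ∧ v.length ≤ N * L := by
  induction N with
  | zero =>
    intro v hv
    rw [pow_zero, MonoidAlgebra.one_def, MonoidAlgebra.coeff_single] at hv
    have : v = 1 := by
      by_contra h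
      apply hv
      rw [Finsupp.single_apply, if_neg (fun h' => h h'.symm)]
    subst this
    simp
  | succ N ih =>
    intro v hv
    rw [pow_succ] at hv
    obtain ⟨a, c, rfl, ha, hc⟩ := mul_support _ _ v hv
    have h1 := ih a ha
    have h2 := hL c hc
    have h3 : 1 ≤ c.length := by
      by_contra h
      have : c.length = 0 := by omega
      rw [FreeMonoid.length_eq_zero] at this
      subst this
      exact hc h0
    rw [FreeMonoid.length_mul]
    constructor
    · omega
    · nlinarith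

instance : Countable W := inferInstanceAs (Countable (List (Fin 3)))

instance : Countable T := MonoidAlgebra.coeffEquiv.injective.countable

theorem exists_rel : ∃ f : ℕ → T, (∀ i, IsHom (f i) i) ∧ f 0 = 0 ∧ f 1 = 0 ∧
    ∀ r : T, r.coeff 1 = 0 → ∃ N : ℕ, ∀ i, comp i (r ^ N) = 0 ∨ comp i (r ^ N) = f i := by
  classical
  have : Nonempty {r : T // r.coeff 1 = 0} := ⟨⟨0, by simp⟩⟩
  obtain ⟨r, hr⟩ := exists_surjective_nat {r : T // r.coeff 1 = 0}
  choose L hL using fun j => exists_bound (r j).1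
  let N : ℕ → ℕ := fun j => Nat.rec 2 (fun j a => a * L j + a + 1) j
  have hN0 : N 0 = 2 := rfl
  have hNs : ∀ j, N (j+1) = N j * L j + N j + 1 := fun j => rfl
  clear_value N
  have hmono : StrictMono N := strictMono_nat_of_lt_succ (fun j => by rw [hNs]; omega)
  have h2 : ∀ j, 2 ≤ N j := fun j => by
    rw [← hN0]; exact hmono.monotone (Nat.zero_le j)
  have huniq : ∀ i j j', N j ≤ i → i < N (j+1) → N j' ≤ i → i < N (j'+1) → j = j' := by
    intro i j j' a1 a2 a3 a4
    have b1 : N j < N (j'+1) := lt_of_le_of_lt a1 a4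
    have b2 : N j' < N (j+1) := lt_of_le_of_lt a3 a2
    have c1 : j < j' + 1 := hmono.lt_iff_lt.mp b1
    have c2 : j' < j + 1 := hmono.lt_iff_lt.mp b2
    omega
  obtain ⟨f, hf1, hf2⟩ : ∃ f : ℕ → T, (∀ i, (h : ∃ j, N j ≤ i ∧ i < N (j+1)) →
      f i = comp i ((r h.choose).1 ^ N h.choose)) ∧ (∀ i, (¬ ∃ j, N j ≤ i ∧ i < N (j+1)) → f i = 0) := by
    refine ⟨fun i => if h : ∃ j, N j ≤ i ∧ i < N (j+1) then
      comp i ((r h.choose).1 ^ N h.choose) else 0, ?_, ?_⟩
    · intro i h; simp only [dif_pos h]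
    · intro i h; simp only [dif_neg h]
  refine ⟨f, ?_, ?_, ?_, ?_⟩
  · intro i
    by_cases h : ∃ j, N j ≤ i ∧ i < N (j+1)
    · rw [hf1 i h]
      exact comp_isHom _ _
    · rw [hf2 i h]
      intro v hv
      simp at hv
  · have h : ¬ ∃ j, N j ≤ 0 ∧ 0 < N (j+1) := by
      rintro ⟨j, h, _⟩
      have := h2 j
      omega
    exact hf2 _ h
  · have h : ¬ ∃ j, N j ≤ 1 ∧ 1 < N (j+1) := by
      rintro ⟨j, h, _⟩
      have := h2 j
      omega
    exact hf2 _ h
  · intro q hq
    obtain ⟨j, hj⟩ := hr ⟨q, hq⟩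
    refine ⟨N j, fun i => ?_⟩
    have hqj : (r j).1 = q := congrArg Subtype.val hj
    by_cases hi : N j ≤ i ∧ i < N (j+1)
    · right
      have h : ∃ j, N j ≤ i ∧ i < N (j+1) := ⟨j, hi⟩
      have hc : h.choose = j := huniq i _ _ h.choose_spec.1 h.choose_spec.2 hi.1 hi.2
      rw [hf1 i h, hc, hqj]
    · left
      apply MonoidAlgebra.coeff_injective
      ext v
      rw [comp_coeff]
      split_ifs with hv
      · by_contra hne
        change ¬ _ = (0:ℚ) at hne
        have := pow_support q hq (L j) (by rw [← hqj]; exact hL j) (N j) v hne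
        apply hi
        rw [hNs]
        omega
      · simp

lemma sum_comp (g : T) (M : ℕ) (hM : ∀ v, g.coeff v ≠ 0 → v.length < M) :
    g = ∑ i ∈ Finset.range M, comp i g := by
  apply MonoidAlgebra.coeff_injective
  ext v
  rw [MonoidAlgebra.coeff_sum, Finsupp.finsetSum_apply]
  simp only [comp_coeff]
  by_cases hv : g.coeff v = 0
  · rw [hv]; simp
  · rw [Finset.sum_ite_eq, if_pos (Finset.mem_range.mpr (hM v hv))]

section algebra
variable (f : ℕ → T)

def rel : T → T → Prop := fun a c => (∃ i, a = f i) ∧ c = 0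

abbrev B := RingQuot (rel f)

noncomputable def mk : T →ₐ[ℚ] B f := RingQuot.mkAlgHom ℚ (rel f)

lemma mk_surj : Function.Surjective (mk f) := RingQuot.mkAlgHom_surjective ℚ (rel f)

lemma mk_f (i : ℕ) : mk f (f i) = 0 := by
  have := RingQuot.mkAlgHom_rel ℚ (s := rel f) (x := f i) (y := 0) ⟨⟨i, rfl⟩, rfl⟩
  rw [map_zero] at this
  exact this

lemma mk_zero_of_comp (g : T) (h : ∀ i, comp i g = 0 ∨ comp i g = f i) : mk f g = 0 := by
  obtain ⟨L, hL⟩ := exists_bound g
  rw [sum_comp g (L+1) (fun v hv => Nat.lt_succ_of_le (hL v hv)), map_sum]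
  apply Finset.sum_eq_zero
  intro i _
  rcases h i with h | h
  · rw [h, map_zero]
  · rw [h, mk_f]

/-- augmentation of T -/
noncomputable def epsT : T →ₐ[ℚ] ℚ := MonoidAlgebra.lift ℚ ℚ W (FreeMonoid.lift (fun _ => 0))

lemma lift_zero_ne (v : W) (hv : v ≠ 1) : FreeMonoid.lift (fun _ : Fin 3 => (0:ℚ)) v = 0 := by
  obtain ⟨v', j, rfl⟩ := word_cases v hv
  rw [map_mul, FreeMonoid.lift_eval_of, mul_zero]

lemma epsT_apply (g : T) : epsT g = g.coeff 1 := by
  unfold epsT
  rw [MonoidAlgebra.lift_apply]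
  rw [Finsupp.sum]
  rw [Finset.sum_eq_single 1]
  · simp
  · intro v _ hv
    rw [lift_zero_ne v hv, smul_zero]
  · intro h
    rw [Finsupp.notMem_support_iff.mp h, zero_smul]

noncomputable def eps (hf : ∀ i, IsHom (f i) i) (h0 : f 0 = 0) : B f →ₐ[ℚ] ℚ :=
  RingQuot.liftAlgHom ℚ ⟨epsT, by
    rintro a c ⟨⟨i, rfl⟩, rfl⟩
    rw [map_zero, epsT_apply]
    by_contra h
    have := hf i 1 h
    simp at this
    subst this
    rw [h0] at h
    simp at h⟩

lemma eps_mk (hf : ∀ i, IsHom (f i) i) (h0 : f 0 = 0) (g : T) : eps f hf h0 (mk f g) = g.coeff 1 := by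
  unfold eps mk
  rw [RingQuot.liftAlgHom_mkAlgHom_apply, epsT_apply]

theorem nil (hf : ∀ i, IsHom (f i) i) (h0 : f 0 = 0)
    (hn : ∀ r : T, r.coeff 1 = 0 → ∃ N : ℕ, ∀ i, comp i (r ^ N) = 0 ∨ comp i (r ^ N) = f i)
    (x : B f) (hx : eps f hf h0 x = 0) : IsNilpotent x := by
  obtain ⟨g, rfl⟩ := mk_surj f x
  rw [eps_mk] at hx
  obtain ⟨N, hN⟩ := hn g hx
  refine ⟨N, ?_⟩
  rw [← map_pow]
  exact mk_zero_of_comp f _ hN

open Polynomial

noncomputable def gamHom : W →* (B f)[X] where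
  toFun v := C (mk f (MonoidAlgebra.single v 1)) * X ^ v.length
  map_one' := by
    rw [← MonoidAlgebra.one_def, map_one]; simp
  map_mul' v w := by
    have : (MonoidAlgebra.single (v * w) 1 : T) = MonoidAlgebra.single v 1 * MonoidAlgebra.single w 1 := by
      rw [MonoidAlgebra.single_mul_single, one_mul]
    rw [this, map_mul, C_mul, FreeMonoid.length_mul, pow_add]
    rw [mul_assoc, mul_assoc]
    congr 1
    rw [← mul_assoc, ← mul_assoc, X_pow_mul]

noncomputable def gamT : T →ₐ[ℚ] (B f)[X] := MonoidAlgebra.lift ℚ _ W (gamHom f)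

lemma gamT_single (v : W) : gamT f (MonoidAlgebra.single v 1) =
    C (mk f (MonoidAlgebra.single v 1)) * X ^ v.length := by
  unfold gamT
  rw [MonoidAlgebra.lift_single, one_smul]; rfl

lemma gamT_hom {g : T} {i : ℕ} (hg : IsHom g i) : gamT f g = C (mk f g) * X ^ i := by
  have e1 : gamT f g = ∑ v ∈ g.coeff.support, g.coeff v • (C (mk f (MonoidAlgebra.single v 1)) * X ^ i : (B f)[X]) := by
    unfold gamT
    rw [MonoidAlgebra.lift_apply, Finsupp.sum]
    apply Finset.sum_congr rfl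
    intro v hv
    show _ • (C (mk f (MonoidAlgebra.single v 1)) * X ^ v.length : (B f)[X]) = _
    rw [hg v (Finsupp.mem_support_iff.mp hv)]
  have e2 : g = ∑ v ∈ g.coeff.support, g.coeff v • (MonoidAlgebra.single v 1 : T) := by
    apply MonoidAlgebra.coeff_injective
    ext w
    rw [MonoidAlgebra.coeff_sum, Finsupp.finsetSum_apply]
    simp only [MonoidAlgebra.coeff_smul, MonoidAlgebra.coeff_single, Finsupp.smul_apply, Finsupp.single_apply]
    by_cases hw : g.coeff w = 0
    · rw [hw]; symm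
      apply Finset.sum_eq_zero
      intro v hv
      by_cases h : v = w
      · subst h; rw [hw]; simp
      · rw [if_neg h]; simp
    · rw [Finset.sum_eq_single w]
      · simp
      · intro v _ hv
        rw [if_neg hv]; simp
      · intro h; exact absurd (Finsupp.mem_support_iff.mpr hw) h
  rw [e1]
  conv_rhs => rw [e2]
  rw [map_sum, map_sum, Finset.sum_mul]
  apply Finset.sum_congr rfl
  intro v _
  rw [map_smul]
  rw [← smul_mul_assoc]
  congr 1
  rw [Polynomial.smul_C]

noncomputable def gam (hf : ∀ i, IsHom (f i) i) : B f →ₐ[ℚ] (B f)[X] :=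
  RingQuot.liftAlgHom ℚ ⟨gamT f, by
    rintro a c ⟨⟨i, rfl⟩, rfl⟩
    rw [map_zero, gamT_hom f (hf i), mk_f]
    simp⟩

lemma gam_mk (hf : ∀ i, IsHom (f i) i) (g : T) : gam f hf (mk f g) = gamT f g := by
  unfold gam mk
  rw [RingQuot.liftAlgHom_mkAlgHom_apply]

noncomputable def xx (j : Fin 3) : B f := mk f (MonoidAlgebra.single (FreeMonoid.of j) 1)

lemma gam_xx (hf : ∀ i, IsHom (f i) i) (j : Fin 3) : gam f hf (xx f j) = C (xx f j) * X := by
  unfold xx
  rw [gam_mk, gamT_single]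
  simp

lemma eps_xx (hf : ∀ i, IsHom (f i) i) (h0 : f 0 = 0) (j : Fin 3) : eps f hf h0 (xx f j) = 0 := by
  unfold xx
  rw [eps_mk, MonoidAlgebra.coeff_single, Finsupp.single_apply, if_neg]
  intro h
  have := congrArg FreeMonoid.length h
  simp at this

/-- T acting on C f -/
noncomputable def shiftC : W →* Module.End ℚ (CC f) where
  toFun v := (shiftHom v).restrict (fun φ hφ => C_shift f hφ v)
  map_one' := by
    apply LinearMap.ext; intro φ; apply Subtype.ext
    simp
  map_mul' v w := by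
    apply LinearMap.ext; intro φ; apply Subtype.ext
    simp

noncomputable def rhoC : T →ₐ[ℚ] Module.End ℚ (CC f) := MonoidAlgebra.lift ℚ _ W (shiftC f)

lemma rhoC_apply (g : T) (φ : CC f) : (rhoC f g φ).1 = rho g φ.1 := by
  unfold rhoC
  rw [rho_apply, MonoidAlgebra.lift_apply, Finsupp.sum, Finsupp.sum, LinearMap.sum_apply,
    Submodule.coe_sum]
  rfl

noncomputable def rhoB : B f →ₐ[ℚ] Module.End ℚ (CC f) :=
  RingQuot.liftAlgHom ℚ ⟨rhoC f, by
    rintro a c ⟨⟨i, rfl⟩, rfl⟩
    rw [map_zero]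
    apply LinearMap.ext; intro φ; apply Subtype.ext
    rw [rhoC_apply]
    have := φ.2 1 i
    rw [mul_one] at this
    rw [this]; rfl⟩

lemma rhoB_mk (g : T) : rhoB f (mk f g) = rhoC f g := by
  unfold rhoB mk
  rw [RingQuot.liftAlgHom_mkAlgHom_apply]

/-- functional on B attached to φ ∈ C f -/
noncomputable def func (φ : CC f) : B f →ₗ[ℚ] ℚ where
  toFun x := (rhoB f x φ).1 1
  map_add' x y := by simp
  map_smul' c x := by simp

lemma func_word (φ : CC f) (w : W) : func f φ (mk f (MonoidAlgebra.single w 1)) = φ.1 w := by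
  show (rhoB f (mk f (MonoidAlgebra.single w 1)) φ).1 1 = _
  rw [rhoB_mk, rhoC_apply, rho_single, shiftHom_apply, one_mul]

end algebra

end Pool.Agent.H3.NilRep
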