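import Mathlib
set_option autoImplicit false

namespace Pool.Agent.H3.NilRep
open scoped TensorProduct
open Polynomial

section
variable {B : Type} [Ring B] [Algebra ℚ B]

noncomputable def uu (x : Fin 3 → B) : B ⊗[ℚ] B := ∑ j : Fin 3, (x j) ⊗ₜ[ℚ] (x j)

noncomputable def bil (φ : B →ₗ[ℚ] ℚ) : B ⊗[ℚ] B →ₗ[ℚ] ℚ :=
  (LinearMap.mul' ℚ ℚ).comp (TensorProduct.map φ φ)

lemma bil_tmul (φ : B →ₗ[ℚ] ℚ) (a c : B) : bil φ (a ⊗ₜ c) = φ a * φ c := by
  simp [bil]

lemma bil_u_mul (x : Fin 3 → B) (φ : B →ₗ[ℚ] ℚ) (c : B ⊗[ℚ] B) :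
    bil φ (uu x * c) = ∑ j : Fin 3, bil (φ.comp (LinearMap.mulLeft ℚ (x j))) c := by
  induction c using TensorProduct.induction_on with
  | zero => simp
  | tmul a b =>
    unfold uu
    rw [Finset.sum_mul, map_sum]
    apply Finset.sum_congr rfl
    intro j _
    rw [Algebra.TensorProduct.tmul_mul_tmul, bil_tmul, bil_tmul]
    rfl
  | add a b ha hb =>
    rw [mul_add, map_add, ha, hb, ← Finset.sum_add_distrib]
    simp only [map_add]

lemma bil_pos (x : Fin 3 → B) (n : ℕ) : ∀ φ : B →ₗ[ℚ] ℚ, 0 ≤ bil φ (uu x ^ n) ∧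
    (bil φ (uu x ^ n) = 0 → ∀ l : List (Fin 3), l.length = n → φ ((l.map x).prod) = 0) := by
  induction n with
  | zero =>
    intro φ
    rw [pow_zero, Algebra.TensorProduct.one_def, bil_tmul]
    refine ⟨mul_self_nonneg _, ?_⟩
    intro h l hl
    rw [List.length_eq_zero_iff] at hl
    subst hl
    exact mul_self_eq_zero.mp h
  | succ n ih =>
    intro φ
    rw [pow_succ', bil_u_mul]
    refine ⟨Finset.sum_nonneg (fun j _ => (ih _).1), ?_⟩
    intro h l hl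
    rw [Finset.sum_eq_zero_iff_of_nonneg (fun j _ => (ih _).1)] at h
    obtain ⟨j, l', rfl⟩ := List.exists_cons_of_length_eq_add_one hl
    have h1 := (ih _).2 (h j (Finset.mem_univ _)) l' (by simpa using hl)
    rw [List.map_cons, List.prod_cons]
    exact h1

noncomputable def gamL (gam : B →ₐ[ℚ] B[X]) : B →ₐ[ℚ] (B ⊗[ℚ] B)[X] :=
  (Polynomial.mapAlgHom (Algebra.TensorProduct.includeLeft : B →ₐ[ℚ] B ⊗[ℚ] B)).comp gam

noncomputable def incR : B →ₐ[ℚ] (B ⊗[ℚ] B)[X] :=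
  (Polynomial.CAlgHom : B ⊗[ℚ] B →ₐ[ℚ] (B ⊗[ℚ] B)[X]).comp (Algebra.TensorProduct.includeRight : B →ₐ[ℚ] B ⊗[ℚ] B)

lemma comm_LR (gam : B →ₐ[ℚ] B[X]) (x y : B) : Commute (gamL gam x) (incR y) := by
  show gamL gam x * incR y = incR y * gamL gam x
  have e1 : gamL gam x = Polynomial.map ((Algebra.TensorProduct.includeLeft : B →ₐ[ℚ] B ⊗[ℚ] B) : B →+* B ⊗[ℚ] B)
    (gam x) := rfl
  have e2 : incR y = C ((1 : B) ⊗ₜ[ℚ] y) := rfl
  rw [e1, e2]
  ext n
  rw [coeff_mul_C, coeff_C_mul, coeff_map]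
  show ((gam x).coeff n ⊗ₜ[ℚ] (1 : B)) * ((1 : B) ⊗ₜ[ℚ] y) = ((1 : B) ⊗ₜ[ℚ] y) * ((gam x).coeff n ⊗ₜ[ℚ] (1 : B))
  rw [Algebra.TensorProduct.tmul_mul_tmul, Algebra.TensorProduct.tmul_mul_tmul]
  simp

noncomputable def gamA (gam : B →ₐ[ℚ] B[X]) : B ⊗[ℚ] B →ₐ[ℚ] (B ⊗[ℚ] B)[X] :=
  Algebra.TensorProduct.lift (gamL gam) incR (comm_LR gam)

lemma gamA_u (gam : B →ₐ[ℚ] B[X]) (x : Fin 3 → B) (hg : ∀ j, gam (x j) = C (x j) * X) :
    gamA gam (uu x) = C (uu x) * X := by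
  unfold uu
  rw [map_sum, map_sum, Finset.sum_mul]
  apply Finset.sum_congr rfl
  intro j _
  unfold gamA
  rw [Algebra.TensorProduct.lift_tmul]
  have e1 : gamL gam (x j) = Polynomial.map ((Algebra.TensorProduct.includeLeft : B →ₐ[ℚ] B ⊗[ℚ] B) : B →+* B ⊗[ℚ] B)
    (gam (x j)) := rfl
  have e2 : incR (x j) = C ((1 : B) ⊗ₜ[ℚ] (x j)) := rfl
  rw [e1, e2, hg, Polynomial.map_mul, map_C, map_X, mul_assoc, X_mul_C, ← mul_assoc, ← C_mul]
  congr 2
  show ((x j) ⊗ₜ[ℚ] (1 : B)) * ((1 : B) ⊗ₜ[ℚ] (x j)) = _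
  rw [Algebra.TensorProduct.tmul_mul_tmul, mul_one, one_mul]

theorem not_left_inv (gam : B →ₐ[ℚ] B[X]) (x : Fin 3 → B) (hg : ∀ j, gam (x j) = C (x j) * X)
    (hw : ∀ n : ℕ, ∃ φ : B →ₗ[ℚ] ℚ, ∃ l : List (Fin 3), l.length = n ∧ φ ((l.map x).prod) ≠ 0)
    (c : B ⊗[ℚ] B) :
    c * (1 - uu x) ≠ 1 := by
  intro h
  have h2 := congrArg (gamA gam) h
  rw [map_mul, map_sub, map_one, gamA_u gam x hg] at h2
  set P := gamA gam c
  rw [mul_sub, mul_one, ← mul_assoc] at h2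
  have hc : ∀ n, P.coeff n = uu x ^ n := by
    intro n
    induction n with
    | zero =>
      have := congrArg (fun q => Polynomial.coeff q 0) h2
      simp only [coeff_sub, mul_coeff_zero, coeff_X_zero, mul_zero, sub_zero, coeff_one_zero] at this
      rw [this, pow_zero]
    | succ n ih =>
      have := congrArg (fun q => Polynomial.coeff q (n+1)) h2
      simp only [coeff_sub, coeff_mul_X, coeff_mul_C] at this
      rw [coeff_one, if_neg (by omega), ih] at this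
      rw [pow_succ]
      exact sub_eq_zero.mp this
  have := hc (P.natDegree + 1)
  rw [coeff_eq_zero_of_natDegree_lt (Nat.lt_succ_self _)] at this
  obtain ⟨φ, l, hl, hne⟩ := hw (P.natDegree + 1)
  exact hne ((bil_pos x _ φ).2 (by rw [← this, map_zero]) l hl)

end

theorem main_abs {B : Type} [Ring B] [Algebra ℚ B] (eps : B →ₐ[ℚ] ℚ)
    (nil : ∀ x, eps x = 0 → IsNilpotent x) (x : Fin 3 → B) (hx : ∀ j, eps (x j) = 0)
    (gam : B →ₐ[ℚ] B[X]) (hg : ∀ j, gam (x j) = C (x j) * X)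
    (hw : ∀ n : ℕ, ∃ φ : B →ₗ[ℚ] ℚ, ∃ l : List (Fin 3), l.length = n ∧ φ ((l.map x).prod) ≠ 0) :
    ∃ (G : Type) (_ : Group G) (V : Type) (_ : AddCommGroup V) (_ : Module ℚ V)
    (ρ : Representation ℚ G V), Nontrivial V ∧
      (∀ W : Submodule ℚ V, (∀ g : G, ∀ v ∈ W, ρ g v ∈ W) → W = ⊥ ∨ W = ⊤) ∧
      (∀ g : G, ∀ v : V, ∃ n : ℕ, ((ρ g - 1) ^ n) v = 0) ∧ ¬ ∀ g : G, ρ g = 1 := by
  -- maximal left ideal
  have hne : Ideal.span {1 - uu x} ≠ (⊤ : Ideal (B ⊗[ℚ] B)) := by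
    intro h
    have : (1 : B ⊗[ℚ] B) ∈ Ideal.span {1 - uu x} := by rw [h]; trivial
    obtain ⟨c, hc⟩ := Ideal.mem_span_singleton'.mp this
    exact not_left_inv gam x hg hw c hc
  obtain ⟨m, hm, hle⟩ := Ideal.exists_le_maximal _ hne
  let V := (B ⊗[ℚ] B) ⧸ m
  let G1 : Subgroup Bˣ := (Units.map (eps : B →* ℚ)).ker
  let G := G1 × G1
  let toA : G →* B ⊗[ℚ] B :=
    { toFun := fun g => (g.1.1.1) ⊗ₜ[ℚ] (g.2.1.1)
      map_one' := rfl
      map_mul' := fun g h => by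
        rw [Algebra.TensorProduct.tmul_mul_tmul]; rfl }
  let ρ : Representation ℚ G V := ((Algebra.lsmul ℚ ℚ V : B ⊗[ℚ] B →ₐ[ℚ] Module.End ℚ V) : B ⊗[ℚ] B →* Module.End ℚ V).comp toA
  have hρ : ∀ (g : G) (v : V), ρ g v = (g.1.1.1 ⊗ₜ[ℚ] g.2.1.1 : B ⊗[ℚ] B) • v := fun g v => rfl
  have heps : ∀ g : G1, eps g.1.1 = 1 := by
    intro g
    have := g.2
    rw [MonoidHom.mem_ker] at this
    exact congrArg Units.val this
  -- every element of B is a combination of elements of G1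
  have hcomb : ∀ x : B, ∃ (q : ℚ) (g : G1), x = algebraMap ℚ B q + g.1.1 := by
    intro x
    have hnil : IsNilpotent (x - algebraMap ℚ B (eps x)) := by
      apply nil
      rw [map_sub, AlgHom.commutes]
      simp
    have hu : IsUnit (1 + (x - algebraMap ℚ B (eps x))) := hnil.isUnit_one_add
    obtain ⟨y, hy⟩ := hu
    refine ⟨eps x - 1, ⟨y, ?_⟩, ?_⟩
    · rw [MonoidHom.mem_ker]
      apply Units.ext
      show eps y.1 = 1
      rw [hy, map_add, map_sub, AlgHom.commutes, map_one]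
      simp
    · show x = _ + y.1
      rw [hy, map_sub, map_one]
      abel
  refine ⟨G, inferInstance, V, inferInstance, inferInstance, ρ, ?_, ?_, ?_, ?_⟩
  · exact Submodule.Quotient.nontrivial_iff.mpr hm.ne_top
  · intro S hS
    -- S is stable under B ⊗ B
    have key : ∀ (x y : B) (v : V), v ∈ S → ((x ⊗ₜ[ℚ] y : B ⊗[ℚ] B)) • v ∈ S := by
      intro x y v hv
      obtain ⟨q, g, rfl⟩ := hcomb x
      obtain ⟨r, h, rfl⟩ := hcomb y
      have e : ((algebraMap ℚ B q + g.1.1) ⊗ₜ[ℚ] (algebraMap ℚ B r + h.1.1) : B ⊗[ℚ] B) =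
        (q * r) • ((1 : B) ⊗ₜ[ℚ] (1 : B)) + q • ((1 : B) ⊗ₜ[ℚ] h.1.1) +
        r • (g.1.1 ⊗ₜ[ℚ] (1 : B)) + g.1.1 ⊗ₜ[ℚ] h.1.1 := by
        rw [Algebra.algebraMap_eq_smul_one, Algebra.algebraMap_eq_smul_one]
        simp only [TensorProduct.add_tmul, TensorProduct.tmul_add, TensorProduct.tmul_smul, ← TensorProduct.smul_tmul']
        module
      rw [e, add_smul, add_smul, add_smul, smul_assoc, smul_assoc, smul_assoc]
      refine add_mem (add_mem (add_mem ?_ ?_) ?_) ?_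
      · exact S.smul_mem _ (hS 1 v hv)
      · exact S.smul_mem _ (hS (1, h) v hv)
      · exact S.smul_mem _ (hS (g, 1) v hv)
      · exact hS (g, h) v hv
    have key2 : ∀ (a : B ⊗[ℚ] B) (v : V), v ∈ S → a • v ∈ S := by
      intro a v hv
      induction a using TensorProduct.induction_on with
      | zero => rw [zero_smul]; exact zero_mem _
      | tmul x y => exact key x y v hv
      | add x y hx hy => rw [add_smul]; exact add_mem hx hy
    let S' : Submodule (B ⊗[ℚ] B) V :=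
      { carrier := S
        add_mem' := fun ha hb => S.add_mem ha hb
        zero_mem' := S.zero_mem
        smul_mem' := fun a v hv => key2 a v hv }
    have hsimple : IsSimpleModule (B ⊗[ℚ] B) V := by
      rw [isSimpleModule_iff_isCoatom]
      exact hm.out
    rcases eq_bot_or_eq_top S' with h | h
    · left
      rw [eq_bot_iff]
      intro v hv
      have : v ∈ S' := hv
      rw [h] at this
      exact this
    · right
      rw [eq_top_iff]
      intro v _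
      have : v ∈ S' := by rw [h]; trivial
      exact this
  · intro g v
    have hg1 : IsNilpotent (g.1.1.1 - 1) := by
      apply nil
      rw [map_sub, heps, map_one, sub_self]
    have hg2 : IsNilpotent (g.2.1.1 - 1) := by
      apply nil
      rw [map_sub, heps, map_one, sub_self]
    have e : toA g - 1 = ((g.1.1.1 - 1) ⊗ₜ[ℚ] g.2.1.1 : B ⊗[ℚ] B) + (1 ⊗ₜ[ℚ] (g.2.1.1 - 1)) := by
      show (g.1.1.1 ⊗ₜ[ℚ] g.2.1.1 : B ⊗[ℚ] B) - 1 = _
      rw [TensorProduct.sub_tmul, TensorProduct.tmul_sub, Algebra.TensorProduct.one_def]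
      abel
    have n1 : IsNilpotent ((g.1.1.1 - 1) ⊗ₜ[ℚ] g.2.1.1 : B ⊗[ℚ] B) := by
      obtain ⟨n, hn'⟩ := hg1
      refine ⟨n, ?_⟩
      rw [Algebra.TensorProduct.tmul_pow, hn', TensorProduct.zero_tmul]
    have n2 : IsNilpotent ((1 : B) ⊗ₜ[ℚ] (g.2.1.1 - 1) : B ⊗[ℚ] B) := by
      obtain ⟨n, hn'⟩ := hg2
      refine ⟨n, ?_⟩
      rw [Algebra.TensorProduct.tmul_pow, hn', TensorProduct.tmul_zero]
    have hc : Commute ((g.1.1.1 - 1) ⊗ₜ[ℚ] g.2.1.1 : B ⊗[ℚ] B) (1 ⊗ₜ[ℚ] (g.2.1.1 - 1)) := by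
      show _ * _ = _ * _
      rw [Algebra.TensorProduct.tmul_mul_tmul, Algebra.TensorProduct.tmul_mul_tmul, mul_one, one_mul]
      congr 1
      rw [mul_sub, sub_mul, mul_one, one_mul]
    have n3 : IsNilpotent (toA g - 1) := by
      rw [e]; exact hc.isNilpotent_add n1 n2
    obtain ⟨n, hn'⟩ := n3
    refine ⟨n, ?_⟩
    have e2 : ρ g - 1 = (Algebra.lsmul ℚ ℚ V : B ⊗[ℚ] B →ₐ[ℚ] Module.End ℚ V) (toA g - 1) := by
      rw [map_sub, map_one]; rfl
    rw [e2, ← map_pow, hn', map_zero]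
    rfl
  · intro htriv
    have hz : ∀ (x y : B) (v : V), eps x = 0 → ((x ⊗ₜ[ℚ] y : B ⊗[ℚ] B)) • v = 0 := by
      intro x y v hx
      obtain ⟨q, g, rfl⟩ := hcomb x
      obtain ⟨r, h, rfl⟩ := hcomb y
      rw [map_add, AlgHom.commutes, heps] at hx
      have hq : q = -1 := by
        have : (q : ℚ) + 1 = 0 := hx
        linarith
      subst hq
      have e : ((algebraMap ℚ B (-1) + g.1.1) ⊗ₜ[ℚ] (algebraMap ℚ B r + h.1.1) : B ⊗[ℚ] B) =
        (-r) • ((1 : B) ⊗ₜ[ℚ] (1 : B)) - ((1 : B) ⊗ₜ[ℚ] h.1.1) +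
        r • (g.1.1 ⊗ₜ[ℚ] (1 : B)) + g.1.1 ⊗ₜ[ℚ] h.1.1 := by
        rw [Algebra.algebraMap_eq_smul_one, Algebra.algebraMap_eq_smul_one]
        simp only [TensorProduct.add_tmul, TensorProduct.tmul_add, TensorProduct.tmul_smul, ← TensorProduct.smul_tmul']
        module
      rw [e, add_smul, add_smul, sub_smul, smul_assoc, smul_assoc]
      have t1 : ((1 : B) ⊗ₜ[ℚ] (1 : B) : B ⊗[ℚ] B) • v = v := one_smul _ v
      have t2 : ((1 : B) ⊗ₜ[ℚ] h.1.1 : B ⊗[ℚ] B) • v = v := by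
        have := hρ (1, h) v
        rw [htriv] at this
        exact this.symm
      have t3 : (g.1.1 ⊗ₜ[ℚ] (1 : B) : B ⊗[ℚ] B) • v = v := by
        have := hρ (g, 1) v
        rw [htriv] at this
        exact this.symm
      have t4 : (g.1.1 ⊗ₜ[ℚ] h.1.1 : B ⊗[ℚ] B) • v = v := by
        have := hρ (g, h) v
        rw [htriv] at this
        exact this.symm
      rw [t1, t2, t3, t4]
      rw [neg_smul]
      abel
    let v : V := Submodule.Quotient.mk 1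
    have hu : uu x • v = 0 := by
      unfold uu
      rw [Finset.sum_smul]
      apply Finset.sum_eq_zero
      intro j _
      exact hz _ _ _ (hx j)
    have hv : (1 - uu x) • v = 0 := by
      show (1 - uu x) • (Submodule.Quotient.mk 1 : V) = 0
      rw [← Submodule.Quotient.mk_smul, Submodule.Quotient.mk_eq_zero]
      rw [smul_eq_mul, mul_one]
      exact hle (Ideal.subset_span rfl)
    rw [sub_smul, hu, sub_zero, one_smul] at hv
    rw [Submodule.Quotient.mk_eq_zero] at hv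
    exact hm.ne_top ((Ideal.eq_top_iff_one m).mpr hv)

end Pool.Agent.H3.NilRep
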