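import Mathlib

set_option autoImplicit false

namespace Pool.Agent.H3.Psi

open Matrix

instance : Fact (Nat.Prime 127) := ⟨by norm_num⟩

abbrev F := ZMod 127
abbrev SL := Matrix.SpecialLinearGroup (Fin 2) F
abbrev PSL := Matrix.ProjectiveSpecialLinearGroup (Fin 2) F

theorem center_mem (A : SL) (h : A ∈ Subgroup.center SL) : 
    ∃ r : F, (r = 1 ∨ r = -1) ∧ (A : Matrix (Fin 2) (Fin 2) F) = r • 1 := by
  obtain ⟨r, hr, hA⟩ := Matrix.SpecialLinearGroup.mem_center_iff.1 h
  rw [Fintype.card_fin] at hr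
  refine ⟨r, sq_eq_one_iff_of_side r hr, ?_⟩
  rw [← hA]
  ext i j
  fin_cases i <;> fin_cases j <;> simp
where
  sq_eq_one_iff_of_side (r : F) (h : r ^ 2 = 1) : r = 1 ∨ r = -1 := by
    have : (r - 1) * (r + 1) = 0 := by linear_combination h
    rcases mul_eq_zero.1 this with h | h
    · left; exact sub_eq_zero.1 h
    · right; exact eq_neg_of_add_eq_zero_left h

theorem card_center : Nat.card (Subgroup.center SL) = 2 := by
  rw [Nat.card_congr (Matrix.SpecialLinearGroup.center_equiv_rootsOfUnity' (0 : Fin 2)).toEquiv]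
  rw [Fintype.card_fin]
  have h : IsPrimitiveRoot (-1 : F) 2 := by
    refine IsPrimitiveRoot.neg_one 127 (by norm_num)
  exact h.card_rootsOfUnity

/-- parametrisation of the big cell -/
def big (t a : F) (c : Fˣ) : SL :=
  ⟨!![a, (a * (t - a) - 1) * (c⁻¹ : Fˣ); c, t - a], by
    rw [Matrix.det_fin_two_of]
    rw [mul_assoc, Units.inv_mul]; ring⟩

/-- parametrisation of the Borel subgroup -/
def bor (a : Fˣ) (b : F) : SL :=
  ⟨!![a, b; 0, (a⁻¹ : Fˣ)], by
    rw [Matrix.det_fin_two_of, Units.mul_inv]; ring⟩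

theorem bij : Function.Bijective (fun x : (F × F × Fˣ) ⊕ (Fˣ × F) => 
    (match x with
    | Sum.inl y => big y.1 y.2.1 y.2.2
    | Sum.inr y => bor y.1 y.2 : SL)) := by
  constructor
  · rintro (⟨t, a, c⟩ | ⟨a, b⟩) (⟨t', a', c'⟩ | ⟨a', b'⟩) h
    · have h0 : a = a' := congrFun (congrFun (congrArg Subtype.val h) 0) 0
      have h1 : (c : F) = c' := congrFun (congrFun (congrArg Subtype.val h) 1) 0
      have h2 : t - a = t' - a' := congrFun (congrFun (congrArg Subtype.val h) 1) 1
      have h3 : c = c' := Units.ext h1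
      subst h0 h3
      have h4 : t = t' := sub_left_injective h2
      rw [h4]
    · have h1 : (c : F) = 0 := congrFun (congrFun (congrArg Subtype.val h) 1) 0
      exact absurd h1 c.ne_zero
    · have h1 : (0 : F) = c' := congrFun (congrFun (congrArg Subtype.val h) 1) 0
      exact absurd h1.symm c'.ne_zero
    · have h0 : (a : F) = a' := congrFun (congrFun (congrArg Subtype.val h) 0) 0
      have h1 : b = b' := congrFun (congrFun (congrArg Subtype.val h) 0) 1
      rw [Units.ext h0, h1]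
  · intro A
    have hdet := A.2
    rw [Matrix.det_fin_two] at hdet
    by_cases hc : A.1 1 0 = 0
    · rw [hc, mul_zero, sub_zero] at hdet
      refine ⟨Sum.inr (⟨A.1 0 0, A.1 1 1, hdet, by rw [mul_comm]; exact hdet⟩, A.1 0 1), ?_⟩
      apply Subtype.ext
      show !![A.1 0 0, A.1 0 1; 0, A.1 1 1] = A.1
      have := Matrix.eta_fin_two A.1
      rw [hc] at this
      exact this.symm
    · refine ⟨Sum.inl (A.1 0 0 + A.1 1 1, A.1 0 0, Units.mk0 _ hc), ?_⟩
      apply Subtype.ext
      show !![A.1 0 0, (A.1 0 0 * (A.1 0 0 + A.1 1 1 - A.1 0 0) - 1) * ((Units.mk0 _ hc)⁻¹ : Fˣ); A.1 1 0, A.1 0 0 + A.1 1 1 - A.1 0 0] = A.1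
      have e1 : (A.1 0 0 * (A.1 0 0 + A.1 1 1 - A.1 0 0) - 1) * (((Units.mk0 _ hc)⁻¹ : Fˣ) : F) = A.1 0 1 := by
        rw [Units.val_inv_eq_inv_val, Units.val_mk0]
        field_simp
        linear_combination hdet
      rw [e1]
      conv_rhs => rw [Matrix.eta_fin_two A.1]
      congr 2
      ring_nf

theorem card_SL : Nat.card SL = 2048256 := by
  rw [← Nat.card_congr (Equiv.ofBijective _ bij), Nat.card_sum, Nat.card_prod, Nat.card_prod, Nat.card_prod,
    Nat.card_zmod, Nat.card_eq_fintype_card, ZMod.card_units]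

theorem card_PSL : Nat.card PSL = 1024128 := by
  have := Subgroup.card_eq_card_quotient_mul_card_subgroup (Subgroup.center SL)
  rw [card_SL, card_center] at this
  show Nat.card (SL ⧸ Subgroup.center SL) = _
  omega

theorem simple_PSL : IsSimpleGroup PSL := 
  Matrix.ProjectiveSpecialLinearGroup.rank_two_simple (by rw [Nat.card_zmod]; norm_num)

theorem noncomm_PSL : ∃ a b : PSL, a * b ≠ b * a := by
  by_contra hcon
  push Not at hcon
  have h1 : commutator PSL = ⊤ := SL2Simple.PSL_commutator_eq_top ⟨2, by decide, by decide⟩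
  have h2 : commutator PSL = ⊥ := by
    rw [commutator_def, Subgroup.commutator_eq_bot_iff_le_centralizer]
    intro x _
    rw [Subgroup.mem_centralizer_iff]
    intro y _
    exact hcon y x
  rw [h1] at h2
  have h3 : Nat.card (⊤ : Subgroup PSL) = Nat.card (⊥ : Subgroup PSL) := by rw [h2]
  rw [Subgroup.card_top, Subgroup.card_bot, card_PSL] at h3
  omega

/-- the pair `(s_n(t), s_{n+1}(t))` -/
def sq (t : F) : ℕ → F × F
  | 0 => (0, 1)
  | n + 1 => ((sq t n).2, t * (sq t n).2 - (sq t n).1)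

theorem cayley (M : Matrix (Fin 2) (Fin 2) F) (t : F) (hM : M.det = 1) (ht : M 0 0 + M 1 1 = t) :
    M * M = t • M - 1 := by
  rw [Matrix.det_fin_two] at hM
  subst ht
  ext i j
  fin_cases i <;> fin_cases j <;> simp [Matrix.mul_apply, Fin.sum_univ_two] <;>
    first | ring1 | linear_combination -hM

theorem pow_formula (M : Matrix (Fin 2) (Fin 2) F) (t : F) (hM : M.det = 1) (ht : M 0 0 + M 1 1 = t) (n : ℕ) :
    M ^ (n + 1) = (sq t n).2 • M - (sq t n).1 • 1 := by
  induction n with
  | zero => 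
    show M ^ 1 = (1 : F) • M - (0 : F) • 1
    simp
  | succ n ih =>
    rw [pow_succ, ih, sub_mul, smul_mul_assoc, cayley M t hM ht, smul_mul_assoc, one_mul]
    show _ = (t * (sq t n).2 - (sq t n).1) • M - (sq t n).2 • 1
    rw [smul_sub, smul_smul, sub_smul]
    rw [mul_comm t]
    abel

/-- fuelled search for the first zero -/
def rho (t : F) : ℕ → F × F → ℕ
  | 0, _ => 1
  | k + 1, s => if s.2 = 0 then 1 else rho t k (s.2, t * s.2 - s.1) + 1

theorem rho_spec (t : F) : ∀ k n j : ℕ, 0 < j → j < rho t k (sq t n) → (sq t (n + j)).1 ≠ 0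
  | 0, n, j, h1, h2 => by
    simp only [rho] at h2; omega
  | k + 1, n, j, h1, h2 => by
    rw [rho] at h2
    split_ifs at h2 with h
    · omega
    · rcases Nat.lt_or_ge 1 j with hj | hj
      · have := rho_spec t k (n + 1) (j - 1) (by omega) (by
          show j - 1 < rho t k ((sq t n).2, t * (sq t n).2 - (sq t n).1)
          omega)
        have e : n + 1 + (j - 1) = n + j := by omega
        rwa [e] at this
      · have e : j = 1 := by omega
        subst e
        exact h

theorem order_ge (t a : F) (c : Fˣ) (n : ℕ) (hn : 0 < n) (h : (big t a c) ^ n ∈ Subgroup.center SL) :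
    (sq t n).1 = 0 := by
  obtain ⟨r, _, hr⟩ := center_mem _ h
  rw [Matrix.SpecialLinearGroup.coe_pow] at hr
  obtain ⟨m, rfl⟩ := Nat.exists_eq_succ_of_ne_zero hn.ne'
  rw [pow_formula _ t (big t a c).2 (by show a + (t - a) = t; ring)] at hr
  have this : (sq t m).2 * (c : F) - (sq t m).1 * (1 : Matrix (Fin 2) (Fin 2) F) 1 0 =
      r * (1 : Matrix (Fin 2) (Fin 2) F) 1 0 := congrFun (congrFun hr 1) 0
  rw [Matrix.one_apply_ne (by decide), mul_zero, mul_zero, sub_zero] at this
  exact (mul_eq_zero.1 this).resolve_right c.ne_zero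

theorem order_big (t a : F) (c : Fˣ) : rho t 127 (0, 1) ≤ orderOf ((big t a c : SL) : PSL) := by
  by_contra hlt
  push Not at hlt
  have : Finite PSL := Nat.finite_of_card_ne_zero (by rw [card_PSL]; norm_num)
  have hpos : 0 < orderOf ((big t a c : SL) : PSL) := orderOf_pos _
  have h1 : ((big t a c : SL) : PSL) ^ orderOf ((big t a c : SL) : PSL) = 1 := pow_orderOf_eq_one _
  rw [← QuotientGroup.mk_pow, QuotientGroup.eq_one_iff] at h1
  have h2 := order_ge t a c _ hpos h1
  have h3 := rho_spec t 127 0 _ hpos hlt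
  rw [zero_add] at h3
  exact h3 h2

/-- representatives of units up to sign -/
def cc (k : Fin 63) : Fˣ := Units.mk0 ((k.val + 1 : ℕ) : F) (by revert k; decide +kernel)

theorem cc_spec : ∀ k k' : Fin 63, (((k.val + 1 : ℕ) : F) = ((k'.val + 1 : ℕ) : F) → k = k') ∧ 
    ((k.val + 1 : ℕ) : F) ≠ - ((k'.val + 1 : ℕ) : F) := by decide +kernel

theorem inj : Function.Injective (fun x : F × F × Fin 63 => ((big x.1 x.2.1 (cc x.2.2) : SL) : PSL)) := by
  rintro ⟨t, a, k⟩ ⟨t', a', k'⟩ h
  have h1 := QuotientGroup.eq.1 h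
  obtain ⟨r, hr, hz⟩ := center_mem _ h1
  have h2 : (big t' a' (cc k') : Matrix (Fin 2) (Fin 2) F) = r • (big t a (cc k) : Matrix (Fin 2) (Fin 2) F) := by
    have e : big t' a' (cc k') = big t a (cc k) * ((big t a (cc k))⁻¹ * big t' a' (cc k')) := by group
    rw [e, Matrix.SpecialLinearGroup.coe_mul, hz, mul_smul_comm, mul_one]
  have e10 : ((k'.val + 1 : ℕ) : F) = r * ((k.val + 1 : ℕ) : F) := congrFun (congrFun h2 1) 0
  have e00 : a' = r * a := congrFun (congrFun h2 0) 0
  have e11 : t' - a' = r * (t - a) := congrFun (congrFun h2 1) 1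
  rcases hr with rfl | rfl
  · rw [one_mul] at e10 e00 e11
    have := (cc_spec k' k).1 e10
    subst this e00
    have h4 : t' = t := sub_left_injective e11
    rw [h4]
  · rw [neg_one_mul] at e10
    exact absurd e10 (cc_spec k' k).2

theorem rho_sum : ∑ t : F, rho t 127 (0, 1) = 5606 := by decide +kernel

theorem psi_PSL [Fintype PSL] : 44853606 ≤ ∑ s : PSL, orderOf s := by
  have h1 : ∑ x : F × F × Fin 63, orderOf ((big x.1 x.2.1 (cc x.2.2) : SL) : PSL) ≤ ∑ s : PSL, orderOf s := by
    have h2 := Finset.sum_map (Finset.univ : Finset (F × F × Fin 63)) ⟨_, inj⟩ (fun s : PSL => orderOf s)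
    refine (h2.symm.le).trans ?_
    exact Finset.sum_le_sum_of_subset (Finset.subset_univ _)
  refine le_trans ?_ h1
  refine le_trans ?_ (Finset.sum_le_sum fun x _ => order_big x.1 x.2.1 (cc x.2.2))
  rw [Fintype.sum_prod_type]
  simp only [Finset.sum_const, Finset.card_univ, smul_eq_mul, ← Finset.mul_sum, rho_sum]
  rw [Fintype.card_prod, ZMod.card, Fintype.card_fin]
  norm_num

end Pool.Agent.H3.Psi
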