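import Mathlib

set_option autoImplicit false

namespace Pool.Agent.H3.Psi

/-- the group `ZMod n ⋊ ZMod m`, the generator of `ZMod m` acting as multiplication by `u` -/
@[ext] structure Aff (n m : ℕ) (u : ZMod n) where
  v : ZMod n
  i : ZMod m

namespace Aff

variable {n m : ℕ} {u : ZMod n}

/-- the underlying type -/
def equiv (n m : ℕ) (u : ZMod n) : Aff n m u ≃ ZMod n × ZMod m where
  toFun x := (x.v, x.i)
  invFun y := ⟨y.1, y.2⟩
  left_inv _ := rfl
  right_inv _ := rfl

instance [NeZero n] [NeZero m] : Fintype (Aff n m u) := Fintype.ofEquiv _ (equiv n m u).symm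

theorem card_eq [NeZero n] [NeZero m] : Fintype.card (Aff n m u) = n * m := by
  rw [Fintype.card_congr (equiv n m u), Fintype.card_prod, ZMod.card, ZMod.card]

theorem sum_eq [NeZero n] [NeZero m] (f : Aff n m u → ℕ) : ∑ x, f x = ∑ v : ZMod n, ∑ i : ZMod m, f ⟨v, i⟩ := by
  rw [← Fintype.sum_prod_type' (f := fun v i => f ⟨v, i⟩)]
  exact Fintype.sum_equiv (equiv n m u) _ _ fun x => rfl

/-- the character -/
def U (i : ZMod m) : ZMod n := u ^ i.val

variable [NeZero m] [hu : Fact (u ^ m = 1)]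

theorem U_add (i j : ZMod m) : U (u := u) (i + j) = U (u := u) i * U (u := u) j := by
  unfold U
  rw [ZMod.val_add, ← pow_eq_pow_mod _ hu.out, pow_add]

omit [NeZero m] hu in
theorem U_zero : U (u := u) (0 : ZMod m) = 1 := by
  unfold U; rw [ZMod.val_zero, pow_zero]

instance : Mul (Aff n m u) := ⟨fun x y => ⟨x.v + U (u := u) x.i * y.v, x.i + y.i⟩⟩
instance : One (Aff n m u) := ⟨⟨0, 0⟩⟩
instance : Inv (Aff n m u) := ⟨fun x => ⟨-(U (u := u) (-x.i) * x.v), -x.i⟩⟩

omit [NeZero m] hu in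
theorem mul_def (x y : Aff n m u) : x * y = ⟨x.v + U (u := u) x.i * y.v, x.i + y.i⟩ := rfl
omit [NeZero m] hu in
theorem one_def : (1 : Aff n m u) = ⟨0, 0⟩ := rfl
omit [NeZero m] hu in
theorem inv_def (x : Aff n m u) : x⁻¹ = ⟨-(U (u := u) (-x.i) * x.v), -x.i⟩ := rfl

instance : Group (Aff n m u) :=
  Group.ofLeftAxioms
    (by
      intro x y z
      rw [mul_def, mul_def, mul_def, mul_def]
      simp only [U_add]
      ext
      · show x.v + U (u := u) x.i * y.v + U (u := u) x.i * U (u := u) y.i * z.v =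
          x.v + U (u := u) x.i * (y.v + U (u := u) y.i * z.v)
        ring
      · exact add_assoc _ _ _)
    (by
      intro x
      rw [mul_def, one_def]
      simp only [U_zero, zero_add, one_mul])
    (by
      intro x
      rw [inv_def, mul_def, one_def]
      ext
      · show -(U (u := u) (-x.i) * x.v) + U (u := u) (-x.i) * x.v = 0
        ring
      · exact neg_add_cancel _)

theorem pow_eq (x : Aff n m u) (k : ℕ) :
    x ^ k = ⟨x.v * ∑ j ∈ Finset.range k, U (u := u) x.i ^ j, k • x.i⟩ := by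
  have hU : ∀ k : ℕ, U (u := u) (k • x.i) = U (u := u) x.i ^ k := by
    intro k
    induction k with
    | zero => rw [zero_smul, U_zero, pow_zero]
    | succ k ih => rw [succ_nsmul, U_add, ih, pow_succ]
  induction k with
  | zero => rw [pow_zero, one_def]; simp
  | succ k ih =>
    rw [pow_succ, ih, mul_def]
    simp only [hU]
    ext
    · show x.v * ∑ j ∈ Finset.range k, U (u := u) x.i ^ j + U (u := u) x.i ^ k * x.v =
        x.v * ∑ j ∈ Finset.range (k + 1), U (u := u) x.i ^ j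
      rw [Finset.sum_range_succ]; ring
    · show k • x.i + x.i = (k + 1) • x.i
      rw [succ_nsmul]

instance : Group.IsSolvable (Aff n m u) := by
  let f : Multiplicative (ZMod n) →* Aff n m u :=
    { toFun := fun v => ⟨v.toAdd, 0⟩
      map_one' := rfl
      map_mul' := by
        intro a b
        rw [mul_def]
        simp only [U_zero, add_zero, one_mul]
        rfl }
  let g : Aff n m u →* Multiplicative (ZMod m) :=
    { toFun := fun x => Multiplicative.ofAdd x.i
      map_one' := rfl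
      map_mul' := fun a b => rfl }
  refine Group.isSolvable_of_ker_le_range f g ?_
  intro x hx
  have : x.i = 0 := hx
  exact ⟨Multiplicative.ofAdd x.v, by
    show (⟨x.v, 0⟩ : Aff n m u) = x
    rw [← this]⟩

end Aff

instance : Fact ((5 : ZMod 127) ^ 42 = 1) := ⟨by decide +kernel⟩
instance : Fact ((2 : ZMod 3) ^ 2 = 1) := ⟨by decide⟩

abbrev X := Aff 127 42 5
abbrev Y := Aff 3 2 2
abbrev Z := Fin 5 → Multiplicative (ZMod 2)
abbrev G := X × Y × Z

/-- exponent bound for `X` -/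
def mX (i : ZMod 42) : ℕ := if i = 0 then 127 else 42 / Nat.gcd 42 i.val

/-- exponent bound for `Y × Z` -/
def mY (w : ZMod 3) (j : ZMod 2) : ℕ := if j = 0 ∧ w ≠ 0 then 6 else 2

theorem mX_spec : ∀ i : ZMod 42, mX i • i = 0 ∧
    ∑ j ∈ Finset.range (mX i), ((5 : ZMod 127) ^ i.val) ^ j = 0 := by
  decide +kernel

theorem X_pow (x : X) : x ^ mX x.i = 1 := by
  rw [Aff.pow_eq, (mX_spec x.i).1]
  have : ∑ j ∈ Finset.range (mX x.i), Aff.U (u := (5 : ZMod 127)) x.i ^ j = 0 := (mX_spec x.i).2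
  rw [this, mul_zero]
  rfl

theorem mY_spec : ∀ (w : ZMod 3) (j : ZMod 2), mY w j • j = 0 ∧
    w * ∑ k ∈ Finset.range (mY w j), ((2 : ZMod 3) ^ j.val) ^ k = 0 := by
  decide +kernel

theorem Y_pow (y : Y) : y ^ mY y.v y.i = 1 := by
  rw [Aff.pow_eq, (mY_spec y.v y.i).1]
  have : y.v * ∑ j ∈ Finset.range (mY y.v y.i), Aff.U (u := (2 : ZMod 3)) y.i ^ j = 0 := (mY_spec y.v y.i).2
  rw [this]
  rfl

theorem Z_pow (z : Z) : z ^ 2 = 1 := by
  funext k
  rw [Pi.pow_apply, Pi.one_apply]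
  revert z
  have : ∀ a : Multiplicative (ZMod 2), a ^ 2 = 1 := by decide
  exact fun z => this _

theorem two_dvd_mY (w : ZMod 3) (j : ZMod 2) : 2 ∣ mY w j := by
  revert w j; decide

theorem mX_pos (i : ZMod 42) : 0 < mX i := by
  revert i; decide +kernel

theorem mY_pos (w : ZMod 3) (j : ZMod 2) : 0 < mY w j := by
  revert w j; decide

theorem order_le (g : G) : orderOf g ≤ Nat.lcm (mX g.1.i) (mY g.2.1.v g.2.1.i) := by
  refine Nat.le_of_dvd (Nat.lcm_pos (mX_pos _) (mY_pos _ _)) (orderOf_dvd_of_pow_eq_one ?_)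
  obtain ⟨a, ha⟩ := Nat.dvd_lcm_left (mX g.1.i) (mY g.2.1.v g.2.1.i)
  obtain ⟨b, hb⟩ := Nat.dvd_lcm_right (mX g.1.i) (mY g.2.1.v g.2.1.i)
  obtain ⟨c, hc⟩ := two_dvd_mY g.2.1.v g.2.1.i
  refine Prod.ext ?_ (Prod.ext ?_ ?_)
  · show g.1 ^ _ = 1
    rw [ha, pow_mul, X_pow, one_pow]
  · show g.2.1 ^ _ = 1
    rw [hb, pow_mul, Y_pow, one_pow]
  · show g.2.2 ^ _ = 1
    rw [hb, hc, mul_assoc, pow_mul, Z_pow, one_pow]

theorem card_G : Fintype.card G = 1024128 := by
  rw [Fintype.card_prod, Fintype.card_prod, Aff.card_eq, Aff.card_eq]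
  simp

theorem psi_G : ∑ g : G, orderOf g ≤ 42395648 := by
  refine (Finset.sum_le_sum fun g _ => order_le g).trans ?_
  rw [Fintype.sum_prod_type]
  simp_rw [Fintype.sum_prod_type]
  simp only [Finset.sum_const, Finset.card_univ, smul_eq_mul, Aff.sum_eq]
  have hZ : Fintype.card Z = 32 := by simp
  rw [hZ, ZMod.card]
  decide +kernel

end Pool.Agent.H3.Psi
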