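import Mathlib
set_option autoImplicit false

namespace Pool.Agent.H3.Rev
open Module

/-! ### a character of ℂˣ with finite-order values and χ(-1) = -1 -/

noncomputable def ratExp : ℚ →+ Additive ℂˣ where
  toFun q := Additive.ofMul (Units.mk0 (Complex.exp (2 * Real.pi * Complex.I * (q : ℂ))) (Complex.exp_ne_zero _))
  map_zero' := by
    apply Additive.toMul.injective
    apply Units.ext
    simp
  map_add' p q := by
    apply Additive.toMul.injective
    apply Units.ext
    simp only [toMul_ofMul, toMul_add, Units.val_mul, Units.val_mk0]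
    rw [← Complex.exp_add]
    congr 1
    push_cast
    ring

noncomputable def circExp : AddCircle (1 : ℚ) →+ Additive ℂˣ :=
  QuotientAddGroup.lift (AddSubgroup.zmultiples (1:ℚ)) ratExp (by
    intro q hq
    obtain ⟨n, rfl⟩ := AddSubgroup.mem_zmultiples_iff.mp hq
    apply Additive.toMul.injective
    apply Units.ext
    simp only [ratExp, AddMonoidHom.coe_mk, ZeroHom.coe_mk, toMul_ofMul, Units.val_mk0]
    rw [show (2 * (Real.pi:ℂ) * Complex.I * (((n • (1:ℚ)) : ℚ) : ℂ)) = n * (2 * Real.pi * Complex.I) by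
      simp; ring]
    rw [Complex.exp_int_mul_two_pi_mul_I]
    rfl)

theorem exists_chi : ∃ χ : ℂ →*₀ ℂ, χ (-1) = -1 ∧ ∀ z : ℂ, z ≠ 0 → ∃ m : ℕ, 1 ≤ m ∧ χ z ^ m = 1 := by
  have hne : (Additive.ofMul (-1 : ℂˣ)) ≠ 0 := by
    intro h
    have h2 := congrArg Additive.toMul h
    have h3 : (-1 : ℂˣ) = 1 := h2
    have h4 := congrArg Units.val h3
    norm_num at h4
  obtain ⟨c, hc⟩ := CharacterModule.exists_character_apply_ne_zero_of_ne_zero hne
  let ψ : ℂˣ →* ℂˣ := AddMonoidHom.toMultiplicative (circExp.comp (c : Additive ℂˣ →+ AddCircle (1:ℚ)))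
  have hψ : ∀ z : ℂˣ, ψ z = Additive.toMul (circExp (c (Additive.ofMul z))) := fun z => rfl
  have hord : ∀ t : AddCircle (1:ℚ), ∃ m : ℕ, 1 ≤ m ∧ m • t = 0 := by
    intro t
    obtain ⟨q, rfl⟩ := QuotientAddGroup.mk_surjective t
    refine ⟨q.den, q.den_pos, ?_⟩
    rw [← QuotientAddGroup.mk_nsmul, QuotientAddGroup.eq_zero_iff]
    rw [AddSubgroup.mem_zmultiples_iff]
    refine ⟨q.num, ?_⟩
    rw [zsmul_one, nsmul_eq_mul]
    rw [mul_comm]; exact (Rat.mul_den_eq_num q).symm
  have hneg : ψ (-1) = -1 := by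
    have h2 : (2:ℕ) • c (Additive.ofMul (-1 : ℂˣ)) = 0 := by
      rw [← map_nsmul]
      have : (2:ℕ) • (Additive.ofMul (-1 : ℂˣ)) = 0 := by
        apply Additive.toMul.injective
        rw [toMul_nsmul]
        simp
      rw [this, map_zero]
    obtain ⟨q, hq⟩ := QuotientAddGroup.mk_surjective (c (Additive.ofMul (-1 : ℂˣ)))
    rw [← hq] at h2 hc
    rw [← QuotientAddGroup.mk_nsmul, QuotientAddGroup.eq_zero_iff, AddSubgroup.mem_zmultiples_iff] at h2
    obtain ⟨k, hk⟩ := h2
    have hk2 : (k:ℚ) = 2 * q := by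
      rw [zsmul_one, nsmul_eq_mul] at hk
      push_cast at hk
      exact hk
    have hodd : ¬ Even k := by
      rintro ⟨l, hl⟩
      apply hc
      show ((q : ℚ) : AddCircle (1:ℚ)) = 0
      rw [AddCircle.coe_eq_zero_iff]
      refine ⟨l, ?_⟩
      rw [zsmul_one]
      rw [hl] at hk2
      push_cast at hk2
      linarith
    rw [Int.not_even_iff_odd] at hodd
    obtain ⟨l, hl⟩ := hodd
    rw [hψ, ← hq]
    apply Units.ext
    show Complex.exp (2 * Real.pi * Complex.I * (q : ℂ)) = -1
    have hq2 : (q : ℂ) = l + 1/2 := by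
      have : q = l + 1/2 := by
        rw [hl] at hk2; push_cast at hk2; linarith
      rw [this]; push_cast; ring
    rw [hq2, show 2 * (Real.pi:ℂ) * Complex.I * ((l:ℂ) + 1/2) = l * (2 * Real.pi * Complex.I) + Real.pi * Complex.I by ring]
    rw [Complex.exp_add, Complex.exp_int_mul_two_pi_mul_I, Complex.exp_pi_mul_I, one_mul]
  classical
  let χ : ℂ →*₀ ℂ :=
    { toFun := fun z => if h : z = 0 then 0 else ((ψ (Units.mk0 z h) : ℂˣ) : ℂ)
      map_zero' := by simp
      map_one' := by
        have : Units.mk0 (1:ℂ) one_ne_zero = 1 := Units.ext rfl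
        simp [this]
      map_mul' := by
        intro x y
        by_cases hx : x = 0
        · simp [hx]
        · by_cases hy : y = 0
          · simp [hy]
          · simp only [mul_eq_zero, hx, hy, or_self, dif_neg, not_false_eq_true]
            rw [← Units.val_mul, ← map_mul]
            congr 2
            apply Units.ext; rfl }
  refine ⟨χ, ?_, ?_⟩
  · show (if h : (-1:ℂ) = 0 then 0 else ((ψ (Units.mk0 (-1) h) : ℂˣ) : ℂ)) = -1
    have h1 : (-1:ℂ) ≠ 0 := by norm_num
    rw [dif_neg h1]
    have : Units.mk0 (-1:ℂ) h1 = -1 := Units.ext rfl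
    rw [this, hneg]
    rfl
  · intro z hz
    obtain ⟨m, hm, hm2⟩ := hord (c (Additive.ofMul (Units.mk0 z hz)))
    refine ⟨m, hm, ?_⟩
    show (if h : z = 0 then 0 else ((ψ (Units.mk0 z h) : ℂˣ) : ℂ)) ^ m = 1
    rw [dif_neg hz, ← Units.val_pow_eq_pow_val]
    have : ψ (Units.mk0 z hz) ^ m = 1 := by
      rw [hψ, ← toMul_nsmul, ← map_nsmul, hm2, map_zero]
      rfl
    rw [this]; rfl

/-! ### spectral transform -/

section spec
variable {V : Type} [AddCommGroup V] [Module ℂ V] [FiniteDimensional ℂ V]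

theorem gen_ext {W : Type} [AddCommGroup W] [Module ℂ W] (h : End ℂ V) (S T : V →ₗ[ℂ] W)
    (hST : ∀ μ : ℂ, ∀ v ∈ h.maxGenEigenspace μ, S v = T v) : S = T := by
  have htop := Module.End.iSup_maxGenEigenspace_eq_top h
  have : ∀ v ∈ (⨆ μ : ℂ, h.maxGenEigenspace μ), v ∈ LinearMap.ker (S - T) := by
    intro v hv
    have hle : (⨆ μ : ℂ, h.maxGenEigenspace μ) ≤ LinearMap.ker (S - T) := by
      apply iSup_le
      intro μ v hv
      rw [LinearMap.mem_ker, LinearMap.sub_apply, hST μ v hv, sub_self]
    exact hle hv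
  apply LinearMap.ext
  intro v
  have h1 := this v (by rw [htop]; trivial)
  rw [LinearMap.mem_ker, LinearMap.sub_apply] at h1
  exact sub_eq_zero.mp h1

theorem exists_spec (h : End ℂ V) (χ : ℂ → ℂ) : ∃ T : End ℂ V,
    ∀ μ : ℂ, ∀ v ∈ h.maxGenEigenspace μ, T v = χ μ • v := by
  classical
  have hI := DirectSum.isInternal_submodule_of_iSupIndep_of_iSup_eq_top
    h.independent_maxGenEigenspace (Module.End.iSup_maxGenEigenspace_eq_top h)
  let e := LinearEquiv.ofBijective (DirectSum.coeLinearMap h.maxGenEigenspace) hI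
  let g : (DirectSum ℂ fun μ => h.maxGenEigenspace μ) →ₗ[ℂ] V :=
    DirectSum.toModule ℂ ℂ V (fun μ => χ μ • (h.maxGenEigenspace μ).subtype)
  refine ⟨g.comp e.symm.toLinearMap, ?_⟩
  intro μ v hv
  have h1 : e.symm v = DirectSum.lof ℂ ℂ (fun μ => h.maxGenEigenspace μ) μ ⟨v, hv⟩ := by
    rw [LinearEquiv.symm_apply_eq]
    show v = DirectSum.coeLinearMap h.maxGenEigenspace _
    rw [DirectSum.coeLinearMap_lof]
  show g (e.symm v) = _
  rw [h1]
  simp [g]

noncomputable def spec (h : End ℂ V) (χ : ℂ → ℂ) : End ℂ V := (exists_spec h χ).choose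

theorem spec_apply (h : End ℂ V) (χ : ℂ → ℂ) {μ : ℂ} {v : V} (hv : v ∈ h.maxGenEigenspace μ) :
    spec h χ v = χ μ • v := (exists_spec h χ).choose_spec μ v hv

theorem spec_nat {W : Type} [AddCommGroup W] [Module ℂ W] [FiniteDimensional ℂ W]
    (h : End ℂ V) (h' : End ℂ W) (χ : ℂ → ℂ) (p : V →ₗ[ℂ] W) (hp : ∀ v, p (h v) = h' (p v)) (v : V) :
    p (spec h χ v) = spec h' χ (p v) := by
  have key : p ∘ₗ (spec h χ) = (spec h' χ) ∘ₗ p := by
    apply gen_ext h
    intro μ v hv
    show p (spec h χ v) = spec h' χ (p v)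
    have hpv : p v ∈ h'.maxGenEigenspace μ := by
      rw [Module.End.mem_maxGenEigenspace] at hv ⊢
      obtain ⟨k, hk⟩ := hv
      refine ⟨k, ?_⟩
      have : ∀ j : ℕ, ((h' - μ • (1 : End ℂ W)) ^ j) (p v) = p (((h - μ • (1 : End ℂ V)) ^ j) v) := by
        intro j
        induction j with
        | zero => simp
        | succ j ih =>
          rw [pow_succ', pow_succ', Module.End.mul_apply, ih, Module.End.mul_apply]
          simp [hp]
      rw [this, hk, map_zero]
    rw [spec_apply h χ hv, spec_apply h' χ hpv, map_smul]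
  exact LinearMap.congr_fun key v

/-- if `h` intertwines `f` and `f⁻¹`, so does `spec h χ` -/
theorem spec_rev (h f g : End ℂ V) (χ : ℂ →*₀ ℂ) (hχ : χ (-1) = -1) (hfg : f * g = 1) (hgf : g * f = 1)
    (hh : f * h * f = h) : f * spec h χ * f = spec h χ := by
  set T := spec h χ
  have h1 : h * f = g * h := by
    calc h * f = (g * f) * (h * f) := by rw [hgf, one_mul]
      _ = g * (f * h * f) := by simp only [mul_assoc]
      _ = g * h := by rw [hh]
  have h2 : h * g = f * h := by
    calc h * g = (f * h * f) * g := by rw [hh]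
      _ = f * h * (f * g) := by simp only [mul_assoc]
      _ = f * h := by rw [hfg, mul_one]
  -- S = f + g commutes with h, D = f - g anticommutes
  have hS : T * (f + g) = (f + g) * T := by
    have hc : Commute h (f + g) := by
      show h * (f + g) = (f + g) * h
      rw [mul_add, add_mul, h1, h2, add_comm]
    apply gen_ext h
    intro μ v hv
    show T ((f + g) v) = (f + g) (T v)
    have := Module.End.mapsTo_maxGenEigenspace_of_comm hc μ hv
    rw [spec_apply h χ hv, spec_apply h χ this, map_smul]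
  have hD : T * (f - g) = - ((f - g) * T) := by
    have hc : h * (f - g) = - ((f - g) * h) := by
      rw [mul_sub, sub_mul, h1, h2]; abel
    apply gen_ext h
    intro μ v hv
    show T ((f - g) v) = - ((f - g) (T v))
    have : (f - g) v ∈ h.maxGenEigenspace (-μ) := by
      rw [Module.End.mem_maxGenEigenspace] at hv ⊢
      obtain ⟨k, hk⟩ := hv
      refine ⟨k, ?_⟩
      have hkey : ∀ j : ℕ, ((h - (-μ) • (1 : End ℂ V)) ^ j) ((f - g) v) =
          (-1 : ℂ) ^ j • (f - g) (((h - μ • (1 : End ℂ V)) ^ j) v) := by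
        intro j
        induction j with
        | zero => simp
        | succ j ih =>
          rw [pow_succ', pow_succ' (h - μ • (1 : End ℂ V)), Module.End.mul_apply, ih, Module.End.mul_apply]
          set w := ((h - μ • (1 : End ℂ V)) ^ j) v
          have hw : h ((f - g) w) = - ((f - g) (h w)) := LinearMap.congr_fun hc w
          rw [map_smul, pow_succ, mul_smul]
          congr 1
          simp only [LinearMap.sub_apply, LinearMap.smul_apply, Module.End.one_apply, neg_smul, one_smul,
            map_sub, map_smul, LinearMap.neg_apply] at hw ⊢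
          have hw' : h (f w) = h (g w) - (f (h w) - g (h w)) := by
            rw [sub_eq_iff_eq_add] at hw
            rw [hw]; abel
          rw [hw']
          simp only [smul_sub]
          abel
      rw [hkey, hk, map_zero, smul_zero]
    rw [spec_apply h χ hv, spec_apply h χ this, map_smul]
    rw [show (-μ : ℂ) = (-1) * μ by ring, map_mul, hχ]
    simp
  have h3 : T * f = g * T := by
    have e : (2:ℂ) • (T * f) = (2:ℂ) • (g * T) := by
      have e1 : (2:ℂ) • (T * f) = T * (f + g) + T * (f - g) := by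
        rw [← mul_add, two_smul]
        rw [show f + g + (f - g) = f + f by abel, mul_add]
      rw [e1, hS, hD, two_smul, add_mul, sub_mul]
      abel
    exact smul_right_injective _ (two_ne_zero) e
  rw [mul_assoc, h3, ← mul_assoc, hfg, one_mul]

end spec

/-! ### multiplicativity -/
section mult
variable {B : Type} [CommRing B] [Algebra ℂ B] [FiniteDimensional ℂ B]

omit [FiniteDimensional ℂ B] in
theorem gen_mul (h : B →ₐ[ℂ] B) (μ ν : ℂ) : ∀ (N i j : ℕ) (a b : B), i + j = N →
    ((h.toLinearMap - μ • (1 : End ℂ B)) ^ i) a = 0 →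
    ((h.toLinearMap - ν • (1 : End ℂ B)) ^ j) b = 0 →
    ((h.toLinearMap - (μ * ν) • (1 : End ℂ B)) ^ N) (a * b) = 0 := by
  intro N
  induction N with
  | zero =>
    intro i j a b hij ha hb
    have hi : i = 0 := by omega
    subst hi
    simp at ha
    simp [ha]
  | succ N ih =>
    intro i j a b hij ha hb
    rcases Nat.eq_zero_or_pos i with hi | hi
    · subst hi
      simp at ha
      simp [ha]
    rcases Nat.eq_zero_or_pos j with hj | hj
    · subst hj
      simp at hb
      simp [hb]
    obtain ⟨i', rfl⟩ := Nat.exists_eq_succ_of_ne_zero (Nat.pos_iff_ne_zero.mp hi)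
    obtain ⟨j', rfl⟩ := Nat.exists_eq_succ_of_ne_zero (Nat.pos_iff_ne_zero.mp hj)
    rw [pow_succ, Module.End.mul_apply]
    have e : (h.toLinearMap - (μ * ν) • (1 : End ℂ B)) (a * b) =
        ((h.toLinearMap - μ • (1 : End ℂ B)) a) * (h b) + (μ • a) * ((h.toLinearMap - ν • (1 : End ℂ B)) b) := by
      simp only [LinearMap.sub_apply, LinearMap.smul_apply, Module.End.one_apply, AlgHom.toLinearMap_apply, map_mul]
      simp only [Algebra.smul_def, map_mul]
      ring
    rw [e, map_add]
    have t1 := ih i' (j'+1) ((h.toLinearMap - μ • (1 : End ℂ B)) a) (h b) (by omega)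
      (by rw [← Module.End.mul_apply, ← pow_succ]; exact ha)
      (by
        have hc : Commute (h.toLinearMap : End ℂ B) ((h.toLinearMap - ν • (1 : End ℂ B)) ^ (j'+1)) := by
          apply Commute.pow_right
          apply Commute.sub_right (Commute.refl _)
          exact (Commute.one_right _).smul_right ν
        have := LinearMap.congr_fun hc.eq b
        rw [Module.End.mul_apply, Module.End.mul_apply, hb, map_zero] at this
        exact this.symm)
    have t2 := ih (i'+1) j' (μ • a) ((h.toLinearMap - ν • (1 : End ℂ B)) b) (by omega)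
      (by rw [map_smul, ha, smul_zero])
      (by rw [← Module.End.mul_apply, ← pow_succ]; exact hb)
    rw [t1, t2, add_zero]

theorem spec_mul (h : B →ₐ[ℂ] B) (χ : ℂ →*₀ ℂ) (a b : B) :
    spec h.toLinearMap χ (a * b) = spec h.toLinearMap χ a * spec h.toLinearMap χ b := by
  have key : ∀ a : B, (spec h.toLinearMap χ) ∘ₗ (LinearMap.mulLeft ℂ a) =
      (LinearMap.mulLeft ℂ (spec h.toLinearMap χ a)) ∘ₗ (spec h.toLinearMap χ) := by
    intro a
    apply gen_ext h.toLinearMap
    intro ν b hb
    show spec h.toLinearMap χ (a * b) = spec h.toLinearMap χ a * spec h.toLinearMap χ b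
    have key2 : (spec h.toLinearMap χ) ∘ₗ (LinearMap.mulRight ℂ b) =
      (LinearMap.mulRight ℂ (spec h.toLinearMap χ b)) ∘ₗ (spec h.toLinearMap χ) := by
      apply gen_ext h.toLinearMap
      intro μ a ha
      show spec h.toLinearMap χ (a * b) = spec h.toLinearMap χ a * spec h.toLinearMap χ b
      have hab : a * b ∈ Module.End.maxGenEigenspace (h.toLinearMap : End ℂ B) (μ * ν) := by
        rw [Module.End.mem_maxGenEigenspace] at ha hb ⊢
        obtain ⟨i, hi⟩ := ha
        obtain ⟨j, hj⟩ := hb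
        exact ⟨i + j, gen_mul h μ ν _ i j a b rfl hi hj⟩
      rw [spec_apply _ χ hab, spec_apply _ χ ha, spec_apply _ χ hb, map_mul, smul_mul_smul_comm]
    exact LinearMap.congr_fun key2 a
  exact LinearMap.congr_fun (key a) b

theorem spec_one (h : B →ₐ[ℂ] B) (χ : ℂ →*₀ ℂ) : spec h.toLinearMap χ 1 = 1 := by
  have : (1 : B) ∈ Module.End.maxGenEigenspace (h.toLinearMap : End ℂ B) 1 := by
    rw [Module.End.mem_maxGenEigenspace]
    exact ⟨1, by simp⟩
  rw [spec_apply _ χ this, map_one, one_smul]

noncomputable def specAlg (h : B →ₐ[ℂ] B) (χ : ℂ →*₀ ℂ) : B →ₐ[ℂ] B :=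
  AlgHom.ofLinearMap (spec h.toLinearMap χ) (spec_one h χ) (spec_mul h χ)

end mult

end Pool.Agent.H3.Rev
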