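import Pool.Agent.H3.RevA
set_option autoImplicit false

namespace Pool.Agent.H3.Rev
open Module MvPowerSeries

variable {n : ℕ}

abbrev A (n : ℕ) := MvPowerSeries (Fin n) ℂ

def J (n k : ℕ) : Ideal (A n) where
  carrier := {a | ∀ α : Fin n →₀ ℕ, α.degree < k → coeff α a = 0}
  add_mem' := by
    intro a b ha hb α hα
    rw [map_add, ha α hα, hb α hα, add_zero]
  zero_mem' := by intro α _; rw [map_zero]
  smul_mem' := by
    intro c a ha α hα
    rw [smul_eq_mul, coeff_mul]
    apply Finset.sum_eq_zero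
    intro p hp
    rw [Finset.HasAntidiagonal.mem_antidiagonal] at hp
    have : p.2.degree < k := by
      have h2 : α.degree = p.1.degree + p.2.degree := by rw [← hp, map_add]
      omega
    rw [ha p.2 this, mul_zero]

lemma mem_J {k : ℕ} {a : A n} : a ∈ J n k ↔ ∀ α : Fin n →₀ ℕ, α.degree < k → coeff α a = 0 := Iff.rfl

lemma J_zero : J n 0 = ⊤ := by
  rw [Ideal.eq_top_iff_one]
  intro α hα
  omega

lemma J_anti {j k : ℕ} (h : j ≤ k) : J n k ≤ J n j := fun _ ha α hα => ha α (lt_of_lt_of_le hα h)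

lemma J_mul {i j : ℕ} {a b : A n} (ha : a ∈ J n i) (hb : b ∈ J n j) : a * b ∈ J n (i + j) := by
  intro α hα
  rw [coeff_mul]
  apply Finset.sum_eq_zero
  intro p hp
  rw [Finset.HasAntidiagonal.mem_antidiagonal] at hp
  have h2 : α.degree = p.1.degree + p.2.degree := by rw [← hp, map_add]
  by_cases h : p.1.degree < i
  · rw [ha p.1 h, zero_mul]
  · rw [hb p.2 (by omega), mul_zero]

lemma J_one_iff {a : A n} : a ∈ J n 1 ↔ a 0 = 0 := by
  constructor
  · intro h
    exact h 0 (by simp)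
  · intro h α hα
    have : α = 0 := by
      rw [← Finsupp.degree_eq_zero_iff]; omega
    subst this
    exact h

lemma J_pow {a : A n} (ha : a ∈ J n 1) (e : ℕ) : a ^ e ∈ J n e := by
  induction e with
  | zero => rw [J_zero]; trivial
  | succ e ih => rw [pow_succ]; exact J_mul ih ha

lemma J_prod (M : Fin n → A n) (hM : ∀ i, M i ∈ J n 1) (d : Fin n →₀ ℕ) :
    (d.prod fun s e => (M s) ^ e) ∈ J n d.degree := by
  rw [Finsupp.prod, Finsupp.degree_apply]
  generalize d.support = s
  classical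
  induction s using Finset.induction_on with
  | empty => rw [Finset.prod_empty, Finset.sum_empty, J_zero]; trivial
  | insert i s hi ih =>
    rw [Finset.prod_insert hi, Finset.sum_insert hi]
    exact J_mul (J_pow (hM i) _) ih

lemma hasSubst_of {M : Fin n → A n} (hM : ∀ i, M i 0 = 0) : HasSubst M :=
  hasSubst_of_constantCoeff_zero (fun i => hM i)

noncomputable def phi (M : Fin n → A n) (hM : ∀ i, M i 0 = 0) : A n →ₐ[ℂ] A n := substAlgHom (hasSubst_of hM)

lemma phi_apply (M : Fin n → A n) (hM : ∀ i, M i 0 = 0) (a : A n) : phi M hM a = subst M a := by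
  unfold phi
  rw [substAlgHom_apply]

lemma phi_X (M : Fin n → A n) (hM : ∀ i, M i 0 = 0) (i : Fin n) : phi M hM (X i) = M i := by
  rw [phi_apply, subst_X (hasSubst_of hM)]

lemma phi_J (M : Fin n → A n) (hM : ∀ i, M i 0 = 0) {k : ℕ} {a : A n} (ha : a ∈ J n k) :
    phi M hM a ∈ J n k := by
  intro e he
  rw [phi_apply, coeff_subst (hasSubst_of hM)]
  apply finsum_eq_zero_of_forall_eq_zero
  intro d
  by_cases hd : d.degree < k
  · rw [ha d hd, zero_smul]
  · have := J_prod M (fun i => J_one_iff.mpr (hM i)) d e (by omega)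
    rw [this, smul_zero]

abbrev Bk (n k : ℕ) := A n ⧸ J n k

noncomputable def mk (n k : ℕ) : A n →ₐ[ℂ] Bk n k := Ideal.Quotient.mkₐ ℂ (J n k)

lemma mk_surj (k : ℕ) : Function.Surjective (mk n k) := Ideal.Quotient.mk_surjective

lemma mk_eq_zero {k : ℕ} {a : A n} : mk n k a = 0 ↔ a ∈ J n k := Ideal.Quotient.eq_zero_iff_mem

lemma mk_eq {k : ℕ} {a b : A n} : mk n k a = mk n k b ↔ a - b ∈ J n k := Ideal.Quotient.eq

noncomputable def S (n k : ℕ) : Finset (Fin n →₀ ℕ) := (Finsupp.finite_of_degree_le (σ := Fin n) k).toFinset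

lemma mem_S {k : ℕ} {α : Fin n →₀ ℕ} : α ∈ S n k ↔ α.degree ≤ k := by
  unfold S; rw [Set.Finite.mem_toFinset]; rfl

noncomputable def tr (k : ℕ) (a : A n) : MvPolynomial (Fin n) ℂ :=
  ∑ α ∈ S n k, MvPolynomial.monomial α (coeff α a)

lemma tr_spec (k : ℕ) (a : A n) : mk n k ((tr k a : MvPolynomial (Fin n) ℂ) : A n) = mk n k a := by
  rw [mk_eq]
  intro β hβ
  rw [map_sub, MvPolynomial.coeff_coe]
  unfold tr
  classical
  rw [MvPolynomial.coeff_sum]
  simp only [MvPolynomial.coeff_monomial]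
  rw [Finset.sum_ite_eq', if_pos (mem_S.mpr (by omega)), sub_self]

noncomputable def qk (n k : ℕ) : MvPolynomial (Fin n) ℂ →ₐ[ℂ] Bk n k :=
  (mk n k).comp (MvPolynomial.coeToMvPowerSeries.algHom ℂ)

lemma alg_coe (p : MvPolynomial (Fin n) ℂ) :
    (MvPolynomial.coeToMvPowerSeries.algHom ℂ : MvPolynomial (Fin n) ℂ →ₐ[ℂ] A n) p = (p : A n) := by
  rw [MvPolynomial.coeToMvPowerSeries.algHom_apply]
  simp

lemma qk_apply (k : ℕ) (p : MvPolynomial (Fin n) ℂ) : qk n k p = mk n k (p : A n) := by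
  rw [← alg_coe p]; rfl

lemma qk_surj (k : ℕ) : Function.Surjective (qk n k) := by
  intro b
  obtain ⟨a, rfl⟩ := mk_surj k b
  refine ⟨tr k a, ?_⟩
  rw [qk_apply, tr_spec]

theorem hom_ext {C : Type} [CommRing C] [Algebra ℂ C] {k : ℕ} (u v : Bk n k →ₐ[ℂ] C)
    (h : ∀ i, u (mk n k (X i)) = v (mk n k (X i))) : u = v := by
  have h1 : u.comp (qk n k) = v.comp (qk n k) := by
    apply MvPolynomial.algHom_ext
    intro i
    have : qk n k (MvPolynomial.X i) = mk n k (X i) := by
      rw [qk_apply, MvPolynomial.coe_X]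
    simp only [AlgHom.comp_apply, this, h]
  apply AlgHom.ext
  intro b
  obtain ⟨p, rfl⟩ := qk_surj k b
  exact DFunLike.congr_fun h1 p

instance fin_Bk (k : ℕ) : FiniteDimensional ℂ (Bk n k) := by
  let g : ((S n k) → ℂ) →ₗ[ℂ] Bk n k :=
    { toFun := fun c => ∑ α : S n k, c α • mk n k (monomial α.1 1)
      map_add' := by intro a b; simp [add_smul, Finset.sum_add_distrib]
      map_smul' := by intro c a; simp [mul_smul, Finset.smul_sum] }
  refine Module.Finite.of_surjective g ?_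
  intro b
  obtain ⟨a, rfl⟩ := mk_surj k b
  refine ⟨fun α => coeff α.1 a, ?_⟩
  show ∑ α : S n k, coeff α.1 a • mk n k (monomial α.1 1) = _
  rw [← tr_spec k a]
  unfold tr
  rw [Finset.sum_coe_sort (S n k) (fun α => coeff α a • mk n k (monomial α 1))]
  rw [show ((∑ α ∈ S n k, MvPolynomial.monomial α (coeff α a) : MvPolynomial (Fin n) ℂ) : A n) =
    ∑ α ∈ S n k, ((MvPolynomial.monomial α (coeff α a) : MvPolynomial (Fin n) ℂ) : A n) from
      map_sum (MvPolynomial.coeToMvPowerSeries.ringHom) _ _]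
  rw [map_sum]
  apply Finset.sum_congr rfl
  intro α _
  rw [MvPolynomial.coe_monomial, ← map_smul]
  congr 1
  rw [← map_smul]
  simp

/-- induced map on the quotient -/
noncomputable def ind (M : Fin n → A n) (hM : ∀ i, M i 0 = 0) (k : ℕ) : Bk n k →ₐ[ℂ] Bk n k :=
  Ideal.quotientMapₐ (J n k) (phi M hM) (fun _ ha => phi_J M hM ha)

lemma ind_mk (M : Fin n → A n) (hM : ∀ i, M i 0 = 0) (k : ℕ) (a : A n) :
    ind M hM k (mk n k a) = mk n k (phi M hM a) := rfl

noncomputable def fac {j k : ℕ} (h : j ≤ k) : Bk n k →ₐ[ℂ] Bk n j := Ideal.Quotient.factorₐ ℂ (J_anti h)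

lemma fac_mk {j k : ℕ} (h : j ≤ k) (a : A n) : fac h (mk n k a) = mk n j a := rfl

lemma fac_ind (M : Fin n → A n) (hM : ∀ i, M i 0 = 0) {j k : ℕ} (h : j ≤ k) (b : Bk n k) :
    fac h (ind M hM k b) = ind M hM j (fac h b) := by
  obtain ⟨a, rfl⟩ := mk_surj k b
  rfl

section main
variable (H : Fin n → A n) (hH : ∀ i, H i 0 = 0) (χ : ℂ →*₀ ℂ)

noncomputable def Tk (k : ℕ) : Bk n k →ₐ[ℂ] Bk n k := specAlg (ind H hH k) χ

lemma Tk_apply (k : ℕ) (b : Bk n k) : Tk H hH χ k b = spec (ind H hH k).toLinearMap χ b := rfl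

lemma fac_Tk {j k : ℕ} (h : j ≤ k) (b : Bk n k) : fac h (Tk H hH χ k b) = Tk H hH χ j (fac h b) := by
  have := spec_nat (ind H hH k).toLinearMap (ind H hH j).toLinearMap χ (fac h).toLinearMap
    (fun v => fac_ind H hH h v) b
  exact this

noncomputable def KK : Fin n → A n := fun i => fun α =>
  coeff α (Function.surjInv (mk_surj (n := n) (α.degree + 1)) (Tk H hH χ (α.degree + 1) (mk n _ (X i))))

lemma KK_spec (k : ℕ) (i : Fin n) : mk n k (KK H hH χ i) = Tk H hH χ k (mk n k (X i)) := by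
  set y := Function.surjInv (mk_surj (n := n) k) (Tk H hH χ k (mk n k (X i))) with hy
  have hy2 : mk n k y = Tk H hH χ k (mk n k (X i)) := Function.surjInv_eq _ _
  rw [← hy2, mk_eq]
  intro α hα
  rw [map_sub, sub_eq_zero]
  have hj : α.degree + 1 ≤ k := hα
  have e1 : coeff α (KK H hH χ i) = coeff α (Function.surjInv (mk_surj (n := n) (α.degree + 1))
    (Tk H hH χ (α.degree + 1) (mk n _ (X i)))) := rfl
  rw [e1]
  set z := Function.surjInv (mk_surj (n := n) (α.degree + 1)) (Tk H hH χ (α.degree + 1) (mk n _ (X i)))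
  have hz : mk n (α.degree + 1) z = Tk H hH χ (α.degree + 1) (mk n _ (X i)) := Function.surjInv_eq _ _
  have h2 : mk n (α.degree + 1) z = mk n (α.degree + 1) y := by
    rw [hz, ← fac_mk hj (X i), ← fac_Tk, ← hy2, fac_mk]
  rw [mk_eq] at h2
  have := h2 α (Nat.lt_succ_self _)
  rw [map_sub, sub_eq_zero] at this
  exact this

lemma KK_zero (i : Fin n) : KK H hH χ i 0 = 0 := by
  rw [← J_one_iff, ← mk_eq_zero, KK_spec]
  have : mk n 1 (X i) = 0 := by
    rw [mk_eq_zero, J_one_iff]
    show coeff 0 (X i : A n) = 0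
    simp
  rw [this, map_zero]

lemma ind_KK (k : ℕ) : ind (KK H hH χ) (KK_zero H hH χ) k = Tk H hH χ k := by
  apply hom_ext
  intro i
  rw [ind_mk, phi_X, KK_spec]

end main

lemma eq_of_mk {a b : A n} (h : ∀ k, 2 ≤ k → mk n k a = mk n k b) : a = b := by
  ext α
  have := h (α.degree + 2) (by omega)
  rw [mk_eq] at this
  have h2 := this α (by omega)
  rw [map_sub, sub_eq_zero] at h2
  exact h2

/-- image of J j in Bk -/
def U (n k j : ℕ) (b : Bk n k) : Prop := ∃ a ∈ J n j, mk n k a = b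

lemma U_add {k j : ℕ} {b c : Bk n k} (hb : U n k j b) (hc : U n k j c) : U n k j (b + c) := by
  obtain ⟨a, ha, rfl⟩ := hb
  obtain ⟨a', ha', rfl⟩ := hc
  exact ⟨a + a', add_mem ha ha', map_add _ _ _⟩

lemma U_mul {k i j : ℕ} {b c : Bk n k} (hb : U n k i b) (hc : U n k j c) : U n k (i + j) (b * c) := by
  obtain ⟨a, ha, rfl⟩ := hb
  obtain ⟨a', ha', rfl⟩ := hc
  exact ⟨a * a', J_mul ha ha', map_mul _ _ _⟩

lemma U_anti {k i j : ℕ} (h : i ≤ j) {b : Bk n k} (hb : U n k j b) : U n k i b := by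
  obtain ⟨a, ha, rfl⟩ := hb
  exact ⟨a, J_anti h ha, rfl⟩

lemma U_smul {k j : ℕ} {b : Bk n k} (c : ℂ) (hb : U n k j b) : U n k j (c • b) := by
  obtain ⟨a, ha, rfl⟩ := hb
  refine ⟨c • a, ?_, map_smul _ _ _⟩
  intro α hα
  rw [map_smul, ha α hα, smul_zero]

lemma U_zero {k j : ℕ} : U n k j (0 : Bk n k) := ⟨0, zero_mem _, map_zero _⟩

/-- R raises filtration on monomials -/
lemma unip_aux {k : ℕ} (R : Bk n k →ₐ[ℂ] Bk n k) (hR : ∀ i, U n k 2 (R (mk n k (X i)) - mk n k (X i)))
    (α : Fin n →₀ ℕ) : U n k α.degree (mk n k (monomial α 1)) ∧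
      U n k (α.degree + 1) (R (mk n k (monomial α 1)) - mk n k (monomial α 1)) := by
  -- closure under multiplication
  have hmul : ∀ (i j : ℕ) (b c : Bk n k), (U n k i b ∧ U n k (i+1) (R b - b)) →
      (U n k j c ∧ U n k (j+1) (R c - c)) → (U n k (i+j) (b*c) ∧ U n k (i+j+1) (R (b*c) - b*c)) := by
    rintro i j b c ⟨hb, hb'⟩ ⟨hc, hc'⟩
    refine ⟨U_mul hb hc, ?_⟩
    have e : R (b*c) - b*c = (R b - b) * (c + (R c - c)) + b * (R c - c) := by
      rw [map_mul]; ring
    rw [e]
    apply U_add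
    · have h1 : U n k j (c + (R c - c)) := U_add hc (U_anti (by omega) hc')
      have := U_mul hb' h1
      exact U_anti (by omega) this
    · exact U_anti (by omega) (U_mul hb hc')
  have hone : U n k 0 (1 : Bk n k) ∧ U n k (0+1) (R 1 - 1) := by
    refine ⟨⟨1, by rw [J_zero]; trivial, map_one _⟩, ?_⟩
    rw [map_one, sub_self]; exact U_zero
  have hX : ∀ i : Fin n, U n k 1 (mk n k (X i)) ∧ U n k (1+1) (R (mk n k (X i)) - mk n k (X i)) := by
    intro i
    refine ⟨⟨X i, ?_, rfl⟩, hR i⟩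
    rw [J_one_iff]
    show coeff 0 (X i : A n) = 0
    simp
  have hpow : ∀ (i : Fin n) (e : ℕ), U n k e (mk n k (X i) ^ e) ∧
      U n k (e+1) (R (mk n k (X i) ^ e) - mk n k (X i) ^ e) := by
    intro i e
    induction e with
    | zero => rw [pow_zero]; exact hone
    | succ e ih => rw [pow_succ]; exact hmul e 1 _ _ ih (hX i)
  have hprod : ∀ s : Finset (Fin n), U n k (∑ i ∈ s, α i) (∏ i ∈ s, mk n k (X i) ^ α i) ∧
      U n k (∑ i ∈ s, α i + 1) (R (∏ i ∈ s, mk n k (X i) ^ α i) - ∏ i ∈ s, mk n k (X i) ^ α i) := by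
    classical
    intro s
    induction s using Finset.induction_on with
    | empty => rw [Finset.prod_empty, Finset.sum_empty]; exact hone
    | insert i s hi ih =>
      rw [Finset.prod_insert hi, Finset.sum_insert hi]
      exact hmul _ _ _ _ (hpow i _) ih
  have hmon : mk n k (monomial α 1) = ∏ i, mk n k (X i) ^ α i := by
    have : (monomial α (1:ℂ) : A n) = ∏ i, (X i : A n) ^ α i := by
      have h1 : ((MvPolynomial.monomial α (1:ℂ) : MvPolynomial (Fin n) ℂ) : A n) = monomial α 1 :=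
        MvPolynomial.coe_monomial _ _
      rw [← h1, MvPolynomial.monomial_eq, Finsupp.prod_fintype _ _ (fun i => by simp)]
      simp only [MvPolynomial.C_1, one_mul]
      rw [show ((∏ i, (MvPolynomial.X i : MvPolynomial (Fin n) ℂ) ^ α i : MvPolynomial (Fin n) ℂ) : A n) =
        ∏ i, (((MvPolynomial.X i : MvPolynomial (Fin n) ℂ) ^ α i : MvPolynomial (Fin n) ℂ) : A n) from
          map_prod (MvPolynomial.coeToMvPowerSeries.ringHom) _ _]
      simp
    rw [this, map_prod]
    simp only [map_pow]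
  rw [hmon, Finsupp.degree_eq_sum]
  exact hprod Finset.univ

lemma unip {k : ℕ} (R : Bk n k →ₐ[ℂ] Bk n k) (hR : ∀ i, U n k 2 (R (mk n k (X i)) - mk n k (X i)))
    (j : ℕ) (b : Bk n k) (hb : U n k j b) : U n k (j+1) (R b - b) := by
  obtain ⟨a, ha, rfl⟩ := hb
  rw [← tr_spec k a]
  unfold tr
  rw [show ((∑ α ∈ S n k, MvPolynomial.monomial α (coeff α a) : MvPolynomial (Fin n) ℂ) : A n) =
    ∑ α ∈ S n k, ((MvPolynomial.monomial α (coeff α a) : MvPolynomial (Fin n) ℂ) : A n) from
      map_sum (MvPolynomial.coeToMvPowerSeries.ringHom) _ _]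
  rw [map_sum, map_sum, ← Finset.sum_sub_distrib]
  have key : ∀ s : Finset (Fin n →₀ ℕ), U n k (j+1) (∑ α ∈ s,
    (R (mk n k ((MvPolynomial.monomial α (coeff α a) : MvPolynomial (Fin n) ℂ) : A n)) -
      mk n k ((MvPolynomial.monomial α (coeff α a) : MvPolynomial (Fin n) ℂ) : A n))) := by
    classical
    intro s
    induction s using Finset.induction_on with
    | empty => rw [Finset.sum_empty]; exact U_zero
    | insert α s hα ih =>
      rw [Finset.sum_insert hα]
      apply U_add _ ih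
      rw [MvPolynomial.coe_monomial]
      have e : (monomial α (coeff α a) : A n) = coeff α a • monomial α 1 := by
        rw [← map_smul]; simp
      rw [e, map_smul, map_smul, ← smul_sub]
      by_cases h : α.degree < j
      · rw [ha α h, zero_smul]; exact U_zero
      · apply U_smul
        exact U_anti (by omega) (unip_aux R hR α).2
  exact key _

theorem finite_order (H : Fin n → A n) (hH : ∀ i, H i 0 = 0) (χ : ℂ →*₀ ℂ)
    (hχ : ∀ z : ℂ, z ≠ 0 → ∃ m : ℕ, 1 ≤ m ∧ χ z ^ m = 1)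
    (hinj : Function.Injective (ind H hH 2)) :
    ∃ m : ℕ, 1 ≤ m ∧ ∀ k, 2 ≤ k → (Tk H hH χ k) ^ m = 1 := by
  classical
  -- scalars
  have hscal : ∀ (k m : ℕ) (μ : ℂ) (v : Bk n k), v ∈ Module.End.maxGenEigenspace (ind H hH k).toLinearMap μ →
      ((Tk H hH χ k) ^ m) v = χ μ ^ m • v := by
    intro k m μ v hv
    induction m with
    | zero => simp
    | succ m ih =>
      rw [pow_succ', AlgHom.mul_apply, ih, map_smul, Tk_apply, spec_apply _ χ hv, smul_smul, pow_succ]
  -- finite set of eigenvalues on level 2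
  have hfin : Set.Finite {μ : ℂ | Module.End.maxGenEigenspace (ind H hH 2).toLinearMap μ ≠ ⊥} :=
    WellFoundedGT.finite_ne_bot_of_iSupIndep (Module.End.independent_maxGenEigenspace _)
  have h0 : Module.End.maxGenEigenspace (ind H hH 2).toLinearMap 0 = ⊥ := by
    rw [eq_bot_iff]
    intro v hv
    rw [Module.End.mem_maxGenEigenspace] at hv
    obtain ⟨k, hk⟩ := hv
    rw [zero_smul, sub_zero] at hk
    have : ∀ j : ℕ, ∀ w, ((ind H hH 2).toLinearMap ^ j) w = 0 → w = 0 := by
      intro j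
      induction j with
      | zero => intro w hw; simpa using hw
      | succ j ih =>
        intro w hw
        rw [pow_succ, Module.End.mul_apply] at hw
        have := ih _ hw
        have h2 : ind H hH 2 w = ind H hH 2 0 := by rw [map_zero]; exact this
        exact hinj h2
    exact this k v hk
  have hm : ∀ s : Finset ℂ, (∀ μ ∈ s, μ ≠ 0) → ∃ m : ℕ, 1 ≤ m ∧ ∀ μ ∈ s, χ μ ^ m = 1 := by
    intro s
    induction s using Finset.induction_on with
    | empty => intro _; exact ⟨1, le_refl _, by simp⟩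
    | insert a s ha ih =>
      intro hs
      obtain ⟨m, hm1, hm2⟩ := ih (fun μ hμ => hs μ (Finset.mem_insert_of_mem hμ))
      obtain ⟨m', hm'1, hm'2⟩ := hχ a (hs a (Finset.mem_insert_self _ _))
      refine ⟨m * m', Nat.mul_pos hm1 hm'1, ?_⟩
      intro μ hμ
      rcases Finset.mem_insert.mp hμ with rfl | hμ
      · rw [mul_comm, pow_mul, hm'2, one_pow]
      · rw [pow_mul, hm2 μ hμ, one_pow]
  obtain ⟨m, hm1, hm2⟩ := hm hfin.toFinset (by
    intro μ hμ
    rw [Set.Finite.mem_toFinset] at hμ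
    rintro rfl
    exact hμ h0)
  refine ⟨m, hm1, ?_⟩
  -- level 2
  have hlev2 : (Tk H hH χ 2) ^ m = 1 := by
    have : ((Tk H hH χ 2) ^ m).toLinearMap = (1 : Bk n 2 →ₐ[ℂ] Bk n 2).toLinearMap := by
      apply gen_ext (ind H hH 2).toLinearMap
      intro μ v hv
      show ((Tk H hH χ 2) ^ m) v = v
      rw [hscal 2 m μ v hv]
      by_cases h : Module.End.maxGenEigenspace (ind H hH 2).toLinearMap μ = ⊥
      · rw [h] at hv
        have hv0 : v = 0 := hv
        rw [hv0, smul_zero]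
      · rw [hm2 μ (by rw [Set.Finite.mem_toFinset]; exact h), one_smul]
    apply AlgHom.ext
    intro x
    exact LinearMap.congr_fun this x
  intro k hk
  have hfacpow : ∀ (m : ℕ) (b : Bk n k), fac hk (((Tk H hH χ k) ^ m) b) = ((Tk H hH χ 2) ^ m) (fac hk b) := by
    intro m b
    induction m with
    | zero => simp
    | succ m ih => rw [pow_succ', pow_succ', AlgHom.mul_apply, AlgHom.mul_apply, fac_Tk, ih]
  have hR : ∀ i, U n k 2 (((Tk H hH χ k) ^ m) (mk n k (X i)) - mk n k (X i)) := by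
    intro i
    obtain ⟨a, ha⟩ := mk_surj k (((Tk H hH χ k) ^ m) (mk n k (X i)) - mk n k (X i))
    refine ⟨a, ?_, ha⟩
    rw [← mk_eq_zero, ← fac_mk hk, ha, map_sub, hfacpow, hlev2, AlgHom.one_apply, sub_self]
  have : ((Tk H hH χ k) ^ m).toLinearMap = (1 : Bk n k →ₐ[ℂ] Bk n k).toLinearMap := by
    apply gen_ext (ind H hH k).toLinearMap
    intro μ v hv
    show ((Tk H hH χ k) ^ m) v = v
    have hc := hscal k m μ v hv
    set c := χ μ ^ m
    have key : ∀ j : ℕ, U n k j ((c - 1) ^ j • v) := by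
      intro j
      induction j with
      | zero =>
        obtain ⟨a, ha⟩ := mk_surj k v
        exact ⟨a, by rw [J_zero]; trivial, by rw [ha]; simp⟩
      | succ j ih =>
        have := unip ((Tk H hH χ k) ^ m) hR j _ ih
        rw [map_smul, hc] at this
        have e : (c - 1) ^ j • c • v - (c - 1) ^ j • v = (c - 1) ^ (j+1) • v := by
          rw [pow_succ, mul_smul, sub_smul, one_smul, smul_sub]
        rw [e] at this
        exact this
    obtain ⟨a, ha, ha2⟩ := key k
    rw [mk_eq_zero.mpr ha] at ha2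
    rw [hc]
    rcases smul_eq_zero.mp ha2.symm with h | h
    · have : c = 1 := by
        have := pow_eq_zero_iff (n := k) (by omega) |>.mp h
        exact sub_eq_zero.mp this
      rw [this, one_smul]
    · rw [h, smul_zero]
  apply AlgHom.ext
  intro x
  exact LinearMap.congr_fun this x

end Pool.Agent.H3.Rev
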