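import Mathlib

set_option autoImplicit false

namespace Pool.Agent.H3.SIA

open AddMonoidAlgebra Finset

noncomputable section

variable {B G : Type} [Ring B]

/-- polynomials in commuting variables `t_v` with coefficients in `B` -/
abbrev RR (B G : Type) [Ring B] := AddMonoidAlgebra B (G →₀ ℕ)

/-- span of a set of monomials -/
def sp (P : (G →₀ ℕ) → B → Prop) : AddSubgroup (RR B G) :=
  AddSubgroup.closure {f | ∃ m b, P m b ∧ f = single m b}

theorem sp_single {P : (G →₀ ℕ) → B → Prop} {m : G →₀ ℕ} {b : B} (h : P m b) :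
    (single m b : RR B G) ∈ sp P := AddSubgroup.subset_closure ⟨m, b, h, rfl⟩

theorem sp_le {P P' : (G →₀ ℕ) → B → Prop} (h : ∀ m b, P m b → P' m b) : sp P ≤ sp P' := by
  unfold sp
  apply AddSubgroup.closure_mono
  rintro f ⟨m, b, hb, rfl⟩
  exact ⟨m, b, h m b hb, rfl⟩

theorem sp_mul {P P' P'' : (G →₀ ℕ) → B → Prop}
    (h : ∀ m b m' b', P m b → P' m' b' → P'' (m + m') (b * b')) {f f' : RR B G}
    (hf : f ∈ sp P) (hf' : f' ∈ sp P') : f * f' ∈ sp P'' := by
  unfold sp at hf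
  induction hf using AddSubgroup.closure_induction with
  | mem x hx =>
    obtain ⟨m, b, hb, rfl⟩ := hx
    unfold sp at hf'
    induction hf' using AddSubgroup.closure_induction with
    | mem y hy =>
      obtain ⟨m', b', hb', rfl⟩ := hy
      rw [single_mul_single]
      exact sp_single (h _ _ _ _ hb hb')
    | zero => rw [mul_zero]; exact zero_mem _
    | add y y' _ _ h1 h2 => rw [mul_add]; exact add_mem h1 h2
    | neg y _ h1 => rw [mul_neg]; exact neg_mem h1
  | zero => rw [zero_mul]; exact zero_mem _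
  | add x x' _ _ h1 h2 => rw [add_mul]; exact add_mem h1 h2
  | neg x _ h1 => rw [neg_mul]; exact neg_mem h1

theorem sp_coeff {P : (G →₀ ℕ) → B → Prop} (m : G →₀ ℕ) (h : ∀ b, ¬ P m b) {f : RR B G}
    (hf : f ∈ sp P) : f.coeff m = 0 := by
  classical
  unfold sp at hf
  induction hf using AddSubgroup.closure_induction with
  | mem x hx =>
    obtain ⟨m', b, hb, rfl⟩ := hx
    rw [coeff_single, Finsupp.single_apply]
    split_ifs with hm
    · subst hm
      exact absurd hb (h b)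
    · rfl
  | zero => simp
  | add x x' _ _ h1 h2 => rw [coeff_add, Finsupp.add_apply, h1, h2, add_zero]
  | neg x _ h1 =>
    have : (-x).coeff m = -(x.coeff m) := by simp
    rw [this, h1, neg_zero]

theorem sp_zero {P : (G →₀ ℕ) → B → Prop} (h : ∀ m b, P m b → b = 0) {f : RR B G}
    (hf : f ∈ sp P) : f = 0 := by
  unfold sp at hf
  induction hf using AddSubgroup.closure_induction with
  | mem x hx =>
    obtain ⟨m', b, hb, rfl⟩ := hx
    rw [h _ _ hb, single_zero]
  | zero => rfl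
  | add x x' _ _ h1 h2 => rw [h1, h2, add_zero]
  | neg x _ h1 => rw [h1, neg_zero]

variable [AddCommGroup G]

/-- The data extracted from `A ⊗ Λ`. -/
structure Data (B G : Type) [Ring B] [AddCommGroup G] where
  Q : G → ℕ → AddSubgroup B
  one_mem : (1 : B) ∈ Q 0 0
  mul_mem : ∀ g r h s b c, b ∈ Q g r → c ∈ Q h s → b * c ∈ Q (g + h) (r + s)
  comm : ∀ r s b c, b ∈ Q 0 r → c ∈ Q 0 s → b * c = (-1) ^ (r * s) * (c * b)
  sq : ∀ r b, 0 < r → b ∈ Q 0 r → b * b = 0 ∨ Even r
  pw : ∀ (p : ℕ) r b, 2 ≤ p → 0 < r → b ∈ Q 0 r → (∀ x y : B, Commute x y → (x + y) ^ p = x ^ p + y ^ p) → b ^ p = 0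
  N : ℕ
  vanish : ∀ g r, N < r → ∀ b ∈ Q g r, b = 0

variable (D : Data B G)

/-- odd and even loops -/
def Od : AddSubgroup (RR B G) := sp (fun _ b => ∃ r, Odd r ∧ b ∈ D.Q 0 r)
def Ev : AddSubgroup (RR B G) := sp (fun _ b => ∃ r, Even r ∧ 0 < r ∧ b ∈ D.Q 0 r)

/-- graded pieces -/
def QQ (g : G) (r : ℕ) : AddSubgroup (RR B G) := sp (fun _ b => b ∈ D.Q g r)

theorem QQ_mul {g h : G} {r s : ℕ} {f f' : RR B G} (hf : f ∈ QQ D g r) (hf' : f' ∈ QQ D h s) :
    f * f' ∈ QQ D (g + h) (r + s) :=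
  sp_mul (fun _ _ _ _ hb hc => D.mul_mem _ _ _ _ _ _ hb hc) hf hf'

theorem QQ_loop {r : ℕ} (hr : 0 < r) {f : RR B G} (hf : f ∈ QQ D 0 r) : f ∈ Ev D ⊔ Od D := by
  rcases Nat.even_or_odd r with h | h
  · exact AddSubgroup.mem_sup_left (sp_le (fun _ b hb => ⟨r, h, hr, hb⟩) hf)
  · exact AddSubgroup.mem_sup_right (sp_le (fun _ b hb => ⟨r, h, hb⟩) hf)

/-- bilinear (anti)commutation -/
theorem sp_comm {P P' : (G →₀ ℕ) → B → Prop} (c : ℤ)
    (h : ∀ m b m' b', P m b → P' m' b' → b * b' = c • (b' * b)) {f f' : RR B G}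
    (hf : f ∈ sp P) (hf' : f' ∈ sp P') : f * f' = c • (f' * f) := by
  unfold sp at hf
  induction hf using AddSubgroup.closure_induction with
  | mem x hx =>
    obtain ⟨m, b, hb, rfl⟩ := hx
    unfold sp at hf'
    induction hf' using AddSubgroup.closure_induction with
    | mem y hy =>
      obtain ⟨m', b', hb', rfl⟩ := hy
      rw [single_mul_single, single_mul_single, h _ _ _ _ hb hb', add_comm m m']
      have : (c • single (m' + m) (b' * b) : RR B G) = single (m' + m) (c • (b' * b)) := by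
        rw [AddMonoidAlgebra.smul_single]
      rw [this]
    | zero => simp
    | add y y' _ _ h1 h2 => rw [mul_add, add_mul, h1, h2, smul_add]
    | neg y _ h1 => rw [mul_neg, neg_mul, h1, smul_neg]
  | zero => simp
  | add x x' _ _ h1 h2 => rw [mul_add, add_mul, h1, h2, smul_add]
  | neg x _ h1 => rw [mul_neg, neg_mul, h1, smul_neg]

theorem pow_odd_neg (r s : ℕ) (hr : Odd r) (hs : Odd s) : ((-1 : B)) ^ (r * s) = -1 :=
  (hr.mul hs).neg_one_pow

theorem Od_anti {f f' : RR B G} (hf : f ∈ Od D) (hf' : f' ∈ Od D) : f * f' = (-1 : ℤ) • (f' * f) := by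
  apply sp_comm _ _ hf hf'
  rintro m b m' b' ⟨r, hr, hb⟩ ⟨s, hs, hb'⟩
  rw [D.comm r s b b' hb hb', (hr.mul hs).neg_one_pow]
  simp

theorem Ev_comm {f f' : RR B G} (hf : f ∈ Ev D) (hf' : f' ∈ Ev D) : f * f' = (1 : ℤ) • (f' * f) := by
  apply sp_comm _ _ hf hf'
  rintro m b m' b' ⟨r, hr, _, hb⟩ ⟨s, hs, _, hb'⟩
  rw [D.comm r s b b' hb hb', (hr.mul_right s).neg_one_pow]
  simp

theorem EvOd_comm {f f' : RR B G} (hf : f ∈ Ev D) (hf' : f' ∈ Od D) :
    f * f' = (1 : ℤ) • (f' * f) := by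
  apply sp_comm _ _ hf hf'
  rintro m b m' b' ⟨r, hr, _, hb⟩ ⟨s, hs, hb'⟩
  rw [D.comm r s b b' hb hb', (hr.mul_right s).neg_one_pow]
  simp

theorem Od_sq {f : RR B G} (hf : f ∈ Od D) : f * f = 0 := by
  have key : ∀ f (hf : f ∈ AddSubgroup.closure {f : RR B G | ∃ m b,
      (∃ r, Odd r ∧ b ∈ D.Q 0 r) ∧ f = single m b}), f * f = 0 := by
    intro f hf
    induction hf using AddSubgroup.closure_induction with
    | mem x hx =>
      obtain ⟨m, b, ⟨r, hr, hb⟩, rfl⟩ := hx
      rw [single_mul_single]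
      rcases D.sq r b hr.pos hb with h | h
      · rw [h, single_zero]
      · exact absurd h (Nat.not_even_iff_odd.2 hr)
    | zero => simp
    | add x x' hx hx' h1 h2 =>
      have h3 := Od_anti D (f := x) (f' := x') hx hx'
      rw [add_mul, mul_add, mul_add, h1, h2, h3]
      simp
    | neg x _ h1 => simpa using h1
  exact key f hf

variable (p : ℕ) [Fact p.Prime]

theorem Ev_pow (hfd : ∀ x y : RR B G, Commute x y → (x + y) ^ p = x ^ p + y ^ p)
    (hfd' : ∀ x y : B, Commute x y → (x + y) ^ p = x ^ p + y ^ p)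
    {f : RR B G} (hf : f ∈ Ev D) : f ^ p = 0 := by
  have hp := (Fact.out : p.Prime)
  have key : ∀ f (hf : f ∈ AddSubgroup.closure {f : RR B G | ∃ m b,
      (∃ r, Even r ∧ 0 < r ∧ b ∈ D.Q 0 r) ∧ f = single m b}), f ^ p = 0 := by
    intro f hf
    induction hf using AddSubgroup.closure_induction with
    | mem x hx =>
      obtain ⟨m, b, ⟨r, hr, hr0, hb⟩, rfl⟩ := hx
      rw [single_pow, D.pw p r b hp.two_le hr0 hb hfd', single_zero]
    | zero => exact zero_pow hp.ne_zero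
    | add x x' hx hx' h1 h2 =>
      have h3 := Ev_comm D (f := x) (f' := x') hx hx'
      rw [hfd x x' (by rw [Commute, SemiconjBy, h3, one_smul]), h1, h2, add_zero]
    | neg x _ h1 => rw [neg_pow, h1, mul_zero]
  exact key f hf

/-- loops have vanishing `p`-th power -/
theorem loop_pow (hfd : ∀ x y : RR B G, Commute x y → (x + y) ^ p = x ^ p + y ^ p)
    (hfd' : ∀ x y : B, Commute x y → (x + y) ^ p = x ^ p + y ^ p)
    {f : RR B G} (hf : f ∈ Ev D ⊔ Od D) : f ^ p = 0 := by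
  have hp := (Fact.out : p.Prime)
  obtain ⟨e, he, o, ho, rfl⟩ := AddSubgroup.mem_sup.1 hf
  have hc := EvOd_comm D he ho
  rw [hfd e o (by rw [Commute, SemiconjBy, hc, one_smul]), Ev_pow D p hfd hfd' he, zero_add]
  obtain ⟨q, hq⟩ := Nat.exists_eq_add_of_le hp.two_le
  rw [hq, pow_add, pow_two, Od_sq D ho, zero_mul]

end

end Pool.Agent.H3.SIA
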