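import Pool.Agent.H3.SIA

set_option autoImplicit false

namespace Pool.Agent.H3.SIA

open AddMonoidAlgebra Finset

noncomputable section

variable {B G : Type} [Ring B] [AddCommGroup G] [Fintype G] [DecidableEq G] (D : Data B G)

/-- degree in `t_v` at most `d` -/
def DV (B : Type) [Ring B] {G : Type} (v : G) (d : ℕ) : AddSubgroup (RR B G) :=
  sp (fun m _ => m v ≤ d)

omit [AddCommGroup G] [Fintype G] [DecidableEq G] in
theorem DV_mul {v : G} {d e : ℕ} {f f' : RR B G} (hf : f ∈ DV B v d) (hf' : f' ∈ DV B v e) :
    f * f' ∈ DV B v (d + e) :=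
  sp_mul (fun m _ m' _ h h' => by rw [Finsupp.add_apply]; omega) hf hf'

omit [AddCommGroup G] [Fintype G] [DecidableEq G] in
theorem DV_mono {v : G} {d e : ℕ} (h : d ≤ e) : DV B v d ≤ DV B v e :=
  sp_le (fun _ _ hm => le_trans hm h)

omit [AddCommGroup G] [Fintype G] [DecidableEq G] in
theorem DV_one (v : G) : (1 : RR B G) ∈ DV B v 0 := by
  rw [one_def]
  exact sp_single (by simp)

/-- total degree -/
def TD (B : Type) [Ring B] {G : Type} [Fintype G] (n : ℕ) : AddSubgroup (RR B G) :=
  sp (fun m _ => ∑ v, m v = n)

omit [AddCommGroup G] [DecidableEq G] in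
theorem TD_mul {d e : ℕ} {f f' : RR B G} (hf : f ∈ TD B (G := G) d) (hf' : f' ∈ TD B (G := G) e) :
    f * f' ∈ TD B (G := G) (d + e) :=
  sp_mul (fun m _ m' _ h h' => by
    simp only [Finsupp.add_apply, Finset.sum_add_distrib, h, h']) hf hf'

variable (x : G → B)

def XM : Matrix G G (RR B G) := fun u w => single (Finsupp.single w 1) (x (w - u))
def YM (v : G) : Matrix G G (RR B G) := fun u w => if w = v then 0 else XM x u w
def ZM (v : G) : Matrix G G (RR B G) := fun u w => if w = v then XM x u w else 0

omit [Fintype G] in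
theorem XYZ (v : G) : XM x = YM x v + ZM x v := by
  ext1 u w
  simp only [Matrix.add_apply, YM, ZM]
  split_ifs <;> simp

theorem mat_mul_QQ {M M' : Matrix G G (RR B G)} {r s : ℕ} (h : ∀ u w, M u w ∈ QQ D (w - u) r)
    (h' : ∀ u w, M' u w ∈ QQ D (w - u) s) (u w : G) : (M * M') u w ∈ QQ D (w - u) (r + s) := by
  rw [Matrix.mul_apply]
  refine sum_mem fun t _ => ?_
  have := QQ_mul D (h u t) (h' t w)
  rwa [show t - u + (w - t) = w - u by abel] at this

theorem mat_pow_QQ {M : Matrix G G (RR B G)} (h : ∀ u w, M u w ∈ QQ D (w - u) 1) (j : ℕ) :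
    ∀ u w, (M ^ j) u w ∈ QQ D (w - u) j := by
  induction j with
  | zero =>
    intro u w
    rw [pow_zero, Matrix.one_apply]
    split_ifs with huw
    · subst huw
      rw [sub_self, one_def]
      exact sp_single D.one_mem
    · exact zero_mem _
  | succ j ih =>
    intro u w
    rw [pow_succ]
    exact mat_mul_QQ D ih h u w

omit [AddCommGroup G] in
theorem mat_pow_DV {M : Matrix G G (RR B G)} {v : G} (h : ∀ u w, M u w ∈ DV B v 0) (j : ℕ) :
    ∀ u w, (M ^ j) u w ∈ DV B v 0 := by
  induction j with
  | zero =>
    intro u w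
    rw [pow_zero, Matrix.one_apply]
    split_ifs
    · exact DV_one v
    · exact zero_mem _
  | succ j ih =>
    intro u w
    rw [pow_succ, Matrix.mul_apply]
    refine sum_mem fun t _ => ?_
    have := DV_mul (ih u t) (h t w)
    rwa [add_zero] at this

theorem XM_pow_TD (j : ℕ) : ∀ u w, ((XM x) ^ j) u w ∈ TD B (G := G) j := by
  induction j with
  | zero =>
    intro u w
    rw [pow_zero, Matrix.one_apply]
    split_ifs
    · rw [one_def]
      have h0 : ∑ v : G, (0 : G →₀ ℕ) v = 0 := by simp
      exact sp_single (P := fun m (_ : B) => ∑ v, m v = 0) h0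
    · exact zero_mem _
  | succ j ih =>
    intro u w
    rw [pow_succ, Matrix.mul_apply]
    have h1 : ∑ v : G, (Finsupp.single w 1 : G →₀ ℕ) v = 1 := by
      rw [Finset.sum_eq_single w]
      · simp
      · intro b _ hb
        rw [Finsupp.single_apply, if_neg (Ne.symm hb)]
      · intro h; exact absurd (Finset.mem_univ w) h
    exact sum_mem fun t _ => TD_mul (ih u t)
      (sp_single (P := fun m (_ : B) => ∑ v, m v = 1) h1)

variable {x}

omit [Fintype G] [DecidableEq G] in
theorem XM_QQ (hx : ∀ g, x g ∈ D.Q g 1) (u w : G) : XM x u w ∈ QQ D (w - u) 1 :=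
  sp_single (hx _)

omit [Fintype G] in
theorem YM_QQ (hx : ∀ g, x g ∈ D.Q g 1) (v u w : G) : YM x v u w ∈ QQ D (w - u) 1 := by
  unfold YM
  split_ifs
  · exact zero_mem _
  · exact XM_QQ D hx u w

theorem pow_zero_of (hM : ∀ {M : Matrix G G (RR B G)}, (∀ u w, M u w ∈ QQ D (w - u) 1) → True)
    {M : Matrix G G (RR B G)} (h : ∀ u w, M u w ∈ QQ D (w - u) 1) (n : ℕ) (hn : D.N < n) :
    M ^ n = 0 := by
  ext1 u w
  exact sp_zero (fun _ b hb => D.vanish _ n hn b hb) (mat_pow_QQ D h n u w)

theorem main (p : ℕ) [Fact p.Prime]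
    (hfd : ∀ x y : RR B G, Commute x y → (x + y) ^ p = x ^ p + y ^ p)
    (hfd' : ∀ x y : B, Commute x y → (x + y) ^ p = x ^ p + y ^ p)
    (hx : ∀ g, x g ∈ D.Q g 1) : (∑ g, x g) ^ (Fintype.card G * p) = 0 := by
  have hp := (Fact.out : p.Prime)
  set n := Fintype.card G * p with hn
  -- number of terms of the geometric series
  set L := max D.N n + 1 with hL
  have hX0 : (XM x) ^ L = 0 := pow_zero_of D (fun _ => trivial) (XM_QQ D hx) L (by omega)
  set S : Matrix G G (RR B G) := ∑ j ∈ range L, (XM x) ^ j with hS
  have hXS : (1 - XM x) * S = 1 := by rw [hS, mul_neg_geom_sum, hX0, sub_zero]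
  -- the column estimates
  have hcol : ∀ v : G, (∀ w, S v w ∈ DV B v (p - 1)) ∧ (∀ u w, S u w ∈ DV B v p) := by
    intro v
    have hY0 : (YM x v) ^ L = 0 := pow_zero_of D (fun _ => trivial) (YM_QQ D hx v) L (by omega)
    set R : Matrix G G (RR B G) := ∑ j ∈ range L, (YM x v) ^ j with hR
    have hRY : R * (1 - YM x v) = 1 := by rw [hR, geom_sum_mul_neg, hY0, sub_zero]
    have hSR : S = R + R * ZM x v * S := by
      calc S = (R * (1 - YM x v)) * S := by rw [hRY, one_mul]
        _ = R * ((1 - XM x) * S) + R * ZM x v * S := by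
            rw [XYZ x v]; noncomm_ring
        _ = _ := by rw [hXS, mul_one]
    have hYDV : ∀ u w, YM x v u w ∈ DV B v 0 := by
      intro u w
      unfold YM
      split_ifs with h
      · exact zero_mem _
      · refine sp_single ?_
        rw [Finsupp.single_apply, if_neg h]
    have hRDV : ∀ u w, R u w ∈ DV B v 0 := by
      intro u w
      rw [hR, Matrix.sum_apply]
      exact sum_mem fun j _ => mat_pow_DV hYDV j u w
    have hZ : ∀ u t, t ≠ v → (R * ZM x v) u t = 0 := by
      intro u t ht
      rw [Matrix.mul_apply]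
      refine Finset.sum_eq_zero fun s _ => ?_
      simp [ZM, ht]
    have hZv : ∀ u, (R * ZM x v) u v = ∑ s, R u s * XM x s v := by
      intro u
      rw [Matrix.mul_apply]
      simp [ZM]
    have hrow : ∀ u w, S u w = R u w + (R * ZM x v) u v * S v w := by
      intro u w
      conv_lhs => rw [hSR]
      rw [Matrix.add_apply, Matrix.mul_apply (M := R * ZM x v)]
      congr 1
      rw [Finset.sum_eq_single v]
      · intro t _ ht
        rw [hZ u t ht, zero_mul]
      · intro h; exact absurd (Finset.mem_univ v) h
    set lam := (R * ZM x v) v v with hlam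
    have hZDV : ∀ u, (R * ZM x v) u v ∈ DV B v 1 := by
      intro u
      rw [hZv]
      refine sum_mem fun s _ => ?_
      have := DV_mul (hRDV u s) (show XM x s v ∈ DV B v 1 from sp_single (by simp))
      rwa [zero_add] at this
    have hloop : lam ∈ Ev D ⊔ Od D := by
      rw [hlam, hZv]
      refine sum_mem fun s _ => ?_
      rw [hR, Matrix.sum_apply, Finset.sum_mul]
      refine sum_mem fun j _ => ?_
      have := QQ_mul D (mat_pow_QQ D (YM_QQ D hx v) j v s) (XM_QQ D hx s v)
      rw [show s - v + (v - s) = 0 by abel] at this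
      exact QQ_loop D (Nat.succ_pos j) this
    have hlamp : lam ^ p = 0 := loop_pow D p hfd hfd' hloop
    have hSv : ∀ w, S v w = (∑ j ∈ range p, lam ^ j) * R v w := by
      intro w
      have h1 : (1 - lam) * S v w = R v w := by
        have := hrow v w
        rw [sub_mul, one_mul]
        nth_rewrite 1 [this]
        simp [hlam]
      rw [← h1, ← mul_assoc, geom_sum_mul_neg, hlamp, sub_zero, one_mul]
    have hlamDV : ∀ j, lam ^ j ∈ DV B v j := by
      intro j
      induction j with
      | zero => rw [pow_zero]; exact DV_one v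
      | succ j ih => rw [pow_succ]; exact DV_mul ih (hZDV v)
    have hSvDV : ∀ w, S v w ∈ DV B v (p - 1) := by
      intro w
      rw [hSv]
      have h1 : (∑ j ∈ range p, lam ^ j) ∈ DV B v (p - 1) := by
        refine sum_mem fun j hj => ?_
        rw [Finset.mem_range] at hj
        exact DV_mono (by omega) (hlamDV j)
      have := DV_mul h1 (hRDV v w)
      rwa [add_zero] at this
    refine ⟨hSvDV, fun u w => ?_⟩
    rw [hrow u w]
    refine add_mem (DV_mono (Nat.zero_le p) (hRDV u w)) ?_
    have := DV_mul (hZDV u) (hSvDV w)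
    rwa [show 1 + (p - 1) = p by have := hp.pos; omega] at this
  -- vanishing of the power
  have hpow : ∀ w, ((XM x) ^ n) 0 w = 0 := by
    intro w
    apply AddMonoidAlgebra.ext
    ext m
    by_cases hm : ∑ v, m v = n
    · -- some variable is too frequent
      have hS0 : (S 0 w).coeff m = 0 := by
        by_contra hne
        have h0 : m 0 ≤ p - 1 := by
          by_contra hcon
          exact hne (sp_coeff m (fun _ => hcon) ((hcol 0).1 w))
        have hv : ∀ v, m v ≤ p := by
          intro v
          by_contra hcon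
          exact hne (sp_coeff m (fun _ => hcon) ((hcol v).2 0 w))
        have : ∑ v, m v < ∑ _v : G, p := by
          refine Finset.sum_lt_sum (fun v _ => hv v) ⟨0, Finset.mem_univ 0, ?_⟩
          have := hp.pos
          omega
        rw [hm, Finset.sum_const, Finset.card_univ, smul_eq_mul] at this
        omega
      have hsum : (S 0 w).coeff m = ∑ j ∈ range L, (((XM x) ^ j) 0 w).coeff m := by
        rw [hS, Matrix.sum_apply]
        have : ∀ (s : Finset ℕ) (F : ℕ → RR B G),
            (∑ j ∈ s, F j).coeff m = ∑ j ∈ s, (F j).coeff m := by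
          intro s F
          induction s using Finset.induction_on with
          | empty => simp
          | insert a s ha ih => rw [Finset.sum_insert ha, Finset.sum_insert ha, coeff_add,
              Finsupp.add_apply, ih]
        exact this _ _
      rw [Finset.sum_eq_single n] at hsum
      · rw [← hsum, hS0]; simp
      · intro j _ hj
        exact sp_coeff m (fun _ h => hj (by rw [← h, hm])) (XM_pow_TD x j 0 w)
      · intro h
        exfalso
        apply h
        rw [Finset.mem_range]
        omega
    · rw [sp_coeff m (fun _ h => hm h) (XM_pow_TD x n 0 w)]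
      simp
  -- specialise the variables to one
  let ε : RR B G →+* B := liftNCRingHom (RingHom.id B) 1 (fun _ _ => Commute.one_right _)
  have hε : ∀ m b, ε (single m b) = b := by
    intro m b
    change (liftNC ((RingHom.id B : B →+* B) : B →+ B) (1 : Multiplicative (G →₀ ℕ) →* B))
      (single m b) = b
    rw [liftNC_single]
    simp
  have hmap : ∀ j u, ∑ w, ε (((XM x) ^ j) u w) = (∑ g, x g) ^ j := by
    intro j
    induction j with
    | zero =>
      intro u
      simp only [pow_zero, Matrix.one_apply]
      rw [Finset.sum_eq_single u]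
      · simp
      · intro b _ hb
        simp [Ne.symm hb]
      · intro h; exact absurd (Finset.mem_univ u) h
    | succ j ih =>
      intro u
      simp only [pow_succ', Matrix.mul_apply, map_sum, map_mul]
      rw [Finset.sum_comm]
      simp_rw [← Finset.mul_sum, ih]
      rw [← Finset.sum_mul]
      congr 1
      simp only [XM, hε]
      exact Fintype.sum_equiv (Equiv.subRight u) _ _ (fun _ => rfl)
  rw [← hmap n 0]
  exact Finset.sum_eq_zero fun w _ => by rw [hpow w, map_zero]

end

end Pool.Agent.H3.SIA
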