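import Pool.Agent.H3.SIB

set_option autoImplicit false

namespace Pool.Agent.H3.SIA

open AddMonoidAlgebra Finset TensorProduct

noncomputable section

theorem frob {F C : Type} [Field F] [Ring C] [Algebra F C] (p : ℕ) (hp : p.Prime) [CharP F p]
    (x y : C) (h : Commute x y) : (x + y) ^ p = x ^ p + y ^ p := by
  have := Fact.mk hp
  rcases subsingleton_or_nontrivial C with hC | hC
  · exact Subsingleton.elim _ _
  · have : CharP C p := charP_of_injective_algebraMap (algebraMap F C).injective p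
    exact add_pow_char_of_commute p h

variable {F : Type} [Field F] {n : ℕ}

/-- the exterior algebra -/
abbrev EE (F : Type) [Field F] (n : ℕ) := ExteriorAlgebra F (Fin n → F)

/-- product of a list of vectors -/
def lp (L : List (Fin n → F)) : EE F n := (L.map (ExteriorAlgebra.ι F)).prod

theorem swap1 (v w : Fin n → F) : ExteriorAlgebra.ι F v * ExteriorAlgebra.ι F w
    = - (ExteriorAlgebra.ι F w * ExteriorAlgebra.ι F v) := by
  have := ExteriorAlgebra.ι_add_mul_swap (R := F) v w
  rw [eq_neg_iff_add_eq_zero]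
  exact this

theorem swapL (v : Fin n → F) (L : List (Fin n → F)) :
    ExteriorAlgebra.ι F v * lp L = (-1) ^ L.length * (lp L * ExteriorAlgebra.ι F v) := by
  induction L with
  | nil => simp [lp]
  | cons w L ih =>
    have hlp : lp (w :: L) = ExteriorAlgebra.ι F w * lp L := by simp [lp]
    rw [hlp, ← mul_assoc, swap1, neg_mul, mul_assoc, ih, List.length_cons, pow_succ]
    have hc : ∀ z : EE F n, z * (-1) ^ L.length = (-1) ^ L.length * z := fun z =>
      (Commute.neg_one_right z).pow_right L.length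
    rw [← mul_assoc (ExteriorAlgebra.ι F w), hc]
    noncomm_ring

theorem swapLL (L L' : List (Fin n → F)) :
    lp L * lp L' = (-1) ^ (L.length * L'.length) * (lp L' * lp L) := by
  induction L with
  | nil => simp [lp]
  | cons w L ih =>
    have hlp : lp (w :: L) = ExteriorAlgebra.ι F w * lp L := by simp [lp]
    have hc : ∀ (z : EE F n) (m : ℕ), z * (-1) ^ m = (-1) ^ m * z := fun z m =>
      (Commute.neg_one_right z).pow_right m
    rw [hlp, mul_assoc, ih, ← mul_assoc, hc, mul_assoc, ← mul_assoc (ExteriorAlgebra.ι F w),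
      swapL, mul_assoc, mul_assoc, ← mul_assoc ((-1) ^ (L.length * L'.length)), ← pow_add,
      List.length_cons]
    congr 2
    ring

theorem lp_sq (L : List (Fin n → F)) (h : 0 < L.length) : lp L * lp L = 0 := by
  cases L with
  | nil => simp at h
  | cons w L =>
    have hlp : lp (w :: L) = ExteriorAlgebra.ι F w * lp L := by simp [lp]
    have h1 : ExteriorAlgebra.ι F w * (ExteriorAlgebra.ι F w * lp L) = 0 := by
      rw [← mul_assoc, ExteriorAlgebra.ι_sq_zero, zero_mul]
    rw [hlp]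
    have h2 : ExteriorAlgebra.ι F w * lp L * (ExteriorAlgebra.ι F w * lp L)
        = ExteriorAlgebra.ι F w * (lp L * ExteriorAlgebra.ι F w) * lp L := by noncomm_ring
    have h3 : lp L * ExteriorAlgebra.ι F w
        = (-1) ^ L.length * (ExteriorAlgebra.ι F w * lp L) := by
      rw [swapL, ← mul_assoc, ← pow_add, ← two_mul, pow_mul]
      simp
    have hc : ∀ (z : EE F n) (m : ℕ), z * (-1) ^ m = (-1) ^ m * z := fun z m =>
      (Commute.neg_one_right z).pow_right m
    have h4 : (-1) ^ L.length * ExteriorAlgebra.ι F w * (ExteriorAlgebra.ι F w * lp L) = 0 := by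
      rw [mul_assoc, h1, mul_zero]
    rw [h2, h3, ← mul_assoc (ExteriorAlgebra.ι F w) ((-1) ^ L.length), hc, h4, zero_mul]

theorem lp_vanish (L : List (Fin n → F)) (h : n < L.length) : lp L = 0 := by
  have h1 : lp L = ExteriorAlgebra.ιMulti F L.length L.get := by
    rw [ExteriorAlgebra.ιMulti_apply]
    unfold lp
    congr 1
    conv_lhs => rw [← List.ofFn_get L, List.map_ofFn]
    rfl
  rw [h1]
  apply AlternatingMap.map_linearDependent
  intro hli
  have := hli.fintype_card_le_finrank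
  rw [Fintype.card_fin, Module.finrank_fin_fun] at this
  omega

variable {A : Type} [Ring A] [Algebra F A] {G : Type} [AddCommGroup G] [Fintype G] [DecidableEq G]
  (𝒜 : G → Submodule F A) [GradedAlgebra 𝒜]

/-- graded pieces of `A ⊗ Λ` -/
def Qd (n : ℕ) (g : G) (r : ℕ) : AddSubgroup (A ⊗[F] EE F n) :=
  AddSubgroup.closure {b | ∃ a ∈ 𝒜 g, ∃ L : List (Fin n → F), L.length = r ∧ b = a ⊗ₜ lp L}

theorem bilin {C : Type} [Ring C] {S S' : Set C} (c : C)
    (hc : ∀ z : C, Commute c z)
    (h : ∀ x ∈ S, ∀ y ∈ S', x * y = c * (y * x)) {x y : C}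
    (hx : x ∈ AddSubgroup.closure S) (hy : y ∈ AddSubgroup.closure S') :
    x * y = c * (y * x) := by
  induction hx using AddSubgroup.closure_induction with
  | mem x hx =>
    induction hy using AddSubgroup.closure_induction with
    | mem y hy => exact h x hx y hy
    | zero => simp
    | add y y' _ _ h1 h2 => rw [mul_add, add_mul, h1, h2, mul_add]
    | neg y _ h1 => rw [mul_neg, neg_mul, h1, mul_neg]
  | zero => simp
  | add x x' _ _ h1 h2 => rw [mul_add, add_mul, h1, h2, mul_add]
  | neg x _ h1 => rw [mul_neg, neg_mul, h1, mul_neg]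

theorem clmul {C : Type} [Ring C] {S S' S'' : Set C}
    (h : ∀ x ∈ S, ∀ y ∈ S', x * y ∈ S'') {x y : C}
    (hx : x ∈ AddSubgroup.closure S) (hy : y ∈ AddSubgroup.closure S') :
    x * y ∈ AddSubgroup.closure S'' := by
  induction hx using AddSubgroup.closure_induction with
  | mem x hx =>
    induction hy using AddSubgroup.closure_induction with
    | mem y hy => exact AddSubgroup.subset_closure (h x hx y hy)
    | zero => rw [mul_zero]; exact zero_mem _
    | add y y' _ _ h1 h2 => rw [mul_add]; exact add_mem h1 h2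
    | neg y _ h1 => rw [mul_neg]; exact neg_mem h1
  | zero => rw [zero_mul]; exact zero_mem _
  | add x x' _ _ h1 h2 => rw [add_mul]; exact add_mem h1 h2
  | neg x _ h1 => rw [neg_mul]; exact neg_mem h1

theorem Qd_comm (hA : ∀ a ∈ 𝒜 0, ∀ b ∈ 𝒜 0, a * b = b * a) (r s : ℕ) (b c : A ⊗[F] EE F n)
    (hb : b ∈ Qd 𝒜 n 0 r) (hc : c ∈ Qd 𝒜 n 0 s) : b * c = (-1) ^ (r * s) * (c * b) := by
  refine bilin _ (fun z => (Commute.neg_one_left z).pow_left _) ?_ hb hc
  rintro x ⟨a, ha, L, hL, rfl⟩ y ⟨a', ha', L', hL', rfl⟩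
  rw [Algebra.TensorProduct.tmul_mul_tmul, Algebra.TensorProduct.tmul_mul_tmul, swapLL, hL, hL',
    hA a ha a' ha']
  have : ((-1 : A ⊗[F] EE F n)) ^ (r * s) = 1 ⊗ₜ ((-1) ^ (r * s)) := by
    rcases Nat.even_or_odd (r * s) with h | h
    · rw [h.neg_one_pow, h.neg_one_pow]; rfl
    · rw [h.neg_one_pow, h.neg_one_pow, TensorProduct.tmul_neg]; rfl
  rw [this, Algebra.TensorProduct.tmul_mul_tmul, one_mul]

theorem Qd_sq (hA : ∀ a ∈ 𝒜 0, ∀ b ∈ 𝒜 0, a * b = b * a) (r : ℕ) (hr : 0 < r) (hodd : Odd r)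
    (b : A ⊗[F] EE F n) (hb : b ∈ Qd 𝒜 n 0 r) : b * b = 0 := by
  unfold Qd at hb
  induction hb using AddSubgroup.closure_induction with
  | mem x hx =>
    obtain ⟨a, ha, L, hL, rfl⟩ := hx
    rw [Algebra.TensorProduct.tmul_mul_tmul, lp_sq L (by omega), TensorProduct.tmul_zero]
  | zero => simp
  | add x x' hx hx' h1 h2 =>
    have h3 := Qd_comm 𝒜 hA r r x x' hx hx'
    rw [(hodd.mul hodd).neg_one_pow] at h3
    rw [add_mul, mul_add, mul_add, h1, h2, h3]
    simp
  | neg x _ h1 => simpa using h1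

theorem Qd_pw (hA : ∀ a ∈ 𝒜 0, ∀ b ∈ 𝒜 0, a * b = b * a) (p r : ℕ) (hp : 2 ≤ p) (hr : 0 < r)
    (b : A ⊗[F] EE F n) (hb : b ∈ Qd 𝒜 n 0 r)
    (hfd : ∀ x y : A ⊗[F] EE F n, Commute x y → (x + y) ^ p = x ^ p + y ^ p) : b ^ p = 0 := by
  have two : ∀ z : A ⊗[F] EE F n, z * z = 0 → z ^ p = 0 := by
    intro z hz
    obtain ⟨q, hq⟩ := Nat.exists_eq_add_of_le hp
    rw [hq, pow_add, pow_two, hz, zero_mul]
  rcases Nat.even_or_odd r with h | h
  · unfold Qd at hb
    induction hb using AddSubgroup.closure_induction with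
    | mem x hx =>
      obtain ⟨a, ha, L, hL, rfl⟩ := hx
      apply two
      rw [Algebra.TensorProduct.tmul_mul_tmul, lp_sq L (by omega), TensorProduct.tmul_zero]
    | zero => exact zero_pow (by omega)
    | add x x' hx hx' h1 h2 =>
      have h3 := Qd_comm 𝒜 hA r r x x' hx hx'
      rw [(h.mul_right r).neg_one_pow, one_mul] at h3
      rw [hfd x x' h3, h1, h2, add_zero]
    | neg x _ h1 => rw [neg_pow, h1, mul_zero]
  · exact two _ (Qd_sq 𝒜 hA r hr h b hb)

/-- the data -/
def theData (n : ℕ) (hA : ∀ a ∈ 𝒜 0, ∀ b ∈ 𝒜 0, a * b = b * a) : Data (A ⊗[F] EE F n) G where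
  Q := Qd 𝒜 n
  one_mem := AddSubgroup.subset_closure ⟨1, SetLike.GradedOne.one_mem, [], rfl, by
    simp [lp, Algebra.TensorProduct.one_def]⟩
  mul_mem := by
    intro g r h s b c hb hc
    refine clmul ?_ hb hc
    rintro x ⟨a, ha, L, hL, rfl⟩ y ⟨a', ha', L', hL', rfl⟩
    refine ⟨a * a', SetLike.GradedMul.mul_mem ha ha', L ++ L', by
      rw [List.length_append, hL, hL'], ?_⟩
    rw [Algebra.TensorProduct.tmul_mul_tmul]
    congr 1
    simp [lp]
  comm := fun r s b c hb hc => Qd_comm 𝒜 hA r s b c hb hc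
  sq := fun r b hr hb => by
    rcases Nat.even_or_odd r with h | h
    · exact Or.inr h
    · exact Or.inl (Qd_sq 𝒜 hA r hr h b hb)
  pw := fun p r b hp hr hb hfd => Qd_pw 𝒜 hA p r hp hr b hb hfd
  N := n
  vanish := by
    intro g r hr b hb
    unfold Qd at hb
    induction hb using AddSubgroup.closure_induction with
    | mem x hx =>
      obtain ⟨a, ha, L, hL, rfl⟩ := hx
      rw [lp_vanish L (by omega), TensorProduct.tmul_zero]
    | zero => rfl
    | add x x' _ _ h1 h2 => rw [h1, h2, add_zero]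
    | neg x _ h1 => rw [h1, neg_zero]

/-- basis vectors -/
def bv (i : Fin n) : Fin n → F := Pi.single i 1

/-- the generic element -/
def gX (a : Fin n → A) : A ⊗[F] EE F n := ∑ i, a i ⊗ₜ ExteriorAlgebra.ι F (bv (F := F) i)

theorem gX_pow (p : ℕ) (hp : p.Prime) [CharP F p]
    (hA : ∀ a ∈ 𝒜 0, ∀ b ∈ 𝒜 0, a * b = b * a) (a : Fin n → A) :
    (gX (F := F) a) ^ (Fintype.card G * p) = 0 := by
  have := Fact.mk hp
  have h := main (theData 𝒜 n hA) (x := fun g => ∑ i, ((DirectSum.decompose 𝒜 (a i) g : A) ⊗ₜ[F]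
    ExteriorAlgebra.ι F (bv (F := F) i))) p (fun x y h => frob (F := F) p hp x y h)
    (fun x y h => frob (F := F) p hp x y h) (by
      intro g
      change _ ∈ Qd 𝒜 n g 1
      refine sum_mem fun i _ => ?_
      have hm : (DirectSum.decompose 𝒜 (a i) g : A) ∈ 𝒜 g := SetLike.coe_mem _
      exact AddSubgroup.subset_closure ⟨_, hm, [bv (F := F) i], rfl, by simp [lp]⟩)
  convert h using 2
  rw [Finset.sum_comm]
  unfold gX
  refine Finset.sum_congr rfl fun i _ => ?_
  rw [← TensorProduct.sum_tmul]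
  congr 1
  classical
  conv_lhs => rw [← DirectSum.sum_support_decompose 𝒜 (a i)]
  apply Finset.sum_subset (Finset.subset_univ _)
  intro g _ hg
  rw [DFinsupp.notMem_support_iff] at hg
  rw [hg]
  rfl

/-- the determinant functional on the exterior algebra -/
def phi (F : Type) [Field F] (n : ℕ) : EE F n →ₗ[F] F :=
  ExteriorAlgebra.liftAlternating (R := F) (M := Fin n → F) (N := F)
    (fun i => if h : i = n then
      h ▸ (Matrix.detRowAlternating : (Fin n → F) [⋀^Fin n]→ₗ[F] F) else 0)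

theorem phi_apply (v : Fin n → (Fin n → F)) :
    phi F n ((List.ofFn fun i => ExteriorAlgebra.ι F (v i)).prod) = Matrix.det v := by
  rw [← ExteriorAlgebra.ιMulti_apply]
  unfold phi
  rw [ExteriorAlgebra.liftAlternating_apply_ιMulti]
  simp
  rfl

theorem ofFn_tmul (m : ℕ) (u : Fin m → A) (w : Fin m → EE F n) :
    (List.ofFn fun j => u j ⊗ₜ[F] w j).prod = (List.ofFn u).prod ⊗ₜ (List.ofFn w).prod := by
  induction m with
  | zero => simp [Algebra.TensorProduct.one_def]
  | succ m ih =>
    rw [List.ofFn_succ, List.ofFn_succ (f := u), List.ofFn_succ (f := w), List.prod_cons,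
      List.prod_cons, List.prod_cons, ih, Algebra.TensorProduct.tmul_mul_tmul]

theorem stdid (a : Fin n → A) (h : (gX (F := F) a) ^ n = 0) :
    ∑ σ : Equiv.Perm (Fin n), ((Equiv.Perm.sign σ : ℤˣ) : ℤ) •
      (List.ofFn (fun i => a (σ i))).prod = 0 := by
  have h1 : (gX (F := F) a) ^ n = ∑ r : Fin n → Fin n,
      (List.ofFn fun j => a (r j)).prod ⊗ₜ[F]
        (List.ofFn fun j => ExteriorAlgebra.ι F (bv (F := F) (r j))).prod := by
    rw [← MultilinearMap.mkPiAlgebraFin_apply_const (R := F)]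
    unfold gX
    rw [MultilinearMap.map_sum]
    refine Finset.sum_congr rfl fun r _ => ?_
    rw [MultilinearMap.mkPiAlgebraFin_apply, ofFn_tmul]
  have h2 := congrArg (fun z => TensorProduct.rid F A (LinearMap.lTensor A (phi F n) z)) h
  simp only [h1, map_sum, LinearMap.lTensor_tmul, phi_apply, TensorProduct.rid_tmul,
    map_zero] at h2
  rw [← h2]
  refine Finset.sum_of_injOn (fun σ : Equiv.Perm (Fin n) => (σ : Fin n → Fin n)) ?_ ?_ ?_ ?_
  · intro σ _ τ _ hst
    exact Equiv.coe_fn_injective hst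
  · intro σ _; exact Finset.mem_coe.2 (Finset.mem_univ _)
  · intro r _ hr
    have hni : ¬ Function.Injective r := by
      intro hinj
      apply hr
      exact ⟨Equiv.ofBijective r (Finite.injective_iff_bijective.1 hinj),
        Finset.mem_coe.2 (Finset.mem_univ _), rfl⟩
    rw [Function.not_injective_iff] at hni
    obtain ⟨i, j, hij, hne⟩ := hni
    have : Matrix.det (fun k => bv (F := F) (r k)) = 0 :=
      Matrix.det_zero_of_row_eq hne (by rw [hij])
    rw [this, zero_smul]
  · intro σ _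
    have hdet : Matrix.det (fun k => bv (F := F) (σ k)) = ((Equiv.Perm.sign σ : ℤˣ) : ℤ) := by
      have h3 := Matrix.det_permute σ (1 : Matrix (Fin n) (Fin n) F)
      rw [Matrix.det_one, mul_one] at h3
      have h4 : (fun k => bv (F := F) (σ k)) = (1 : Matrix (Fin n) (Fin n) F).submatrix σ id := by
        ext k l
        simp [bv, Matrix.one_apply, Pi.single_apply, eq_comm]
      rw [h4]
      simpa using h3
    rw [hdet]
    rw [← Int.cast_smul_eq_zsmul F]

end

end Pool.Agent.H3.SIA
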