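import Mathlib

open Equiv Filter Topology Set

namespace Pool.Agent.H3.SymTop

variable {α : Type*}

theorem ais (g : Perm α) (x : α) : g (g⁻¹ x) = x := g.apply_symm_apply x

theorem ias (g : Perm α) (x : α) : g⁻¹ (g x) = x := g.symm_apply_apply x

/-- The subgroup of permutations that fix every point outside `X`. -/
def Sy (X : Set α) : Subgroup (Perm α) where
  carrier := {g | ∀ x, x ∉ X → g x = x}
  mul_mem' := by
    intro a b ha hb x hx
    rw [Perm.mul_apply, hb x hx, ha x hx]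
  one_mem' := by intro x _; rfl
  inv_mem' := by
    intro a ha x hx
    rw [Perm.inv_eq_iff_eq]; exact (ha x hx).symm

theorem mem_Sy {X : Set α} {g : Perm α} : g ∈ Sy X ↔ ∀ x, x ∉ X → g x = x := Iff.rfl

theorem Sy_mono {X Y : Set α} (h : X ⊆ Y) : Sy X ≤ Sy Y := fun _ hg x hx => hg x fun hx' => hx (h hx')

theorem Sy_maps {X : Set α} {g : Perm α} (hg : g ∈ Sy X) {x : α} (hx : x ∈ X) : g x ∈ X := by
  by_contra h
  have := hg _ h
  have h2 : g x = x := g.injective this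
  rw [h2] at h
  exact h hx

theorem Sy_maps_inv {X : Set α} {g : Perm α} (hg : g ∈ Sy X) {x : α} (hx : x ∈ X) : g⁻¹ x ∈ X :=
  Sy_maps (inv_mem hg) hx

/-- Extending an injection to a permutation. -/
theorem exists_perm_extend [Countable α] (A : Set α) (f : α → α) (hf : InjOn f A)
    (hA : Aᶜ.Infinite) (hB : (f '' A)ᶜ.Infinite) : ∃ g : Perm α, ∀ a ∈ A, g a = f a := by
  classical
  let e1 : A ≃ f '' A := Equiv.Set.imageOfInjOn f A hf
  have h1 : Infinite ↥(Aᶜ) := hA.to_subtype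
  have h2 : Infinite ↥((f '' A)ᶜ) := hB.to_subtype
  obtain ⟨e2⟩ := nonempty_equiv_of_countable (α := ↥(Aᶜ)) (β := ↥((f '' A)ᶜ))
  refine ⟨(Equiv.Set.sumCompl A).symm.trans ((Equiv.sumCongr e1 e2).trans
    (Equiv.Set.sumCompl (f '' A))), ?_⟩
  intro a ha
  simp [Equiv.Set.sumCompl_symm_apply_of_mem ha, e1, Equiv.Set.imageOfInjOn]

theorem exists_Sy_extend [Countable α] (Ω A : Set α) (hA : A ⊆ Ω) (f : α → α) (hf : InjOn f A)
    (hm : MapsTo f A Ω) (h1 : (Ω \ A).Infinite) (h2 : (Ω \ f '' A).Infinite) :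
    ∃ g ∈ Sy Ω, ∀ a ∈ A, g a = f a := by
  classical
  have i1 : InjOn (fun x => if x ∈ A then f x else x) (A ∪ Ωᶜ) := by
    intro x hx y hy hxy
    by_cases hxA : x ∈ A <;> by_cases hyA : y ∈ A
    · simp only [hxA, hyA, if_true] at hxy
      exact hf hxA hyA hxy
    · simp only [hxA, hyA, if_true, if_false] at hxy
      have := hy.resolve_left hyA
      exact absurd (hxy ▸ hm hxA) this
    · simp only [hxA, hyA, if_true, if_false] at hxy
      have := hx.resolve_left hxA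
      exact absurd (hxy ▸ hm hyA) this
    · simpa only [hxA, hyA, if_false] using hxy
  have i2 : (A ∪ Ωᶜ)ᶜ.Infinite := by
    refine h1.mono ?_
    intro x hx
    simp only [mem_compl_iff, mem_union, not_or, not_not]
    exact ⟨hx.2, hx.1⟩
  have i3 : ((fun x => if x ∈ A then f x else x) '' (A ∪ Ωᶜ))ᶜ.Infinite := by
    refine h2.mono ?_
    rintro x hx ⟨y, hy, hyx⟩
    by_cases hyA : y ∈ A
    · simp only [hyA, if_true] at hyx
      exact hx.2 ⟨y, hyA, hyx⟩
    · simp only [hyA, if_false] at hyx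
      subst hyx
      exact (hy.resolve_left hyA) hx.1
  obtain ⟨g, hg⟩ := exists_perm_extend (A ∪ Ωᶜ) (fun x => if x ∈ A then f x else x) i1 i2 i3
  refine ⟨g, ?_, ?_⟩
  · intro x hx
    have := hg x (Or.inr hx)
    rw [this, if_neg]
    intro h; exact hx (hA h)
  · intro a ha
    rw [hg a (Or.inl ha), if_pos ha]

/-- choose points one after another, avoiding finitely many points given by the earlier ones -/
theorem exists_seq (T : ℕ → Set α) (hT : ∀ n, (T n).Infinite) (Γ : α → Set α)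
    (hΓ : ∀ x, (Γ x).Finite) : ∃ x : ℕ → α, (∀ n, x n ∈ T n) ∧ ∀ m n, m < n → x n ∉ Γ (x m) := by
  classical
  have key : ∀ (n : ℕ) (F : Set α), ∃ y : α, F.Finite → y ∈ T n ∧ y ∉ F := by
    intro n F
    by_cases hF : F.Finite
    · obtain ⟨y, hy1, hy2⟩ := ((hT n).sdiff hF).nonempty
      exact ⟨y, fun _ => ⟨hy1, hy2⟩⟩
    · obtain ⟨y, _⟩ := (hT n).nonempty
      exact ⟨y, fun h => absurd h hF⟩
  choose c hc using key
  let x : ℕ → α := fun n => Nat.strongRec (motive := fun _ => α)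
    (fun n ih => c n (⋃ m : Fin n, Γ (ih m.1 m.2))) n
  have hx : ∀ n, x n = c n (⋃ m : Fin n, Γ (x m.1)) := by
    intro n
    simp only [x]
    rw [Nat.strongRec_eq]
  have hfin : ∀ n, (⋃ m : Fin n, Γ (x m.1)).Finite := fun n => finite_iUnion fun m => hΓ _
  refine ⟨x, fun n => ?_, fun m n hmn h => ?_⟩
  · rw [hx n]; exact (hc n _ (hfin n)).1
  · have h2 := (hc n _ (hfin n)).2
    rw [← hx n] at h2
    exact h2 (mem_iUnion.2 ⟨⟨m, hmn⟩, h⟩)

/-- An infinite set splits into two infinite pieces. -/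
theorem exists_split (X : Set α) (hX : X.Infinite) : ∃ Y ⊆ X, Y.Infinite ∧ (X \ Y).Infinite := by
  obtain ⟨x, hx1, hx2⟩ := exists_seq (fun _ => X) (fun _ => hX) (fun x => {x}) (fun x => finite_singleton x)
  have hinj : Function.Injective x := by
    intro m n h
    rcases lt_trichotomy m n with h1 | h1 | h1
    · exact absurd h.symm (hx2 m n h1)
    · exact h1
    · exact absurd h (hx2 n m h1)
  refine ⟨range fun n => x (2 * n), ?_, ?_, ?_⟩
  · rintro _ ⟨n, rfl⟩; exact hx1 _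
  · refine infinite_range_of_injective ?_
    intro m n h
    have := hinj h
    omega
  · have : (range fun n => x (2 * n + 1)).Infinite := by
      refine infinite_range_of_injective ?_
      intro m n h
      have := hinj h
      omega
    refine this.mono ?_
    rintro _ ⟨n, rfl⟩
    refine ⟨hx1 _, ?_⟩
    rintro ⟨m, hm⟩
    have := hinj hm
    omega

/-- If `C` is co-infinite and `Θ` infinite, some permutation maps `C` into `Θ`. -/
theorem exists_perm_into [Countable α] [Infinite α] (C Θ : Set α) (hC : Cᶜ.Infinite) (hΘ : Θ.Infinite) :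
    ∃ f : Perm α, ∀ x ∈ C, f x ∈ Θ := by
  obtain ⟨Y, hY, hYi, hYc⟩ := exists_split Θ hΘ
  have : Infinite ↥Y := hYi.to_subtype
  obtain ⟨e⟩ := nonempty_equiv_of_countable (α := α) (β := ↥Y)
  have i1 : InjOn (fun x => (e x : α)) C := by
    intro x _ y _ hxy
    exact e.injective (Subtype.ext hxy)
  have i2 : ((fun x => (e x : α)) '' C)ᶜ.Infinite := by
    refine hYc.mono ?_
    rintro x hx ⟨y, hy, rfl⟩
    exact hx.2 (e y).2
  obtain ⟨g, hg⟩ := exists_perm_extend C (fun x => (e x : α)) i1 hC i2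
  exact ⟨g, fun x hx => by rw [hg x hx]; exact hY (e x).2⟩

theorem exists_push [Countable α] [Infinite α] (Ω A T : Set α) (hA : A ⊆ Ω) (hT : T ⊆ Ω)
    (h1 : (Ω \ A).Infinite) (hTi : T.Infinite) :
    ∃ p ∈ Sy Ω, (∀ a ∈ A, p a ∈ T) ∧ (T \ p '' A).Infinite := by
  obtain ⟨Y, hY, hYi, hYc⟩ := exists_split T hTi
  have : Infinite ↥Y := hYi.to_subtype
  obtain ⟨e⟩ := nonempty_equiv_of_countable (α := α) (β := ↥Y)
  have i1 : InjOn (fun x => (e x : α)) A := by
    intro x _ y _ hxy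
    exact e.injective (Subtype.ext hxy)
  have i2 : MapsTo (fun x => (e x : α)) A Ω := fun x _ => hT (hY (e x).2)
  have i4 : (T \ (fun x => (e x : α)) '' A).Infinite := by
    refine hYc.mono ?_
    rintro x ⟨hx1, hx2⟩
    refine ⟨hx1, ?_⟩
    rintro ⟨y, hy, rfl⟩
    exact hx2 (e y).2
  have i3 : (Ω \ (fun x => (e x : α)) '' A).Infinite := i4.mono (sdiff_subset_sdiff_left hT)
  obtain ⟨g, hgS, hg⟩ := exists_Sy_extend Ω A hA (fun x => (e x : α)) i1 i2 h1 i3
  refine ⟨g, hgS, fun a ha => by rw [hg a ha]; exact hY (e a).2, ?_⟩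
  refine i4.mono ?_
  rintro x ⟨hx1, hx2⟩
  refine ⟨hx1, ?_⟩
  rintro ⟨y, hy, rfl⟩
  exact hx2 ⟨y, hy, (hg y hy).symm⟩

theorem factor_top [Countable α] [Infinite α] (P Q : Set α) (hPQ : (P ∩ Q).Infinite) (g : Perm α)
    (hg : g ∈ Sy (P ∪ Q)) :
    ∃ p ∈ Sy P, ∃ q ∈ Sy Q, ∃ p' ∈ Sy P, ∃ q' ∈ Sy Q, g = p * q * p' * q' := by
  have hPi : P.Infinite := hPQ.mono inter_subset_left
  have hQi : Q.Infinite := hPQ.mono inter_subset_right
  have hgQ : (g '' Q).Infinite := hQi.image g.injective.injOn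
  obtain ⟨S, hS1, hS2, hS3⟩ : ∃ S ⊆ g '' Q, S.Infinite ∧ (P \ S).Infinite := by
    obtain ⟨Y, hY, hYi, hYc⟩ := exists_split (g '' Q) hgQ
    by_cases h : (P \ Y).Infinite
    · exact ⟨Y, hY, hYi, h⟩
    · refine ⟨g '' Q \ Y, sdiff_subset, hYc, ?_⟩
      rw [not_infinite] at h
      have h2 : (P \ (P \ Y)).Infinite := hPi.sdiff h
      refine h2.mono ?_
      rintro x ⟨hx1, hx2⟩
      refine ⟨hx1, fun hx3 => hx2 ⟨hx1, hx3.2⟩⟩
  have hA1 : (P \ (P \ Q)).Infinite := by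
    refine hPQ.mono ?_
    rintro x ⟨hx1, hx2⟩
    exact ⟨hx1, fun h => h.2 hx2⟩
  obtain ⟨p, hp, hp1, hp2⟩ := exists_push P (P \ Q) (P \ S) sdiff_subset sdiff_subset hA1 hS3
  -- K = g⁻¹ p A
  have hK1 : (Q \ ({k | g k ∈ p '' (P \ Q)} ∩ Q)).Infinite := by
    have : ((g⁻¹ : Perm α) '' S).Infinite := hS2.image (Equiv.injective _).injOn
    refine this.mono ?_
    rintro _ ⟨s, hs, rfl⟩
    obtain ⟨y, hy, rfl⟩ := hS1 hs
    refine ⟨by simpa using hy, ?_⟩
    rintro ⟨⟨a, ha, ha2⟩, _⟩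
    have := hp1 a ha
    rw [ha2] at this
    simp only [ias] at this
    exact this.2 hs
  obtain ⟨q', hq', hq'1, hq'2⟩ := exists_push Q ({k | g k ∈ p '' (P \ Q)} ∩ Q) (P ∩ Q) inter_subset_right
    inter_subset_right hK1 hPQ
  set h : Perm α := p⁻¹ * g * q'⁻¹ with hh
  have hhinv : ∀ x, h⁻¹ x = q' (g⁻¹ (p x)) := by
    intro x; simp [hh, mul_inv_rev, Perm.mul_apply]
  have hhSy : h ∈ Sy (P ∪ Q) :=
    mul_mem (mul_mem (inv_mem (Sy_mono subset_union_left hp)) hg) (inv_mem (Sy_mono subset_union_right hq'))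
  have m1 : MapsTo (h⁻¹ : Perm α) (P \ Q) P := by
    intro a ha
    rw [hhinv]
    by_cases hk : g⁻¹ (p a) ∈ Q
    · have : g⁻¹ (p a) ∈ {k | g k ∈ p '' (P \ Q)} ∩ Q := by
        refine ⟨?_, hk⟩
        simp only [mem_ofPred_eq, ais]
        exact ⟨a, ha, rfl⟩
      exact (hq'1 _ this).1
    · rw [hq' _ hk]
      have h1 : p a ∈ P ∪ Q := Or.inl (hp1 a ha).1
      have h2 := Sy_maps_inv hg h1
      exact h2.resolve_right hk
  have m2 : (P \ (h⁻¹ : Perm α) '' (P \ Q)).Infinite := by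
    refine hq'2.mono ?_
    rintro x ⟨hx1, hx2⟩
    refine ⟨hx1.1, ?_⟩
    rintro ⟨a, ha, rfl⟩
    rw [hhinv] at hx1 hx2
    by_cases hk : g⁻¹ (p a) ∈ Q
    · apply hx2
      refine ⟨_, ⟨?_, hk⟩, rfl⟩
      simp only [mem_ofPred_eq, ais]
      exact ⟨a, ha, rfl⟩
    · rw [hq' _ hk] at hx1
      exact hk hx1.2
  obtain ⟨p₁, hp₁, hp₁2⟩ := exists_Sy_extend P (P \ Q) sdiff_subset (h⁻¹ : Perm α)
    (Equiv.injective _).injOn m1 hA1 m2
  refine ⟨p, hp, h * p₁, ?_, p₁⁻¹, inv_mem hp₁, q', hq', ?_⟩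
  · intro x hx
    by_cases hxP : x ∈ P
    · rw [Perm.mul_apply, hp₁2 x ⟨hxP, hx⟩, ais]
    · rw [Perm.mul_apply, hp₁ x hxP, hhSy x]
      rintro (h1 | h1)
      · exact hxP h1
      · exact hx h1
  · rw [hh]; group

/-- gluing permutations along a colouring -/
theorem exists_glue {ι : Type*} (c : α → ι) (π : ι → Perm α) (hπ : ∀ i, π i ∈ Sy {x | c x = i}) :
    ∃ h : Perm α, ∀ x, h x = π (c x) x := by
  have h1 : ∀ x, c (π (c x) x) = c x := fun x => Sy_maps (hπ (c x)) (x := x) (by exact rfl)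
  have h2 : ∀ x, c ((π (c x))⁻¹ x) = c x := fun x => Sy_maps_inv (hπ (c x)) (x := x) (by exact rfl)
  refine ⟨⟨fun x => π (c x) x, fun x => (π (c x))⁻¹ x, ?_, ?_⟩, fun x => rfl⟩
  · intro x
    simp only [h1]
    simp
  · intro x
    simp only [h2]
    simp

theorem exists_colour [Countable α] (Θ : Set α) (hΘ : Θ.Infinite) :
    ∃ c : α → Option ℕ, (∀ x i, c x = some i → x ∈ Θ) ∧ ∀ i, {x | c x = some i}.Infinite := by
  classical
  have : Infinite ↥Θ := hΘ.to_subtype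
  obtain ⟨e⟩ := nonempty_equiv_of_countable (α := ↥Θ) (β := ℕ × ℕ)
  refine ⟨fun x => if h : x ∈ Θ then some (e ⟨x, h⟩).1 else none, ?_, ?_⟩
  · intro x i h
    by_contra hx
    simp [hx] at h
  · intro i
    have : (range fun j : ℕ => ((e.symm (i, j) : ↥Θ) : α)).Infinite := by
      refine infinite_range_of_injective ?_
      intro j k hjk
      have := e.symm.injective (Subtype.ext hjk)
      simpa using this
    refine this.mono ?_
    rintro _ ⟨j, rfl⟩
    simp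

theorem commute_of_disj {X : Set α} {k u : Perm α} (hk : k ∈ Sy Xᶜ) (hu : u ∈ Sy X) : k * u = u * k := by
  ext x
  rw [Perm.mul_apply, Perm.mul_apply]
  by_cases hx : x ∈ X
  · rw [hk (u x) (fun h => h (Sy_maps hu hx)), hk x (fun h => h hx)]
  · rw [hu x hx, hu (k x) (Sy_maps hk hx)]

theorem conj_eq {X : Set α} {h π u : Perm α} (hu : u ∈ Sy X) (hh : ∀ x ∈ X, h x = π x) :
    h * u * h⁻¹ = π * u * π⁻¹ := by
  have hk : π⁻¹ * h ∈ Sy Xᶜ := by
    intro x hx
    rw [Perm.mul_apply, hh x (not_not.1 hx), ias]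
  have := commute_of_disj hk hu
  calc h * u * h⁻¹ = π * ((π⁻¹ * h) * u) * h⁻¹ := by group
    _ = π * (u * (π⁻¹ * h)) * h⁻¹ := by rw [this]
    _ = π * u * π⁻¹ := by group

theorem conj_mem_Sy {C Θ : Set α} {f g : Perm α} (hf : ∀ x ∈ C, f x ∈ Θ) (hg : g ∈ Sy C) :
    f * g * f⁻¹ ∈ Sy Θ := by
  intro x hx
  rw [Perm.mul_apply, Perm.mul_apply, hg, ais]
  intro h
  have := hf _ h
  rw [ais] at this
  exact hx this

theorem conj_via {β : Type*} (ρ : Perm α) (b b' : β ↪ α) (h : ∀ z, ρ (b z) = b' z) (π : Perm β) :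
    ρ * π.viaEmbedding b * ρ⁻¹ = π.viaEmbedding b' := by
  ext y
  rw [Perm.mul_apply, Perm.mul_apply]
  by_cases hy : y ∈ range b'
  · obtain ⟨z, rfl⟩ := hy
    rw [Perm.viaEmbedding_apply, ← h z, ias, Perm.viaEmbedding_apply, h]
  · rw [Perm.viaEmbedding_apply_of_notMem _ _ _ hy, Perm.viaEmbedding_apply_of_notMem, ais]
    rintro ⟨z, hz⟩
    apply hy
    refine ⟨z, ?_⟩
    rw [← h z, hz, ais]

theorem via_mem_Sy {β : Type*} (b : β ↪ α) (π : Perm β) {X : Set α} (h : ∀ z, b z ∈ X) :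
    π.viaEmbedding b ∈ Sy X := by
  intro x hx
  rw [Perm.viaEmbedding_apply_of_notMem]
  rintro ⟨z, rfl⟩
  exact hx (h z)

theorem exists_via {β : Type*} (b : β ↪ α) (g : Perm α) (hg : g ∈ Sy (range b)) :
    ∃ σ : Perm β, ∀ z, g (b z) = b (σ z) := by
  have h1 : ∀ z, ∃ w, b w = g (b z) := fun z => Sy_maps hg (mem_range_self z)
  have h2 : ∀ z, ∃ w, b w = g⁻¹ (b z) := fun z => Sy_maps_inv hg (mem_range_self z)
  choose f hf using h1
  choose f' hf' using h2
  refine ⟨⟨f, f', fun z => b.injective ?_, fun z => b.injective ?_⟩, fun z => (hf z).symm⟩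
  · rw [hf', hf, ias]
  · rw [hf, hf', ais]

section Topology

variable [TopologicalSpace (Perm α)] [IsTopologicalGroup (Perm α)]

theorem exists_small {G : Type*} [Group G] [TopologicalSpace G] [IsTopologicalGroup G] (s : ℕ)
    (U : Set G) (hU : U ∈ 𝓝 (1 : G)) :
    ∃ N ∈ 𝓝 (1 : G), (∀ x ∈ N, x⁻¹ ∈ N) ∧ ∀ l : List G, l.length ≤ s → (∀ x ∈ l, x ∈ N) → l.prod ∈ U := by
  induction s generalizing U with
  | zero =>
    refine ⟨univ, univ_mem, fun _ _ => mem_univ _, ?_⟩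
    intro l hl _
    have : l = [] := List.length_eq_zero_iff.1 (by omega)
    subst this
    exact mem_of_mem_nhds hU
  | succ s ih =>
    obtain ⟨V, hV, hVU⟩ := exists_nhds_one_split hU
    obtain ⟨N, hN, hNi, hNl⟩ := ih V hV
    refine ⟨N ∩ (V ∩ V⁻¹), inter_mem hN (inter_mem hV (inv_mem_nhds_one G hV)), ?_, ?_⟩
    · rintro x ⟨h1, h2, h3⟩
      exact ⟨hNi x h1, h3, by simpa using h2⟩
    · intro l hl hx
      match l, hl, hx with
      | [], _, _ => exact mem_of_mem_nhds hU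
      | a :: l, hl, hx =>
        rw [List.prod_cons]
        refine hVU a (hx a (by simp)).2.1 _ (hNl l ?_ ?_)
        · simpa using hl
        · intro x hx'
          exact (hx x (by simp [hx'])).1

theorem conj_nhds {G : Type*} [Group G] [TopologicalSpace G] [IsTopologicalGroup G] (f : G) (V : Set G)
    (hV : V ∈ 𝓝 (1 : G)) : {g | f * g * f⁻¹ ∈ V} ∈ 𝓝 (1 : G) := by
  have : Continuous fun g : G => f * g * f⁻¹ := by fun_prop
  have h := this.tendsto 1
  simp only [mul_one, mul_inv_cancel] at h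
  exact h hV

/-- Gaughan -/
theorem stab_mem_nhds [Infinite α] [T2Space (Perm α)] (a : α) :
    {g : Perm α | g a = a} ∈ 𝓝 (1 : Perm α) := by
  classical
  obtain ⟨b1, hb1⟩ := Infinite.exists_notMem_finset ({a} : Finset α)
  obtain ⟨b2, hb2⟩ := Infinite.exists_notMem_finset ({a, b1} : Finset α)
  obtain ⟨c1, hc1⟩ := Infinite.exists_notMem_finset ({a, b1, b2} : Finset α)
  obtain ⟨c2, hc2⟩ := Infinite.exists_notMem_finset ({a, b1, b2, c1} : Finset α)
  obtain ⟨c3, hc3⟩ := Infinite.exists_notMem_finset ({a, b1, b2, c1, c2} : Finset α)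
  simp only [Finset.mem_insert, Finset.mem_singleton, not_or] at hb1 hb2 hc1 hc2 hc3
  let O : α → α → Set (Perm α) := fun b c =>
    {g | g * swap a b * g⁻¹ * swap a c ≠ swap a c * (g * swap a b * g⁻¹)}
  have hO : ∀ b c, b ≠ a → c ≠ a → b ≠ c → O b c ∈ 𝓝 (1 : Perm α) := by
    intro b c hb hc hbc
    have ho : IsOpen (O b c) := isOpen_ne_fun (by fun_prop) (by fun_prop)
    refine ho.mem_nhds ?_
    simp only [O]
    intro h
    have h2 := Equiv.ext_iff.1 h a
    simp only [one_mul, inv_one, mul_one, Perm.mul_apply, swap_apply_left] at h2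
    rw [swap_apply_of_ne_of_ne hc (Ne.symm hbc), swap_apply_of_ne_of_ne hb hbc] at h2
    exact hbc h2.symm
  have key : ∀ b c, ∀ g ∈ O b c, g a ≠ a → g a ≠ c → g b = a ∨ g b = c := by
    intro b c g hg h1 h2
    by_contra hcon
    rw [not_or] at hcon
    apply hg
    rw [← swap_apply_apply]
    symm
    apply commute_of_disj (X := {g a, g b})
    · intro x hx
      simp only [mem_compl_iff, mem_insert_iff, mem_singleton_iff, not_not] at hx
      rcases hx with rfl | rfl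
      · exact swap_apply_of_ne_of_ne h1 h2
      · exact swap_apply_of_ne_of_ne hcon.1 hcon.2
    · intro x hx
      simp only [mem_insert_iff, mem_singleton_iff, not_or] at hx
      exact swap_apply_of_ne_of_ne hx.1 hx.2
  obtain ⟨hb2a, hb21⟩ := hb2
  obtain ⟨hc1a, hc11, hc12⟩ := hc1
  obtain ⟨hc2a, hc21, hc22, hc2c1⟩ := hc2
  obtain ⟨hc3a, hc31, hc32, hc3c1, hc3c2⟩ := hc3
  have m := inter_mem (inter_mem (inter_mem (hO b1 c1 hb1 hc1a (Ne.symm hc11))
    (hO b1 c2 hb1 hc2a (Ne.symm hc21))) (hO b1 c3 hb1 hc3a (Ne.symm hc31)))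
    (inter_mem (inter_mem (hO b2 c1 hb2a hc1a (Ne.symm hc12))
    (hO b2 c2 hb2a hc2a (Ne.symm hc22))) (hO b2 c3 hb2a hc3a (Ne.symm hc32)))
  refine mem_of_superset m ?_
  rintro g ⟨⟨⟨h11, h12⟩, h13⟩, ⟨⟨h21, h22⟩, h23⟩⟩
  by_contra hga
  have hga : g a ≠ a := hga
  have two : ∀ b c c', c ≠ c' → g ∈ O b c → g ∈ O b c' → g a ≠ c → g a ≠ c' → g b = a := by
    intro b c c' hcc h h' h1 h2
    rcases key b c g h hga h1 with e | e
    · exact e
    · rcases key b c' g h' hga h2 with e' | e'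
      · exact e'
      · exact absurd (e.symm.trans e') hcc
  have k : ∀ b, g ∈ O b c1 → g ∈ O b c2 → g ∈ O b c3 → g b = a := by
    intro b h1 h2 h3
    by_cases q1 : g a = c1
    · exact two b c2 c3 (Ne.symm hc3c2) h2 h3 (fun h => hc2c1 (h.symm.trans q1))
        (fun h => hc3c1 (h.symm.trans q1))
    · by_cases q2 : g a = c2
      · exact two b c1 c3 (Ne.symm hc3c1) h1 h3 q1 (fun h => hc3c2 (h.symm.trans q2))
      · exact two b c1 c2 (Ne.symm hc2c1) h1 h2 q1 q2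
  have k1 : g b1 = a := k b1 h11 h12 h13
  have k2 : g b2 = a := k b2 h21 h22 h23
  exact hb21 (g.injective (k2.trans k1.symm))

theorem finstab_mem_nhds [Infinite α] [T2Space (Perm α)] (F : Set α) (hF : F.Finite) :
    {g : Perm α | ∀ x ∈ F, g x = x} ∈ 𝓝 (1 : Perm α) := by
  have : {g : Perm α | ∀ x ∈ F, g x = x} = ⋂ x ∈ F, {g : Perm α | g x = x} := by
    ext g; simp
  rw [this]
  exact (Filter.biInter_mem hF).2 fun x _ => stab_mem_nhds x

theorem full [FirstCountableTopology (Perm α)] [Countable α] (W : Set (Perm α))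
    (hW : W ∈ 𝓝 (1 : Perm α)) (Θ : Set α) (hΘ : Θ.Infinite) :
    ∃ Ω ⊆ Θ, Ω.Infinite ∧ ∃ U ∈ 𝓝 (1 : Perm α), ∀ u ∈ U, u ∈ Sy Ω → ∀ π ∈ Sy Ω, π * u * π⁻¹ ∈ W := by
  obtain ⟨U, hU⟩ := (𝓝 (1 : Perm α)).exists_antitone_basis
  obtain ⟨c, hc1, hc2⟩ := exists_colour Θ hΘ
  by_contra hcon
  have h1 : ∀ i : ℕ, ∃ π ∈ Sy {x | c x = some i}, ∃ u ∈ U i, u ∈ Sy {x | c x = some i} ∧ π * u * π⁻¹ ∉ W := by
    intro i
    by_contra hi
    apply hcon
    refine ⟨{x | c x = some i}, fun x hx => hc1 x i hx, hc2 i, U i, hU.1.mem_of_mem trivial, ?_⟩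
    intro u hu hu' π hπ
    by_contra h
    exact hi ⟨π, hπ, u, hu, hu', h⟩
  choose π hπ u hu hu' hn using h1
  obtain ⟨h, hh⟩ := exists_glue c (fun o => Option.elim o 1 π) (by
    intro i
    cases i with
    | none => exact one_mem _
    | some i => exact hπ i)
  obtain ⟨i, _, hi⟩ := hU.1.mem_iff.1 (conj_nhds h W hW)
  have h2 := hi (hu i)
  apply hn i
  rw [← conj_eq (hu' i) (h := h) (π := π i)]
  · exact h2
  · intro x hx
    rw [hh x]
    have : c x = some i := hx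
    rw [this]
    rfl

theorem transfer [Countable α] [Infinite α] (p : Perm α → Prop)
    (hp : ∀ f g : Perm α, p g → p (f * g * f⁻¹)) (C : Set α) (hC : Cᶜ.Infinite)
    (h : ∀ V ∈ 𝓝 (1 : Perm α), ∃ g ∈ V, g ∈ Sy C ∧ p g) :
    ∀ V ∈ 𝓝 (1 : Perm α), ∀ Θ : Set α, Θ.Infinite → ∃ g ∈ V, g ∈ Sy Θ ∧ p g := by
  intro V hV Θ hΘ
  obtain ⟨f, hf⟩ := exists_perm_into C Θ hC hΘ
  obtain ⟨g, hg, hg1, hg2⟩ := h _ (conj_nhds f V hV)
  exact ⟨f * g * f⁻¹, hg, conj_mem_Sy hf hg1, hp f g hg2⟩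

end Topology

section CaseB

variable [TopologicalSpace (Perm α)] [IsTopologicalGroup (Perm α)]

/-- the shift on `ℕ × ℤ` -/
def shiftB : Perm (ℕ × ℤ) := Equiv.prodCongr (Equiv.refl ℕ) (Equiv.addRight (1 : ℤ))

theorem caseB_local [Countable α] [Infinite α] [T2Space (Perm α)] [FirstCountableTopology (Perm α)]
    (hB : ∀ V ∈ 𝓝 (1 : Perm α), ∃ g ∈ V, {x | g x ≠ x}.Infinite) :
    ∃ C : Set α, Cᶜ.Infinite ∧ ∀ V ∈ 𝓝 (1 : Perm α), ∃ g ∈ V, g ∈ Sy C ∧ {x | g x ≠ x}.Infinite := by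
  obtain ⟨U, hU⟩ := (𝓝 (1 : Perm α)).exists_antitone_basis
  have h1 : ∀ i : ℕ, ∃ g ∈ U i, {x | g x ≠ x}.Infinite := fun i => hB _ (hU.1.mem_of_mem trivial)
  choose g hg hgi using h1
  have hlim : Tendsto g atTop (𝓝 1) := hU.tendsto hg
  let Γ : α → Set α := fun x => {y | y = x ∨ ∃ k, y = g k x ∨ y = (g k)⁻¹ x}
  have hΓ : ∀ x, (Γ x).Finite := by
    intro x
    obtain ⟨N, hN⟩ := eventually_atTop.1 (hlim (stab_mem_nhds x))
    have hN : ∀ n ≥ N, g n x = x := hN
    have : Γ x ⊆ {x} ∪ ((fun k => g k x) '' (Iio N) ∪ (fun k => (g k)⁻¹ x) '' (Iio N)) := by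
      rintro y (rfl | ⟨k, hk⟩)
      · exact Or.inl rfl
      · by_cases hkN : k < N
        · rcases hk with rfl | rfl
          · exact Or.inr (Or.inl ⟨k, hkN, rfl⟩)
          · exact Or.inr (Or.inr ⟨k, hkN, rfl⟩)
        · have e1 := hN k (not_lt.1 hkN)
          rcases hk with rfl | rfl
          · exact Or.inl e1
          · left
            rw [mem_singleton_iff, Perm.inv_eq_iff_eq]; exact e1.symm
    exact ((finite_singleton x).union (((finite_Iio N).image _).union ((finite_Iio N).image _))).subset this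
  obtain ⟨x, hx1, hx2⟩ := exists_seq (fun n => {x | g (Nat.unpair n).1 x ≠ x}) (fun n => hgi _) Γ hΓ
  have hne : ∀ m n, m ≠ n → x m ≠ x n := by
    intro m n hmn h
    rcases lt_or_gt_of_ne hmn with h' | h'
    · exact hx2 m n h' (Or.inl h.symm)
    · exact hx2 n m h' (Or.inl h)
  have hinj : Function.Injective x := fun m n h => by
    by_contra hmn; exact hne m n hmn h
  have hgx : ∀ k m n, m ≠ n → g k (x m) ≠ x n := by
    intro k m n hmn h
    rcases lt_or_gt_of_ne hmn with h' | h'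
    · exact hx2 m n h' (Or.inr ⟨k, Or.inl h.symm⟩)
    · exact hx2 n m h' (Or.inr ⟨k, Or.inr (by rw [← h, ias])⟩)
  let e : ℤ ≃ ℕ := Equiv.intEquivNat
  let b : ℕ × ℤ ↪ α := ⟨fun p => x (Nat.pair p.1 (2 * e p.2)), by
    intro p q hpq
    have h := hinj hpq
    rw [Nat.pair_eq_pair] at h
    have h2 : e p.2 = e q.2 := by omega
    exact Prod.ext h.1 (e.injective h2)⟩
  have hb : ∀ k z, b (k, z) = x (Nat.pair k (2 * e z)) := fun k z => rfl
  set h : Perm α := shiftB.viaEmbedding b with hh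
  have hhb : ∀ k z, h (b (k, z)) = b (k, z + 1) := by
    intro k z
    rw [hh, Perm.viaEmbedding_apply]
    rfl
  -- points outside the range of b
  have hout : ∀ y, y ∉ range b → h y = y := fun y hy => Perm.viaEmbedding_apply_of_notMem _ _ _ hy
  have hout' : ∀ y, y ∉ range b → h⁻¹ y = y := fun y hy => by
    rw [Perm.inv_eq_iff_eq]; exact (hout y hy).symm
  have hgb : ∀ k z, g k (b (k, z)) ∉ range b := by
    rintro k z ⟨⟨k', z'⟩, hkz⟩
    rw [hb, hb] at hkz
    by_cases hh : Nat.pair k (2 * e z) = Nat.pair k' (2 * e z')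
    · rw [hh] at hkz
      have := hx1 (Nat.pair k' (2 * e z'))
      rw [← hh] at this
      simp only [Nat.unpair_pair] at this
      rw [hh] at this
      exact this hkz.symm
    · exact hgx k _ _ hh hkz.symm
  let s : ℕ → Perm α := fun k => g k * (h * (g k)⁻¹ * h⁻¹)
  have hs : Tendsto s atTop (𝓝 1) := by
    have h1 : Tendsto (fun k => g k * (h * (g k)⁻¹ * h⁻¹)) atTop (𝓝 (1 * (h * 1⁻¹ * h⁻¹))) :=
      hlim.mul ((tendsto_const_nhds.mul hlim.inv).mul tendsto_const_nhds)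
    simpa using h1
  have hsC : ∀ k, s k ∈ Sy (range fun j => x (Nat.pair 0 (2 * j + 1)))ᶜ := by
    intro k y hy
    rw [mem_compl_iff, not_not] at hy
    obtain ⟨j, rfl⟩ := hy
    have n1 : x (Nat.pair 0 (2 * j + 1)) ∉ range b := by
      rintro ⟨⟨k', z'⟩, h'⟩
      rw [hb] at h'
      have := hinj h'
      rw [Nat.pair_eq_pair] at this
      omega
    have n2 : (g k)⁻¹ (x (Nat.pair 0 (2 * j + 1))) ∉ range b := by
      rintro ⟨⟨k', z'⟩, h'⟩
      rw [hb] at h'
      have h3 : g k (x (Nat.pair k' (2 * e z'))) = x (Nat.pair 0 (2 * j + 1)) := by rw [h', ais]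
      refine hgx k _ _ ?_ h3
      intro h4
      rw [Nat.pair_eq_pair] at h4
      omega
    simp only [s, Perm.mul_apply]
    rw [hout' _ n1, hout _ n2, ais]
  have hsI : ∀ k, {y | s k y ≠ y}.Infinite := by
    intro k
    have hr : (range fun z : ℤ => g k (b (k, z))).Infinite := by
      refine infinite_range_of_injective ?_
      intro z z' hzz
      have := b.injective ((g k).injective hzz)
      simpa using this
    refine hr.mono ?_
    rintro _ ⟨z, rfl⟩
    rw [mem_ofPred_eq]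
    simp only [s, Perm.mul_apply]
    rw [hout' _ (hgb k z), ias, hhb]
    intro h4
    have := b.injective ((g k).injective h4)
    simp at this
  refine ⟨(range fun j => x (Nat.pair 0 (2 * j + 1)))ᶜ, ?_, ?_⟩
  · rw [compl_compl]
    refine infinite_range_of_injective ?_
    intro i j hij
    have := hinj hij
    rw [Nat.pair_eq_pair] at this
    omega
  · intro V hV
    obtain ⟨k, hk⟩ := (hs.eventually_mem hV).exists
    exact ⟨s k, hk, hsC k, hsI k⟩

/-- `(j,n) ↦ (j, σ n)` for `j ≥ 0`, identity otherwise -/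
def dB (σ : Perm ℕ) : Perm (ℤ × ℕ) where
  toFun p := (p.1, if 0 ≤ p.1 then σ p.2 else p.2)
  invFun p := (p.1, if 0 ≤ p.1 then σ⁻¹ p.2 else p.2)
  left_inv := by
    rintro ⟨j, n⟩
    by_cases h : 0 ≤ j <;> simp [h]
  right_inv := by
    rintro ⟨j, n⟩
    by_cases h : 0 ≤ j <;> simp [h]

def sB : Perm (ℤ × ℕ) := Equiv.prodCongr (Equiv.addRight (1 : ℤ)) (Equiv.refl ℕ)

theorem dB_sB (σ : Perm ℕ) (j : ℤ) (n : ℕ) :
    (dB σ * sB * (dB σ)⁻¹ * sB⁻¹) (j, n) = (j, if j = 0 then σ n else n) := by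
  have h1 : sB⁻¹ (j, n) = (j - 1, n) := by
    rw [Perm.inv_eq_iff_eq]; simp [sB]
  have h2 : (dB σ)⁻¹ (j - 1, n) = (j - 1, if 0 ≤ j - 1 then σ⁻¹ n else n) := rfl
  rw [Perm.mul_apply, Perm.mul_apply, Perm.mul_apply, h1, h2]
  have h3 : ∀ m : ℕ, sB (j - 1, m) = (j, m) := by intro m; simp [sB]
  rw [h3]
  show (j, if 0 ≤ j then σ _ else _) = _
  rcases lt_trichotomy j 0 with h | h | h
  · rw [if_neg (by omega), if_neg (by omega), if_neg (by omega)]
  · rw [if_pos (by omega), if_neg (by omega), if_pos h]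
  · rw [if_pos (by omega), if_pos (by omega), if_neg (by omega), ais]

theorem caseB_big [Countable α] [Infinite α] [FirstCountableTopology (Perm α)]
    (hloc : ∀ V ∈ 𝓝 (1 : Perm α), ∀ Θ : Set α, Θ.Infinite → ∃ g ∈ V, g ∈ Sy Θ ∧ {x | g x ≠ x}.Infinite) :
    ∀ V ∈ 𝓝 (1 : Perm α), ∀ Θ : Set α, Θ.Infinite → ∃ X ⊆ Θ, X.Infinite ∧ ∀ g ∈ Sy X, g ∈ V := by
  intro V hV Θ hΘ
  obtain ⟨W, hW, hWi, hWl⟩ := exists_small 8 V hV
  obtain ⟨Ω, hΩ, hΩi, U, hU, hfull⟩ := full W hW Θ hΘ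
  obtain ⟨u, hu, hu1, hu2⟩ := hloc U hU Ω hΩi
  have huW : ∀ π ∈ Sy Ω, π * u * π⁻¹ ∈ W := fun π hπ => hfull u hu hu1 π hπ
  obtain ⟨x, hx1, hx2⟩ := exists_seq (fun _ => {x | u x ≠ x}) (fun _ => hu2)
    (fun y => {y, u y, u⁻¹ y}) (fun y => by simp)
  have hxΩ : ∀ n, x n ∈ Ω := by
    intro n; by_contra h; exact hx1 n (hu1 _ h)
  have hinj : Function.Injective x := by
    intro m n h
    by_contra hmn
    rcases lt_or_gt_of_ne hmn with h' | h'
    · exact hx2 m n h' (Or.inl h.symm)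
    · exact hx2 n m h' (Or.inl h)
  have hux : ∀ m n, u (x m) ≠ x n := by
    intro m n h
    rcases lt_trichotomy m n with h' | h' | h'
    · exact hx2 m n h' (Or.inr (Or.inl h.symm))
    · subst h'; exact hx1 m h
    · refine hx2 n m h' (Or.inr (Or.inr ?_))
      rw [mem_singleton_iff, ← h, ias]
  let ε : ℤ × ℕ → ℕ := Encodable.encode
  have hε : Function.Injective ε := Encodable.encode_injective
  let J : Fin 3 × (ℤ × ℕ) → α := fun p =>
    if p.1 = 0 then x (2 * ε p.2) else if p.1 = 1 then u (x (2 * ε p.2)) else x (2 * ε p.2 + 1)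
  have J0 : ∀ z, J (0, z) = x (2 * ε z) := fun z => rfl
  have J1 : ∀ z, J (1, z) = u (x (2 * ε z)) := fun z => rfl
  have J2 : ∀ z, J (2, z) = x (2 * ε z + 1) := fun z => rfl
  have hJ : Function.Injective J := by
    rintro ⟨i, z⟩ ⟨i', z'⟩ h
    have hz : ∀ a b : ℤ × ℕ, ε a = ε b → a = b := fun a b h => hε h
    fin_cases i <;> fin_cases i'
    · have : 2 * ε z = 2 * ε z' := hinj h
      rw [hz z z' (by omega)]
    · exact absurd h.symm (hux _ _)
    · have : 2 * ε z = 2 * ε z' + 1 := hinj h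
      omega
    · exact absurd h (hux _ _)
    · have : 2 * ε z = 2 * ε z' := hinj (u.injective h)
      rw [hz z z' (by omega)]
    · exact absurd h (hux _ _)
    · have : 2 * ε z + 1 = 2 * ε z' := hinj h
      omega
    · exact absurd h.symm (hux _ _)
    · have : 2 * ε z + 1 = 2 * ε z' + 1 := hinj h
      rw [hz z z' (by omega)]
  have hJΩ : ∀ p, J p ∈ Ω := by
    rintro ⟨i, z⟩
    fin_cases i
    · exact hxΩ _
    · exact Sy_maps hu1 (hxΩ _)
    · exact hxΩ _
  let b : Fin 3 → (ℤ × ℕ ↪ α) := fun i => ⟨fun z => J (i, z), fun z z' h => (Prod.ext_iff.1 (hJ h)).2⟩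
  have hbΩ : ∀ i z, b i z ∈ Ω := fun i z => hJΩ _
  let ρ : Perm α := Perm.viaEmbedding (Equiv.prodCongr (swap (1 : Fin 3) 2) (Equiv.refl (ℤ × ℕ)) :
    Perm (Fin 3 × (ℤ × ℕ))) ⟨J, hJ⟩
  have hρ : ∀ i z, ρ (J (i, z)) = J (swap (1 : Fin 3) 2 i, z) := by
    intro i z
    exact Perm.viaEmbedding_apply _ ⟨J, hJ⟩ (i, z)
  have hρΩ : ρ ∈ Sy Ω := via_mem_Sy _ _ hJΩ
  let φ : Fin 3 → Perm (ℤ × ℕ) → Perm α := fun i π => π.viaEmbedding (b i)
  have hφmul : ∀ i π π', φ i (π * π') = φ i π * φ i π' := fun i π π' =>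
    (Perm.viaEmbeddingHom (b i)).map_mul π π'
  have hφinv : ∀ i π, φ i π⁻¹ = (φ i π)⁻¹ := fun i π => (Perm.viaEmbeddingHom (b i)).map_inv π
  have hφΩ : ∀ i π, φ i π ∈ Sy Ω := fun i π => via_mem_Sy _ _ (hbΩ i)
  have hφ1 : ∀ π, u * φ 0 π * u⁻¹ = φ 1 π := fun π => conj_via u (b 0) (b 1) (fun z => rfl) π
  have hφ2 : ∀ π, ρ * φ 1 π * ρ⁻¹ = φ 2 π := fun π => conj_via ρ (b 1) (b 2) (fun z => by
    show ρ (J (1, z)) = J (2, z)
    rw [hρ]; simp) π
  have hφ0 : ∀ π, ρ * φ 0 π * ρ⁻¹ = φ 0 π := fun π => conj_via ρ (b 0) (b 0) (fun z => by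
    show ρ (J (0, z)) = J (0, z)
    rw [hρ, swap_apply_of_ne_of_ne (by decide) (by decide)]) π
  have hcomm : ∀ i j, i ≠ j → ∀ π π', Commute (φ i π) (φ j π') := by
    intro i j hij π π'
    refine commute_of_disj (X := range (b j)) ?_ (via_mem_Sy _ _ fun z => mem_range_self z)
    refine via_mem_Sy _ _ ?_
    rintro z ⟨w, hw⟩
    exact hij (Prod.ext_iff.1 (hJ hw)).1.symm
  have key : ∀ π π' : Perm (ℤ × ℕ), φ 0 (π⁻¹ * π'⁻¹ * π * π') ∈ V := by
    intro π π'
    have c10 := hcomm 1 0 (by decide) π π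
    have c10' := hcomm 1 0 (by decide) π π'
    have c12 := hcomm 1 2 (by decide) π π'
    have c20 := hcomm 2 0 (by decide) π' π
    have c20' := hcomm 2 0 (by decide) π' π'
    have a1 := hφ1 π
    have a2 := hφ2 π'
    rw [← hφ1 π'] at a2
    have a0 := hφ0 π'
    set P0 := φ 0 π
    set P1 := φ 1 π
    set Q0 := φ 0 π'
    set Q2 := φ 2 π'
    have e1 : φ 0 (π⁻¹ * π'⁻¹ * π * π') = P0⁻¹ * Q0⁻¹ * P0 * Q0 := by
      rw [hφmul, hφmul, hφmul, hφinv, hφinv]
    have ex : u * (P0 * u * P0⁻¹)⁻¹ = P1 * P0⁻¹ := by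
      rw [← a1]; group
    have ey : (ρ * u * ρ⁻¹) * ((ρ * Q0) * u * (ρ * Q0)⁻¹)⁻¹ = Q2 * Q0⁻¹ := by
      calc (ρ * u * ρ⁻¹) * ((ρ * Q0) * u * (ρ * Q0)⁻¹)⁻¹
          = (ρ * (u * Q0 * u⁻¹) * ρ⁻¹) * (ρ * Q0 * ρ⁻¹)⁻¹ := by group
        _ = Q2 * Q0⁻¹ := by rw [a2, a0]
    have e2 : (P1 * P0⁻¹) * (Q2 * Q0⁻¹) * (P1 * P0⁻¹)⁻¹ * (Q2 * Q0⁻¹)⁻¹ = P0⁻¹ * Q0⁻¹ * P0 * Q0 := by
      have s1 : Commute P1 (P0⁻¹ * (Q2 * Q0⁻¹) * P0) :=
        (c10.inv_right.mul_right (c12.mul_right c10'.inv_right)).mul_right c10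
      have s2 : Commute Q2 (P0⁻¹ * Q0⁻¹ * P0 * Q0) :=
        ((c20.inv_right.mul_right c20'.inv_right).mul_right c20).mul_right c20'
      calc (P1 * P0⁻¹) * (Q2 * Q0⁻¹) * (P1 * P0⁻¹)⁻¹ * (Q2 * Q0⁻¹)⁻¹
          = (P1 * (P0⁻¹ * (Q2 * Q0⁻¹) * P0)) * P1⁻¹ * (Q2 * Q0⁻¹)⁻¹ := by group
        _ = ((P0⁻¹ * (Q2 * Q0⁻¹) * P0) * P1) * P1⁻¹ * (Q2 * Q0⁻¹)⁻¹ := by rw [s1.eq]
        _ = (P0⁻¹ * Q2) * (Q0⁻¹ * P0 * Q0 * Q2⁻¹) := by group
        _ = (Q2 * P0⁻¹) * (Q0⁻¹ * P0 * Q0 * Q2⁻¹) := by rw [c20.inv_right.eq]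
        _ = (Q2 * (P0⁻¹ * Q0⁻¹ * P0 * Q0)) * Q2⁻¹ := by group
        _ = ((P0⁻¹ * Q0⁻¹ * P0 * Q0) * Q2) * Q2⁻¹ := by rw [s2.eq]
        _ = P0⁻¹ * Q0⁻¹ * P0 * Q0 := by group
    have w1 : u ∈ W := by simpa using huW 1 (one_mem _)
    have w2 : P0 * u * P0⁻¹ ∈ W := huW _ (hφΩ _ _)
    have w3 : ρ * u * ρ⁻¹ ∈ W := huW _ hρΩ
    have w4 : (ρ * Q0) * u * (ρ * Q0)⁻¹ ∈ W := huW _ (mul_mem hρΩ (hφΩ _ _))
    rw [e1, ← e2, ← ex, ← ey]
    have hl := hWl [u, (P0 * u * P0⁻¹)⁻¹, ρ * u * ρ⁻¹, ((ρ * Q0) * u * (ρ * Q0)⁻¹)⁻¹,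
      P0 * u * P0⁻¹, u⁻¹, (ρ * Q0) * u * (ρ * Q0)⁻¹, (ρ * u * ρ⁻¹)⁻¹] (by simp) (by
        intro y hy
        simp only [List.mem_cons, List.not_mem_nil, or_false] at hy
        rcases hy with rfl | rfl | rfl | rfl | rfl | rfl | rfl | rfl
        · exact w1
        · exact hWi _ w2
        · exact w3
        · exact hWi _ w4
        · exact w2
        · exact hWi _ w1
        · exact w4
        · exact hWi _ w3)
    convert hl using 1
    simp only [List.prod_cons, List.prod_nil]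
    group
  refine ⟨range fun n : ℕ => b 0 (0, n), ?_, ?_, ?_⟩
  · rintro _ ⟨n, rfl⟩
    exact hΩ (hbΩ _ _)
  · refine infinite_range_of_injective ?_
    intro m n h
    have := (b 0).injective h
    simpa using this
  · intro g hg
    let b' : ℕ ↪ α := ⟨fun n => b 0 (0, n), fun m n h => by
      have := (b 0).injective h
      simpa using this⟩
    obtain ⟨σ, hσ⟩ := exists_via b' g hg
    have hk := key (dB σ)⁻¹ sB⁻¹
    rw [inv_inv, inv_inv] at hk
    have : g = φ 0 (dB σ * sB * (dB σ)⁻¹ * sB⁻¹) := by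
      ext y
      by_cases hy : y ∈ range (b 0)
      · obtain ⟨⟨j, n⟩, rfl⟩ := hy
        show _ = Perm.viaEmbedding _ (b 0) (b 0 (j, n))
        rw [Perm.viaEmbedding_apply, dB_sB]
        by_cases hj : j = 0
        · subst hj
          rw [if_pos rfl]
          exact hσ n
        · rw [if_neg hj]
          apply hg
          rintro ⟨m, hm⟩
          have := (b 0).injective hm
          simp only [Prod.mk.injEq] at this
          exact hj this.1.symm
      · show _ = Perm.viaEmbedding _ (b 0) y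
        rw [Perm.viaEmbedding_apply_of_notMem _ _ _ hy]
        apply hg
        rintro ⟨m, rfl⟩
        exact hy ⟨_, rfl⟩
    rw [this]
    exact hk

end CaseB

/-- finitary permutations -/
def FSym (α : Type*) : Subgroup (Perm α) where
  carrier := {g | {x | g x ≠ x}.Finite}
  mul_mem' := by
    intro a b ha hb
    refine (Set.Finite.union ha hb).subset ?_
    intro x hx
    by_contra h
    simp only [mem_union, mem_ofPred_eq, not_or, not_not] at h
    exact hx (by rw [Perm.mul_apply, h.2, h.1])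
  one_mem' := by simp
  inv_mem' := by
    intro a ha
    refine Set.Finite.subset ha ?_
    intro x hx h
    exact hx (by rw [Perm.inv_eq_iff_eq]; exact h.symm)

/-- even finitary permutations -/
def AltFin (α : Type*) [DecidableEq α] : Subgroup (Perm α) :=
  Subgroup.closure {g | ∃ a b c d : α, a ≠ b ∧ c ≠ d ∧ g = swap a b * swap c d}

section CaseA

theorem swap_mem_Sy [DecidableEq α] {S : Set α} {a b : α} (ha : a ∈ S) (hb : b ∈ S) :
    swap a b ∈ Sy S := by
  intro x hx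
  exact swap_apply_of_ne_of_ne (fun h => hx (h ▸ ha)) (fun h => hx (h ▸ hb))

theorem three_mem_AltFin [DecidableEq α] {a b c : α} (h1 : a ≠ b) (h2 : b ≠ c) :
    swap a b * swap b c ∈ AltFin α :=
  Subgroup.subset_closure ⟨a, b, b, c, h1, h2, rfl⟩

instance AltFin_normal [DecidableEq α] : (AltFin α).Normal := by
  refine ⟨fun g hg f => ?_⟩
  induction hg using Subgroup.closure_induction with
  | mem g hg =>
    obtain ⟨a, b, c, d, hab, hcd, rfl⟩ := hg
    refine Subgroup.subset_closure ⟨f a, f b, f c, f d, fun h => hab (f.injective h),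
      fun h => hcd (f.injective h), ?_⟩
    rw [swap_apply_apply, swap_apply_apply]
    group
  | one => simp [one_mem]
  | mul x y _ _ hx hy =>
    have := mul_mem hx hy
    convert this using 1
    group
  | inv x _ hx =>
    have := inv_mem hx
    convert this using 1
    group

def IsT [DecidableEq α] (S : Set α) (t : Perm α) : Prop :=
  ∃ a ∈ S, ∃ b ∈ S, ∃ c ∈ S, a ≠ b ∧ b ≠ c ∧ a ≠ c ∧ t = swap a b * swap b c

theorem IsT.inv [DecidableEq α] {S : Set α} {t : Perm α} (h : IsT S t) : IsT S t⁻¹ := by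
  obtain ⟨a, ha, b, hb, c, hc, h1, h2, h3, rfl⟩ := h
  refine ⟨c, hc, b, hb, a, ha, h2.symm, h1.symm, h3.symm, ?_⟩
  rw [mul_inv_rev, swap_inv, swap_inv, swap_comm b c, swap_comm a b]

theorem IsT.mono [DecidableEq α] {S S' : Set α} (hS : S ⊆ S') {t : Perm α} (h : IsT S t) : IsT S' t := by
  obtain ⟨a, ha, b, hb, c, hc, h1, h2, h3, rfl⟩ := h
  exact ⟨a, hS ha, b, hS hb, c, hS hc, h1, h2, h3, rfl⟩

theorem IsT.mem_Sy [DecidableEq α] {S : Set α} {t : Perm α} (h : IsT S t) : t ∈ Sy S := by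
  obtain ⟨a, ha, b, hb, c, hc, h1, h2, h3, rfl⟩ := h
  exact mul_mem (swap_mem_Sy ha hb) (swap_mem_Sy hb hc)

theorem AltFin_list [DecidableEq α] {g : Perm α} (hg : g ∈ AltFin α) :
    ∃ S : Set α, S.Finite ∧ ∃ l : List (Perm α), (∀ t ∈ l, IsT S t) ∧ l.prod = g := by
  induction hg using Subgroup.closure_induction with
  | mem g hg =>
    obtain ⟨a, b, c, d, hab, hcd, rfl⟩ := hg
    refine ⟨{a, b, c, d}, by simp, ?_⟩
    have two : ∀ a' b' c' : α, a' ∈ ({a, b, c, d} : Set α) → b' ∈ ({a, b, c, d} : Set α) →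
        c' ∈ ({a, b, c, d} : Set α) → a' ≠ b' → b' ≠ c' →
        ∃ l : List (Perm α), (∀ t ∈ l, IsT {a, b, c, d} t) ∧ l.prod = swap a' b' * swap b' c' := by
      intro a' b' c' ha hb hc h1 h2
      by_cases h3 : a' = c'
      · subst h3
        refine ⟨[], by simp, ?_⟩
        rw [swap_comm b' a', swap_mul_self]; rfl
      · refine ⟨[swap a' b' * swap b' c'], ?_, by simp⟩
        intro t ht
        rw [List.mem_singleton] at ht
        exact ⟨a', ha, b', hb, c', hc, h1, h2, h3, ht⟩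
    by_cases hbc : b = c
    · subst hbc
      exact two a b d (by simp) (by simp) (by simp) hab hcd
    · obtain ⟨l1, hl1, hl1'⟩ := two a b c (by simp) (by simp) (by simp) hab hbc
      obtain ⟨l2, hl2, hl2'⟩ := two b c d (by simp) (by simp) (by simp) hbc hcd
      refine ⟨l1 ++ l2, ?_, ?_⟩
      · intro t ht
        rcases List.mem_append.1 ht with h | h
        · exact hl1 t h
        · exact hl2 t h
      · rw [List.prod_append, hl1', hl2']
        calc swap a b * swap b c * (swap b c * swap c d) = swap a b * (swap b c * swap b c) * swap c d := by group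
          _ = swap a b * swap c d := by rw [swap_mul_self, mul_one]
  | one => exact ⟨∅, finite_empty, [], by simp, rfl⟩
  | mul g h _ _ ihg ihh =>
    obtain ⟨S, hS, l, hl, rfl⟩ := ihg
    obtain ⟨S', hS', l', hl', rfl⟩ := ihh
    refine ⟨S ∪ S', hS.union hS', l ++ l', ?_, List.prod_append⟩
    intro t ht
    rcases List.mem_append.1 ht with h | h
    · exact (hl t h).mono subset_union_left
    · exact (hl' t h).mono subset_union_right
  | inv g _ ih =>
    obtain ⟨S, hS, l, hl, rfl⟩ := ih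
    refine ⟨S, hS, (l.map fun t => t⁻¹).reverse, ?_, ?_⟩
    · intro t ht
      rw [List.mem_reverse, List.mem_map] at ht
      obtain ⟨t', ht', rfl⟩ := ht
      exact (hl t' ht').inv
    · rw [List.prod_inv_reverse]

theorem AltFin_le_FSym [DecidableEq α] : AltFin α ≤ FSym α := by
  intro g hg
  obtain ⟨S, hS, l, hl, rfl⟩ := AltFin_list hg
  have : l.prod ∈ Sy S := Subgroup.list_prod_mem _ fun t ht => (hl t ht).mem_Sy
  refine hS.subset ?_
  intro x hx
  by_contra h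
  exact hx (this x h)

theorem exists_alt_push [DecidableEq α] (P Q : Set α) (hPQ : (P ∩ Q).Infinite) (S : Set α) (hS : S.Finite)
    (hSPQ : S ⊆ P ∪ Q) : ∃ b ∈ AltFin α, b ∈ Sy Q ∧ ∀ s ∈ S, b s ∈ P := by
  induction S, hS using Set.Finite.induction_on with
  | empty => exact ⟨1, one_mem _, one_mem _, by simp⟩
  | @insert s S hs hS ih =>
    obtain ⟨b, hb1, hb2, hb3⟩ := ih (fun x hx => hSPQ (Or.inr hx))
    by_cases hbs : b s ∈ P
    · refine ⟨b, hb1, hb2, ?_⟩
      rintro x (rfl | hx)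
      · exact hbs
      · exact hb3 x hx
    · have hbsQ : b s ∈ Q := by
        have hsPQ := hSPQ (mem_insert s S)
        by_cases hsQ : s ∈ Q
        · exact Sy_maps hb2 hsQ
        · exact absurd (by rw [hb2 s hsQ]; exact hsPQ.resolve_right hsQ) hbs
      have hfin : (b '' (insert s S)).Finite := (hS.insert s).image _
      obtain ⟨e, he1, he2⟩ := (hPQ.sdiff hfin).nonempty
      obtain ⟨e', he1', he2'⟩ := (hPQ.sdiff (hfin.insert e)).nonempty
      have hee : e ≠ e' := fun h => he2' (Or.inl h.symm)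
      have he2'' : e' ∉ b '' insert s S := fun h => he2' (Or.inr h)
      have hbse : b s ≠ e := fun h => he2 ⟨s, mem_insert s S, h⟩
      refine ⟨(swap (b s) e * swap e e') * b, mul_mem (three_mem_AltFin hbse hee) hb1,
        mul_mem (mul_mem (swap_mem_Sy hbsQ he1.2) (swap_mem_Sy he1.2 he1'.2)) hb2, ?_⟩
      rintro x (rfl | hx)
      · rw [Perm.mul_apply, Perm.mul_apply, swap_apply_of_ne_of_ne hbse
          (fun h => he2'' ⟨x, mem_insert x S, h⟩), swap_apply_left]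
        exact he1.1
      · have n1 : b x ≠ b s := by
          intro h
          have := b.injective h
          subst this
          exact hs hx
        have n2 : b x ≠ e := fun h => he2 ⟨x, Or.inr hx, h⟩
        have n3 : b x ≠ e' := fun h => he2'' ⟨x, Or.inr hx, h⟩
        rw [Perm.mul_apply, Perm.mul_apply, swap_apply_of_ne_of_ne n2 n3, swap_apply_of_ne_of_ne n1 n2]
        exact hb3 x hx

theorem factor_alt [DecidableEq α] (P Q : Set α) (hPQ : (P ∩ Q).Infinite) (g : Perm α)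
    (hgA : g ∈ AltFin α) (hg : g ∈ Sy (P ∪ Q)) :
    ∃ p ∈ AltFin α ⊓ Sy P, ∃ q ∈ AltFin α ⊓ Sy Q, ∃ p' ∈ AltFin α ⊓ Sy P, ∃ q' ∈ AltFin α ⊓ Sy Q,
      g = p * q * p' * q' := by
  have hfin : {x | g x ≠ x}.Finite := AltFin_le_FSym hgA
  have hsub : {x | g x ≠ x} ⊆ P ∪ Q := by
    intro x hx
    by_contra h
    exact hx (hg x h)
  obtain ⟨b, hb1, hb2, hb3⟩ := exists_alt_push P Q hPQ _ hfin hsub
  have hgS : g ∈ Sy {x | g x ≠ x} := by
    intro x hx
    by_contra h
    exact hx h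
  refine ⟨1, one_mem _, b⁻¹, inv_mem ⟨hb1, hb2⟩, b * g * b⁻¹,
    ⟨AltFin_normal.conj_mem g hgA b, conj_mem_Sy hb3 hgS⟩, b, ⟨hb1, hb2⟩, by group⟩

variable [TopologicalSpace (Perm α)] [IsTopologicalGroup (Perm α)]

theorem caseA_local [Countable α] [Infinite α] [T2Space (Perm α)] [FirstCountableTopology (Perm α)]
    (V0 : Set (Perm α)) (hV0 : V0 ∈ 𝓝 (1 : Perm α)) (hfin : ∀ g ∈ V0, {x | g x ≠ x}.Finite)
    (hA : ∀ V ∈ 𝓝 (1 : Perm α), ∃ g ∈ V, g ≠ 1) :
    ∃ C : Set α, Cᶜ.Infinite ∧ ∀ V ∈ 𝓝 (1 : Perm α), ∃ g ∈ V, g ∈ Sy C ∧ (g ≠ 1 ∧ {x | g x ≠ x}.Finite) := by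
  classical
  obtain ⟨U, hU⟩ := (𝓝 (1 : Perm α)).exists_antitone_basis
  obtain ⟨f, hf1, hf2⟩ := exists_seq_of_forall_finset_exists
    (fun p : ℕ × Perm α => p.2 ∈ U p.1 ∧ p.2 ≠ 1 ∧ {x | p.2 x ≠ x}.Finite)
    (fun p q => p.1 < q.1 ∧ ∀ x, p.2 x ≠ x → q.2 x = x) (by
      intro s hs
      have hF : (⋃ p ∈ s, {x | p.2 x ≠ x}).Finite := by
        refine Set.Finite.biUnion (Finset.finite_toSet s) ?_
        intro p hp
        exact (hs p hp).2.2
      let n := (s.sup fun p => p.1) + 1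
      have hVn : U n ∩ V0 ∩ {g : Perm α | ∀ x ∈ (⋃ p ∈ s, {x | p.2 x ≠ x}), g x = x} ∈ 𝓝 (1 : Perm α) :=
        inter_mem (inter_mem (hU.1.mem_of_mem trivial) hV0) (finstab_mem_nhds _ hF)
      obtain ⟨g, ⟨⟨hg1, hg2⟩, hg3⟩, hg4⟩ := hA _ hVn
      refine ⟨(n, g), ⟨hg1, hg4, hfin g hg2⟩, ?_⟩
      intro p hp
      refine ⟨?_, ?_⟩
      · have : p.1 ≤ s.sup fun p => p.1 := Finset.le_sup (f := fun p : ℕ × Perm α => p.1) hp
        show p.1 < n
        omega
      · intro x hx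
        apply hg3
        simp only [mem_iUnion]
        exact ⟨p, hp, hx⟩)
  have hmono : ∀ n, n ≤ (f n).1 := by
    intro n
    induction n with
    | zero => omega
    | succ n ih => have := (hf2 n (n + 1) (by omega)).1; omega
  have hdisj : ∀ m n, m ≠ n → ∀ x, (f m).2 x ≠ x → (f n).2 x = x := by
    intro m n hmn x hx
    rcases lt_or_gt_of_ne hmn with h | h
    · exact (hf2 m n h).2 x hx
    · by_contra hcon
      exact hx ((hf2 n m h).2 x hcon)
  refine ⟨⋃ n, {x | (f (2 * n)).2 x ≠ x}, ?_, ?_⟩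
  · have hne : ∀ n, ∃ x, (f (2 * n + 1)).2 x ≠ x := by
      intro n
      by_contra h
      simp only [not_exists, not_not] at h
      exact (hf1 (2 * n + 1)).2.1 (Equiv.ext h)
    choose a ha using hne
    have hi : (range a).Infinite := by
      refine infinite_range_of_injective ?_
      intro m n hmn
      by_contra hne
      have := hdisj (2 * m + 1) (2 * n + 1) (by omega) (a m) (ha m)
      rw [hmn] at this
      exact ha n this
    refine hi.mono ?_
    rintro _ ⟨n, rfl⟩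
    simp only [mem_compl_iff, mem_iUnion, not_exists, mem_ofPred_eq, not_not]
    intro m
    exact hdisj (2 * n + 1) (2 * m) (by omega) (a n) (ha n)
  · intro V hV
    obtain ⟨j, _, hj⟩ := hU.1.mem_iff.1 hV
    refine ⟨(f (2 * j)).2, ?_, ?_, (hf1 _).2⟩
    · apply hj
      refine hU.2 ?_ (hf1 (2 * j)).1
      have := hmono (2 * j)
      omega
    · intro x hx
      simp only [mem_iUnion, not_exists, mem_ofPred_eq, not_not] at hx
      exact hx j

theorem caseA_three [DecidableEq α] [Countable α] [Infinite α] [FirstCountableTopology (Perm α)]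
    (hloc : ∀ V ∈ 𝓝 (1 : Perm α), ∀ Θ : Set α, Θ.Infinite → ∃ g ∈ V, g ∈ Sy Θ ∧ (g ≠ 1 ∧ {x | g x ≠ x}.Finite)) :
    ∀ V ∈ 𝓝 (1 : Perm α), ∀ Θ : Set α, Θ.Infinite → ∃ X ⊆ Θ, X.Infinite ∧ ∀ t, IsT X t → t ∈ V := by
  intro V hV Θ hΘ
  obtain ⟨W, hW, hWi, hWl⟩ := exists_small 2 V hV
  obtain ⟨Ω, hΩ, hΩi, U, hU, hfull⟩ := full W hW Θ hΘ
  obtain ⟨u, hu, hu1, hu2, hu3⟩ := hloc U hU Ω hΩi
  have huW : ∀ π ∈ Sy Ω, π * u * π⁻¹ ∈ W := fun π hπ => hfull u hu hu1 π hπ
  obtain ⟨b, hb⟩ : ∃ b, u b ≠ b := by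
    by_contra h
    simp only [not_exists, not_not] at h
    exact hu2 (Equiv.ext h)
  have hbΩ : b ∈ Ω := by by_contra h; exact hb (hu1 b h)
  have hubΩ : u b ∈ Ω := Sy_maps hu1 hbΩ
  obtain ⟨c, hc1, hc2⟩ := (hΩi.sdiff (hu3.union (toFinite {b, u b}))).nonempty
  simp only [mem_union, mem_ofPred_eq, mem_insert_iff, mem_singleton_iff, not_or, not_not] at hc2
  obtain ⟨huc, hcb, hcub⟩ := hc2
  refine ⟨Ω, hΩ, hΩi, ?_⟩
  rintro t ⟨x, hx, y, hy, z, hz, hxy, hyz, hxz, rfl⟩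
  -- find ρ with ρ (u b) = x, ρ c = y, ρ b = z
  let f : α → α := fun w => if w = u b then x else if w = c then y else z
  have fub : f (u b) = x := if_pos rfl
  have fc : f c = y := by simp [f, hcub]
  have fb : f b = z := by
    show (if b = u b then x else if b = c then y else z) = z
    rw [if_neg (Ne.symm hb), if_neg (Ne.symm hcb)]
  have i1 : InjOn f {u b, c, b} := by
    rintro p (rfl | rfl | rfl) q (rfl | rfl | rfl) h
    · rfl
    · rw [fub, fc] at h; exact absurd h hxy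
    · rw [fub, fb] at h; exact absurd h hxz
    · rw [fub, fc] at h; exact absurd h.symm hxy
    · rfl
    · rw [fc, fb] at h; exact absurd h hyz
    · rw [fub, fb] at h; exact absurd h.symm hxz
    · rw [fc, fb] at h; exact absurd h.symm hyz
    · rfl
  have i2 : MapsTo f {u b, c, b} Ω := by
    rintro p (rfl | rfl | rfl)
    · rw [fub]; exact hx
    · rw [fc]; exact hy
    · rw [fb]; exact hz
  obtain ⟨ρ, hρ, hρf⟩ := exists_Sy_extend Ω {u b, c, b} (by
    rintro p (rfl | rfl | rfl)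
    · exact hubΩ
    · exact hc1
    · exact hbΩ) f i1 i2 (hΩi.sdiff (toFinite _)) (hΩi.sdiff ((toFinite _).image _))
  have r1 : ρ (u b) = x := by rw [hρf _ (by simp), fub]
  have r2 : ρ c = y := by rw [hρf _ (by simp), fc]
  have r3 : ρ b = z := by rw [hρf _ (by simp), fb]
  have e1 : swap x y * swap y z = (ρ * u * ρ⁻¹) * ((ρ * swap b c) * u * (ρ * swap b c)⁻¹)⁻¹ := by
    have h1 : swap x y * swap y z = ρ * (swap (u b) (u c) * (swap b c)⁻¹) * ρ⁻¹ := by
      rw [huc, swap_inv, ← r1, ← r2, ← r3, swap_apply_apply, swap_apply_apply, swap_comm c b]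
      group
    rw [h1, swap_apply_apply]
    group
  rw [e1]
  have hl := hWl [ρ * u * ρ⁻¹, ((ρ * swap b c) * u * (ρ * swap b c)⁻¹)⁻¹] (by simp) (by
    intro y hy
    simp only [List.mem_cons, List.not_mem_nil, or_false] at hy
    rcases hy with rfl | rfl
    · exact huW _ hρ
    · exact hWi _ (huW _ (mul_mem hρ (swap_mem_Sy hbΩ hc1))))
  simpa using hl

theorem caseA_big [DecidableEq α] [Countable α] [Infinite α] [FirstCountableTopology (Perm α)]
    (h3 : ∀ V ∈ 𝓝 (1 : Perm α), ∀ Θ : Set α, Θ.Infinite → ∃ X ⊆ Θ, X.Infinite ∧ ∀ t, IsT X t → t ∈ V) :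
    ∀ V ∈ 𝓝 (1 : Perm α), ∀ Θ : Set α, Θ.Infinite → ∃ X ⊆ Θ, X.Infinite ∧
      ∀ g ∈ AltFin α, g ∈ Sy X → g ∈ V := by
  intro V hV Θ hΘ
  obtain ⟨Ω, hΩ, hΩi, U, hU, hfull⟩ := full V hV Θ hΘ
  refine ⟨Ω, hΩ, hΩi, ?_⟩
  intro g hgA hgΩ
  obtain ⟨S, hS, l, hl, hlg⟩ := AltFin_list hgA
  have hgS : g ∈ Sy S := by
    rw [← hlg]
    exact Subgroup.list_prod_mem _ fun t ht => (hl t ht).mem_Sy
  obtain ⟨N, hN, _, hNl⟩ := exists_small l.length U hU
  obtain ⟨X, hXΩ, hXi, hX⟩ := h3 N hN Ω hΩi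
  obtain ⟨f, hf⟩ := exists_perm_into S X (by
    have : Set.Infinite (univ : Set α) := infinite_univ
    rw [compl_eq_univ_sdiff]
    exact this.sdiff hS) hXi
  have hfg : f * g * f⁻¹ ∈ U := by
    have e : f * g * f⁻¹ = (l.map (MulAut.conj f)).prod := by
      rw [List.prod_hom, hlg, MulAut.conj_apply]
    rw [e]
    apply hNl
    · simp
    · intro t ht
      rw [List.mem_map] at ht
      obtain ⟨t', ht', rfl⟩ := ht
      apply hX
      obtain ⟨a, ha, b, hb, c, hc, h1, h2, h3, rfl⟩ := hl t' ht'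
      refine ⟨f a, hf a ha, f b, hf b hb, f c, hf c hc, fun h => h1 (f.injective h),
        fun h => h2 (f.injective h), fun h => h3 (f.injective h), ?_⟩
      rw [MulAut.conj_apply, swap_apply_apply, swap_apply_apply]
      group
  have hfinsup : {x | g x ≠ x}.Finite := AltFin_le_FSym hgA
  have hsubS : {x | g x ≠ x} ⊆ S := by
    intro x hx; by_contra h; exact hx (hgS x h)
  have hsubΩ : {x | g x ≠ x} ⊆ Ω := by
    intro x hx; by_contra h; exact hx (hgΩ x h)
  obtain ⟨f', hf'Ω, hf'⟩ := exists_Sy_extend Ω {x | g x ≠ x} hsubΩ f f.injective.injOn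
    (fun x hx => hXΩ (hf x (hsubS hx))) (hΩi.sdiff hfinsup) (hΩi.sdiff (hfinsup.image _))
  have hgsup : g ∈ Sy {x | g x ≠ x} := by
    intro x hx
    by_contra h
    exact hx h
  have e2 : f' * g * f'⁻¹ = f * g * f⁻¹ := conj_eq hgsup hf'
  rw [← e2] at hfg
  have := hfull _ hfg (mul_mem (mul_mem hf'Ω hgΩ) (inv_mem hf'Ω)) f'⁻¹ (inv_mem hf'Ω)
  convert this using 1
  group

end CaseA

section Final

variable [TopologicalSpace (Perm α)] [IsTopologicalGroup (Perm α)]

theorem final [Countable α] [Infinite α] [FirstCountableTopology (Perm α)] (K : Subgroup (Perm α))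
    (hK : K.Normal)
    (H1 : ∀ V ∈ 𝓝 (1 : Perm α), ∀ Θ : Set α, Θ.Infinite → ∃ X ⊆ Θ, X.Infinite ∧
      ∀ g ∈ K, g ∈ Sy X → g ∈ V)
    (H2 : ∀ P Q : Set α, (P ∩ Q).Infinite → ∀ g ∈ K, g ∈ Sy (P ∪ Q) →
      ∃ p ∈ K ⊓ Sy P, ∃ q ∈ K ⊓ Sy Q, ∃ p' ∈ K ⊓ Sy P, ∃ q' ∈ K ⊓ Sy Q, g = p * q * p' * q') :
    ∀ V ∈ 𝓝 (1 : Perm α), ∃ F : Set α, F.Finite ∧ ∀ g ∈ K, (∀ x ∈ F, g x = x) → g ∈ V := by
  obtain ⟨U, hU⟩ := (𝓝 (1 : Perm α)).exists_antitone_basis
  have hUm : ∀ n, U n ∈ 𝓝 (1 : Perm α) := fun n => hU.1.mem_of_mem trivial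
  choose! c hc1 hc2 hc3 using fun n : ℕ => H1 (U n) (hUm n)
  -- decreasing sequence of infinite sets
  let X : ℕ → {Θ : Set α // Θ.Infinite} := fun n => Nat.rec ⟨univ, infinite_univ⟩
    (fun n Θ => ⟨c n Θ.1, hc2 n Θ.1 Θ.2⟩) n
  have hXs : ∀ n, (X (n + 1)).1 = c n (X n).1 := fun n => rfl
  have hXanti : ∀ n, (X (n + 1)).1 ⊆ (X n).1 := fun n => by rw [hXs]; exact hc1 n _ (X n).2
  have hXmono : ∀ m n, m ≤ n → (X n).1 ⊆ (X m).1 := by
    intro m n h
    induction n, h using Nat.le_induction with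
    | base => exact subset_rfl
    | succ n _ ih => exact (hXanti n).trans ih
  have hXU : ∀ n, ∀ g ∈ K, g ∈ Sy (X (n + 1)).1 → g ∈ U n := fun n g hg h =>
    hc3 n (X n).1 (X n).2 g hg h
  obtain ⟨y, hy1, hy2⟩ := exists_seq (fun n => (X (n + 1)).1) (fun n => (X (n + 1)).2) (fun y => {y})
    (fun y => finite_singleton y)
  have hinj : Function.Injective y := by
    intro m n h
    rcases lt_trichotomy m n with h1 | h1 | h1
    · exact absurd h.symm (hy2 m n h1)
    · exact h1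
    · exact absurd h (hy2 n m h1)
  let P : Set α := {x | ∃ n, n % 3 ≠ 2 ∧ y n = x}
  let Z : Set α := {x | ∃ n, n % 3 = 0 ∧ y n = x}
  let E : Set α := {x | ∃ n, n % 3 = 1 ∧ y n = x}
  have hinf : ∀ i, i < 3 → {x | ∃ n, n % 3 = i ∧ y n = x}.Infinite := by
    intro i hi
    have : (range fun n => y (3 * n + i)).Infinite := infinite_range_of_injective (by
      intro m n h; have := hinj h; omega)
    refine this.mono ?_
    rintro _ ⟨n, rfl⟩
    exact ⟨3 * n + i, by omega, rfl⟩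
  have hEP : E ⊆ P := by rintro x ⟨n, hn, rfl⟩; exact ⟨n, by omega, rfl⟩
  have hZP : Z ⊆ P := by rintro x ⟨n, hn, rfl⟩; exact ⟨n, by omega, rfl⟩
  have hZE : ∀ x ∈ E, x ∉ Z := by
    rintro x ⟨n, hn, rfl⟩ ⟨m, hm, h⟩
    have := hinj h; omega
  have hPE : (Pᶜᶜ).Infinite := by rw [compl_compl]; exact (hinf 1 (by omega)).mono hEP
  obtain ⟨k, hk⟩ := exists_perm_into Pᶜ Z hPE (hinf 0 (by omega))
  set f : Perm α := k⁻¹ with hf
  -- E ⊆ k P
  have hEk : ∀ x ∈ E, f x ∈ P := by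
    intro x hx
    by_contra h
    have := hk _ h
    rw [hf, ais] at this
    exact hZE x hx this
  intro V hV
  obtain ⟨W, hW, hWi, hWl⟩ := exists_small 4 V hV
  obtain ⟨m, _, hm⟩ := hU.1.mem_iff.1 (inter_mem hW (conj_nhds f W hW))
  let Pm : Set α := {x | ∃ n, m ≤ n ∧ n % 3 ≠ 2 ∧ y n = x}
  let Qm : Set α := f '' Pm
  have hPmX : Pm ⊆ (X (m + 1)).1 := by
    rintro x ⟨n, hn, _, rfl⟩
    exact hXmono (m + 1) (n + 1) (by omega) (hy1 n)
  have hPmW : ∀ g ∈ K ⊓ Sy Pm, g ∈ W ∧ f * g * f⁻¹ ∈ W := by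
    rintro g ⟨hgK, hg⟩
    exact hm (hXU m g hgK (Sy_mono hPmX hg))
  have hP : ∀ g ∈ K ⊓ Sy Pm, g ∈ W := fun g hg => (hPmW g hg).1
  have hQ : ∀ g ∈ K ⊓ Sy Qm, g ∈ W := by
    rintro g ⟨hgK, hg⟩
    have h1 : f⁻¹ * g * f ∈ K ⊓ Sy Pm := by
      refine ⟨?_, ?_⟩
      · have := hK.conj_mem g hgK f⁻¹
        simpa using this
      · have : f⁻¹ * g * (f⁻¹)⁻¹ ∈ Sy Pm := by
          refine conj_mem_Sy ?_ hg
          rintro _ ⟨x, hx, rfl⟩
          rw [ias]; exact hx
        simpa using this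
    have := (hPmW _ h1).2
    convert this using 1
    group
  have hdiff : (P \ Pm).Finite := by
    refine ((finite_Iio m).image y).subset ?_
    rintro x ⟨⟨n, hn, rfl⟩, h2⟩
    refine ⟨n, ?_, rfl⟩
    by_contra hmn
    exact h2 ⟨n, by simpa using hmn, hn, rfl⟩
  have hcof : (Pm ∪ Qm)ᶜ.Finite := by
    refine (hdiff.union (hdiff.image f)).subset ?_
    intro x hx
    simp only [mem_compl_iff, mem_union, not_or] at hx
    by_cases hxP : x ∈ P
    · exact Or.inl ⟨hxP, hx.1⟩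
    · right
      have h1 : k x ∈ P := hZP (hk x hxP)
      refine ⟨k x, ⟨h1, ?_⟩, by rw [hf, ias]⟩
      intro h2
      exact hx.2 ⟨k x, h2, by rw [hf, ias]⟩
  have hint : (Pm ∩ Qm).Infinite := by
    have h1 : (f '' E).Infinite := (hinf 1 (by omega)).image f.injective.injOn
    have h2 := h1.sdiff (hdiff.union (hdiff.image f))
    refine h2.mono ?_
    rintro _ ⟨⟨x, hx, rfl⟩, hx2⟩
    simp only [mem_union, not_or] at hx2
    constructor
    · by_contra h
      exact hx2.1 ⟨hEk x hx, h⟩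
    · by_contra h
      refine hx2.2 ⟨x, ⟨hEP hx, ?_⟩, rfl⟩
      intro h'
      exact h ⟨x, h', rfl⟩
  refine ⟨(Pm ∪ Qm)ᶜ, hcof, ?_⟩
  intro g hgK hgF
  obtain ⟨p, hp, q, hq, p', hp', q', hq', rfl⟩ := H2 Pm Qm hint g hgK (fun x hx => hgF x hx)
  have := hWl [p, q, p', q'] (by simp) (by
    intro y hy
    simp only [List.mem_cons, List.not_mem_nil, or_false] at hy
    rcases hy with rfl | rfl | rfl | rfl
    · exact hP _ hp
    · exact hQ _ hq
    · exact hP _ hp'
    · exact hQ _ hq')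
  simpa [mul_assoc] using this

/-- `V` is a neighbourhood of `1` iff it contains some `Stab(F) ∩ N`. -/
def StdNhds (N : Subgroup (Perm α)) : Prop :=
  ∀ V : Set (Perm α), V ∈ 𝓝 (1 : Perm α) ↔ ∃ F : Finset α, ∀ h ∈ N, (∀ x ∈ F, h x = x) → h ∈ V

theorem stdNhds_of [Infinite α] [T2Space (Perm α)] (N : Subgroup (Perm α))
    (hN : (N : Set (Perm α)) ∈ 𝓝 (1 : Perm α))
    (h : ∀ V ∈ 𝓝 (1 : Perm α), ∃ F : Set α, F.Finite ∧ ∀ g ∈ N, (∀ x ∈ F, g x = x) → g ∈ V) :
    StdNhds N := by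
  intro V
  constructor
  · intro hV
    obtain ⟨F, hF, hFV⟩ := h V hV
    exact ⟨hF.toFinset, fun g hg hgF => hFV g hg (fun x hx => hgF x (by simpa using hx))⟩
  · rintro ⟨F, hF⟩
    refine mem_of_superset (inter_mem hN (finstab_mem_nhds (F : Set α) F.finite_toSet)) ?_
    rintro g ⟨h1, h2⟩
    exact hF g h1 (fun x hx => h2 x (by simpa using hx))

omit [TopologicalSpace (Perm α)] [IsTopologicalGroup (Perm α)] in
theorem alt_dichotomy [DecidableEq α] [Nontrivial α] (g : Perm α) (hg : g ∈ FSym α) :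
    g ∈ AltFin α ∨ ∀ a b, a ≠ b → swap a b * g ∈ AltFin α := by
  have hg' : g ∈ Subgroup.closure {σ : Perm α | σ.IsSwap} := by
    rw [mem_closure_isSwap']
    refine Set.Finite.subset hg ?_
    intro x hx
    simpa using hx
  have conj : ∀ (s x : Perm α), s * x ∈ AltFin α → x * s ∈ AltFin α := by
    intro s x h
    have := AltFin_normal.conj_mem _ h s⁻¹
    convert this using 1
    group
  clear hg
  induction hg' using Subgroup.closure_induction with
  | mem g hg =>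
    obtain ⟨c, d, hcd, rfl⟩ := hg
    right
    intro a b hab
    exact Subgroup.subset_closure ⟨a, b, c, d, hab, hcd, rfl⟩
  | one => left; exact one_mem _
  | mul g h _ _ ihg ihh =>
    rcases ihg with ihg | ihg <;> rcases ihh with ihh | ihh
    · left; exact mul_mem ihg ihh
    · right
      intro a b hab
      have h1 := AltFin_normal.conj_mem _ ihg (swap a b)
      have h2 := mul_mem h1 (ihh a b hab)
      convert h2 using 1
      group
    · right
      intro a b hab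
      have h2 := mul_mem (ihg a b hab) ihh
      rwa [mul_assoc] at h2
    · left
      obtain ⟨a, b, hab⟩ := exists_pair_ne α
      have h1 := conj _ _ (ihg a b hab)
      have h2 := mul_mem h1 (ihh a b hab)
      convert h2 using 1
      calc g * h = g * (swap a b * swap a b) * h := by rw [swap_mul_self, mul_one]
        _ = g * swap a b * (swap a b * h) := by group
  | inv g _ ih =>
    rcases ih with ih | ih
    · left; exact inv_mem ih
    · right
      intro a b hab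
      have h1 := inv_mem (conj _ _ (ih a b hab))
      rwa [mul_inv_rev, swap_inv] at h1

theorem trichotomy [DecidableEq α] [Countable α] [Infinite α] [T2Space (Perm α)]
    [FirstCountableTopology (Perm α)] :
    StdNhds (⊥ : Subgroup (Perm α)) ∨ StdNhds (AltFin α) ∨ StdNhds (FSym α) ∨
      StdNhds (⊤ : Subgroup (Perm α)) := by
  by_cases hB : ∀ V ∈ 𝓝 (1 : Perm α), ∃ g ∈ V, {x | g x ≠ x}.Infinite
  · right; right; right
    obtain ⟨C, hC, hC2⟩ := caseB_local hB
    have hloc := transfer (fun g : Perm α => {x | g x ≠ x}.Infinite) (by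
      intro f g hg
      refine (hg.image f.injective.injOn).mono ?_
      rintro _ ⟨x, hx, rfl⟩
      show (f * g * f⁻¹) (f x) ≠ f x
      rw [Perm.mul_apply, Perm.mul_apply, ias]
      exact fun h => hx (f.injective h)) C hC hC2
    have hbig := caseB_big hloc
    have := final (⊤ : Subgroup (Perm α)) inferInstance (fun V hV Θ hΘ => by
      obtain ⟨X, h1, h2, h3⟩ := hbig V hV Θ hΘ
      exact ⟨X, h1, h2, fun g _ hg => h3 g hg⟩) (fun P Q hPQ g _ hg => by
      simpa using factor_top P Q hPQ g hg)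
    exact stdNhds_of _ (by simp) this
  · push Not at hB
    obtain ⟨V0, hV0, hfin⟩ := hB
    have hfin : ∀ g ∈ V0, {x | g x ≠ x}.Finite := fun g hg => by
      have := hfin g hg
      simpa using this
    by_cases hA : ∀ V ∈ 𝓝 (1 : Perm α), ∃ g ∈ V, g ≠ 1
    · right
      obtain ⟨C, hC, hC2⟩ := caseA_local V0 hV0 hfin hA
      have hloc := transfer (fun g : Perm α => g ≠ 1 ∧ {x | g x ≠ x}.Finite) (by
        rintro f g ⟨hg1, hg2⟩
        refine ⟨fun h => hg1 ?_, ?_⟩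
        · rwa [conj_eq_one_iff] at h
        · refine (hg2.image f).subset ?_
          intro x hx
          refine ⟨f⁻¹ x, ?_, ais f x⟩
          intro h
          apply hx
          rw [Perm.mul_apply, Perm.mul_apply, h, ais]) C hC hC2
      have hbig := caseA_big (caseA_three hloc)
      have hfinal := final (AltFin α) inferInstance hbig (fun P Q hPQ g hgA hg =>
        factor_alt P Q hPQ g hgA hg)
      by_cases hN : (AltFin α : Set (Perm α)) ∈ 𝓝 (1 : Perm α)
      · left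
        exact stdNhds_of _ hN hfinal
      · right; left
        refine stdNhds_of _ (mem_of_superset hV0 hfin) ?_
        intro V hV
        obtain ⟨W, hW, hWi, hWl⟩ := exists_small 2 V hV
        obtain ⟨F, hF, hFW⟩ := hfinal W hW
        have hex : ∃ g ∈ V0 ∩ (W ∩ {g : Perm α | ∀ x ∈ F, g x = x}), g ∉ AltFin α := by
          by_contra h
          push Not at h
          exact hN (mem_of_superset (inter_mem hV0 (inter_mem hW (finstab_mem_nhds F hF))) h)
        obtain ⟨g, ⟨hg0, hgW, hgF⟩, hgA⟩ := hex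
        refine ⟨F, hF, ?_⟩
        intro h hh hhF
        by_cases hhA : h ∈ AltFin α
        · have := hWl [h] (by simp) (by simpa using hFW h hhA hhF)
          simpa using this
        · have hhg : h * g⁻¹ ∈ AltFin α := by
            obtain ⟨a, b, hab⟩ := exists_pair_ne α
            have h1 := ((alt_dichotomy h hh).resolve_left hhA) a b hab
            have h2 := ((alt_dichotomy g (hfin g hg0)).resolve_left hgA) a b hab
            have h3 := mul_mem h1 (inv_mem h2)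
            have h4 := AltFin_normal.conj_mem _ h3 (swap a b)⁻¹
            convert h4 using 1
            group
          have h5 : h * g⁻¹ ∈ W := by
            refine hFW _ hhg ?_
            intro x hx
            have : g⁻¹ x = x := by rw [Perm.inv_eq_iff_eq]; exact (hgF x hx).symm
            rw [Perm.mul_apply, this, hhF x hx]
          have := hWl [h * g⁻¹, g] (by simp) (by
            intro y hy
            simp only [List.mem_cons, List.not_mem_nil, or_false] at hy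
            rcases hy with rfl | rfl
            · exact h5
            · exact hgW)
          simpa using this
    · left
      push Not at hA
      obtain ⟨V, hV, hV1⟩ := hA
      have h1 : ({1} : Set (Perm α)) ∈ 𝓝 (1 : Perm α) := mem_of_superset hV hV1
      refine stdNhds_of _ (by simpa using h1) ?_
      intro V' hV'
      refine ⟨∅, finite_empty, ?_⟩
      intro g hg _
      rw [Subgroup.mem_bot] at hg
      rw [hg]
      exact mem_of_mem_nhds hV'

end Final

end Pool.Agent.H3.SymTop
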